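import Pool.Agent.Lib.P4f18dfF.M8g

/-! Centres near `A u^p`: definitions. -/

set_option autoImplicit false

namespace P4f18dfF
open Polynomial Finset

/-- the numerator of the derivative of `b / A` -/
noncomputable def WA {K : Type*} [Field K] (A b : K[X]) : K[X] :=
  A * derivative b - derivative A * b

/-- every `b` in the interval of length `q^h` around `r` has `WA A b` with large odd part -/
def GoodA {K : Type*} [Field K] (A : K[X]) (L h : ℕ) (r : K[X]) : Prop :=
  ∀ a : K[X], a.degree < h → WA A (r + a) ≠ 0 ∧ L ≤ oddeg (WA A (r + a))

end P4f18dfF
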