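import Pool.Agent.Lib.P4f18dfF.M6

/-! Sums of the Moebius function of K[X] over divisors and over all monic polynomials. -/

namespace P4f18dfF
open Polynomial Finset UniqueFactorizationMonoid

section
variable {K : Type*} [Field K]

open Classical in
lemma squarefree_prod (S : Finset K[X]) (hS : ∀ P ∈ S, Irreducible P ∧ P.Monic) :
    Squarefree (∏ P ∈ S, P) ∧ normalizedFactors (∏ P ∈ S, P) = S.val := by
  have h1 : normalizedFactors (∏ P ∈ S, P) = S.val := by
    rw [Finset.prod_eq_multiset_prod, Multiset.map_id']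
    have h2 := normalizedFactors_prod_eq S.val (fun P hP => (hS P hP).1)
    rw [h2]
    conv_rhs => rw [← Multiset.map_id S.val]
    refine Multiset.map_congr rfl fun P hP => ?_
    exact (hS P hP).2.normalize_eq_self
  refine ⟨?_, h1⟩
  rw [squarefree_iff_nodup_normalizedFactors, h1]
  · exact S.nodup
  · exact (monic_prod_of_monic _ _ fun P hP => (hS P hP).2).ne_zero

open Classical in
lemma card_factors_eq (F : K[X]) : Multiset.card (factors F) = Multiset.card (normalizedFactors F) := by
  rw [normalizedFactors, Multiset.card_map]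

lemma mu_prod (S : Finset K[X]) (hS : ∀ P ∈ S, Irreducible P ∧ P.Monic) :
    mu (∏ P ∈ S, P) = (-1) ^ S.card := by
  classical
  rw [mu, if_pos (squarefree_prod S hS).1, card_factors_eq, (squarefree_prod S hS).2, card_def]

lemma prod_of_squarefree {g : K[X]} (hg : g.Monic) (hs : Squarefree g) :
    ∏ P ∈ (open Classical in (normalizedFactors g).toFinset), P = g := by
  classical
  have hnd := (squarefree_iff_nodup_normalizedFactors hg.ne_zero).1 hs
  rw [Finset.prod_eq_multiset_prod, Multiset.map_id', Multiset.toFinset_val,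
    Multiset.dedup_eq_self.2 hnd, prod_normalizedFactors_eq hg.ne_zero, hg.normalize_eq_self]

/-- the basic identity of Moebius inversion -/
lemma sum_mu (G T : Finset K[X]) (hT : ∀ P ∈ T, Irreducible P ∧ P.Monic)
    (hG : ∀ g ∈ G, Squarefree g → g.Monic ∧ ∀ P, Irreducible P → P.Monic → P ∣ g → P ∈ T)
    (hTG : ∀ S ⊆ T, ∏ P ∈ S, P ∈ G) :
    (T = ∅ → ∑ g ∈ G, mu g = 1) ∧ (T ≠ ∅ → ∑ g ∈ G, mu g = 0) := by
  classical
  have h1 : ∑ g ∈ G, mu g = ∑ g ∈ G.filter Squarefree, mu g := by
    rw [Finset.sum_filter]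
    refine Finset.sum_congr rfl fun g _ => ?_
    split_ifs with h
    · rfl
    · rw [mu, if_neg h]
  have h2 : ∑ g ∈ G.filter Squarefree, mu g = ∑ S ∈ T.powerset, (-1 : ℤ) ^ S.card := by
    refine Finset.sum_bij' (fun g _ => (normalizedFactors g).toFinset) (fun S _ => ∏ P ∈ S, P)
      ?_ ?_ ?_ ?_ ?_
    · intro g hg
      rw [mem_filter] at hg
      obtain ⟨hm, hp⟩ := hG g hg.1 hg.2
      rw [mem_powerset]
      intro P hP
      rw [Multiset.mem_toFinset, Polynomial.mem_normalizedFactors_iff hm.ne_zero] at hP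
      exact hp P hP.1 hP.2.1 hP.2.2
    · intro S hS
      rw [mem_powerset] at hS
      exact mem_filter.2 ⟨hTG S hS, (squarefree_prod S fun P hP => hT P (hS hP)).1⟩
    · intro g hg
      rw [mem_filter] at hg
      obtain ⟨hm, hp⟩ := hG g hg.1 hg.2
      exact prod_of_squarefree hm hg.2
    · intro S hS
      rw [mem_powerset] at hS
      have := (squarefree_prod S fun P hP => hT P (hS hP)).2
      rw [this]
      exact Finset.val_toFinset S
    · intro g hg
      rw [mem_filter] at hg
      obtain ⟨hm, hp⟩ := hG g hg.1 hg.2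
      have h3 := prod_of_squarefree hm hg.2
      conv_lhs => rw [← h3]
      refine mu_prod _ ?_
      intro P hP
      rw [Multiset.mem_toFinset, Polynomial.mem_normalizedFactors_iff hm.ne_zero] at hP
      exact ⟨hP.1, hP.2.1⟩
  rw [h1, h2, Finset.sum_powerset_neg_one_pow_card]
  exact ⟨fun h => by rw [if_pos h], fun h => by rw [if_neg h]⟩

end

section
variable {K : Type*} [Field K] [Fintype K]

/-- monic polynomials of degree n -/
noncomputable def Mon (K : Type*) [Field K] [Fintype K] (n : ℕ) : Finset K[X] :=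
  (PL K n).map (addLeftEmbedding (X ^ n))

lemma mem_Mon {n : ℕ} {f : K[X]} : f ∈ Mon K n ↔ f.Monic ∧ f.natDegree = n := by
  rw [Mon, mem_map]
  constructor
  · rintro ⟨g, hg, rfl⟩
    rw [mem_PL] at hg
    rw [addLeftEmbedding_apply]
    refine ⟨monic_X_pow_add hg, ?_⟩
    rw [natDegree_add_eq_left_of_degree_lt, natDegree_X_pow]
    rwa [degree_X_pow]
  · rintro ⟨hf, hn⟩
    refine ⟨f - X ^ n, ?_, by rw [addLeftEmbedding_apply]; ring⟩
    rw [mem_PL]
    have hd : f.degree = (X ^ n : K[X]).degree := by
      rw [degree_X_pow, degree_eq_natDegree hf.ne_zero, hn]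
    have := degree_sub_lt_left hd hf.ne_zero (by rw [hf.leadingCoeff, (monic_X_pow n).leadingCoeff])
    rwa [hd, degree_X_pow] at this

lemma card_Mon (n : ℕ) : (Mon K n).card = Fintype.card K ^ n := by
  rw [Mon, card_map, card_PL]

lemma card_multiples {d : K[X]} (hd : d.Monic) (n : ℕ) [DecidablePred (fun g : K[X] => d ∣ g)] :
    ((Mon K n).filter (fun g => d ∣ g)).card =
      if d.natDegree ≤ n then Fintype.card K ^ (n - d.natDegree) else 0 := by
  split_ifs with h
  · rw [← card_Mon]
    refine Finset.card_bij' (fun g _ => g /ₘ d) (fun c _ => d * c) ?_ ?_ ?_ ?_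
    · intro g hg
      rw [mem_filter, mem_Mon] at hg
      obtain ⟨⟨hm, hn⟩, c, rfl⟩ := hg
      have hc : c.Monic := hd.of_mul_monic_left hm
      simp only [mul_divByMonic_cancel_left c hd]
      rw [mem_Mon]
      refine ⟨hc, ?_⟩
      rw [hd.natDegree_mul hc] at hn
      omega
    · intro c hc
      rw [mem_Mon] at hc
      rw [mem_filter, mem_Mon]
      exact ⟨⟨hd.mul hc.1, by rw [hd.natDegree_mul hc.1, hc.2]; omega⟩, dvd_mul_right _ _⟩
    · intro g hg
      rw [mem_filter, mem_Mon] at hg
      obtain ⟨⟨hm, hn⟩, c, rfl⟩ := hg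
      simp only [mul_divByMonic_cancel_left c hd]
    · intro c hc
      simp only [mul_divByMonic_cancel_left c hd]
  · rw [Finset.card_eq_zero, Finset.filter_eq_empty_iff]
    intro g hg hdv
    rw [mem_Mon] at hg
    have := natDegree_le_of_dvd hdv hg.1.ne_zero
    omega

/-- sum of mu over the monic polynomials of degree n -/
noncomputable def mm (K : Type*) [Field K] [Fintype K] (n : ℕ) : ℤ := ∑ g ∈ Mon K n, mu g

lemma sum_mm (n : ℕ) : ∑ j ∈ range (n + 1), mm K j * (Fintype.card K : ℤ) ^ (n - j) =
    if n = 0 then 1 else 0 := by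
  classical
  have h1 : ∀ g ∈ Mon K n, ∑ d ∈ ((range (n + 1)).biUnion (Mon K)).filter (fun d => d ∣ g), mu d =
      if n = 0 then 1 else 0 := by
    intro g hg
    rw [mem_Mon] at hg
    have h2 := sum_mu (((range (n + 1)).biUnion (Mon K)).filter (fun d => d ∣ g))
      ((normalizedFactors g).toFinset)
      (by
        intro P hP
        rw [Multiset.mem_toFinset, Polynomial.mem_normalizedFactors_iff hg.1.ne_zero] at hP
        exact ⟨hP.1, hP.2.1⟩)
      (by
        intro d hd _
        rw [mem_filter, mem_biUnion] at hd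
        obtain ⟨⟨j, _, hj⟩, hdg⟩ := hd
        refine ⟨(mem_Mon.1 hj).1, fun P hP hPm hPd => ?_⟩
        rw [Multiset.mem_toFinset, Polynomial.mem_normalizedFactors_iff hg.1.ne_zero]
        exact ⟨hP, hPm, hPd.trans hdg⟩)
      (by
        intro S hS
        have hSd : ∏ P ∈ S, P ∣ g := by
          have h3 : (∏ P ∈ (normalizedFactors g).toFinset, P) ∣ g := by
            rw [Finset.prod_eq_multiset_prod, Multiset.map_id', Multiset.toFinset_val]
            have := prod_normalizedFactors_eq hg.1.ne_zero
            rw [hg.1.normalize_eq_self] at this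
            conv_rhs => rw [← this]
            exact Multiset.prod_dvd_prod_of_le (Multiset.dedup_le _)
          exact (Finset.prod_dvd_prod_of_subset _ _ _ hS).trans h3
        have hSm : (∏ P ∈ S, P).Monic := by
          refine monic_prod_of_monic _ _ fun P hP => ?_
          have := hS hP
          rw [Multiset.mem_toFinset, Polynomial.mem_normalizedFactors_iff hg.1.ne_zero] at this
          exact this.2.1
        rw [mem_filter, mem_biUnion]
        refine ⟨⟨_, ?_, mem_Mon.2 ⟨hSm, rfl⟩⟩, hSd⟩
        rw [mem_range]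
        have := natDegree_le_of_dvd hSd hg.1.ne_zero
        omega)
    have h4 : (normalizedFactors g).toFinset = ∅ ↔ n = 0 := by
      rw [Multiset.toFinset_eq_empty, normalizedFactors_eq_zero_iff hg.1.ne_zero]
      constructor
      · intro hu
        rw [← hg.2]
        exact natDegree_eq_zero_of_isUnit hu
      · intro h
        rw [h] at hg
        have := (Monic.natDegree_eq_zero hg.1).1 hg.2
        rw [this]; exact isUnit_one
    by_cases hn : n = 0
    · rw [if_pos hn, h2.1 (h4.2 hn)]
    · rw [if_neg hn, h2.2 (fun h => hn (h4.1 h))]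
  have h5 : ∑ g ∈ Mon K n, ∑ d ∈ ((range (n + 1)).biUnion (Mon K)).filter (fun d => d ∣ g), mu d =
      (if n = 0 then 1 else 0) * (Fintype.card K : ℤ) ^ n := by
    rw [Finset.sum_congr rfl h1, Finset.sum_const, card_Mon]
    simp [mul_comm]
  have h6 : ∑ g ∈ Mon K n, ∑ d ∈ ((range (n + 1)).biUnion (Mon K)).filter (fun d => d ∣ g), mu d =
      ∑ j ∈ range (n + 1), mm K j * (Fintype.card K : ℤ) ^ (n - j) := by
    have hdisj : Set.PairwiseDisjoint (range (n + 1) : Set ℕ) (Mon K) := by
      intro i _ j _ hij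
      rw [Function.onFun, Finset.disjoint_left]
      intro g hi hj
      exact hij ((mem_Mon.1 hi).2.symm.trans (mem_Mon.1 hj).2)
    have h7 : ∀ g ∈ Mon K n, ∑ d ∈ ((range (n + 1)).biUnion (Mon K)).filter (fun d => d ∣ g), mu d =
        ∑ j ∈ range (n + 1), ∑ d ∈ Mon K j, if d ∣ g then mu d else 0 := by
      intro g _
      rw [Finset.sum_filter, Finset.sum_biUnion hdisj]
    rw [Finset.sum_congr rfl h7, Finset.sum_comm]
    refine Finset.sum_congr rfl fun j hj => ?_
    rw [Finset.sum_comm, mm, Finset.sum_mul]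
    refine Finset.sum_congr rfl fun d hd => ?_
    rw [mem_Mon] at hd
    rw [← Finset.sum_filter, Finset.sum_const, card_multiples hd.1, if_pos (by
      rw [mem_range] at hj; omega), hd.2]
    simp [mul_comm]
  rw [← h6, h5]
  by_cases hn : n = 0
  · simp [hn]
  · simp [hn]

lemma mm_zero : mm K 0 = 1 := by
  have := sum_mm (K := K) 0
  simpa using this

lemma mm_one : mm K 1 = -(Fintype.card K : ℤ) := by
  have := sum_mm (K := K) 1
  rw [Finset.sum_range_succ, Finset.sum_range_one, mm_zero] at this
  simp at this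
  linarith

lemma mm_of_two_le {n : ℕ} (hn : 2 ≤ n) : mm K n = 0 := by
  obtain ⟨k, rfl⟩ := Nat.exists_eq_add_of_le' hn
  have h1 := sum_mm (K := K) (k + 2)
  have h2 := sum_mm (K := K) (k + 1)
  rw [if_neg (by omega)] at h1 h2
  rw [Finset.sum_range_succ] at h1
  have h3 : ∑ j ∈ range (k + 2), mm K j * (Fintype.card K : ℤ) ^ (k + 2 - j) =
      (∑ j ∈ range (k + 1 + 1), mm K j * (Fintype.card K : ℤ) ^ (k + 1 - j)) * Fintype.card K := by
    rw [Finset.sum_mul]
    refine Finset.sum_congr rfl fun j hj => ?_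
    rw [mem_range] at hj
    rw [mul_assoc, ← pow_succ]
    congr 2
    omega
  rw [h3, h2] at h1
  simpa using h1

end
end P4f18dfF
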