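import Pool.Agent.Lib.P4f18dfF.A0
import Pool.Agent.Lib.P4f18dfF.Mob

/-! Centres near `A u^p`: the Moebius function is a Jacobi symbol. -/

set_option autoImplicit false

namespace P4f18dfF
open Polynomial Finset UniqueFactorizationMonoid

section mul
variable {K : Type*} [Field K] [Fintype K] [DecidableEq K]

/-- the Moebius function of a product -/
lemma mu_mul {G F : K[X]} (hG : G.Monic) (hF : F ≠ 0) :
    mu (G * F) = mu G * J (G ^ 2) F * mu F := by
  rw [J_pow hG]
  by_cases hc : IsCoprime G F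
  · have h1 : J G F ^ 2 = 1 := by
      rcases J_cases G F with h | h | h
      · exact absurd hc ((J_eq_zero_iff hG).1 h)
      · rw [h]; norm_num
      · rw [h]; norm_num
    rw [h1, mul_one]
    have hsq : Squarefree (G * F) ↔ Squarefree G ∧ Squarefree F := by
      rw [squarefree_mul_iff]
      exact ⟨fun h => h.2, fun h => ⟨hc.isRelPrime, h⟩⟩
    have hcard : Multiset.card (factors (G * F)) =
        Multiset.card (factors G) + Multiset.card (factors F) := by
      rw [Multiset.card_eq_card_of_rel (factors_mul hG.ne_zero hF), Multiset.card_add]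
    unfold mu
    by_cases h1 : Squarefree G
    · by_cases h2 : Squarefree F
      · rw [if_pos (hsq.2 ⟨h1, h2⟩), if_pos h1, if_pos h2, hcard, pow_add]
      · rw [if_neg (fun h => h2 (hsq.1 h).2), if_neg h2, mul_zero]
    · rw [if_neg (fun h => h1 (hsq.1 h).1), if_neg h1, zero_mul]
  · have h1 : J G F = 0 := (J_eq_zero_iff hG).2 hc
    have h2 : ¬ Squarefree (G * F) := by
      intro h
      rw [squarefree_mul_iff] at h
      exact hc h.1.isCoprime
    rw [h1]
    unfold mu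
    rw [if_neg h2]
    simp

end mul

section W
variable {K : Type*} [Field K]

lemma WA_mul (g A b : K[X]) : WA (g * A) (g * b) = g ^ 2 * WA A b := by
  unfold WA
  rw [derivative_mul, derivative_mul]
  ring

/-- removing the greatest common divisor -/
lemma exists_red {A : K[X]} (hA : A.Monic) (b : K[X]) : ∃ g A1 b1 : K[X], g.Monic ∧ A1.Monic ∧
    A = g * A1 ∧ b = g * b1 ∧ IsCoprime A1 b1 := by
  classical
  obtain ⟨g, A', b', hA', hb', hcop⟩ : ∃ g A' b' : K[X], A = g * A' ∧ b = g * b' ∧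
      IsCoprime A' b' := by
    refine ⟨EuclideanDomain.gcd A b, A / EuclideanDomain.gcd A b, b / EuclideanDomain.gcd A b,
      ?_, ?_, ?_⟩
    · exact (EuclideanDomain.mul_div_cancel' (fun h => hA.ne_zero
        (EuclideanDomain.gcd_eq_zero_iff.1 h).1) (EuclideanDomain.gcd_dvd_left A b)).symm
    · exact (EuclideanDomain.mul_div_cancel' (fun h => hA.ne_zero
        (EuclideanDomain.gcd_eq_zero_iff.1 h).1) (EuclideanDomain.gcd_dvd_right A b)).symm
    · have hg : EuclideanDomain.gcd A b ≠ 0 := fun h => hA.ne_zero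
        (EuclideanDomain.gcd_eq_zero_iff.1 h).1
      have h1 := EuclideanDomain.gcd_eq_gcd_ab A b
      refine ⟨EuclideanDomain.gcdA A b, EuclideanDomain.gcdB A b, ?_⟩
      apply mul_left_cancel₀ hg
      have e1 := EuclideanDomain.mul_div_cancel' hg (EuclideanDomain.gcd_dvd_left A b)
      have e2 := EuclideanDomain.mul_div_cancel' hg (EuclideanDomain.gcd_dvd_right A b)
      calc EuclideanDomain.gcd A b * (EuclideanDomain.gcdA A b * (A / EuclideanDomain.gcd A b) +
            EuclideanDomain.gcdB A b * (b / EuclideanDomain.gcd A b)) =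
          (EuclideanDomain.gcd A b * (A / EuclideanDomain.gcd A b)) * EuclideanDomain.gcdA A b +
            (EuclideanDomain.gcd A b * (b / EuclideanDomain.gcd A b)) *
              EuclideanDomain.gcdB A b := by ring
        _ = EuclideanDomain.gcd A b := by rw [e1, e2]; exact h1.symm
        _ = _ := (mul_one _).symm
  have hg : g ≠ 0 := by
    rintro rfl
    exact hA.ne_zero (by rw [hA', zero_mul])
  set u := g.leadingCoeff with hu
  have hu0 : u ≠ 0 := leadingCoeff_ne_zero.2 hg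
  have hCu : (C u⁻¹ : K[X]) * C u = 1 := by rw [← C_mul, inv_mul_cancel₀ hu0, C_1]
  have hgm : (C u⁻¹ * g).Monic := by
    rw [mul_comm]; exact monic_mul_leadingCoeff_inv hg
  have eA : A = (C u⁻¹ * g) * (C u * A') := by
    rw [hA']
    linear_combination (-(g * A')) * hCu
  refine ⟨C u⁻¹ * g, C u * A', C u * b', hgm, hgm.of_mul_monic_left (eA ▸ hA), eA, ?_, ?_⟩
  · rw [hb']
    linear_combination (-(g * b')) * hCu
  · have huC : IsUnit (C u : K[X]) := isUnit_C.2 hu0.isUnit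
    exact (isCoprime_mul_unit_left huC A' b').2 hcop

end W

section pellet
variable {K : Type*} [Field K] [Fintype K] [DecidableEq K]

omit [Fintype K] [DecidableEq K] in
lemma mo_sq_mul {g W : K[X]} (hg : g.Monic) : mo (g ^ 2 * W) = g ^ 2 * mo W := by
  unfold mo
  rw [leadingCoeff_mul, (hg.pow 2).leadingCoeff, one_mul]
  ring

lemma chi_cases {x : K} (hx : x ≠ 0) : quadraticChar K x = 1 ∨ quadraticChar K x = -1 :=
  quadraticChar_dichotomy hx

/-- Pellet's formula near `A u^p`, coprime case -/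
theorem mu_centerA (p : ℕ) [Fact p.Prime] [CharP K p] (hK : ringChar K ≠ 2) {A b : K[X]}
    (hA : A.Monic) (hcop : IsCoprime A b) (hW : WA A b ≠ 0) (n : ℕ) :
    ∃ ε : ℤ, (ε = 1 ∨ ε = -1) ∧ ∀ y : K[X], (A * y ^ p + b).Monic →
      (A * y ^ p + b).natDegree = n →
      mu (A * y ^ p + b) = ε * J (mo (WA A b)) (A * y ^ p + b) := by
  set W := WA A b with hWdef
  set x1 : K := (-1) ^ (n * (n - 1) / 2) with hx1
  set x2 : K := (-1) ^ (n * A.natDegree) * R A b with hx2
  set x3 : K := W.leadingCoeff ^ n * (-1) ^ (n * W.natDegree) with hx3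
  have h10 : x1 ≠ 0 := pow_ne_zero _ (neg_ne_zero.2 one_ne_zero)
  have hRAb : R A b ≠ 0 := fun h => ((R_eq_zero_iff hA).1 h) hcop
  have h20 : x2 ≠ 0 := mul_ne_zero (pow_ne_zero _ (neg_ne_zero.2 one_ne_zero)) hRAb
  have h30 : x3 ≠ 0 := mul_ne_zero (pow_ne_zero _ (leadingCoeff_ne_zero.2 hW))
    (pow_ne_zero _ (neg_ne_zero.2 one_ne_zero))
  refine ⟨(-1) ^ n * quadraticChar K (x1 * x2 * x3), ?_, ?_⟩
  · rcases chi_cases (mul_ne_zero (mul_ne_zero h10 h20) h30) with h | h <;>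
      rcases neg_one_pow_eq_or ℤ n with h' | h' <;> rw [h, h'] <;> simp
  · intro y hF hn
    set F := A * y ^ p + b with hFdef
    have hF' : A * derivative F = derivative A * F + W := by
      rw [hFdef, hWdef, WA, derivative_add, derivative_mul, derivative_pow, CharP.cast_eq_zero]
      simp
      ring
    have e1 : R F (A * derivative F) = R F W := by
      apply R_congr hF
      refine ⟨derivative A, ?_⟩
      rw [hF']; ring
    have e2 : R F A * R F (derivative F) = R F W := by rw [← R_mul_right hF, e1]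
    have e3 : R F A = x2 := by
      rw [R_comm, hx2, hn]
      congr 1
      apply R_congr hA
      exact ⟨y ^ p, by rw [hFdef]; ring⟩
    have e4 : R F W = x3 * R (mo W) F := by
      conv_lhs => rw [← C_mul_mo hW, R_C_mul hF, R_comm, natDegree_mo hW, hn]
      rw [hx3]; ring
    have e5 : quadraticChar K x2 * quadraticChar K x2 = 1 := by
      rcases chi_cases h20 with h | h <;> rw [h] <;> norm_num
    have e6 : quadraticChar K (R F (derivative F)) =
        quadraticChar K x2 * quadraticChar K x3 * quadraticChar K (R (mo W) F) := by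
      have h1 : quadraticChar K x2 * quadraticChar K (R F (derivative F)) =
          quadraticChar K x3 * quadraticChar K (R (mo W) F) := by
        rw [← map_mul, ← map_mul, ← e3, e2, e4]
      calc quadraticChar K (R F (derivative F)) =
          quadraticChar K x2 * quadraticChar K x2 * quadraticChar K (R F (derivative F)) := by
            rw [e5, one_mul]
        _ = quadraticChar K x2 * (quadraticChar K x2 * quadraticChar K (R F (derivative F))) := by
            ring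
        _ = _ := by rw [h1]; ring
    have e7 : quadraticChar K (x1 * x2 * x3) =
        quadraticChar K x1 * quadraticChar K x2 * quadraticChar K x3 := by rw [map_mul, map_mul]
    have e8 : quadraticChar K (x1 * R F (derivative F)) =
        quadraticChar K x1 * quadraticChar K (R F (derivative F)) := map_mul _ _ _
    rw [mu_eq_Dl hK hF, Dl, hn, ← hx1, e8, e6, e7, J]
    ring

/-- Pellet's formula near `A u^p` -/
theorem mu_genA (p : ℕ) [Fact p.Prime] [CharP K p] (hK : ringChar K ≠ 2) {m : ℕ} {A w b : K[X]}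
    (hA : A.Monic) (hw : w.Monic) (hwm : m ≤ w.natDegree)
    (hb : b.degree < ((A.natDegree + p * w.natDegree : ℕ) : WithBot ℕ)) (hW : WA A b ≠ 0) :
    ∃ (ε : ℤ) (g A1 b1 : K[X]), |(ε : ℝ)| ≤ 1 ∧ g.Monic ∧ A1.Monic ∧ A = g * A1 ∧ b = g * b1 ∧
      ∀ v ∈ PL K m, mu (A * (w + v) ^ p + b) = ε * J (mo (WA A b)) (A1 * (w + v) ^ p + b1) := by
  obtain ⟨g, A1, b1, hg, hA1, eA, eb, hcop⟩ := exists_red hA b
  have hWg : WA A b = g ^ 2 * WA A1 b1 := by rw [eA, eb, WA_mul]
  have hW1 : WA A1 b1 ≠ 0 := by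
    intro h; apply hW; rw [hWg, h, mul_zero]
  set n : ℕ := A.natDegree + p * w.natDegree - g.natDegree with hn
  obtain ⟨ε, hε, hmu⟩ := mu_centerA p hK hA1 hcop hW1 n
  refine ⟨mu g * ε, g, A1, b1, ?_, hg, hA1, eA, eb, ?_⟩
  · push_cast
    rw [abs_mul]
    have h1 : |(ε : ℝ)| = 1 := by rcases hε with rfl | rfl <;> simp
    have h2 : |(mu g : ℝ)| ≤ 1 := by
      unfold mu
      split_ifs
      · push_cast
        rw [abs_pow, abs_neg, abs_one, one_pow]
      · simp
    rw [h1, mul_one]; exact h2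
  · intro v hv
    have hv' : v.degree < w.degree := by
      rw [degree_eq_natDegree hw.ne_zero]
      exact (mem_PL.1 hv).trans_le (by exact_mod_cast hwm)
    have h1 : (w + v).Monic := hw.add_of_left hv'
    have h2 : (w + v).natDegree = w.natDegree := natDegree_add_eq_left_of_degree_lt hv'
    have h3 : (A * (w + v) ^ p).Monic := hA.mul (h1.pow p)
    have h3n : (A * (w + v) ^ p).natDegree = A.natDegree + p * w.natDegree := by
      rw [hA.natDegree_mul (h1.pow p), h1.natDegree_pow, h2]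
    have h4 : b.degree < (A * (w + v) ^ p).degree := by
      rw [degree_eq_natDegree h3.ne_zero, h3n]; exact hb
    have h5 : (A * (w + v) ^ p + b).Monic := h3.add_of_left h4
    have h6 : (A * (w + v) ^ p + b).natDegree = A.natDegree + p * w.natDegree := by
      rw [natDegree_add_eq_left_of_degree_lt h4, h3n]
    have h7 : A * (w + v) ^ p + b = g * (A1 * (w + v) ^ p + b1) := by
      rw [eA, eb]; ring
    have h8 : (A1 * (w + v) ^ p + b1).Monic := hg.of_mul_monic_left (h7 ▸ h5)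
    have h9 : (A1 * (w + v) ^ p + b1).natDegree = n := by
      have := hg.natDegree_mul h8
      rw [← h7, h6] at this
      omega
    rw [h7, mu_mul hg h8.ne_zero, hmu _ h8 h9, hWg, mo_sq_mul hg,
      J_mul_left (hg.pow 2) (mo_monic hW1)]
    ring

end pellet

section sums
variable {K : Type*} [Field K] [Fintype K] [DecidableEq K]
variable (p : ℕ) [Fact p.Prime] [CharP K p]

omit [Fact p.Prime] [CharP K p] in
lemma J_periodicA {G N : K[X]} (hG : G.Monic) (A b w v t : K[X]) :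
    J G (A * (w + (v + N * G * t)) ^ p + b) = J G (A * (w + v) ^ p + b) := by
  apply J_congr hG
  have h1 : (w + (v + N * G * t)) - (w + v) ∣ (w + (v + N * G * t)) ^ p - (w + v) ^ p :=
    sub_dvd_pow_sub_pow _ _ _
  have h2 : G ∣ (w + (v + N * G * t)) - (w + v) := ⟨N * t, by ring⟩
  have h3 := h2.trans h1
  rw [show A * (w + (v + N * G * t)) ^ p + b - (A * (w + v) ^ p + b) =
    A * ((w + (v + N * G * t)) ^ p - (w + v) ^ p) by ring]
  exact h3.mul_left _

omit [Fact p.Prime] [CharP K p] in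
lemma J_shiftA {B A b bs : K[X]} (hB : B.Monic) (h : B ∣ A * bs - b) (y : K[X]) :
    J B (A * y ^ p + b) = J B A * J B (y ^ p + bs) := by
  rw [← J_mul_right hB]
  apply J_congr hB
  rw [show A * y ^ p + b - A * (y ^ p + bs) = -(A * bs - b) by ring]
  exact (dvd_neg).2 h

omit [Fintype K] [DecidableEq K] in
/-- division modulo `B` -/
lemma exists_quot {B A : K[X]} (h : IsCoprime A B) (b : K[X]) : ∃ bs : K[X], B ∣ A * bs - b := by
  obtain ⟨x, y, hxy⟩ := h
  refine ⟨x * b, -y * b, ?_⟩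
  linear_combination b * hxy

omit [DecidableEq K] in
/-- roots of order `p` modulo a squarefree polynomial -/
lemma exists_root_mod {B : K[X]} (hB : B.Monic) (hsq : Squarefree B) (f : K[X]) :
    ∃ δ : K[X], B ∣ δ ^ p - f := by
  classical
  set φ : K[X] → K[X] := fun x => (x ^ p) %ₘ B with hφ
  have hdeg : ∀ x : K[X], x %ₘ B ∈ PL K B.natDegree := by
    intro x
    rw [mem_PL, ← degree_eq_natDegree hB.ne_zero]
    exact degree_modByMonic_lt _ hB
  have hmaps : ∀ x ∈ PL K B.natDegree, φ x ∈ PL K B.natDegree := fun x _ => hdeg _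
  have hdiv : ∀ x y : K[X], x %ₘ B = y %ₘ B → B ∣ x - y := by
    intro x y hxy
    rw [← modByMonic_eq_zero_iff_dvd hB, sub_modByMonic, hxy, sub_self]
  have hinj : ∀ x ∈ PL K B.natDegree, ∀ y ∈ PL K B.natDegree, φ x = φ y → x = y := by
    intro x hx y hy hxy
    have h1 : B ∣ (x - y) ^ p := by
      rw [sub_pow_char]
      exact hdiv _ _ hxy
    have h2 : B ∣ x - y := (hsq.isRadical) p _ h1
    by_contra hne
    have h3 : x - y ∈ PL K B.natDegree := by
      rw [sub_eq_add_neg]; exact add_mem_PL hx (neg_mem_PL hy)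
    have h4 := degree_le_of_dvd h2 (sub_ne_zero.2 hne)
    rw [mem_PL, ← degree_eq_natDegree hB.ne_zero] at h3
    exact absurd h3 (not_lt.2 h4)
  have himg : (PL K B.natDegree).image φ = PL K B.natDegree := by
    apply Finset.eq_of_subset_of_card_le
    · exact Finset.image_subset_iff.2 hmaps
    · rw [Finset.card_image_of_injOn (fun x hx y hy => hinj x hx y hy)]
  have h1 : f %ₘ B ∈ (PL K B.natDegree).image φ := by rw [himg]; exact hdeg f
  obtain ⟨δ, -, hδ⟩ := Finset.mem_image.1 h1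
  exact ⟨δ, hdiv _ _ hδ⟩

/-- periodic surrogate, strong form -/
theorem exists_surA' (hK : ringChar K ≠ 2) {m : ℕ} {A w b : K[X]} (hA : A.Monic) (hw : w.Monic)
    (hwm : m ≤ w.natDegree)
    (hb : b.degree < ((A.natDegree + p * w.natDegree : ℕ) : WithBot ℕ)) (hW : WA A b ≠ 0) :
    ∃ g : K[X] → ℝ, (∀ v ∈ PL K m, (mu (A * (w + v) ^ p + b) : ℝ) = g v) ∧
      Per (WA A b) g ∧ ∀ v, |g v| ≤ 1 := by
  obtain ⟨ε, g, A1, b1, hε, hg, hA1, eA, eb, hmu⟩ := mu_genA p hK hA hw hwm hb hW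
  refine ⟨fun v => (ε : ℝ) * (J (mo (WA A b)) (A1 * (w + v) ^ p + b1) : ℝ), ?_, ?_, ?_⟩
  · intro v hv
    rw [hmu v hv]; push_cast; ring
  · intro v t
    have h1 := J_periodicA p (mo_monic hW) (N := 1) A1 b1 w v (C (WA A b).leadingCoeff * t)
    rw [show (1 : K[X]) * mo (WA A b) * (C (WA A b).leadingCoeff * t) =
      (C (WA A b).leadingCoeff * mo (WA A b)) * t by ring, C_mul_mo hW] at h1
    simp only [h1]
  · intro v
    rw [abs_mul]
    exact mul_le_one₀ hε (abs_nonneg _) (abs_J_le _ _)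

/-- (helper7) periodic surrogate -/
theorem exists_surA (hK : ringChar K ≠ 2) {m : ℕ} {A w b : K[X]} (hA : A.Monic) (hw : w.Monic)
    (hwm : m ≤ w.natDegree)
    (hb : b.degree < ((A.natDegree + p * w.natDegree : ℕ) : WithBot ℕ)) (hW : WA A b ≠ 0) :
    ∃ g : K[X] → ℝ, (∀ v ∈ PL K m, (mu (A * (w + v) ^ p + b) : ℝ) = g v) ∧
      Per (WA A b * A) g ∧ ∀ v, |g v| ≤ 1 := by
  obtain ⟨g, h1, h2, h3⟩ := exists_surA' p hK hA hw hwm hb hW
  exact ⟨g, h1, h2.of_dvd (dvd_mul_right _ _), h3⟩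

/-- a prime of odd multiplicity, strong form -/
theorem L1A' (hK : ringChar K ≠ 2) {m : ℕ} {A w b : K[X]} (hA : A.Monic) (hw : w.Monic)
    (hwm : m ≤ w.natDegree)
    (hb : b.degree < ((A.natDegree + p * w.natDegree : ℕ) : WithBot ℕ)) (hW : WA A b ≠ 0)
    {P N : K[X]} (hP : P ∈ oddp (WA A b)) (hPA : ¬ P ∣ A) (hN : ¬ P ∣ N)
    (hm : N.natDegree + (WA A b).natDegree ≤ m) (Θ : K[X] → ℝ)
    (hΘ : ∀ v t, Θ (v + N * t) = Θ v) :
    ∑ v ∈ PL K m, (mu (A * (w + v) ^ p + b) : ℝ) * Θ v = 0 := by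
  obtain ⟨ε, g, A1, b1, hε, hg, hA1, eA, eb, hmu⟩ := mu_genA p hK hA hw hwm hb hW
  obtain ⟨hirr, hPm, hodd⟩ := (mem_oddp hW).1 hP
  obtain ⟨R', hR', hnd, hdv, hJ, hdeg⟩ := J_split {P} (by simpa using ⟨hirr, hPm⟩) (mo (WA A b))
    (mo_monic hW) (by simpa using hodd.mo hW)
  simp only [prod_singleton] at hJ hdeg
  have hPR : ¬ P ∣ R' := hnd P (by simp)
  have hPNR : ¬ P ∣ N * R' := by
    rw [hirr.prime.dvd_mul]; exact not_or.2 ⟨hN, hPR⟩
  rw [natDegree_mo hW] at hdeg
  have hPA1 : ¬ P ∣ A1 := fun h => hPA (eA ▸ h.mul_left g)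
  obtain ⟨bs, hbs⟩ := exists_quot ((hirr.coprime_iff_not_dvd.2 hPA1).symm) b1
  have h1 := sum_single_eq_zero p hK hPm hirr hPNR (m := m)
    (by have := natDegree_mul_le (p := N) (q := R'); omega)
    (fun v => (ε : ℝ) * (J R' (A1 * (w + v) ^ p + b1) : ℝ) * (J P A1 : ℝ) * Θ v)
    (by
      intro v t
      rw [J_periodicA p hR', show N * R' * t = N * (R' * t) by ring, hΘ]) w bs
  rw [← h1]
  refine Finset.sum_congr rfl fun v hv => ?_
  rw [hmu v hv, hJ, J_shiftA p hPm hbs, add_comm v w]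
  push_cast
  ring

/-- (helper7) a prime of odd multiplicity -/
theorem L1A (hK : ringChar K ≠ 2) {m : ℕ} {A w b : K[X]} (hA : A.Monic) (hw : w.Monic)
    (hwm : m ≤ w.natDegree)
    (hb : b.degree < ((A.natDegree + p * w.natDegree : ℕ) : WithBot ℕ)) (hW : WA A b ≠ 0)
    {P N : K[X]} (hP : P ∈ oddp (WA A b)) (hPA : ¬ P ∣ A) (hN : ¬ P ∣ N)
    (hm : N.natDegree + (WA A b).natDegree + A.natDegree ≤ m) (Θ : K[X] → ℝ)
    (hΘ : ∀ v t, Θ (v + N * t) = Θ v) :
    ∑ v ∈ PL K m, (mu (A * (w + v) ^ p + b) : ℝ) * Θ v = 0 :=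
  L1A' p hK hA hw hwm hb hW hP hPA hN (by omega) Θ hΘ

/-- the cross terms, strong form -/
theorem L2A' (hK : ringChar K ≠ 2) {m : ℕ} {A w b c : K[X]} (hA : A.Monic) (hw : w.Monic)
    (hwm : m ≤ w.natDegree)
    (hb : b.degree < ((A.natDegree + p * w.natDegree : ℕ) : WithBot ℕ))
    (hc : c.degree < ((A.natDegree + p * w.natDegree : ℕ) : WithBot ℕ)) (hW : WA A b ≠ 0)
    (hbc : WA A c = WA A b) {N : K[X]}
    (hm : N.natDegree + (WA A b).natDegree ≤ m) (Θ : K[X] → ℝ)
    (hΘ : ∀ v t, Θ (v + N * t) = Θ v) {B : ℝ} (hB : ∀ v, |Θ v| ≤ B)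
    (S : Finset K[X])
    (hS : ∀ P ∈ S, P ∈ oddp (WA A b) ∧ ¬ P ∣ A ∧ ¬ P ∣ N ∧ ¬ P ∣ b - c) :
    (Fintype.card K : ℝ) ^ (∑ P ∈ S, P.natDegree) * |∑ v ∈ PL K m,
      (mu (A * (w + v) ^ p + b) : ℝ) * (mu (A * (w + v) ^ p + c) : ℝ) * Θ v| ≤
      B * (Fintype.card K : ℝ) ^ m := by
  classical
  obtain ⟨ε, g, A1, b1, hε, hg, hA1, eA, eb, hmu⟩ := mu_genA p hK hA hw hwm hb hW
  obtain ⟨ε', g', A1', c1, hε', hg', hA1', eA', ec, hmu'⟩ :=
    mu_genA p hK hA hw hwm hc (by rwa [hbc])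
  rw [hbc] at hmu'
  have hSm : ∀ P ∈ S, Irreducible P ∧ P.Monic := fun P hP =>
    ⟨((mem_oddp hW).1 (hS P hP).1).1, ((mem_oddp hW).1 (hS P hP).1).2.1⟩
  obtain ⟨R', hR', hnd, hdv, hJ, hdeg⟩ := J_split S hSm (mo (WA A b))
    (mo_monic hW) (fun P hP => ((mem_oddp hW).1 (hS P hP).1).2.2.mo hW)
  rw [natDegree_mo hW] at hdeg
  have hfac : Fac S.val := ⟨fun P hP => hSm P hP, S.nodup⟩
  have hprod : S.val.prod = ∏ P ∈ S, P := by
    rw [Finset.prod_eq_multiset_prod, Multiset.map_id']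
  have hdegS : (∏ P ∈ S, P).natDegree = ∑ P ∈ S, P.natDegree :=
    natDegree_prod_of_monic _ _ fun P hP => (hSm P hP).2
  have hBm : (∏ P ∈ S, P).Monic := prod_monic S hSm
  have hcop : ∀ A2 : K[X], A2 ∣ A → IsCoprime A2 (∏ P ∈ S, P) := by
    intro A2 h2
    apply IsCoprime.prod_right
    intro P hP
    exact (((hSm P hP).1.coprime_iff_not_dvd).2 (fun h => (hS P hP).2.1 (h.trans h2))).symm
  obtain ⟨bs, hbs⟩ := exists_quot (hcop A1 ⟨g, by rw [eA]; ring⟩) b1
  obtain ⟨cs, hcs⟩ := exists_quot (hcop A1' ⟨g', by rw [eA']; ring⟩) c1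
  obtain ⟨δ, hδ⟩ := exists_root_mod p hBm (squarefree_prod S hSm).1 (cs - bs)
  have hshift : ∀ u : K[X], J (∏ P ∈ S, P) ((u + δ) ^ p + bs) = J (∏ P ∈ S, P) (u ^ p + cs) := by
    intro u
    apply J_congr hBm
    rw [add_pow_char, show u ^ p + δ ^ p + bs - (u ^ p + cs) = δ ^ p - (cs - bs) by ring]
    exact hδ
  have habs : ∀ P A2 : K[X], |(J P A2 : ℝ)| ≤ 1 := fun P A2 => abs_J_le _ _
  have h1 := abs_sum_double_le p hK (N := N * R') S.val hfac
    (by
      intro P hP
      rw [(hSm P hP).1.prime.dvd_mul]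
      exact not_or.2 ⟨(hS P hP).2.2.1, hnd P hP⟩)
    (δ := δ)
    (by
      intro P hP h
      apply (hS P hP).2.2.2
      have hPB : P ∣ ∏ P ∈ S, P := Finset.dvd_prod_of_mem (fun P => P) hP
      have h2 : P ∣ cs - bs := by
        have h3 : P ∣ δ ^ p := h.trans (dvd_pow_self _ (Fact.out : p.Prime).ne_zero)
        have h4 : P ∣ δ ^ p - (cs - bs) := hPB.trans hδ
        have h5 := dvd_sub h3 h4
        rwa [sub_sub_cancel] at h5
      have h3 : P ∣ A * bs - b := by
        rw [show A * bs - b = g * (A1 * bs - b1) by rw [eA, eb]; ring]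
        exact (hPB.trans hbs).mul_left _
      have h4 : P ∣ A * cs - c := by
        rw [show A * cs - c = g' * (A1' * cs - c1) by rw [eA', ec]; ring]
        exact (hPB.trans hcs).mul_left _
      have h5 : b - c = (A * cs - c) - (A * bs - b) - A * (cs - bs) := by ring
      rw [h5]
      exact dvd_sub (dvd_sub h4 h3) (h2.mul_left _))
    (m := m) (by rw [hprod]; have := natDegree_mul_le (p := N) (q := R'); omega)
    (fun v => ((ε : ℝ) * (J (∏ P ∈ S, P) A1 : ℝ) * ((ε' : ℝ) * (J (∏ P ∈ S, P) A1' : ℝ))) *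
      ((J R' (A1 * (w + v) ^ p + b1) : ℝ) * (J R' (A1' * (w + v) ^ p + c1) : ℝ)) * Θ v) (C := B)
    (by
      intro v
      have hx : ∀ x y : ℝ, |x| ≤ 1 → |y| ≤ 1 → |x * y| ≤ 1 := by
        intro x y hx hy
        rw [abs_mul]; exact mul_le_one₀ hx (abs_nonneg _) hy
      rw [abs_mul]
      have h2 := hx _ _ (hx _ _ (hx _ _ hε (habs (∏ P ∈ S, P) A1))
        (hx _ _ hε' (habs (∏ P ∈ S, P) A1')))
        (hx _ _ (habs R' (A1 * (w + v) ^ p + b1)) (habs R' (A1' * (w + v) ^ p + c1)))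
      calc _ ≤ 1 * B := mul_le_mul h2 (hB v) (abs_nonneg _) zero_le_one
        _ = B := one_mul B)
    (by
      intro v t
      rw [J_periodicA p hR', J_periodicA p hR', show N * R' * t = N * (R' * t) by ring, hΘ])
    w bs
  rw [hprod, hdegS] at h1
  refine le_trans (le_of_eq ?_) h1
  congr 2
  refine Finset.sum_congr rfl fun v hv => ?_
  rw [hmu v hv, hmu' v hv, hJ, hJ, hshift, add_comm v w, J_shiftA p hBm hbs, J_shiftA p hBm hcs]
  push_cast
  ring

/-- (helper7) the cross terms -/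
theorem L2A (hK : ringChar K ≠ 2) {m : ℕ} {A w b c : K[X]} (hA : A.Monic) (hw : w.Monic)
    (hwm : m ≤ w.natDegree)
    (hb : b.degree < ((A.natDegree + p * w.natDegree : ℕ) : WithBot ℕ))
    (hc : c.degree < ((A.natDegree + p * w.natDegree : ℕ) : WithBot ℕ)) (hW : WA A b ≠ 0)
    (hbc : WA A c = WA A b) {N : K[X]}
    (hm : N.natDegree + (WA A b).natDegree + A.natDegree ≤ m) (Θ : K[X] → ℝ)
    (hΘ : ∀ v t, Θ (v + N * t) = Θ v) {B : ℝ} (hB : ∀ v, |Θ v| ≤ B)
    (S : Finset K[X])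
    (hS : ∀ P ∈ S, P ∈ oddp (WA A b) ∧ ¬ P ∣ A ∧ ¬ P ∣ N ∧ ¬ P ∣ b - c) :
    (Fintype.card K : ℝ) ^ (∑ P ∈ S, P.natDegree) * |∑ v ∈ PL K m,
      (mu (A * (w + v) ^ p + b) : ℝ) * (mu (A * (w + v) ^ p + c) : ℝ) * Θ v| ≤
      B * (Fintype.card K : ℝ) ^ m :=
  L2A' p hK hA hw hwm hb hc hW hbc (by omega) Θ hΘ hB S hS

end sums

end P4f18dfF
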