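import Pool.Agent.Lib.P4f18dfF.A0

/-! Most `r` are good for the centres `A u^p + r`. -/

set_option autoImplicit false

namespace P4f18dfF
open Polynomial Finset

section
variable {K : Type*} [Field K]

lemma WA_add (A b c : K[X]) : WA A (b + c) = WA A b + WA A c := by
  rw [WA, WA, WA, derivative_add]; ring

lemma WA_sub (A b c : K[X]) : WA A (b - c) = WA A b - WA A c := by
  rw [WA, WA, WA, derivative_sub]; ring

lemma WA_zero (A : K[X]) : WA A 0 = 0 := by
  rw [WA, derivative_zero]; ring

lemma degree_WA_lt {A b : K[X]} {d : ℕ} (hb : b.degree < d) :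
    (WA A b).degree < ((d + A.natDegree : ℕ) : WithBot ℕ) := by
  have key : ∀ x y : K[X], x.degree ≤ (A.natDegree : WithBot ℕ) → y.degree < d →
      (x * y).degree < ((d + A.natDegree : ℕ) : WithBot ℕ) := by
    intro x y hx hy
    rcases eq_or_ne x 0 with rfl | hx0
    · simp [bot_lt_iff_ne_bot]
    rcases eq_or_ne y 0 with rfl | hy0
    · simp [bot_lt_iff_ne_bot]
    rw [degree_mul, degree_eq_natDegree hx0, degree_eq_natDegree hy0]
    rw [degree_eq_natDegree hx0] at hx
    rw [degree_eq_natDegree hy0] at hy
    have h1 : x.natDegree ≤ A.natDegree := by exact_mod_cast hx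
    have h2 : y.natDegree < d := by exact_mod_cast hy
    exact_mod_cast (by omega : x.natDegree + y.natDegree < d + A.natDegree)
  rw [WA]
  refine (degree_sub_le _ _).trans_lt (max_lt ?_ ?_)
  · exact key _ _ degree_le_natDegree (degree_derivative_le.trans_lt hb)
  · exact key _ _ (degree_derivative_le.trans degree_le_natDegree) hb

/-- the numerator does not see `A x^p` -/
lemma WA_center (p : ℕ) [CharP K p] (A x b : K[X]) : WA A (A * x ^ p + b) = WA A b := by
  rw [WA, WA, derivative_add, derivative_mul, derivative_pow, CharP.cast_eq_zero]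
  simp only [map_zero, zero_mul, mul_zero, add_zero]
  ring

end

variable {K : Type*} [Field K] [Fintype K] [DecidableEq K]
variable (p : ℕ) [Fact p.Prime] [CharP K p]

omit [DecidableEq K] in
/-- the elements of the kernel of `WA A` have degree `deg A` modulo `p` -/
lemma natDegree_kerA {A b : K[X]} (hA : A.Monic) (hb : b ≠ 0) (h : WA A b = 0) :
    b.natDegree % p = A.natDegree % p := by
  have hp := (Fact.out : p.Prime).two_le
  have hder : derivative (b * A ^ (p - 1)) = 0 := by
    rw [derivative_mul, derivative_pow]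
    have h1 : ((p - 1 : ℕ) : K) = -1 := by
      rw [Nat.cast_sub (by omega), CharP.cast_eq_zero]; simp
    have h2 : A ^ (p - 1) = A ^ (p - 1 - 1) * A := by
      rw [← pow_succ]; congr 1; omega
    rw [h1, h2]
    have h3 : A * derivative b = derivative A * b := sub_eq_zero.1 h
    simp only [map_neg, map_one]
    linear_combination A ^ (p - 1 - 1) * h3
  obtain ⟨c, hc⟩ := exists_pow_eq p hder
  have h4 : p * c.natDegree = b.natDegree + (p - 1) * A.natDegree := by
    have := congrArg natDegree hc
    rw [natDegree_pow, natDegree_mul hb (pow_ne_zero _ hA.ne_zero), natDegree_pow] at this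
    exact this
  have h5 : b.natDegree + p * A.natDegree = A.natDegree + p * c.natDegree := by
    obtain ⟨k, rfl⟩ : ∃ k, p = k + 1 := ⟨p - 1, by omega⟩
    rw [Nat.add_sub_cancel] at h4
    rw [h4]; ring
  have h6 := congrArg (· % p) h5
  simp only [Nat.add_mul_mod_self_left] at h6
  exact h6

/-- fibres of `WA A` -/
theorem card_fibA {A : K[X]} (hA : A.Monic) (d : ℕ) (D : K[X]) :
    ((PL K d).filter (fun r => WA A r = D)).card ≤ Fintype.card K ^ ((d + p - 1) / p) := by
  classical
  have hp := (Fact.out : p.Prime).pos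
  have hcard : (Finset.univ : Finset (Fin ((d + p - 1) / p) → K)).card =
      Fintype.card K ^ ((d + p - 1) / p) := by
    rw [Finset.card_univ, Fintype.card_fun, Fintype.card_fin]
  rw [← hcard]
  refine Finset.card_le_card_of_injOn
    (fun r => fun i : Fin ((d + p - 1) / p) => r.coeff (A.natDegree % p + p * (i : ℕ))) ?_ ?_
  · intro r _
    exact Finset.mem_coe.2 (Finset.mem_univ _)
  · intro r hr s hs hrs
    rw [Finset.mem_coe, mem_filter] at hr hs
    by_contra hne
    have h0 : r - s ≠ 0 := sub_ne_zero.2 hne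
    have hW : WA A (r - s) = 0 := by rw [WA_sub, hr.2, hs.2, sub_self]
    have hmod := natDegree_kerA p hA h0 hW
    have hlt : (r - s).natDegree < d := by
      have h1 : (r - s) ∈ PL K d := by
        rw [sub_eq_add_neg]; exact add_mem_PL hr.1 (neg_mem_PL hs.1)
      rw [mem_PL, degree_eq_natDegree h0] at h1
      exact_mod_cast h1
    have hdiv : (r - s).natDegree / p < (d + p - 1) / p := by
      have h2 : (r - s).natDegree / p + 1 ≤ (d + p - 1) / p := by
        rw [Nat.le_div_iff_mul_le hp, add_mul, one_mul]
        have := Nat.div_mul_le_self (r - s).natDegree p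
        omega
      omega
    have h3 := congrFun hrs ⟨(r - s).natDegree / p, hdiv⟩
    simp only at h3
    rw [← hmod, Nat.mod_add_div] at h3
    have h4 : (r - s).coeff (r - s).natDegree = 0 := by
      rw [coeff_sub, h3, sub_self]
    exact h0 (leadingCoeff_eq_zero.1 h4)

/-- few r are bad -/
theorem card_badA {A : K[X]} (hA : A.Monic) (L h d : ℕ) (hd : h ≤ d)
    [DecidablePred (GoodA A L h)] :
    ((PL K d).filter (fun r => ¬ GoodA A L h r)).card ≤
      Fintype.card K ^ (h + (L + (d + A.natDegree + 1) / 2) + (d + p - 1) / p) := by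
  classical
  set W := (PL K L ×ˢ PL K ((d + A.natDegree + 1) / 2)).image (fun x => x.1 * x.2 ^ 2) with hW
  have hWc : W.card ≤ Fintype.card K ^ (L + (d + A.natDegree + 1) / 2) := by
    refine card_image_le.trans ?_
    rw [card_product, card_PL, card_PL, pow_add]
  have hsub : (PL K d).filter (fun r => ¬ GoodA A L h r) ⊆
      (PL K h).biUnion fun a => W.biUnion fun D => (PL K d).filter (fun r => WA A (r + a) = D) := by
    intro r hr
    rw [mem_filter] at hr
    obtain ⟨hr, hg⟩ := hr
    rw [GoodA] at hg
    push Not at hg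
    obtain ⟨a, ha, hg⟩ := hg
    have hra : r + a ∈ PL K d := add_mem_PL hr (PL_mono hd (mem_PL.2 ha))
    have hdeg := degree_WA_lt (A := A) (mem_PL.1 hra)
    obtain ⟨x, hx, hxD⟩ := PL_subset_bad L (d + A.natDegree) hdeg (by
      by_cases h0 : WA A (r + a) = 0
      · exact Or.inl h0
      · exact Or.inr (hg h0))
    rw [mem_biUnion]
    refine ⟨a, mem_PL.2 ha, ?_⟩
    rw [mem_biUnion]
    refine ⟨WA A (r + a), ?_, mem_filter.2 ⟨hr, rfl⟩⟩
    rw [hW, mem_image]
    exact ⟨x, hx, hxD⟩
  refine (card_le_card hsub).trans ?_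
  refine card_biUnion_le.trans ?_
  have h1 : ∀ a ∈ PL K h, (W.biUnion fun D => (PL K d).filter (fun r => WA A (r + a) = D)).card ≤
      Fintype.card K ^ (L + (d + A.natDegree + 1) / 2) * Fintype.card K ^ ((d + p - 1) / p) := by
    intro a ha
    refine card_biUnion_le.trans ?_
    refine (Finset.sum_le_card_nsmul _ _ (Fintype.card K ^ ((d + p - 1) / p)) ?_).trans ?_
    · intro D _
      refine le_trans ?_ (card_fibA p hA d D)
      refine Finset.card_le_card_of_injOn (fun r => r + a) ?_ ?_
      · intro r hr
        rw [Finset.mem_coe, mem_filter] at hr ⊢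
        exact ⟨add_mem_PL hr.1 (PL_mono hd ha), hr.2⟩
      · intro r _ s _ hrs
        exact add_right_cancel hrs
    · rw [smul_eq_mul]
      exact Nat.mul_le_mul_right _ hWc
  refine (Finset.sum_le_card_nsmul _ _ _ h1).trans ?_
  rw [card_PL, smul_eq_mul, pow_add (Fintype.card K) (h + (L + (d + A.natDegree + 1) / 2)),
    pow_add (Fintype.card K) h, mul_assoc]

end P4f18dfF
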