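import Pool.Agent.Lib.P4f18dfF.Sqf2

/-! The number of squarefree polynomials in short intervals around u^p + r: on average close to
q^h (1 - 1/q). -/

namespace P4f18dfF
open Polynomial Finset UniqueFactorizationMonoid

section
variable {K : Type*} [Field K] [Fintype K]
variable (p : ℕ) [Fact p.Prime] [CharP K p]

/-- the error term -/
noncomputable def er (p m n : ℕ) (b v : K[X]) : ℝ :=
  |((mu ((X ^ m + v) ^ p + b) ^ 2 - tr n ((X ^ m + v) ^ p + b) : ℤ) : ℝ)|

lemma er_nonneg (m n : ℕ) (b v : K[X]) : 0 ≤ er p m n b v := abs_nonneg _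

lemma er_trivial (m n : ℕ) (b v : K[X]) : er p m n b v ≤ 3 * (Fintype.card K : ℝ) ^ n := by
  classical
  have hq : (1 : ℝ) ≤ Fintype.card K := by exact_mod_cast Fintype.card_pos
  have h1 : |(mu ((X ^ m + v) ^ p + b) : ℝ)| ≤ 1 := by exact_mod_cast abs_mu_le _
  have h2 : |(tr n ((X ^ m + v) ^ p + b) : ℝ)| ≤ 2 * (Fintype.card K : ℝ) ^ n := by
    have h3 : |tr n ((X ^ m + v) ^ p + b)| ≤ ((LTM K n).card : ℤ) := by
      rw [tr]
      refine (Finset.abs_sum_le_sum_abs _ _).trans ?_
      refine (Finset.sum_le_sum fun g _ => abs_mu_le g).trans ?_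
      simp only [sum_const, nsmul_eq_mul, mul_one]
      exact_mod_cast card_filter_le _ _
    have h4 : (((LTM K n).card : ℤ) : ℝ) ≤ 2 * (Fintype.card K : ℝ) ^ n := by
      exact_mod_cast card_LTM_le (K := K) n
    refine le_trans ?_ h4
    exact_mod_cast h3
  rw [er]
  push_cast
  have h5 : |(mu ((X ^ m + v) ^ p + b) : ℝ) ^ 2| ≤ 1 := by
    rw [abs_pow]
    exact pow_le_one₀ (abs_nonneg _) h1
  have h6 : (1 : ℝ) ≤ (Fintype.card K : ℝ) ^ n := one_le_pow₀ hq
  calc |(mu ((X ^ m + v) ^ p + b) : ℝ) ^ 2 - (tr n ((X ^ m + v) ^ p + b) : ℝ)|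
      ≤ |(mu ((X ^ m + v) ^ p + b) : ℝ) ^ 2| + |(tr n ((X ^ m + v) ^ p + b) : ℝ)| := abs_sub _ _
    _ ≤ 3 * (Fintype.card K : ℝ) ^ n := by linarith

open Classical in
lemma er_le {m n d : ℕ} {b v : K[X]} (hb : b ∈ PL K d) (hb' : derivative b ≠ 0) (hdm : d ≤ m)
    (hv : v ∈ PL K m) :
    er p m n b v ≤ ∑ g ∈ (SG K n d).filter (fun g => g ∣ derivative b),
      if g ∣ (X ^ m + v) ^ p + b then (1 : ℝ) else 0 := by
  have hp := (Fact.out : p.Prime).two_le
  set F := (X ^ m + v) ^ p + b with hF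
  have hbm : b.degree < ((p * m : ℕ) : WithBot ℕ) := by
    refine (mem_PL.1 hb).trans_le ?_
    exact_mod_cast hdm.trans (Nat.le_mul_of_pos_left _ (by omega))
  have hFm := (natDegree_center p (mem_PL.1 hv) hbm).1
  have hder := derivative_center p (X ^ m + v) b
  have h1 := abs_sub_tr_le n hFm.ne_zero
  have h2 : er p m n b v ≤ (((LTM K (max n F.natDegree)).filter
      (fun g => g ^ 2 ∣ F ∧ n < g.natDegree ∧ Squarefree g)).card : ℝ) := by
    rw [er]
    exact_mod_cast h1
  refine h2.trans ?_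
  rw [← Finset.sum_filter, Finset.sum_const, nsmul_eq_mul, mul_one, Finset.filter_filter]
  have hsub : (LTM K (max n F.natDegree)).filter (fun g => g ^ 2 ∣ F ∧ n < g.natDegree ∧ Squarefree g) ⊆
      (SG K n d).filter (fun g => g ∣ derivative b ∧ g ∣ F) := by
    intro g hg
    rw [mem_filter, mem_LTM] at hg
    obtain ⟨⟨hgm, _⟩, hgF, hng, hgs⟩ := hg
    have h3 : g ∣ derivative b := by
      rw [← hder, ← hF]
      obtain ⟨c, hc⟩ := hgF
      rw [hc, derivative_mul, derivative_pow]
      refine dvd_add ?_ ?_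
      · refine Dvd.dvd.mul_right ?_ _
        refine Dvd.dvd.mul_right ?_ _
        simp
      · exact (dvd_pow_self g two_ne_zero).mul_right _
    have h4 : g.natDegree ≤ (derivative b).natDegree := natDegree_le_of_dvd h3 hb'
    have hb0 : b ≠ 0 := by rintro rfl; simp at hb'
    have h5 : (derivative b).natDegree < d := by
      have h6 : (derivative b).degree < d := degree_derivative_le.trans_lt (mem_PL.1 hb)
      rw [degree_eq_natDegree hb'] at h6
      exact_mod_cast h6
    rw [mem_filter, SG, mem_filter, mem_LTM]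
    exact ⟨⟨⟨hgm, by omega⟩, ⟨hng, by omega⟩, hgs⟩, h3, (dvd_pow_self g two_ne_zero).trans hgF⟩
  exact_mod_cast card_le_card hsub

/-- the tail -/
lemma sum_er_le {m n d : ℕ} (hdm : d ≤ m) :
    ∑ b ∈ PL K d, ∑ v ∈ PL K m, er p m n b v ≤
      (Fintype.card K : ℝ) ^ ((d + p - 1) / p) * (Fintype.card K : ℝ) ^ m * (3 * (Fintype.card K : ℝ) ^ n) +
      ∑ j ∈ (range (d + 1)).filter (fun j => n < j ∧ j < d),
        (Fintype.card K : ℝ) ^ (m + d) / (Fintype.card K : ℝ) ^ (min j (d / p)) := by
  classical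
  have hq0 : (0 : ℝ) < Fintype.card K := by exact_mod_cast Fintype.card_pos
  have hp := (Fact.out : p.Prime).pos
  set q : ℝ := (Fintype.card K : ℝ) with hq
  rw [← Finset.sum_filter_add_sum_filter_not (PL K d) (fun b => derivative b = 0)]
  refine add_le_add ?_ ?_
  · have h1 : ∀ b ∈ (PL K d).filter (fun b => derivative b = 0),
        ∑ v ∈ PL K m, er p m n b v ≤ q ^ m * (3 * q ^ n) := by
      intro b _
      refine (Finset.sum_le_card_nsmul _ _ _ fun v _ => er_trivial p m n b v).trans ?_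
      rw [card_PL, nsmul_eq_mul]
      push_cast
      exact le_rfl
    refine (Finset.sum_le_card_nsmul _ _ _ h1).trans ?_
    rw [nsmul_eq_mul, ← mul_assoc]
    have h2 : (((PL K d).filter (fun b => derivative b = 0)).card : ℝ) ≤ q ^ ((d + p - 1) / p) := by
      rw [hq]; exact_mod_cast card_antider_le p d (0 : K[X])
    gcongr
  · have h1 : ∀ b ∈ (PL K d).filter (fun b => ¬ derivative b = 0),
        ∑ v ∈ PL K m, er p m n b v ≤
          ∑ g ∈ SG K n d, if g ∣ derivative b then q ^ m / q ^ g.natDegree else 0 := by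
      intro b hb
      rw [mem_filter] at hb
      calc ∑ v ∈ PL K m, er p m n b v
          ≤ ∑ v ∈ PL K m, ∑ g ∈ (SG K n d).filter (fun g => g ∣ derivative b),
            (if g ∣ (X ^ m + v) ^ p + b then (1 : ℝ) else 0) :=
            Finset.sum_le_sum fun v hv => er_le p hb.1 hb.2 hdm hv
        _ = ∑ g ∈ (SG K n d).filter (fun g => g ∣ derivative b), ∑ v ∈ PL K m,
            (if g ∣ (X ^ m + v) ^ p + b then (1 : ℝ) else 0) := Finset.sum_comm
        _ ≤ ∑ g ∈ (SG K n d).filter (fun g => g ∣ derivative b), q ^ m / q ^ g.natDegree := by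
            refine Finset.sum_le_sum fun g hg => ?_
            rw [mem_filter, SG, mem_filter, mem_LTM] at hg
            rw [← Finset.sum_filter, Finset.sum_const, nsmul_eq_mul, mul_one]
            have hgm : g.natDegree ≤ m := by have := hg.1.2.1.2; omega
            have h3 := card_v_le p hg.1.1.1 hg.1.2.2 hgm b
            have h4 : q ^ m / q ^ g.natDegree = q ^ (m - g.natDegree) := by
              rw [div_eq_iff (pow_pos hq0 _).ne', ← pow_add]
              congr 1; omega
            rw [h4, hq]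
            exact_mod_cast h3
        _ = ∑ g ∈ SG K n d, if g ∣ derivative b then q ^ m / q ^ g.natDegree else 0 := by
            rw [Finset.sum_filter]
    have h5 : ∑ b ∈ (PL K d).filter (fun b => ¬ derivative b = 0), ∑ v ∈ PL K m, er p m n b v ≤
        ∑ b ∈ PL K d, ∑ g ∈ SG K n d, (if g ∣ derivative b then q ^ m / q ^ g.natDegree else 0) := by
      refine (Finset.sum_le_sum h1).trans ?_
      refine Finset.sum_le_sum_of_subset_of_nonneg (filter_subset _ _) ?_
      intro b _ _
      refine Finset.sum_nonneg fun g _ => ?_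
      split_ifs
      · positivity
      · exact le_rfl
    refine h5.trans ?_
    rw [Finset.sum_comm]
    have h6 : ∀ g ∈ SG K n d, ∑ b ∈ PL K d, (if g ∣ derivative b then q ^ m / q ^ g.natDegree else 0) ≤
        q ^ m / q ^ g.natDegree * (q ^ d / q ^ (min g.natDegree (d / p))) := by
      intro g hg
      rw [SG, mem_filter, mem_LTM] at hg
      rw [← Finset.sum_filter, Finset.sum_const, nsmul_eq_mul, mul_comm]
      have h7 := card_b_mul_le p hg.1.1 hg.2.2 (d := d) (i := min g.natDegree (d / p)) (min_le_left _ _)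
        ((Nat.mul_le_mul_left p (min_le_right _ _)).trans (Nat.mul_div_le d p))
      have h8 : (((PL K d).filter (fun b => g ∣ derivative b)).card : ℝ) * q ^ (min g.natDegree (d / p)) ≤ q ^ d := by
        rw [hq]; exact_mod_cast h7
      have h9 : (((PL K d).filter (fun b => g ∣ derivative b)).card : ℝ) ≤ q ^ d / q ^ (min g.natDegree (d / p)) := by
        rw [le_div_iff₀ (pow_pos hq0 _)]; exact h8
      gcongr
    refine (Finset.sum_le_sum h6).trans ?_
    have h10 : ∑ g ∈ SG K n d, q ^ m / q ^ g.natDegree * (q ^ d / q ^ (min g.natDegree (d / p))) ≤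
        ∑ g ∈ (LTM K d).filter (fun g => n < g.natDegree ∧ g.natDegree < d),
          q ^ m / q ^ g.natDegree * (q ^ d / q ^ (min g.natDegree (d / p))) := by
      refine Finset.sum_le_sum_of_subset_of_nonneg ?_ ?_
      · intro g hg
        rw [SG, mem_filter] at hg
        exact mem_filter.2 ⟨hg.1, hg.2.1⟩
      · intro g _ _
        positivity
    refine h10.trans (le_of_eq ?_)
    rw [Finset.sum_filter, sum_LTM, Finset.sum_filter]
    refine Finset.sum_congr rfl fun j _ => ?_
    have h11 : ∀ g ∈ Mon K j, (if n < g.natDegree ∧ g.natDegree < d then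
        q ^ m / q ^ g.natDegree * (q ^ d / q ^ (min g.natDegree (d / p))) else 0) =
        (if n < j ∧ j < d then q ^ m / q ^ j * (q ^ d / q ^ (min j (d / p))) else 0) := by
      intro g hg
      rw [(mem_Mon.1 hg).2]
    rw [Finset.sum_congr rfl h11, Finset.sum_const, card_Mon, nsmul_eq_mul]
    split_ifs
    · push_cast
      rw [← hq, pow_add]
      field_simp
    · simp

lemma aux_pow (D : ℕ) : D + 1 ≤ 2 * 2 ^ (D - D / 2) := by
  have h : ∀ k : ℕ, 2 * k + 2 ≤ 2 * 2 ^ k + 2 ^ k := by
    intro k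
    induction k with
    | zero => norm_num
    | succ k ih => rw [pow_succ]; omega
  have h' : ∀ k : ℕ, k + 1 ≤ 2 ^ k := fun k => Nat.lt_two_pow_self
  rcases Nat.even_or_odd' D with ⟨k, rfl | rfl⟩
  · have e : 2 * k - 2 * k / 2 = k := by omega
    rw [e]
    have := h' k
    omega
  · have e : 2 * k + 1 - (2 * k + 1) / 2 = k + 1 := by omega
    rw [e, pow_succ]
    have := h' k
    omega

lemma geom_tail {q : ℝ} (hq : 2 ≤ q) (n d : ℕ) :
    ∑ j ∈ (range (d + 1)).filter (fun j => n < j ∧ j < d), (1 : ℝ) / q ^ j ≤ 1 / q ^ n := by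
  have hq0 : 0 < q := by linarith
  have key : ∀ d : ℕ, ∑ j ∈ (range (d + 1)).filter (fun j => n < j ∧ j < d), (1 : ℝ) / q ^ j ≤
      1 / q ^ n - (if n < d then 1 / q ^ (d - 1) else 1 / q ^ n) := by
    intro d
    induction d with
    | zero => simp
    | succ d ih =>
      have hsplit : (range (d + 1 + 1)).filter (fun j => n < j ∧ j < d + 1) =
          (range (d + 1)).filter (fun j => n < j ∧ j < d) ∪ (if n < d then {d} else ∅) := by
        ext j
        split_ifs with h
        · simp only [mem_filter, mem_range, mem_union, mem_singleton]; omega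
        · rw [Finset.union_empty]; simp only [mem_filter, mem_range]; omega
      rw [hsplit, Finset.sum_union]
      · split_ifs with h h2 h2
        · rw [sum_singleton]
          rw [if_pos h] at ih
          have h3 : (1 : ℝ) / q ^ (d - 1) = q * (1 / q ^ d) := by
            obtain ⟨e, rfl⟩ : ∃ e, d = e + 1 := ⟨d - 1, by omega⟩
            rw [Nat.add_sub_cancel, pow_succ]
            field_simp
          have h4 : (0 : ℝ) < 1 / q ^ d := by positivity
          rw [Nat.add_sub_cancel]
          nlinarith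
        · omega
        · rw [if_neg h] at ih
          have : n = d := by omega
          subst this
          simp only [sum_empty, add_zero, Nat.add_sub_cancel]
          exact ih
        · rw [if_neg h] at ih
          simp only [sum_empty, add_zero]
          exact ih
      · rw [Finset.disjoint_left]
        intro j hj
        split_ifs
        · rw [mem_filter] at hj
          rw [mem_singleton]; omega
        · simp
  refine (key d).trans ?_
  split_ifs
  · have : (0 : ℝ) < 1 / q ^ (d - 1) := by positivity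
    linarith
  · have : (0 : ℝ) < 1 / q ^ n := by positivity
    linarith

/-- numerical bound for the tail -/
lemma tail_num (h d m : ℕ) (hp : 3 ≤ p) (hh : 2 ≤ h) (hd : 2 * p * h ≤ d) :
    (Fintype.card K : ℝ) ^ ((d + p - 1) / p) * (Fintype.card K : ℝ) ^ m * (3 * (Fintype.card K : ℝ) ^ (h / 2)) +
      ∑ j ∈ (range (d + 1)).filter (fun j => h / 2 < j ∧ j < d),
        (Fintype.card K : ℝ) ^ (m + d) / (Fintype.card K : ℝ) ^ (min j (d / p)) ≤
    (2 * p + 4) * ((Fintype.card K : ℝ) ^ (m + d) / (Fintype.card K : ℝ) ^ (h / 2)) := by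
  set q : ℝ := (Fintype.card K : ℝ) with hqdef
  have hq2 : (2 : ℝ) ≤ q := by
    rw [hqdef]; exact_mod_cast (Fintype.one_lt_card : 1 < Fintype.card K)
  have hq0 : (0 : ℝ) < q := by linarith
  set D := d / p with hD
  have hD2 : 2 * h ≤ D := by
    rw [hD, Nat.le_div_iff_mul_le (by omega)]
    calc 2 * h * p = 2 * p * h := by ring
      _ ≤ d := hd
  have hdD : p * D ≤ d := Nat.mul_div_le d p
  have hdD' : d < p * (D + 1) := by
    have := Nat.lt_mul_div_succ d (show 0 < p by omega)
    rw [← hD] at this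
    simpa [mul_comm] using this
  have h3D : 3 * D ≤ d := (Nat.mul_le_mul_right D hp).trans hdD
  -- first part
  have h1 : q ^ ((d + p - 1) / p) * q ^ m * (3 * q ^ (h / 2)) ≤ 3 * (q ^ (m + d) / q ^ (h / 2)) := by
    have e1 : (d + p - 1) / p ≤ D + 1 := by
      rw [Nat.div_le_iff_le_mul_add_pred (by omega)]
      omega
    rw [mul_div_assoc', le_div_iff₀ (pow_pos hq0 _)]
    calc q ^ ((d + p - 1) / p) * q ^ m * (3 * q ^ (h / 2)) * q ^ (h / 2)
        = 3 * q ^ ((d + p - 1) / p + m + h / 2 + h / 2) := by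
          rw [pow_add, pow_add, pow_add]; ring
      _ ≤ 3 * q ^ (m + d) := by
          have : (d + p - 1) / p + m + h / 2 + h / 2 ≤ m + d := by omega
          have := pow_le_pow_right₀ (by linarith : (1 : ℝ) ≤ q) this
          linarith
  -- second part
  have h2 : ∑ j ∈ (range (d + 1)).filter (fun j => h / 2 < j ∧ j < d), q ^ (m + d) / q ^ (min j D) ≤
      q ^ (m + d) * (1 / q ^ (h / 2)) + q ^ (m + d) * (2 * p * (1 / q ^ (h / 2))) := by
    have h3 : ∀ j ∈ (range (d + 1)).filter (fun j => h / 2 < j ∧ j < d),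
        q ^ (m + d) / q ^ (min j D) ≤ q ^ (m + d) * (1 / q ^ j) + q ^ (m + d) * (1 / q ^ D) := by
      intro j _
      rcases le_total j D with hj | hj
      · rw [min_eq_left hj]
        have : 0 ≤ q ^ (m + d) * (1 / q ^ D) := by positivity
        rw [mul_one_div]; linarith
      · rw [min_eq_right hj]
        have : 0 ≤ q ^ (m + d) * (1 / q ^ j) := by positivity
        rw [mul_one_div _ (q ^ D)]; linarith
    refine (Finset.sum_le_sum h3).trans ?_
    rw [Finset.sum_add_distrib, ← Finset.mul_sum, Finset.sum_const, nsmul_eq_mul]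
    have h4 : (((range (d + 1)).filter (fun j => h / 2 < j ∧ j < d)).card : ℝ) ≤ d := by
      have : (range (d + 1)).filter (fun j => h / 2 < j ∧ j < d) ⊆ range d := by
        intro j hj
        rw [mem_filter] at hj
        rw [mem_range]; omega
      have := card_le_card this
      rw [card_range] at this
      exact_mod_cast this
    have h5 : (d : ℝ) * (1 / q ^ D) ≤ 2 * p * (1 / q ^ (h / 2)) := by
      rw [mul_one_div, mul_one_div, div_le_div_iff₀ (pow_pos hq0 _) (pow_pos hq0 _)]
      have h6 : (d : ℝ) ≤ p * (2 * 2 ^ (D - D / 2)) := by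
        have h7 := aux_pow D
        have h8 : d ≤ p * (2 * 2 ^ (D - D / 2)) := hdD'.le.trans (Nat.mul_le_mul_left p h7)
        exact_mod_cast h8
      have h9 : (2 : ℝ) ^ (D - D / 2) ≤ q ^ (D - D / 2) := pow_le_pow_left₀ (by norm_num) hq2 _
      have h10 : q ^ (D - D / 2) * q ^ (h / 2) ≤ q ^ D := by
        rw [← pow_add]
        exact pow_le_pow_right₀ (by linarith) (by omega)
      calc (d : ℝ) * q ^ (h / 2) ≤ (p * (2 * 2 ^ (D - D / 2))) * q ^ (h / 2) := by gcongr
        _ ≤ (p * (2 * q ^ (D - D / 2))) * q ^ (h / 2) := by gcongr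
        _ = 2 * p * (q ^ (D - D / 2) * q ^ (h / 2)) := by ring
        _ ≤ 2 * p * q ^ D := by gcongr
    have h11 := geom_tail hq2 (h / 2) d
    refine add_le_add ?_ ?_
    · gcongr
    · calc (((range (d + 1)).filter (fun j => h / 2 < j ∧ j < d)).card : ℝ) * (q ^ (m + d) * (1 / q ^ D))
          ≤ d * (q ^ (m + d) * (1 / q ^ D)) := by gcongr
        _ = q ^ (m + d) * (d * (1 / q ^ D)) := by ring
        _ ≤ q ^ (m + d) * (2 * p * (1 / q ^ (h / 2))) := by gcongr
  calc _ ≤ 3 * (q ^ (m + d) / q ^ (h / 2)) +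
        (q ^ (m + d) * (1 / q ^ (h / 2)) + q ^ (m + d) * (2 * p * (1 / q ^ (h / 2)))) := add_le_add h1 h2
    _ = (2 * p + 4) * (q ^ (m + d) / q ^ (h / 2)) := by ring

/-- **M7**: squarefree count in the intervals around u^p + r, on average over u and r -/
theorem sqf_count (hp : 3 ≤ p) {h d m : ℕ} (hh : 2 ≤ h) (hd : 2 * p * h ≤ d) (hdm : d ≤ m) :
    ∑ r ∈ PL K d, ∑ v ∈ PL K m,
      |∑ a ∈ PL K h, (mu ((X ^ m + v) ^ p + (r + a)) : ℝ) ^ 2 -
        ((Fintype.card K : ℝ) ^ h - (Fintype.card K : ℝ) ^ (h - 1))| ≤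
      (2 * p + 4) * (Fintype.card K : ℝ) ^ h *
        ((Fintype.card K : ℝ) ^ (m + d) / (Fintype.card K : ℝ) ^ (h / 2)) := by
  have hhd : h ≤ d := by
    have : 1 * h ≤ 2 * p * h := Nat.mul_le_mul_right h (by omega)
    omega
  have h1 : ∀ r ∈ PL K d, ∀ v ∈ PL K m,
      |∑ a ∈ PL K h, (mu ((X ^ m + v) ^ p + (r + a)) : ℝ) ^ 2 -
        ((Fintype.card K : ℝ) ^ h - (Fintype.card K : ℝ) ^ (h - 1))| ≤
      ∑ a ∈ PL K h, er p m (h / 2) (r + a) v := by
    intro r _ v _
    have h2 := sum_tr hh ((X ^ m + v) ^ p + r)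
    have h3 : ((Fintype.card K : ℝ) ^ h - (Fintype.card K : ℝ) ^ (h - 1)) =
        ∑ a ∈ PL K h, ((tr (h / 2) ((X ^ m + v) ^ p + (r + a)) : ℤ) : ℝ) := by
      have h4 := congrArg (Int.cast : ℤ → ℝ) h2
      push_cast at h4
      rw [← h4]
      refine Finset.sum_congr rfl fun a _ => ?_
      rw [add_assoc]
    rw [h3, ← Finset.sum_sub_distrib]
    refine (Finset.abs_sum_le_sum_abs _ _).trans (le_of_eq ?_)
    refine Finset.sum_congr rfl fun a _ => ?_
    rw [er]
    push_cast
    rfl
  have h5 : ∑ r ∈ PL K d, ∑ v ∈ PL K m, ∑ a ∈ PL K h, er p m (h / 2) (r + a) v =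
      ∑ a ∈ PL K h, ∑ b ∈ PL K d, ∑ v ∈ PL K m, er p m (h / 2) b v := by
    rw [Finset.sum_congr rfl fun r _ => Finset.sum_comm, Finset.sum_comm]
    refine Finset.sum_congr rfl fun a ha => ?_
    exact sum_PL_add d (fun b => ∑ v ∈ PL K m, er p m (h / 2) b v) (PL_mono hhd ha)
  refine (Finset.sum_le_sum fun r hr => Finset.sum_le_sum fun v hv => h1 r hr v hv).trans ?_
  rw [h5, Finset.sum_const, card_PL, nsmul_eq_mul]
  have h6 := (sum_er_le (K := K) p (n := h / 2) hdm).trans (tail_num p h d m hp hh hd)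
  push_cast
  calc (Fintype.card K : ℝ) ^ h * ∑ b ∈ PL K d, ∑ v ∈ PL K m, er p m (h / 2) b v
      ≤ (Fintype.card K : ℝ) ^ h * ((2 * p + 4) *
        ((Fintype.card K : ℝ) ^ (m + d) / (Fintype.card K : ℝ) ^ (h / 2))) := by gcongr
    _ = _ := by ring

end
end P4f18dfF
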