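import Pool.Agent.Lib.P4f18dfF.Defs8
import Pool.Agent.Lib.P4f18dfF.Sqf3

set_option autoImplicit false

namespace P4f18dfF
open Polynomial Finset Pool.Agent.P4f18dfF Pool.Agent.P4f18dfT

variable {K : Type*} [Field K] [Fintype K] [DecidableEq K]

/-- M7 (helper7): the number of squarefree polynomials in the interval is on average close to
its expectation -/
theorem sqf_mean (p : ℕ) [Fact p.Prime] [CharP K p] (hK : ringChar K ≠ 2) :
    ∃ C : ℝ, 0 < C ∧ ∀ h d m : ℕ, 2 ≤ h → C * h ≤ d → d ≤ m →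
      ∑ r ∈ PL K d, ∑ v ∈ PL K m, |QS h ((X ^ m + v) ^ p + r) -
        (Fintype.card K : ℝ) ^ h * (1 - 1 / (Fintype.card K : ℝ))| ≤
      C * (Fintype.card K : ℝ) ^ (m + d + h - h / 2) := by
  have hp2 : 2 ≤ p := (Fact.out : p.Prime).two_le
  have hpne : p ≠ 2 := by
    rintro rfl
    exact hK (ringChar.eq K 2)
  have hq0 : (0 : ℝ) < Fintype.card K := by exact_mod_cast Fintype.card_pos
  refine ⟨2 * p + 4, by positivity, fun h d m hh hd hdm => ?_⟩
  have hd' : 2 * p * h ≤ d := by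
    have h1 : ((2 * p * h : ℕ) : ℝ) ≤ d := by
      refine le_trans ?_ hd
      push_cast
      have : (0 : ℝ) ≤ h := Nat.cast_nonneg _
      nlinarith
    exact_mod_cast h1
  have h2 := sqf_count (K := K) p (by omega) hh hd' hdm
  have h3 : (Fintype.card K : ℝ) ^ h * (1 - 1 / (Fintype.card K : ℝ)) =
      (Fintype.card K : ℝ) ^ h - (Fintype.card K : ℝ) ^ (h - 1) := by
    obtain ⟨k, rfl⟩ : ∃ k, h = k + 1 := ⟨h - 1, by omega⟩
    rw [Nat.add_sub_cancel, pow_succ]
    field_simp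
  have h4 : (2 * (p : ℝ) + 4) * (Fintype.card K : ℝ) ^ h *
        ((Fintype.card K : ℝ) ^ (m + d) / (Fintype.card K : ℝ) ^ (h / 2)) =
      (2 * p + 4) * (Fintype.card K : ℝ) ^ (m + d + h - h / 2) := by
    rw [mul_assoc]
    congr 1
    rw [mul_div_assoc', div_eq_iff (pow_pos hq0 _).ne', ← pow_add, ← pow_add]
    congr 1
    omega
  rw [h3, ← h4]
  refine le_trans (le_of_eq ?_) h2
  refine Finset.sum_congr rfl fun r _ => Finset.sum_congr rfl fun v _ => ?_
  rw [QS]
  simp_rw [add_assoc]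

end P4f18dfF
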