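import Pool.Agent.Lib.P4f18dfF.A6
import Pool.Agent.Lib.P4f18dfF.M7

/-! Squarefree polynomials in short intervals around `A (w+v)^p + r`, on average. -/

set_option autoImplicit false

namespace P4f18dfF
open Polynomial Finset UniqueFactorizationMonoid Pool.Agent.P4f18dfF Pool.Agent.P4f18dfT

namespace A7X

section
variable {K : Type*} [Field K] [Fintype K]

/-- the error of the truncated divisor sum -/
noncomputable def er0 (n : ℕ) (F : K[X]) : ℝ := |((mu F ^ 2 - tr n F : ℤ) : ℝ)|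

lemma er0_trivial (n : ℕ) (F : K[X]) : er0 n F ≤ 3 * (Fintype.card K : ℝ) ^ n := by
  classical
  have hq : (1 : ℝ) ≤ Fintype.card K := by exact_mod_cast Fintype.card_pos
  have h1 : |(mu F : ℝ)| ≤ 1 := by exact_mod_cast abs_mu_le _
  have h2 : |(tr n F : ℝ)| ≤ 2 * (Fintype.card K : ℝ) ^ n := by
    have h3 : |tr n F| ≤ ((LTM K n).card : ℤ) := by
      rw [tr]
      refine (Finset.abs_sum_le_sum_abs _ _).trans ?_
      refine (Finset.sum_le_sum fun g _ => abs_mu_le g).trans ?_
      simp only [sum_const, nsmul_eq_mul, mul_one]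
      exact_mod_cast card_filter_le _ _
    have h4 : (((LTM K n).card : ℤ) : ℝ) ≤ 2 * (Fintype.card K : ℝ) ^ n := by
      exact_mod_cast card_LTM_le (K := K) n
    refine le_trans ?_ h4
    exact_mod_cast h3
  rw [er0]
  push_cast
  have h5 : |(mu F : ℝ) ^ 2| ≤ 1 := by
    rw [abs_pow]
    exact pow_le_one₀ (abs_nonneg _) h1
  have h6 : (1 : ℝ) ≤ (Fintype.card K : ℝ) ^ n := one_le_pow₀ hq
  calc |(mu F : ℝ) ^ 2 - (tr n F : ℝ)|
      ≤ |(mu F : ℝ) ^ 2| + |(tr n F : ℝ)| := abs_sub _ _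
    _ ≤ 3 * (Fintype.card K : ℝ) ^ n := by linarith

omit [Fintype K] in
/-- splitting off the part dividing `A` -/
lemma split_g {g A : K[X]} (hg : g.Monic) (hs : Squarefree g) :
    ∃ x : K[X] × K[X], g = x.1 * x.2 ∧ x.1.Monic ∧ x.2.Monic ∧ x.1 ∣ A ∧ IsCoprime x.2 A ∧
      Squarefree x.2 := by
  classical
  set c := EuclideanDomain.gcd g A with hc
  have hcg : c ∣ g := EuclideanDomain.gcd_dvd_left _ _
  have hcA : c ∣ A := EuclideanDomain.gcd_dvd_right _ _
  obtain ⟨e, he⟩ := hcg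
  have hc0 : c ≠ 0 := by
    intro h; rw [h, zero_mul] at he; exact hg.ne_zero he
  have he0 : e ≠ 0 := by
    intro h; rw [h, mul_zero] at he; exact hg.ne_zero he
  have hlc : c.leadingCoeff * e.leadingCoeff = 1 := by
    rw [← leadingCoeff_mul, ← he]; exact hg
  have hl0 : c.leadingCoeff ≠ 0 := leadingCoeff_ne_zero.2 hc0
  have hle0 : e.leadingCoeff ≠ 0 := leadingCoeff_ne_zero.2 he0
  have hCC : C e.leadingCoeff * C c.leadingCoeff = (1 : K[X]) := by
    rw [← C_mul, mul_comm, hlc, C_1]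
  have hprod : g = c * C e.leadingCoeff * (e * C c.leadingCoeff) := by
    rw [he]; linear_combination (-(c * e)) * hCC
  refine ⟨(c * C e.leadingCoeff, e * C c.leadingCoeff), hprod, ?_, ?_, ?_, ?_, ?_⟩
  · rw [Monic, leadingCoeff_mul, leadingCoeff_C, hlc]
  · rw [Monic, leadingCoeff_mul, leadingCoeff_C, mul_comm, hlc]
  · exact (IsUnit.mul_right_dvd (isUnit_C.2 (isUnit_iff_ne_zero.2 hle0))).2 hcA
  · refine isCoprime_of_irreducible_dvd ?_ ?_
    · rintro ⟨h, _⟩
      exact (mul_ne_zero he0 (C_ne_zero.2 hl0)) h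
    · intro z hz hze hzA
      have h1 : z ∣ e := (IsUnit.dvd_mul_right (isUnit_C.2 (isUnit_iff_ne_zero.2 hl0))).1 hze
      have h2 : z ∣ g := by rw [he]; exact h1.mul_left _
      have h3 : z ∣ c := EuclideanDomain.dvd_gcd h2 hzA
      have h4 : z * z ∣ g := by rw [he]; exact mul_dvd_mul h3 h1
      exact hz.not_isUnit (hs z h4)
  · exact hs.squarefree_of_dvd (Dvd.intro_left _ hprod.symm)

omit [Fintype K] in
lemma dvd_WA {g F : K[X]} (A : K[X]) (h : g ^ 2 ∣ F) : g ∣ WA A F := by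
  obtain ⟨c, hc⟩ := h
  refine ⟨A * (2 * derivative g * c + g * derivative c) - derivative A * (g * c), ?_⟩
  rw [WA, hc, derivative_mul, pow_two, derivative_mul]
  ring

open Classical in
/-- the moduli of middle degree -/
noncomputable def S1 (K : Type*) [Field K] [Fintype K] (n d : ℕ) : Finset K[X] :=
  (LTM K d).filter (fun g => n < g.natDegree ∧ 2 * g.natDegree ≤ d)

open Classical in
/-- the moduli of large degree, prime to `A` -/
noncomputable def T2 (A : K[X]) (d : ℕ) : Finset K[X] :=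
  (LTM K (d + A.natDegree)).filter (fun g => (d < 2 * (g.natDegree + A.natDegree) ∧
    g.natDegree < d + A.natDegree) ∧ Squarefree g ∧ IsCoprime g A)

open Classical in
lemma er0_le {A F b : K[X]} {n d : ℕ} (hA : A.Monic) (hF : F ≠ 0) (hFA : WA A F = WA A b)
    (hW : WA A b ≠ 0) (hb : b ∈ PL K d) :
    er0 n F ≤ (∑ g ∈ S1 K n d, if g ^ 2 ∣ F then (1 : ℝ) else 0) +
      2 * (Fintype.card K : ℝ) ^ A.natDegree *
        ∑ g ∈ (T2 A d).filter (fun g => g ∣ WA A b), if g ∣ F then (1 : ℝ) else 0 := by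
  have h1 := abs_sub_tr_le n hF
  set S := (LTM K (max n F.natDegree)).filter
      (fun g => g ^ 2 ∣ F ∧ n < g.natDegree ∧ Squarefree g) with hS
  have h2 : er0 n F ≤ (S.card : ℝ) := by
    rw [er0]
    exact_mod_cast h1
  refine h2.trans ?_
  rw [← Finset.sum_filter, Finset.sum_const, nsmul_eq_mul, mul_one,
    ← Finset.sum_filter, Finset.sum_const, nsmul_eq_mul, mul_one, Finset.filter_filter]
  set S1' := (S1 K n d).filter (fun g => g ^ 2 ∣ F) with hS1'
  set T' := (T2 A d).filter (fun g => g ∣ WA A b ∧ g ∣ F) with hT'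
  set S2' := S.filter (fun g => d < 2 * g.natDegree) with hS2'
  have hsub : S ⊆ S1' ∪ S2' := by
    intro g hg
    have hg' := hg
    rw [hS, mem_filter, mem_LTM] at hg'
    obtain ⟨⟨hgm, _⟩, hgF, hng, hgs⟩ := hg'
    rw [mem_union]
    by_cases hc : 2 * g.natDegree ≤ d
    · left
      rw [hS1', mem_filter, S1, mem_filter, mem_LTM]
      exact ⟨⟨⟨hgm, by omega⟩, hng, hc⟩, hgF⟩
    · right
      rw [hS2', mem_filter]
      exact ⟨hg, by omega⟩
  have hS2 : S2'.card ≤ (LTM K A.natDegree).card * T'.card := by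
    have hch : ∀ g : K[X], ∃ x : K[X] × K[X], g ∈ S2' → (g = x.1 * x.2 ∧ x.1.Monic ∧ x.2.Monic ∧
        x.1 ∣ A ∧ IsCoprime x.2 A ∧ Squarefree x.2) := by
      intro g
      by_cases hg : g ∈ S2'
      · have hg' := hg
        rw [hS2', mem_filter, hS, mem_filter, mem_LTM] at hg'
        obtain ⟨x, hx⟩ := split_g (A := A) hg'.1.1.1 hg'.1.2.2.2
        exact ⟨x, fun _ => hx⟩
      · exact ⟨(0, 0), fun h => absurd h hg⟩
    choose f hf using hch
    rw [← card_product]
    refine Finset.card_le_card_of_injOn f ?_ ?_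
    · intro g hg
      rw [Finset.mem_coe] at hg
      obtain ⟨e1, e2, e3, e4, e5, e6⟩ := hf g hg
      rw [hS2', mem_filter, hS, mem_filter, mem_LTM] at hg
      obtain ⟨⟨⟨hgm, _⟩, hgF, hng, hgs⟩, hgd⟩ := hg
      have h3 : (f g).1.natDegree ≤ A.natDegree := natDegree_le_of_dvd e4 hA.ne_zero
      have h4 : g.natDegree = (f g).1.natDegree + (f g).2.natDegree := by
        conv_lhs => rw [e1]
        rw [natDegree_mul e2.ne_zero e3.ne_zero]
      have h5 : (f g).2 ∣ g := by
        conv_rhs => rw [e1]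
        exact dvd_mul_left _ _
      have h6 : (f g).2 ^ 2 ∣ F := (pow_dvd_pow_of_dvd h5 2).trans hgF
      have h7 : (f g).2 ∣ WA A b := by rw [← hFA]; exact dvd_WA A h6
      have h8 : (f g).2.natDegree ≤ (WA A b).natDegree := natDegree_le_of_dvd h7 hW
      have h9 : (WA A b).natDegree < d + A.natDegree := by
        have h10 := degree_WA_lt (A := A) (mem_PL.1 hb)
        rw [degree_eq_natDegree hW] at h10
        exact_mod_cast h10
      rw [Finset.mem_coe, mem_product, mem_LTM, hT', mem_filter, T2, mem_filter, mem_LTM]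
      exact ⟨⟨e2, h3⟩, ⟨⟨e3, by omega⟩, ⟨by omega, by omega⟩, e6, e5⟩, h7,
        (dvd_pow_self _ two_ne_zero).trans h6⟩
    · intro g hg g' hg' hgg
      rw [Finset.mem_coe] at hg hg'
      rw [(hf g hg).1, (hf g' hg').1, hgg]
  have hcard : (S.card : ℝ) ≤ (S1'.card : ℝ) + (S2'.card : ℝ) := by
    exact_mod_cast (card_le_card hsub).trans (card_union_le _ _)
  have hS2r : (S2'.card : ℝ) ≤ 2 * (Fintype.card K : ℝ) ^ A.natDegree * (T'.card : ℝ) := by
    have h11 : (S2'.card : ℝ) ≤ ((LTM K A.natDegree).card : ℝ) * (T'.card : ℝ) := by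
      exact_mod_cast hS2
    have h12 : ((LTM K A.natDegree).card : ℝ) ≤ 2 * (Fintype.card K : ℝ) ^ A.natDegree := by
      exact_mod_cast card_LTM_le (K := K) A.natDegree
    exact h11.trans (mul_le_mul_of_nonneg_right h12 (Nat.cast_nonneg _))
  linarith

lemma sum_S1_le (n d m : ℕ) :
    ∑ g ∈ S1 K n d, (Fintype.card K : ℝ) ^ m * (Fintype.card K : ℝ) ^ (d - 2 * g.natDegree) ≤
      (Fintype.card K : ℝ) ^ (m + d) * (1 / (Fintype.card K : ℝ) ^ n) := by
  classical
  set q : ℝ := (Fintype.card K : ℝ) with hqdef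
  have hq2 : (2 : ℝ) ≤ q := by
    rw [hqdef]; exact_mod_cast (Fintype.one_lt_card : 1 < Fintype.card K)
  have hq0 : (0 : ℝ) < q := by linarith
  rw [S1, Finset.sum_filter, sum_LTM]
  have h1 : ∀ j ∈ range (d + 1), ∑ g ∈ Mon K j, (if n < g.natDegree ∧ 2 * g.natDegree ≤ d then
      q ^ m * q ^ (d - 2 * g.natDegree) else 0) ≤
      if n < j ∧ j < d then q ^ (m + d) * (1 / q ^ j) else 0 := by
    intro j _
    have h2 : ∀ g ∈ Mon K j, (if n < g.natDegree ∧ 2 * g.natDegree ≤ d then
      q ^ m * q ^ (d - 2 * g.natDegree) else 0) =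
      (if n < j ∧ 2 * j ≤ d then q ^ m * q ^ (d - 2 * j) else 0) := by
      intro g hg
      rw [(mem_Mon.1 hg).2]
    rw [Finset.sum_congr rfl h2, Finset.sum_const, card_Mon, nsmul_eq_mul]
    by_cases hj : n < j ∧ 2 * j ≤ d
    · rw [if_pos hj, if_pos ⟨hj.1, by omega⟩]
      push_cast
      rw [← hqdef, mul_one_div, le_div_iff₀ (pow_pos hq0 _), ← pow_add, ← pow_add, ← pow_add]
      exact le_of_eq (by congr 1; omega)
    · rw [if_neg hj, mul_zero]
      split_ifs
      · positivity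
      · exact le_rfl
  refine (Finset.sum_le_sum h1).trans ?_
  rw [← Finset.sum_filter, ← Finset.mul_sum]
  exact mul_le_mul_of_nonneg_left (geom_tail hq2 n d) (by positivity)

lemma sum_T2_le (A : K[X]) (d m : ℕ) :
    ∑ g ∈ T2 A d, (Fintype.card K : ℝ) ^ m / (Fintype.card K : ℝ) ^ g.natDegree ≤
      (Fintype.card K : ℝ) ^ m * (d + A.natDegree : ℕ) := by
  classical
  set q : ℝ := (Fintype.card K : ℝ) with hqdef
  have hq2 : (2 : ℝ) ≤ q := by
    rw [hqdef]; exact_mod_cast (Fintype.one_lt_card : 1 < Fintype.card K)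
  have hq0 : (0 : ℝ) < q := by linarith
  have h0 : ∑ g ∈ T2 A d, q ^ m / q ^ g.natDegree ≤
      ∑ g ∈ (LTM K (d + A.natDegree)).filter (fun g => g.natDegree < d + A.natDegree),
        q ^ m / q ^ g.natDegree := by
    refine Finset.sum_le_sum_of_subset_of_nonneg ?_ ?_
    · intro g hg
      rw [T2, mem_filter] at hg
      exact mem_filter.2 ⟨hg.1, hg.2.1.2⟩
    · intro g _ _
      positivity
  refine h0.trans ?_
  rw [Finset.sum_filter, sum_LTM]
  have h1 : ∀ j ∈ range (d + A.natDegree + 1), ∑ g ∈ Mon K j,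
      (if g.natDegree < d + A.natDegree then q ^ m / q ^ g.natDegree else 0) =
      if j < d + A.natDegree then q ^ m else 0 := by
    intro j _
    have h2 : ∀ g ∈ Mon K j, (if g.natDegree < d + A.natDegree then
      q ^ m / q ^ g.natDegree else 0) =
      (if j < d + A.natDegree then q ^ m / q ^ j else 0) := by
      intro g hg
      rw [(mem_Mon.1 hg).2]
    rw [Finset.sum_congr rfl h2, Finset.sum_const, card_Mon, nsmul_eq_mul]
    split_ifs
    · push_cast
      rw [← hqdef]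
      field_simp
    · rw [mul_zero]
  rw [Finset.sum_congr rfl h1, ← Finset.sum_filter, Finset.sum_const, nsmul_eq_mul, mul_comm]
  refine mul_le_mul_of_nonneg_left ?_ (by positivity)
  have h3 : ((range (d + A.natDegree + 1)).filter (fun j => j < d + A.natDegree)).card ≤
      d + A.natDegree := by
    have : (range (d + A.natDegree + 1)).filter (fun j => j < d + A.natDegree) ⊆
        range (d + A.natDegree) := by
      intro j hj
      rw [mem_filter] at hj
      exact mem_range.2 hj.2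
    have := card_le_card this
    rwa [card_range] at this
  exact_mod_cast h3

variable (p : ℕ) [Fact p.Prime] [CharP K p]

open Classical in
/-- few `v` with `g | A (w+v)^p + b` -/
lemma card_vA_le {A g : K[X]} (hg : g.Monic) (hs : Squarefree g) (hgA : IsCoprime g A) {m : ℕ}
    (hm : g.natDegree ≤ m) (w b : K[X]) :
    ((PL K m).filter (fun v => g ∣ A * (w + v) ^ p + b)).card ≤
      Fintype.card K ^ (m - g.natDegree) := by
  rcases ((PL K m).filter (fun v => g ∣ A * (w + v) ^ p + b)).eq_empty_or_nonempty with h | ⟨v₀, hv₀⟩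
  · rw [h]; simp
  rw [mem_filter] at hv₀
  rw [← card_cong hg hm (-v₀)]
  refine Finset.card_le_card_of_injOn (fun v => v) ?_ (fun _ _ _ _ h => h)
  intro v hv
  rw [Finset.mem_coe, mem_filter] at hv ⊢
  refine ⟨hv.1, ?_⟩
  have h1 : g ∣ A * (v - v₀) ^ p := by
    have h2 := dvd_sub hv.2 hv₀.2
    have h3 : (v - v₀) ^ p = (w + v) ^ p - (w + v₀) ^ p := by
      rw [← sub_pow_char]; congr 1; ring
    rw [h3]
    have h4 : A * ((w + v) ^ p - (w + v₀) ^ p) = A * (w + v) ^ p + b - (A * (w + v₀) ^ p + b) := by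
      ring
    rw [h4]; exact h2
  have h5 := hgA.dvd_of_dvd_mul_left h1
  have h6 := (hs.dvd_pow_iff_dvd (Fact.out : p.Prime).ne_zero).1 h5
  rw [show -v₀ + v = v - v₀ by ring]
  exact h6

open Classical in
/-- few `b` with `g | WA A b` -/
lemma card_bA_mul_le {A g : K[X]} (hA : A.Monic) (hg : g.Monic) (hs : Squarefree g)
    (hgA : IsCoprime g A) {d i : ℕ} (hi : i ≤ g.natDegree) (hd : A.natDegree + p * i ≤ d) :
    ((PL K d).filter (fun b => g ∣ WA A b)).card * Fintype.card K ^ i ≤ Fintype.card K ^ d := by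
  have hp := (Fact.out : p.Prime).two_le
  rw [← card_PL (K := K) i, ← card_PL (K := K) d, ← card_product]
  refine Finset.card_le_card_of_injOn (fun x => x.1 + A * X * x.2 ^ p) ?_ ?_
  · rintro ⟨b, c⟩ hx
    rw [Finset.mem_coe, mem_product, mem_filter] at hx
    simp only at hx ⊢
    rw [Finset.mem_coe]
    refine add_mem_PL hx.1.1 ?_
    rw [mem_PL]
    rcases eq_or_ne c 0 with rfl | hc
    · rw [zero_pow (by omega), mul_zero]; simp [bot_lt_iff_ne_bot]
    · have h1 := mem_PL.1 hx.2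
      rw [degree_eq_natDegree hc] at h1
      have h2 : c.natDegree < i := by exact_mod_cast h1
      have hne : A * X * c ^ p ≠ 0 := mul_ne_zero (mul_ne_zero hA.ne_zero X_ne_zero) (pow_ne_zero _ hc)
      rw [degree_eq_natDegree hne, natDegree_mul (mul_ne_zero hA.ne_zero X_ne_zero)
        (pow_ne_zero _ hc), natDegree_mul hA.ne_zero X_ne_zero, natDegree_X, natDegree_pow]
      have h3 : A.natDegree + 1 + p * c.natDegree < d := by
        have : p * (c.natDegree + 1) ≤ p * i := Nat.mul_le_mul_left p h2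
        rw [mul_add, mul_one] at this
        omega
      exact_mod_cast h3
  · rintro ⟨b, c⟩ hx ⟨b', c'⟩ hx' h
    rw [Finset.mem_coe, mem_product, mem_filter] at hx hx'
    simp only at hx hx' h
    have hder : ∀ b c : K[X], WA A (b + A * X * c ^ p) = WA A b + A * (A * c ^ p) := by
      intro b c
      rw [WA_add, WA, WA, derivative_mul, derivative_mul, derivative_pow, CharP.cast_eq_zero,
        derivative_X]
      simp only [map_zero, zero_mul, mul_zero, add_zero, mul_one]
      ring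
    have h1 := congrArg (WA A) h
    rw [hder, hder] at h1
    have h2 : g ∣ A * (A * (c ^ p - c' ^ p)) := by
      have h3 : A * (A * (c ^ p - c' ^ p)) = WA A b' - WA A b := by linear_combination h1
      rw [h3]
      exact dvd_sub hx'.1.2 hx.1.2
    have h2' := hgA.dvd_of_dvd_mul_left (hgA.dvd_of_dvd_mul_left h2)
    rw [← sub_pow_char] at h2'
    have h4 := (hs.dvd_pow_iff_dvd (by omega)).1 h2'
    have h5 : (c - c').degree < g.degree := by
      rw [degree_eq_natDegree hg.ne_zero]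
      have : (c - c') ∈ PL K i := by
        rw [sub_eq_add_neg]; exact add_mem_PL hx.2 (neg_mem_PL hx'.2)
      exact (mem_PL.1 this).trans_le (by exact_mod_cast hi)
    have h6 := eq_zero_of_dvd_of_degree_lt h4 h5
    have h7 : c = c' := sub_eq_zero.1 h6
    subst h7
    have h8 : b = b' := add_right_cancel h
    rw [h8]

omit [Fintype K] [Fact p.Prime] [CharP K p] in
lemma center_ne_zero {A w v b : K[X]} {m d : ℕ} (hA : A.Monic) (hw : w.Monic)
    (hmw : m ≤ w.natDegree) (hp : 1 ≤ p) (hv : v.degree < m) (hb : b.degree < d) (hdm : d ≤ m) :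
    A * (w + v) ^ p + b ≠ 0 := by
  have hvw : v.degree < w.degree := by
    rw [degree_eq_natDegree hw.ne_zero]
    exact hv.trans_le (by exact_mod_cast hmw)
  have hm1 : (w + v).Monic := hw.add_of_left hvw
  have hn1 : (w + v).natDegree = w.natDegree := natDegree_add_eq_left_of_degree_lt hvw
  have hm2 : (A * (w + v) ^ p).Monic := hA.mul (hm1.pow p)
  have hn2 : (A * (w + v) ^ p).natDegree = A.natDegree + p * w.natDegree := by
    rw [hA.natDegree_mul (hm1.pow p), hm1.natDegree_pow, hn1]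
  have hlt : b.degree < (A * (w + v) ^ p).degree := by
    rw [degree_eq_natDegree hm2.ne_zero, hn2]
    refine hb.trans_le ?_
    have h1 : d ≤ A.natDegree + p * w.natDegree := by
      have : 1 * w.natDegree ≤ p * w.natDegree := Nat.mul_le_mul_right _ hp
      omega
    exact_mod_cast h1
  exact (hm2.add_of_left hlt).ne_zero

/-- the tail -/
lemma sum_er0_le {A w : K[X]} {n d m E : ℕ} (hA : A.Monic) (hw : w.Monic)
    (hmw : m ≤ w.natDegree) (hdm : d + A.natDegree ≤ m)
    (hE1 : ∀ g ∈ T2 A d, E ≤ g.natDegree) (hE2 : A.natDegree + p * E ≤ d) :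
    ∑ b ∈ PL K d, ∑ v ∈ PL K m, er0 n (A * (w + v) ^ p + b) ≤
      (Fintype.card K : ℝ) ^ ((d + p - 1) / p) * ((Fintype.card K : ℝ) ^ m *
        (3 * (Fintype.card K : ℝ) ^ n)) +
      ((Fintype.card K : ℝ) ^ (m + d) * (1 / (Fintype.card K : ℝ) ^ n) +
        2 * (Fintype.card K : ℝ) ^ A.natDegree * ((Fintype.card K : ℝ) ^ m *
          (d + A.natDegree : ℕ) * ((Fintype.card K : ℝ) ^ d / (Fintype.card K : ℝ) ^ E))) := by
  classical
  have hq0 : (0 : ℝ) < Fintype.card K := by exact_mod_cast Fintype.card_pos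
  have hp := (Fact.out : p.Prime).pos
  set q : ℝ := (Fintype.card K : ℝ) with hq
  rw [← Finset.sum_filter_add_sum_filter_not (PL K d) (fun b => WA A b = 0)]
  refine add_le_add ?_ ?_
  · have h1 : ∀ b ∈ (PL K d).filter (fun b => WA A b = 0),
        ∑ v ∈ PL K m, er0 n (A * (w + v) ^ p + b) ≤ q ^ m * (3 * q ^ n) := by
      intro b _
      refine (Finset.sum_le_card_nsmul _ _ _ fun v _ => er0_trivial n _).trans ?_
      rw [card_PL, nsmul_eq_mul]
      push_cast
      exact le_rfl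
    refine (Finset.sum_le_card_nsmul _ _ _ h1).trans ?_
    rw [nsmul_eq_mul]
    have h2 : (((PL K d).filter (fun b => WA A b = 0)).card : ℝ) ≤ q ^ ((d + p - 1) / p) := by
      rw [hq]; exact_mod_cast card_fibA p hA d (0 : K[X])
    gcongr
  · have h1 : ∀ b ∈ (PL K d).filter (fun b => ¬ WA A b = 0),
        ∑ v ∈ PL K m, er0 n (A * (w + v) ^ p + b) ≤
          (∑ v ∈ PL K m, ∑ g ∈ S1 K n d, if g ^ 2 ∣ A * (w + v) ^ p + b then (1 : ℝ) else 0) +
          2 * q ^ A.natDegree *
            ∑ g ∈ T2 A d, if g ∣ WA A b then q ^ m / q ^ g.natDegree else 0 := by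
      intro b hb
      rw [mem_filter] at hb
      calc ∑ v ∈ PL K m, er0 n (A * (w + v) ^ p + b)
          ≤ ∑ v ∈ PL K m, ((∑ g ∈ S1 K n d, if g ^ 2 ∣ A * (w + v) ^ p + b then (1 : ℝ) else 0) +
            2 * q ^ A.natDegree * ∑ g ∈ (T2 A d).filter (fun g => g ∣ WA A b),
              if g ∣ A * (w + v) ^ p + b then (1 : ℝ) else 0) := by
            refine Finset.sum_le_sum fun v hv => ?_
            exact er0_le hA (center_ne_zero p hA hw hmw hp (mem_PL.1 hv) (mem_PL.1 hb.1) (by omega))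
              (WA_center p A (w + v) b) hb.2 hb.1
        _ = (∑ v ∈ PL K m, ∑ g ∈ S1 K n d, if g ^ 2 ∣ A * (w + v) ^ p + b then (1 : ℝ) else 0) +
            2 * q ^ A.natDegree * ∑ g ∈ (T2 A d).filter (fun g => g ∣ WA A b), ∑ v ∈ PL K m,
              (if g ∣ A * (w + v) ^ p + b then (1 : ℝ) else 0) := by
            rw [Finset.sum_add_distrib, ← Finset.mul_sum]
            congr 2
            exact Finset.sum_comm
        _ ≤ (∑ v ∈ PL K m, ∑ g ∈ S1 K n d, if g ^ 2 ∣ A * (w + v) ^ p + b then (1 : ℝ) else 0) +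
            2 * q ^ A.natDegree * ∑ g ∈ (T2 A d).filter (fun g => g ∣ WA A b),
              q ^ m / q ^ g.natDegree := by
            refine add_le_add le_rfl (mul_le_mul_of_nonneg_left ?_ (by positivity))
            refine Finset.sum_le_sum fun g hg => ?_
            rw [mem_filter, T2, mem_filter, mem_LTM] at hg
            rw [← Finset.sum_filter, Finset.sum_const, nsmul_eq_mul, mul_one]
            have hgm : g.natDegree ≤ m := by have := hg.1.1.2; omega
            have h3 := card_vA_le p hg.1.1.1 hg.1.2.2.1 hg.1.2.2.2 hgm w b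
            have h4 : q ^ m / q ^ g.natDegree = q ^ (m - g.natDegree) := by
              rw [div_eq_iff (pow_pos hq0 _).ne', ← pow_add]
              congr 1; omega
            rw [h4, hq]
            exact_mod_cast h3
        _ = _ := by
            rw [Finset.sum_filter]
    have h5 : ∑ b ∈ (PL K d).filter (fun b => ¬ WA A b = 0),
          ∑ v ∈ PL K m, er0 n (A * (w + v) ^ p + b) ≤
        ∑ b ∈ PL K d, ((∑ v ∈ PL K m, ∑ g ∈ S1 K n d,
            if g ^ 2 ∣ A * (w + v) ^ p + b then (1 : ℝ) else 0) +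
          2 * q ^ A.natDegree *
            ∑ g ∈ T2 A d, if g ∣ WA A b then q ^ m / q ^ g.natDegree else 0) := by
      refine (Finset.sum_le_sum h1).trans ?_
      refine Finset.sum_le_sum_of_subset_of_nonneg (filter_subset _ _) ?_
      intro b _ _
      refine add_nonneg ?_ (mul_nonneg (by positivity) ?_)
      · refine Finset.sum_nonneg fun v _ => Finset.sum_nonneg fun g _ => ?_
        split_ifs <;> norm_num
      · refine Finset.sum_nonneg fun g _ => ?_
        split_ifs
        · positivity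
        · exact le_rfl
    refine h5.trans ?_
    rw [Finset.sum_add_distrib]
    refine add_le_add ?_ ?_
    · rw [Finset.sum_comm]
      have h6 : ∀ v ∈ PL K m, ∑ b ∈ PL K d, ∑ g ∈ S1 K n d,
          (if g ^ 2 ∣ A * (w + v) ^ p + b then (1 : ℝ) else 0) =
          ∑ g ∈ S1 K n d, q ^ (d - 2 * g.natDegree) := by
        intro v _
        rw [Finset.sum_comm]
        refine Finset.sum_congr rfl fun g hg => ?_
        rw [S1, mem_filter, mem_LTM] at hg
        have hd2 : (g ^ 2).natDegree = 2 * g.natDegree := hg.1.1.natDegree_pow 2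
        rw [← Finset.sum_filter, Finset.sum_const, nsmul_eq_mul, mul_one,
          card_cong (hg.1.1.pow 2) (by rw [hd2]; exact hg.2.2), hd2]
        push_cast
        rfl
      rw [Finset.sum_congr rfl h6, Finset.sum_const, card_PL, nsmul_eq_mul, Finset.mul_sum]
      push_cast
      exact sum_S1_le n d m
    · rw [← Finset.mul_sum]
      refine mul_le_mul_of_nonneg_left ?_ (by positivity)
      rw [Finset.sum_comm]
      have h6 : ∀ g ∈ T2 A d, ∑ b ∈ PL K d, (if g ∣ WA A b then q ^ m / q ^ g.natDegree else 0) ≤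
          q ^ m / q ^ g.natDegree * (q ^ d / q ^ E) := by
        intro g hg
        have hEg := hE1 g hg
        rw [T2, mem_filter, mem_LTM] at hg
        rw [← Finset.sum_filter, Finset.sum_const, nsmul_eq_mul, mul_comm]
        have h7 := card_bA_mul_le p hA hg.1.1 hg.2.2.1 hg.2.2.2 hEg hE2
        have h8 : (((PL K d).filter (fun b => g ∣ WA A b)).card : ℝ) * q ^ E ≤ q ^ d := by
          rw [hq]; exact_mod_cast h7
        have h9 : (((PL K d).filter (fun b => g ∣ WA A b)).card : ℝ) ≤ q ^ d / q ^ E := by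
          rw [le_div_iff₀ (pow_pos hq0 _)]; exact h8
        gcongr
      refine (Finset.sum_le_sum h6).trans ?_
      rw [← Finset.sum_mul]
      exact mul_le_mul_of_nonneg_right (sum_T2_le A d m) (by positivity)

/-- the numerical bound -/
lemma tail_numA (a h d m E : ℕ) (hp : 2 ≤ p) (hh : 2 ≤ h) (hd : 8 * p * (h + a) ≤ d)
    (hE : E = d / (2 * p)) :
    (Fintype.card K : ℝ) ^ ((d + p - 1) / p) * ((Fintype.card K : ℝ) ^ m *
        (3 * (Fintype.card K : ℝ) ^ (h / 2))) +
      ((Fintype.card K : ℝ) ^ (m + d) * (1 / (Fintype.card K : ℝ) ^ (h / 2)) +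
        2 * (Fintype.card K : ℝ) ^ a * ((Fintype.card K : ℝ) ^ m *
          (d + a : ℕ) * ((Fintype.card K : ℝ) ^ d / (Fintype.card K : ℝ) ^ E))) ≤
    (16 * p + 4) * ((Fintype.card K : ℝ) ^ (m + d) / (Fintype.card K : ℝ) ^ (h / 2)) := by
  set q : ℝ := (Fintype.card K : ℝ) with hqdef
  have hq2 : (2 : ℝ) ≤ q := by
    rw [hqdef]; exact_mod_cast (Fintype.one_lt_card : 1 < Fintype.card K)
  have hq0 : (0 : ℝ) < q := by linarith
  have hE2 : 4 * (h + a) ≤ E := by
    rw [hE, Nat.le_div_iff_mul_le (by omega)]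
    calc 4 * (h + a) * (2 * p) = 8 * p * (h + a) := by ring
      _ ≤ d := hd
  have hEd : 2 * p * E ≤ d := by rw [hE]; exact Nat.mul_div_le d (2 * p)
  have hdE : d < 2 * p * (E + 1) := by
    have := Nat.lt_mul_div_succ d (show 0 < 2 * p by omega)
    rw [hE]; simpa [mul_comm] using this
  have h4E : 4 * E ≤ d := by
    have : 4 * E ≤ 2 * p * E := Nat.mul_le_mul_right E (by omega)
    omega
  have had : a ≤ d := by
    have : 1 * (h + a) ≤ 8 * p * (h + a) := Nat.mul_le_mul_right _ (by omega)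
    omega
  -- first part
  have h1 : q ^ ((d + p - 1) / p) * (q ^ m * (3 * q ^ (h / 2))) ≤ 3 * (q ^ (m + d) / q ^ (h / 2)) := by
    have e1 : (d + p - 1) / p ≤ (d + 1) / 2 := by
      rw [Nat.div_le_iff_le_mul_add_pred (by omega)]
      have h8 : d ≤ 2 * ((d + 1) / 2) := by omega
      have h9 : 2 * ((d + 1) / 2) ≤ p * ((d + 1) / 2) := Nat.mul_le_mul_right _ hp
      omega
    have e2 : (d + 1) / 2 + (h / 2 + h / 2) ≤ d := by omega
    rw [mul_div_assoc', le_div_iff₀ (pow_pos hq0 _)]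
    calc q ^ ((d + p - 1) / p) * (q ^ m * (3 * q ^ (h / 2))) * q ^ (h / 2)
        = 3 * q ^ ((d + p - 1) / p + m + h / 2 + h / 2) := by
          rw [pow_add, pow_add, pow_add]; ring
      _ ≤ 3 * q ^ (m + d) := by
          have : (d + p - 1) / p + m + h / 2 + h / 2 ≤ m + d := by omega
          have := pow_le_pow_right₀ (by linarith : (1 : ℝ) ≤ q) this
          linarith
  -- third part
  have h3 : 2 * q ^ a * (q ^ m * ((d + a : ℕ) : ℝ) * (q ^ d / q ^ E)) ≤
      16 * p * (q ^ (m + d) / q ^ (h / 2)) := by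
    have h6 : ((d + a : ℕ) : ℝ) ≤ 2 * (2 * p * (2 * 2 ^ (E - E / 2))) := by
      have h7 := aux_pow E
      have h8 : d ≤ 2 * p * (2 * 2 ^ (E - E / 2)) :=
        hdE.le.trans (Nat.mul_le_mul_left (2 * p) h7)
      have h9 : d + a ≤ 2 * (2 * p * (2 * 2 ^ (E - E / 2))) := by omega
      exact_mod_cast h9
    have h9 : (2 : ℝ) ^ (E - E / 2) ≤ q ^ (E - E / 2) := pow_le_pow_left₀ (by norm_num) hq2 _
    have h10 : q ^ a * q ^ (E - E / 2) * q ^ (h / 2) ≤ q ^ E := by
      rw [← pow_add, ← pow_add]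
      exact pow_le_pow_right₀ (by linarith) (by omega)
    have h11 : 2 * q ^ a * (q ^ m * ((d + a : ℕ) : ℝ) * (q ^ d / q ^ E)) =
        (2 * q ^ a * ((d + a : ℕ) : ℝ)) * q ^ (m + d) / q ^ E := by
      rw [pow_add]; ring
    have h12 : 16 * (p : ℝ) * (q ^ (m + d) / q ^ (h / 2)) =
        (16 * p) * q ^ (m + d) / q ^ (h / 2) := by ring
    rw [h11, h12, div_le_div_iff₀ (pow_pos hq0 _) (pow_pos hq0 _)]
    calc 2 * q ^ a * ((d + a : ℕ) : ℝ) * q ^ (m + d) * q ^ (h / 2)
        ≤ 2 * q ^ a * (2 * (2 * p * (2 * 2 ^ (E - E / 2)))) * q ^ (m + d) * q ^ (h / 2) := by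
          gcongr
      _ ≤ 2 * q ^ a * (2 * (2 * p * (2 * q ^ (E - E / 2)))) * q ^ (m + d) * q ^ (h / 2) := by
          gcongr
      _ = 16 * p * q ^ (m + d) * (q ^ a * q ^ (E - E / 2) * q ^ (h / 2)) := by ring
      _ ≤ 16 * p * q ^ (m + d) * q ^ E := by gcongr
  calc _ ≤ 3 * (q ^ (m + d) / q ^ (h / 2)) +
        (q ^ (m + d) * (1 / q ^ (h / 2)) + 16 * p * (q ^ (m + d) / q ^ (h / 2))) :=
        add_le_add h1 (add_le_add le_rfl h3)
    _ = (16 * p + 4) * (q ^ (m + d) / q ^ (h / 2)) := by ring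

/-- squarefree count in the intervals around `A (w+v)^p + r`, on average over `v` and `r` -/
theorem sqf_countA {h d m : ℕ} {A w : K[X]} (hA : A.Monic) (hw : w.Monic)
    (hmw : m ≤ w.natDegree) (hh : 2 ≤ h) (hd : 8 * p * (h + A.natDegree) ≤ d)
    (hdm : d + A.natDegree ≤ m) :
    ∑ r ∈ PL K d, ∑ v ∈ PL K m,
      |∑ s ∈ PL K h, (mu (A * (w + v) ^ p + (r + s)) : ℝ) ^ 2 -
        ((Fintype.card K : ℝ) ^ h - (Fintype.card K : ℝ) ^ (h - 1))| ≤
      (16 * p + 4) * (Fintype.card K : ℝ) ^ h *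
        ((Fintype.card K : ℝ) ^ (m + d) / (Fintype.card K : ℝ) ^ (h / 2)) := by
  classical
  have hp := (Fact.out : p.Prime).two_le
  have hle : 16 * (h + A.natDegree) ≤ d := by
    have : 16 * (h + A.natDegree) ≤ 8 * p * (h + A.natDegree) :=
      Nat.mul_le_mul_right _ (by omega)
    omega
  have hhd : h ≤ d := by omega
  have h1 : ∀ r ∈ PL K d, ∀ v ∈ PL K m,
      |∑ s ∈ PL K h, (mu (A * (w + v) ^ p + (r + s)) : ℝ) ^ 2 -
        ((Fintype.card K : ℝ) ^ h - (Fintype.card K : ℝ) ^ (h - 1))| ≤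
      ∑ s ∈ PL K h, er0 (h / 2) (A * (w + v) ^ p + (r + s)) := by
    intro r _ v _
    have h2 := sum_tr hh (A * (w + v) ^ p + r)
    have h3 : ((Fintype.card K : ℝ) ^ h - (Fintype.card K : ℝ) ^ (h - 1)) =
        ∑ s ∈ PL K h, ((tr (h / 2) (A * (w + v) ^ p + (r + s)) : ℤ) : ℝ) := by
      have h4 := congrArg (Int.cast : ℤ → ℝ) h2
      push_cast at h4
      rw [← h4]
      refine Finset.sum_congr rfl fun s _ => ?_
      rw [add_assoc]
    rw [h3, ← Finset.sum_sub_distrib]
    refine (Finset.abs_sum_le_sum_abs _ _).trans (le_of_eq ?_)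
    refine Finset.sum_congr rfl fun s _ => ?_
    rw [er0]
    push_cast
    rfl
  have h5 : ∑ r ∈ PL K d, ∑ v ∈ PL K m, ∑ s ∈ PL K h, er0 (h / 2) (A * (w + v) ^ p + (r + s)) =
      ∑ s ∈ PL K h, ∑ b ∈ PL K d, ∑ v ∈ PL K m, er0 (h / 2) (A * (w + v) ^ p + b) := by
    rw [Finset.sum_congr rfl fun r _ => Finset.sum_comm, Finset.sum_comm]
    refine Finset.sum_congr rfl fun s hs => ?_
    exact sum_PL_add d (fun b => ∑ v ∈ PL K m, er0 (h / 2) (A * (w + v) ^ p + b)) (PL_mono hhd hs)
  refine (Finset.sum_le_sum fun r hr => Finset.sum_le_sum fun v hv => h1 r hr v hv).trans ?_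
  rw [h5, Finset.sum_const, card_PL, nsmul_eq_mul]
  have hEd : 2 * p * (d / (2 * p)) ≤ d := Nat.mul_div_le d (2 * p)
  have h4E : 4 * (d / (2 * p)) ≤ d := by
    have : 4 * (d / (2 * p)) ≤ 2 * p * (d / (2 * p)) := Nat.mul_le_mul_right _ (by omega)
    omega
  have hE1 : ∀ g ∈ T2 A d, d / (2 * p) ≤ g.natDegree := by
    intro g hg
    rw [T2, mem_filter] at hg
    have := hg.2.1.1
    omega
  have hE2 : A.natDegree + p * (d / (2 * p)) ≤ d := by
    have : 2 * (p * (d / (2 * p))) ≤ d := by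
      calc 2 * (p * (d / (2 * p))) = 2 * p * (d / (2 * p)) := by ring
        _ ≤ d := hEd
    omega
  have h6 := (sum_er0_le (K := K) p (n := h / 2) hA hw hmw hdm hE1 hE2).trans
    (tail_numA p A.natDegree h d m (d / (2 * p)) hp hh hd rfl)
  push_cast
  calc (Fintype.card K : ℝ) ^ h * ∑ b ∈ PL K d, ∑ v ∈ PL K m, er0 (h / 2) (A * (w + v) ^ p + b)
      ≤ (Fintype.card K : ℝ) ^ h * ((16 * p + 4) *
        ((Fintype.card K : ℝ) ^ (m + d) / (Fintype.card K : ℝ) ^ (h / 2))) := by gcongr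
    _ = _ := by ring

end
end A7X

variable {K : Type*} [Field K] [Fintype K] [DecidableEq K]

/-- squarefree numbers on average -/
theorem sqf_meanA (p : ℕ) [Fact p.Prime] [CharP K p] (hK : ringChar K ≠ 2) :
    ∃ C : ℝ, 0 < C ∧ ∀ (h d m : ℕ) (A w : K[X]), 2 ≤ h → A.Monic → w.Monic → m ≤ w.natDegree →
      C * ((h : ℝ) + A.natDegree) ≤ d → C * (d : ℝ) ≤ m →
      ∑ r ∈ PL K d, ∑ v ∈ PL K m, |QS h (A * (w + v) ^ p + r) -
        (Fintype.card K : ℝ) ^ h * (1 - 1 / (Fintype.card K : ℝ))| ≤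
      C * (Fintype.card K : ℝ) ^ (m + d + h - h / 2) := by
  have hp2 : 2 ≤ p := (Fact.out : p.Prime).two_le
  have _ := hK
  have hq0 : (0 : ℝ) < Fintype.card K := by exact_mod_cast Fintype.card_pos
  refine ⟨16 * p + 4, by positivity, fun h d m A w hh hA hw hmw hd hdm => ?_⟩
  have hp0 : (0 : ℝ) ≤ p := Nat.cast_nonneg _
  have hd' : 8 * p * (h + A.natDegree) ≤ d := by
    have h1 : ((8 * p * (h + A.natDegree) : ℕ) : ℝ) ≤ d := by
      refine le_trans ?_ hd
      push_cast
      have : (0 : ℝ) ≤ (h : ℝ) + A.natDegree := by positivity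
      nlinarith
    exact_mod_cast h1
  have hm' : 4 * d ≤ m := by
    have h1 : ((4 * d : ℕ) : ℝ) ≤ m := by
      refine le_trans ?_ hdm
      push_cast
      have : (0 : ℝ) ≤ (d : ℝ) := by positivity
      nlinarith
    exact_mod_cast h1
  have had : A.natDegree ≤ d := by
    have : 1 * (h + A.natDegree) ≤ 8 * p * (h + A.natDegree) :=
      Nat.mul_le_mul_right _ (by omega)
    omega
  have h2 := A7X.sqf_countA (K := K) p hA hw hmw hh hd' (by omega)
  have h3 : (Fintype.card K : ℝ) ^ h * (1 - 1 / (Fintype.card K : ℝ)) =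
      (Fintype.card K : ℝ) ^ h - (Fintype.card K : ℝ) ^ (h - 1) := by
    obtain ⟨k, rfl⟩ : ∃ k, h = k + 1 := ⟨h - 1, by omega⟩
    rw [Nat.add_sub_cancel, pow_succ]
    field_simp
  have h4 : (16 * (p : ℝ) + 4) * (Fintype.card K : ℝ) ^ h *
        ((Fintype.card K : ℝ) ^ (m + d) / (Fintype.card K : ℝ) ^ (h / 2)) =
      (16 * p + 4) * (Fintype.card K : ℝ) ^ (m + d + h - h / 2) := by
    rw [mul_assoc]
    congr 1
    rw [mul_div_assoc', div_eq_iff (pow_pos hq0 _).ne', ← pow_add, ← pow_add]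
    congr 1
    omega
  rw [h3, ← h4]
  refine le_trans (le_of_eq ?_) h2
  refine Finset.sum_congr rfl fun r _ => Finset.sum_congr rfl fun v _ => ?_
  rw [QS]
  simp_rw [add_assoc]

end P4f18dfF
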