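import Pool.Agent.Lib.P4f18dfF.M8c

/-! M8, fourth part: the moments for one good remainder. -/

set_option autoImplicit false

namespace P4f18dfF
open Polynomial Finset Pool.Agent.P4f18dfF Pool.Agent.P4f18dfT

variable {K : Type*} [Field K] [Fintype K] [DecidableEq K]

omit [Fintype K] [DecidableEq K] in
lemma three_le (p : ℕ) [Fact p.Prime] [CharP K p] (hK : ringChar K ≠ 2) : 3 ≤ p := by
  have h1 : ringChar K = p := ringChar.eq K p
  have h2 := (Fact.out : p.Prime).two_le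
  have h3 : p ≠ 2 := h1 ▸ hK
  omega

lemma MS_eq {p m h : ℕ} {r : K[X]} {g : K[X] → K[X] → ℝ} (hs : Sur p m h r g) {v : K[X]}
    (hv : v ∈ PL K m) : MS h ((X ^ m + v) ^ p + r) = ∑ δ ∈ dd K h, XX h g δ v := by
  unfold MS XX
  rw [sum_dd h (fun a => g a v)]
  apply Finset.sum_congr rfl
  intro a ha
  rw [add_assoc, hs.val a ha v hv]

lemma QS_eq {p m h : ℕ} {r : K[X]} {g : K[X] → K[X] → ℝ} (hs : Sur p m h r g) {v : K[X]}
    (hv : v ∈ PL K m) : QS h ((X ^ m + v) ^ p + r) = ∑ δ ∈ dd K h, YY h g δ v := by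
  unfold QS YY
  rw [sum_dd h (fun a => g a v ^ 2)]
  apply Finset.sum_congr rfl
  intro a ha
  rw [add_assoc, hs.val a ha v hv]

/-- the moments for one good remainder -/
theorem core (p : ℕ) [Fact p.Prime] [CharP K p] (hK : ringChar K ≠ 2) (k : ℕ) :
    ∃ C : ℝ, 0 ≤ C ∧ ∀ h d m : ℕ, 4 ≤ h → h ≤ d → (k + 1) * d ≤ m → ∀ r ∈ PL K d,
      Good ((5 * k + 2) * h) h r →
      |ex (PL K m) (fun v => MS h ((X ^ m + v) ^ p + r) ^ k) -
        gm k * ex (PL K m) (fun v => QS h ((X ^ m + v) ^ p + r) ^ (k / 2))| ≤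
      C * √((Fintype.card K : ℝ) ^ h) ^ k * (Fintype.card K : ℝ) ^ (-(h : ℝ) / 6) := by
  obtain ⟨C0, hC0, hmom⟩ := mom5 (κ := K[X]) (ω := K[X]) k
  have hq1 : (1 : ℝ) < (Fintype.card K : ℝ) := by exact_mod_cast Fintype.one_lt_card
  have hq0 : (0 : ℝ) < (Fintype.card K : ℝ) := by linarith
  set q : ℝ := (Fintype.card K : ℝ) with hq
  refine ⟨C0 * (q + k * q ^ (2 * k)), by positivity, ?_⟩
  intro h d m hh hd hm r hr hgood
  have hdm : d ≤ m := by
    have : d ≤ (k + 1) * d := Nat.le_mul_of_pos_left _ (Nat.succ_pos _)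
    omega
  have hkd : k * d ≤ m := by
    have : k * d ≤ (k + 1) * d := Nat.mul_le_mul_right _ (Nat.le_succ _)
    omega
  obtain ⟨g, hs⟩ := exists_Sur p hK hr hd hdm hgood
  have hp := three_le (K := K) p hK
  set L : ℕ := (5 * k + 2) * h with hL
  have hkL : k * h < L := by rw [hL]; nlinarith
  set B : ℝ := ((cls (K := K) h 0).card : ℝ) with hB
  set R : ℝ := ((dd K h).card : ℝ) with hR
  have hB1 : 1 ≤ B := by rw [hB]; exact_mod_cast cls_zero_pos h
  have hB0 : 0 < B := by linarith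
  have hRB : R * B = q ^ h := by
    rw [hR, hB, hq]
    exact_mod_cast card_dd_mul h
  have hBle : B ≤ q ^ ((h + 2) / 3) := by
    rw [hB, hq]
    exact_mod_cast card_cls_zero_le p hp h
  have hR0 : 0 < R := by
    have h1 : 0 < R * B := by rw [hRB]; positivity
    by_contra hcon
    push Not at hcon
    nlinarith
  have hBB : B * B ≤ R * B := by
    rw [hRB]
    calc B * B ≤ q ^ ((h + 2) / 3) * q ^ ((h + 2) / 3) := by gcongr
      _ = q ^ ((h + 2) / 3 + (h + 2) / 3) := (pow_add _ _ _).symm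
      _ ≤ q ^ h := pow_le_pow_right₀ hq1.le (by omega)
  have hBR : B ≤ R := le_of_mul_le_mul_right hBB hB0
  set η : ℝ := k * (B ^ (2 * k) / q ^ (L - k * h)) with hη
  have hη0 : 0 ≤ η := by positivity
  have key := hmom (dd K h) (PL K m) (fun δ v => XX h g δ v) (fun δ v => YY h g δ v) B R η hB1 hBR rfl hη0
    (fun δ _ v _ => abs_XX_le hs δ v) (fun δ _ v _ => ⟨YY_nonneg δ v, YY_le hs δ v⟩)
    (fun t ht hi => hyp_a hK hs hr hd hgood hkL hdm hkd t ht hi)
    (fun S hS hcard => by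
      have h1 := hyp_c hK hs hr hd hgood hkL.le hdm hkd S ∅ hS (Finset.empty_subset _)
        (Finset.disjoint_empty_right _) (by simpa using hcard)
      simp only [Finset.prod_empty, mul_one] at h1
      refine h1.trans ?_
      rw [hη]
      apply mul_le_mul_of_nonneg_right _ (by positivity)
      exact_mod_cast hcard)
  rw [ex_congr (f := fun v => MS h ((X ^ m + v) ^ p + r) ^ k)
      (g := fun v => (∑ δ ∈ dd K h, XX h g δ v) ^ k) (fun v hv => by simp only [MS_eq hs hv]),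
    ex_congr (f := fun v => QS h ((X ^ m + v) ^ p + r) ^ (k / 2))
      (g := fun v => (∑ δ ∈ dd K h, YY h g δ v) ^ (k / 2)) (fun v hv => by simp only [QS_eq hs hv])]
  refine key.trans ?_
  rw [hRB]
  set a : ℕ := (h + 2) / 3 with ha
  have ha3 : (3 : ℝ) * a ≤ h + 2 := by
    have : 3 * a ≤ h + 2 := by omega
    exact_mod_cast this
  have hs1 : √(B / R) ≤ q * q ^ (-(h : ℝ) / 6) := by
    rw [Real.sqrt_le_iff]
    refine ⟨by positivity, ?_⟩
    have e1 : B / R = B * B / q ^ h := by rw [← hRB]; field_simp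
    have e2 : (q * q ^ (-(h : ℝ) / 6)) ^ 2 = q ^ ((2 : ℝ) - (h : ℝ) / 3) := by
      rw [mul_pow, ← Real.rpow_natCast q 2, ← Real.rpow_natCast _ 2, ← Real.rpow_mul hq0.le,
        ← Real.rpow_add hq0]
      congr 1
      push_cast
      ring
    rw [e1, e2]
    calc B * B / q ^ h ≤ q ^ a * q ^ a / q ^ h := by gcongr
      _ = q ^ ((a : ℝ) + a - h) := by
          rw [Real.rpow_sub hq0, Real.rpow_add hq0, Real.rpow_natCast, Real.rpow_natCast]
      _ ≤ q ^ ((2 : ℝ) - (h : ℝ) / 3) := by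
          apply Real.rpow_le_rpow_of_exponent_le hq1.le
          linarith
  have hs2 : (q ^ h) ^ k * η ≤ (k * q ^ (2 * k)) * (√(q ^ h) ^ k * q ^ (-(h : ℝ) / 6)) := by
    have hsq : (1 : ℝ) ≤ √(q ^ h) ^ k := by
      apply one_le_pow₀
      rw [Real.one_le_sqrt]
      exact one_le_pow₀ hq1.le
    have hLk : L - k * h = (4 * k + 2) * h := by
      rw [hL, show (5 * k + 2) * h = (4 * k + 2) * h + k * h by ring, Nat.add_sub_cancel]
    have e1 : (q ^ h) ^ k * (B ^ (2 * k) / q ^ (L - k * h)) ≤ q ^ (2 * k) * q ^ (-(h : ℝ) / 6) := by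
      calc (q ^ h) ^ k * (B ^ (2 * k) / q ^ (L - k * h)) ≤
          (q ^ h) ^ k * ((q ^ a) ^ (2 * k) / q ^ (L - k * h)) := by gcongr
        _ = q ^ (((h * k : ℕ) : ℝ) + ((a * (2 * k) : ℕ) : ℝ) - (((4 * k + 2) * h : ℕ) : ℝ)) := by
            rw [Real.rpow_sub hq0, Real.rpow_add hq0, Real.rpow_natCast, Real.rpow_natCast,
              Real.rpow_natCast, hLk, ← pow_mul, ← pow_mul]
            ring
        _ ≤ q ^ (((2 * k : ℕ) : ℝ) + (-(h : ℝ) / 6)) := by
            apply Real.rpow_le_rpow_of_exponent_le hq1.le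
            push_cast
            have hk0 : (0 : ℝ) ≤ k := Nat.cast_nonneg _
            have hh0 : (0 : ℝ) ≤ h := Nat.cast_nonneg _
            have h1 : (k : ℝ) * (3 * a) ≤ k * (h + 2) := mul_le_mul_of_nonneg_left ha3 hk0
            have h2 : 0 ≤ (k : ℝ) * h := mul_nonneg hk0 hh0
            nlinarith
        _ = _ := by rw [Real.rpow_add hq0, Real.rpow_natCast]
    have e2 : (0 : ℝ) ≤ q ^ (-(h : ℝ) / 6) := by positivity
    calc (q ^ h) ^ k * η = k * ((q ^ h) ^ k * (B ^ (2 * k) / q ^ (L - k * h))) := by rw [hη]; ring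
      _ ≤ k * (q ^ (2 * k) * q ^ (-(h : ℝ) / 6)) := by gcongr
      _ = (k * q ^ (2 * k)) * (1 * q ^ (-(h : ℝ) / 6)) := by ring
      _ ≤ _ := by gcongr
  calc C0 * (√(q ^ h) ^ k * √(B / R) + (q ^ h) ^ k * η) ≤
      C0 * (√(q ^ h) ^ k * (q * q ^ (-(h : ℝ) / 6)) +
        (k * q ^ (2 * k)) * (√(q ^ h) ^ k * q ^ (-(h : ℝ) / 6))) := by
        gcongr
    _ = _ := by ring

end P4f18dfF
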