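import Pool.Agent.Lib.P4f18dfF.M7
import Pool.Agent.Lib.P4f18dfF.M8d

/-! M8, last part: the quenched moments. -/

set_option autoImplicit false

namespace P4f18dfF
open Polynomial Finset Pool.Agent.P4f18dfF Pool.Agent.P4f18dfT Pool.Agent.P4f18dfC

variable {K : Type*} [Field K] [Fintype K] [DecidableEq K]

omit [Fintype K] [DecidableEq K] in
lemma abs_mu_le_one (F : K[X]) : |(mu F : ℝ)| ≤ 1 := by
  unfold mu
  split_ifs
  · push_cast
    rw [abs_pow, abs_neg, abs_one, one_pow]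
  · simp

omit [DecidableEq K] in
lemma abs_MS_le (h : ℕ) (f : K[X]) : |MS h f| ≤ (Fintype.card K : ℝ) ^ h := by
  unfold MS
  refine (Finset.abs_sum_le_sum_abs _ _).trans ?_
  refine (Finset.sum_le_sum (fun a _ => abs_mu_le_one _)).trans ?_
  rw [Finset.sum_const, nsmul_eq_mul, mul_one, card_PL]
  push_cast; exact le_rfl

omit [DecidableEq K] in
lemma QS_nonneg (h : ℕ) (f : K[X]) : 0 ≤ QS h f := Finset.sum_nonneg (fun _ _ => sq_nonneg _)

omit [DecidableEq K] in
lemma QS_le (h : ℕ) (f : K[X]) : QS h f ≤ (Fintype.card K : ℝ) ^ h := by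
  unfold QS
  have h1 : ∀ a ∈ PL K h, (mu (f + a) : ℝ) ^ 2 ≤ 1 := by
    intro a _
    rw [← sq_abs]
    exact pow_le_one₀ (abs_nonneg _) (abs_mu_le_one _)
  refine (Finset.sum_le_sum h1).trans ?_
  rw [Finset.sum_const, nsmul_eq_mul, mul_one, card_PL]
  push_cast; exact le_rfl

lemma pow_sub_one_le {x M : ℝ} (hx : 0 ≤ x) (hxM : x ≤ M) (hM : 1 ≤ M) (l : ℕ) :
    |x ^ l - 1| ≤ l * M ^ l * |x - 1| := by
  induction l with
  | zero => simp
  | succ l ih =>
    have e1 : x ^ (l + 1) - 1 = x ^ l * (x - 1) + (x ^ l - 1) := by ring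
    have h1 : x ^ l ≤ M ^ (l + 1) :=
      (pow_le_pow_left₀ hx hxM l).trans (pow_le_pow_right₀ hM (Nat.le_succ l))
    have h2 : (l : ℝ) * M ^ l ≤ l * M ^ (l + 1) := by
      apply mul_le_mul_of_nonneg_left _ (Nat.cast_nonneg l)
      exact pow_le_pow_right₀ hM (Nat.le_succ l)
    have h3 := abs_nonneg (x - 1)
    calc |x ^ (l + 1) - 1| ≤ |x ^ l * (x - 1)| + |x ^ l - 1| := by rw [e1]; exact abs_add_le _ _
      _ = x ^ l * |x - 1| + |x ^ l - 1| := by rw [abs_mul, abs_of_nonneg (pow_nonneg hx l)]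
      _ ≤ M ^ (l + 1) * |x - 1| + l * M ^ l * |x - 1| :=
          add_le_add (mul_le_mul_of_nonneg_right h1 h3) ih
      _ ≤ M ^ (l + 1) * |x - 1| + l * M ^ (l + 1) * |x - 1| := by
          have := mul_le_mul_of_nonneg_right h2 h3
          linarith
      _ = _ := by push_cast; ring

omit [DecidableEq K] in
/-- the trivial bound -/
lemma triv_le (k h : ℕ) {c : ℝ} (hc : c = 1 - 1 / (Fintype.card K : ℝ)) (hc0 : 0 < c)
    (W : Finset K[X]) (F : K[X] → K[X]) :
    |ex W (fun v => Zn h (F v) ^ k) - gm k| ≤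
      ((1 / √c) ^ k + gm k) * ((Fintype.card K : ℝ) ^ h) ^ k := by
  have hq1 : (1 : ℝ) < (Fintype.card K : ℝ) := by exact_mod_cast Fintype.one_lt_card
  have hq0 : (0 : ℝ) < (Fintype.card K : ℝ) := by linarith
  set q : ℝ := (Fintype.card K : ℝ) with hq
  have hg := gm_nonneg k
  have hH : 1 ≤ q ^ h := one_le_pow₀ hq1.le
  have h1 : ∀ v, |Zn h (F v)| ≤ (1 / √c) * q ^ h := by
    intro v
    unfold Zn
    rw [← hq, ← hc, abs_div, abs_of_nonneg (Real.sqrt_nonneg _), Real.sqrt_mul (by positivity)]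
    have h2 : 1 ≤ √(q ^ h) := by rw [Real.one_le_sqrt]; exact hH
    have h3 : 0 < √c := Real.sqrt_pos.2 hc0
    rw [div_le_iff₀ (by positivity)]
    have h4 := abs_MS_le h (F v)
    rw [← hq] at h4
    calc |MS h (F v)| ≤ q ^ h := h4
      _ = 1 / √c * q ^ h * (1 * √c) := by field_simp
      _ ≤ _ := by gcongr
  have h2 : |ex W (fun v => Zn h (F v) ^ k)| ≤ ((1 / √c) * q ^ h) ^ k := by
    refine (abs_ex_le (g := fun _ => ((1 / √c) * q ^ h) ^ k) ?_).trans ?_
    · intro v _
      rw [abs_pow]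
      exact pow_le_pow_left₀ (abs_nonneg _) (h1 v) k
    · exact ex_le_const (by positivity) (fun _ _ => le_rfl)
  have h3 : gm k ≤ gm k * (q ^ h) ^ k := le_mul_of_one_le_right hg (one_le_pow₀ hH)
  calc _ ≤ |ex W (fun v => Zn h (F v) ^ k)| + |gm k| := abs_sub _ _
    _ ≤ ((1 / √c) * q ^ h) ^ k + gm k * (q ^ h) ^ k := by
        rw [abs_of_nonneg hg]; exact add_le_add h2 h3
    _ = _ := by rw [mul_pow]; ring

/-- M8 (helper53): the quenched moments -/
theorem quenched (p : ℕ) [Fact p.Prime] [CharP K p] (hK : ringChar K ≠ 2) (k : ℕ) :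
    ∃ C : ℝ, 0 < C ∧ ∀ h d m : ℕ, C * h ≤ d → C * d ≤ m →
      ∑ r ∈ PL K d, |ex (PL K m) (fun v => Zn h ((X ^ m + v) ^ p + r) ^ k) - gm k| ≤
      C * (Fintype.card K : ℝ) ^ ((d : ℝ) - (h : ℝ) / 6) := by
  classical
  obtain ⟨C0, hC0, hcore⟩ := core (K := K) p hK k
  obtain ⟨C7, hC7, hsqf⟩ := sqf_mean (K := K) p hK
  have hq1 : (1 : ℝ) < (Fintype.card K : ℝ) := by exact_mod_cast Fintype.one_lt_card
  have hq0 : (0 : ℝ) < (Fintype.card K : ℝ) := by linarith
  set q : ℝ := (Fintype.card K : ℝ) with hq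
  obtain ⟨c, hc⟩ : ∃ c : ℝ, c = 1 - 1 / q := ⟨_, rfl⟩
  have hc0 : 0 < c := by
    rw [hc, sub_pos, div_lt_one hq0]; exact hq1
  have hc1 : c ≤ 1 := by
    rw [hc]; have : 0 < 1 / q := by positivity
    linarith
  have hg := gm_nonneg k
  have hsc : 0 < √c := Real.sqrt_pos.2 hc0
  set C1 : ℝ := (1 / √c) ^ k + gm k with hC1
  have hC10 : 0 ≤ C1 := by positivity
  set A1 : ℝ := q ^ (4 * k + 1) * C1 with hA1
  set A2 : ℝ := C0 * (1 / √c) ^ k with hA2
  set A3 : ℝ := gm k * ((k / 2 : ℕ) * (1 / c) ^ (k / 2)) * (C7 * q / c) with hA3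
  set A4 : ℝ := 6 * (6 * k + 5) with hA4
  have hA10 : 0 ≤ A1 := by positivity
  have hA20 : 0 ≤ A2 := by positivity
  have hA30 : 0 ≤ A3 := by positivity
  have hA40 : 0 ≤ A4 := by positivity
  have hp := three_le (K := K) p hK
  refine ⟨A1 + A2 + A3 + A4 + C1 + C7 + (k + 1), by positivity, ?_⟩
  intro h d m hd hm
  have hh0 : (0 : ℝ) ≤ h := Nat.cast_nonneg _
  have hd0 : (0 : ℝ) ≤ d := Nat.cast_nonneg _
  have hk0 : (0 : ℝ) ≤ k := Nat.cast_nonneg _
  have hd1 : C7 * h ≤ d := by nlinarith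
  have hd2 : A4 * h ≤ d := by nlinarith
  have hd3 : (h : ℝ) ≤ d := by nlinarith
  have hm1 : ((k : ℝ) + 1) * d ≤ m := by nlinarith
  have hm2 : (k + 1) * d ≤ m := by exact_mod_cast hm1
  have hhd : h ≤ d := by exact_mod_cast hd3
  have hdm : d ≤ m := by
    have : d ≤ (k + 1) * d := Nat.le_mul_of_pos_left _ (Nat.succ_pos _)
    omega
  set E : ℝ := q ^ ((d : ℝ) - (h : ℝ) / 6) with hE
  have hE0 : 0 < E := by positivity
  set T : K[X] → ℝ := fun r => |ex (PL K m) (fun v => Zn h ((X ^ m + v) ^ p + r) ^ k) - gm k|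
    with hT
  have htriv : ∀ r, T r ≤ C1 * (q ^ h) ^ k := by
    intro r
    have := triv_le (K := K) k h (c := c) hc hc0 (PL K m) (fun v => (X ^ m + v) ^ p + r)
    rw [← hq, ← hC1] at this
    exact this
  have hcardPL : ((PL K d).card : ℝ) = q ^ d := by rw [card_PL]; push_cast; rfl
  have hqd : q ^ d = q ^ (d : ℝ) := (Real.rpow_natCast q d).symm
  by_cases hh4 : h < 4
  · -- small h
    have h1 : ∑ r ∈ PL K d, T r ≤ q ^ d * (C1 * (q ^ 4) ^ k) := by
      refine (Finset.sum_le_sum (fun r _ => htriv r)).trans ?_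
      rw [Finset.sum_const, nsmul_eq_mul, hcardPL]
      have e0 : (q ^ h) ^ k ≤ (q ^ 4) ^ k :=
        pow_le_pow_left₀ (by positivity) (pow_le_pow_right₀ hq1.le hh4.le) k
      gcongr
    have h2 : q ^ d * (C1 * (q ^ 4) ^ k) ≤ A1 * E := by
      have e1 : A1 * E = C1 * (q ^ 4) ^ k * (q * E) := by
        rw [hA1]; ring
      have e2 : q ^ d ≤ q * E := by
        rw [hE, hqd]
        nth_rewrite 2 [← Real.rpow_one q]
        rw [← Real.rpow_add hq0]
        apply Real.rpow_le_rpow_of_exponent_le hq1.le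
        have : (h : ℝ) ≤ 4 := by exact_mod_cast hh4.le
        linarith
      rw [e1, mul_comm]
      gcongr
    refine (h1.trans h2).trans ?_
    apply mul_le_mul_of_nonneg_right _ hE0.le
    linarith
  push Not at hh4
  -- the good remainders
  have hgoodr : ∀ r ∈ PL K d, Good ((5 * k + 2) * h) h r →
      T r ≤ A2 * q ^ (-(h : ℝ) / 6) + gm k * ((k / 2 : ℕ) * (1 / c) ^ (k / 2)) *
        (1 / (q ^ h * c) * ex (PL K m) (fun v => |QS h ((X ^ m + v) ^ p + r) - q ^ h * c|)) := by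
    intro r hr hgood
    have key := hcore h d m hh4 hhd hm2 r hr hgood
    set s : ℝ := √(q ^ h * c) with hs
    have hs0 : 0 < s := Real.sqrt_pos.2 (by positivity)
    have hss : s = √(q ^ h) * √c := by rw [hs, Real.sqrt_mul (by positivity)]
    have hsH : 0 < √(q ^ h) := Real.sqrt_pos.2 (by positivity)
    have e1 : ex (PL K m) (fun v => Zn h ((X ^ m + v) ^ p + r) ^ k) =
        ex (PL K m) (fun v => MS h ((X ^ m + v) ^ p + r) ^ k) / s ^ k := by
      rw [div_eq_inv_mul, ← ex_const_mul]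
      apply ex_congr
      intro v _
      unfold Zn
      rw [← hq, ← hc, ← hs, div_pow]
      field_simp
    have e2 : gm k * ex (PL K m) (fun v => (QS h ((X ^ m + v) ^ p + r) / (q ^ h * c)) ^ (k / 2)) =
        gm k * ex (PL K m) (fun v => QS h ((X ^ m + v) ^ p + r) ^ (k / 2)) / s ^ k := by
      rcases Nat.even_or_odd' k with ⟨l, hl | hl⟩
      · have hk2 : k / 2 = l := by omega
        rw [hk2]
        have e3 : s ^ k = (q ^ h * c) ^ l := by
          rw [hl, pow_mul, hs, Real.sq_sqrt (by positivity)]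
        rw [e3, mul_div_assoc]
        congr 1
        rw [div_eq_inv_mul, ← ex_const_mul]
        apply ex_congr
        intro v _
        rw [div_pow]
        field_simp
      · have : gm k = 0 := gm_odd ⟨l, hl⟩
        rw [this]; simp
    have e4 : |ex (PL K m) (fun v => Zn h ((X ^ m + v) ^ p + r) ^ k) -
        gm k * ex (PL K m) (fun v => (QS h ((X ^ m + v) ^ p + r) / (q ^ h * c)) ^ (k / 2))| ≤
        A2 * q ^ (-(h : ℝ) / 6) := by
      rw [e1, e2, ← sub_div, abs_div, abs_of_pos (by positivity : 0 < s ^ k),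
        div_le_iff₀ (by positivity)]
      refine key.trans (le_of_eq ?_)
      have hcc : (1 / √c) ^ k * √c ^ k = 1 := by
        rw [← mul_pow, one_div, inv_mul_cancel₀ hsc.ne', one_pow]
      rw [hA2, hss, mul_pow]
      linear_combination (-(C0 * √(q ^ h) ^ k * q ^ (-(h : ℝ) / 6))) * hcc
    have e5 : |ex (PL K m) (fun v => (QS h ((X ^ m + v) ^ p + r) / (q ^ h * c)) ^ (k / 2)) - 1| ≤
        ((k / 2 : ℕ) * (1 / c) ^ (k / 2)) *
        (1 / (q ^ h * c) * ex (PL K m) (fun v => |QS h ((X ^ m + v) ^ p + r) - q ^ h * c|)) := by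
      have hW : (1 : ℝ) = ex (PL K m) (fun _ => (1 : ℝ)) := by
        unfold ex
        rw [Finset.sum_const, nsmul_eq_mul, mul_one, div_self]
        rw [card_PL]
        have := Fintype.card_pos (α := K)
        positivity
      nth_rewrite 1 [hW]
      rw [← ex_sub, ← ex_const_mul, ← ex_const_mul]
      apply abs_ex_le
      intro v _
      have hM : 1 ≤ 1 / c := by rw [le_div_iff₀ hc0]; linarith
      have hx0 : 0 ≤ QS h ((X ^ m + v) ^ p + r) / (q ^ h * c) :=
        div_nonneg (QS_nonneg _ _) (by positivity)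
      have hx1 : QS h ((X ^ m + v) ^ p + r) / (q ^ h * c) ≤ 1 / c := by
        rw [div_le_div_iff₀ (by positivity) hc0, one_mul]
        apply mul_le_mul_of_nonneg_right _ hc0.le
        exact QS_le _ _
      refine (pow_sub_one_le hx0 hx1 hM (k / 2)).trans (le_of_eq ?_)
      congr 1
      have e6 : QS h ((X ^ m + v) ^ p + r) / (q ^ h * c) - 1 =
          (QS h ((X ^ m + v) ^ p + r) - q ^ h * c) / (q ^ h * c) := by
        field_simp
      rw [e6, abs_div, abs_of_pos (by positivity : 0 < q ^ h * c)]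
      ring
    have e7 : ex (PL K m) (fun v => Zn h ((X ^ m + v) ^ p + r) ^ k) - gm k =
        (ex (PL K m) (fun v => Zn h ((X ^ m + v) ^ p + r) ^ k) -
        gm k * ex (PL K m) (fun v => (QS h ((X ^ m + v) ^ p + r) / (q ^ h * c)) ^ (k / 2))) +
        gm k * (ex (PL K m) (fun v => (QS h ((X ^ m + v) ^ p + r) / (q ^ h * c)) ^ (k / 2)) - 1) := by
      ring
    simp only [hT]
    rw [e7]
    refine (abs_add_le _ _).trans (add_le_add e4 ?_)
    rw [abs_mul, abs_of_nonneg hg, mul_assoc]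
    exact mul_le_mul_of_nonneg_left e5 hg
  -- split the sum
  rw [← Finset.sum_filter_add_sum_filter_not (PL K d) (fun r => Good ((5 * k + 2) * h) h r)]
  have s1 : ∑ r ∈ (PL K d).filter (fun r => Good ((5 * k + 2) * h) h r), T r ≤
      A2 * E + A3 * E := by
    set G := (PL K d).filter (fun r => Good ((5 * k + 2) * h) h r) with hG
    have f1 : ∑ r ∈ G, T r ≤ ∑ r ∈ G, (A2 * q ^ (-(h : ℝ) / 6) +
        gm k * ((k / 2 : ℕ) * (1 / c) ^ (k / 2)) *
        (1 / (q ^ h * c) * ex (PL K m) (fun v => |QS h ((X ^ m + v) ^ p + r) - q ^ h * c|))) := by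
      apply Finset.sum_le_sum
      intro r hr
      rw [hG, Finset.mem_filter] at hr
      exact hgoodr r hr.1 hr.2
    have f2 : ∑ r ∈ G, (A2 * q ^ (-(h : ℝ) / 6) +
        gm k * ((k / 2 : ℕ) * (1 / c) ^ (k / 2)) *
        (1 / (q ^ h * c) * ex (PL K m) (fun v => |QS h ((X ^ m + v) ^ p + r) - q ^ h * c|))) ≤
        ∑ r ∈ PL K d, (A2 * q ^ (-(h : ℝ) / 6) +
        gm k * ((k / 2 : ℕ) * (1 / c) ^ (k / 2)) *
        (1 / (q ^ h * c) * ex (PL K m) (fun v => |QS h ((X ^ m + v) ^ p + r) - q ^ h * c|))) := by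
      apply Finset.sum_le_sum_of_subset_of_nonneg (Finset.filter_subset _ _)
      intro r _ _
      have : 0 ≤ ex (PL K m) (fun v => |QS h ((X ^ m + v) ^ p + r) - q ^ h * c|) :=
        ex_nonneg (fun _ _ => abs_nonneg _)
      positivity
    refine (f1.trans f2).trans ?_
    rw [Finset.sum_add_distrib, Finset.sum_const, nsmul_eq_mul, hcardPL, ← Finset.mul_sum,
      ← Finset.mul_sum]
    apply add_le_add
    · apply le_of_eq
      rw [hE, hqd, mul_left_comm, ← Real.rpow_add hq0]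
      congr 2
      ring
    · have g1 : ∑ r ∈ PL K d, ex (PL K m) (fun v => |QS h ((X ^ m + v) ^ p + r) - q ^ h * c|) ≤
          C7 * q ^ (m + d + h - h / 2) / q ^ m := by
        unfold ex
        rw [← Finset.sum_div, card_PL]
        push_cast
        rw [← hq]
        apply div_le_div_of_nonneg_right _ (by positivity)
        have := hsqf h d m (by omega) hd1 hdm
        rw [← hc] at this
        exact this
      have g2 : 1 / (q ^ h * c) * (C7 * q ^ (m + d + h - h / 2) / q ^ m) ≤ C7 * q / c * E := by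
        have g3 : q ^ (m + d + h - h / 2) / (q ^ m * q ^ h) ≤ q * E := by
          have hnat : (h / 2 : ℕ) ≤ m + d + h := by omega
          have hh2 : (h : ℝ) - 1 ≤ 2 * ((h / 2 : ℕ) : ℝ) := by
            have : h ≤ 2 * (h / 2) + 1 := by omega
            have : (h : ℝ) ≤ 2 * ((h / 2 : ℕ) : ℝ) + 1 := by exact_mod_cast this
            linarith
          have g4 : q ^ (m + d + h - h / 2) / (q ^ m * q ^ h) =
              q ^ ((d : ℝ) - ((h / 2 : ℕ) : ℝ)) := by
            rw [← pow_add, ← Real.rpow_natCast, ← Real.rpow_natCast, ← Real.rpow_sub hq0]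
            congr 1
            rw [Nat.cast_sub hnat]
            push_cast
            ring
          rw [g4, hE]
          nth_rewrite 2 [← Real.rpow_one q]
          rw [← Real.rpow_add hq0]
          apply Real.rpow_le_rpow_of_exponent_le hq1.le
          linarith
        calc 1 / (q ^ h * c) * (C7 * q ^ (m + d + h - h / 2) / q ^ m) =
            C7 / c * (q ^ (m + d + h - h / 2) / (q ^ m * q ^ h)) := by field_simp
          _ ≤ C7 / c * (q * E) := by gcongr
          _ = _ := by ring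
      calc gm k * ((k / 2 : ℕ) * (1 / c) ^ (k / 2)) * (1 / (q ^ h * c) *
            ∑ r ∈ PL K d, ex (PL K m) (fun v => |QS h ((X ^ m + v) ^ p + r) - q ^ h * c|)) ≤
          gm k * ((k / 2 : ℕ) * (1 / c) ^ (k / 2)) * (1 / (q ^ h * c) *
            (C7 * q ^ (m + d + h - h / 2) / q ^ m)) := by gcongr
        _ ≤ gm k * ((k / 2 : ℕ) * (1 / c) ^ (k / 2)) * (C7 * q / c * E) := by gcongr
        _ = A3 * E := by rw [hA3]; ring
  have s2 : ∑ r ∈ (PL K d).filter (fun r => ¬ Good ((5 * k + 2) * h) h r), T r ≤ C1 * E := by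
    have f1 := card_bad_le (K := K) p ((5 * k + 2) * h) h d hhd
    have f2 : ((((PL K d).filter (fun r => ¬ Good ((5 * k + 2) * h) h r)).card : ℕ) : ℝ) ≤
        q ^ (h + ((5 * k + 2) * h + (d + 1) / 2) + (d + p - 1) / p) := by
      rw [hq]; exact_mod_cast f1
    refine (Finset.sum_le_sum (fun r _ => htriv r)).trans ?_
    rw [Finset.sum_const, nsmul_eq_mul]
    have f3 : q ^ (h + ((5 * k + 2) * h + (d + 1) / 2) + (d + p - 1) / p) * (q ^ h) ^ k ≤ E := by
      have x1 : (2 : ℝ) * (((d + 1) / 2 : ℕ) : ℝ) ≤ d + 1 := by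
        have : 2 * ((d + 1) / 2) ≤ d + 1 := by omega
        exact_mod_cast this
      have x2 : (3 : ℝ) * (((d + p - 1) / p : ℕ) : ℝ) ≤ d + 3 := by
        have h1 : p * ((d + p - 1) / p) ≤ d + p - 1 := Nat.mul_div_le _ _
        obtain ⟨x, hx⟩ : ∃ x, x = (d + p - 1) / p := ⟨_, rfl⟩
        rw [← hx] at h1 ⊢
        have h2 : 3 * x ≤ d + 3 := by
          rcases Nat.eq_zero_or_pos x with h0 | h0
          · omega
          · obtain ⟨y, rfl⟩ : ∃ y, x = y + 1 := ⟨x - 1, by omega⟩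
            have h3 : 3 * y ≤ p * y := Nat.mul_le_mul_right _ hp
            have h4 : p * (y + 1) = p * y + p := by ring
            omega
        exact_mod_cast h2
      have hh4' : (4 : ℝ) ≤ h := by exact_mod_cast hh4
      rw [← pow_mul, ← pow_add, ← Real.rpow_natCast, hE]
      apply Real.rpow_le_rpow_of_exponent_le hq1.le
      push_cast at x1 x2 ⊢
      rw [hA4] at hd2
      nlinarith
    calc _ ≤ q ^ (h + ((5 * k + 2) * h + (d + 1) / 2) + (d + p - 1) / p) * (C1 * (q ^ h) ^ k) := by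
          gcongr
      _ = C1 * (q ^ (h + ((5 * k + 2) * h + (d + 1) / 2) + (d + p - 1) / p) * (q ^ h) ^ k) := by ring
      _ ≤ _ := by gcongr
  refine (add_le_add s1 s2).trans ?_
  have : A2 * E + A3 * E + C1 * E = (A2 + A3 + C1) * E := by ring
  rw [this]
  apply mul_le_mul_of_nonneg_right _ hE0.le
  linarith

end P4f18dfF
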