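import Pool.Agent.Lib.P4f18dfF.AQ0
import Pool.Agent.Lib.P4f18dfF.A7
import Pool.Agent.Lib.P4f18dfF.M8

/-! The quenched moments along `A u^p`. -/

set_option autoImplicit false

namespace P4f18dfF
open Polynomial Finset Pool.Agent.P4f18dfF Pool.Agent.P4f18dfT Pool.Agent.P4f18dfC

variable {K : Type*} [Field K] [Fintype K] [DecidableEq K]

lemma MS_eqA (A : K[X]) (h : ℕ) (r G : K[X]) :
    MS h (G + r) = ∑ D ∈ IA A h r, 1 * ∑ b ∈ TA A h r D, (mu (G + b) : ℝ) := by
  simp only [one_mul]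
  rw [sum_IA A h r (fun b => (mu (G + b) : ℝ))]
  unfold MS
  apply Finset.sum_congr rfl
  intro a _
  rw [add_assoc]

lemma QS_eqA (A : K[X]) (h : ℕ) (r G : K[X]) :
    QS h (G + r) = ∑ D ∈ IA A h r, 1 ^ 2 * ∑ b ∈ TA A h r D, (mu (G + b) : ℝ) ^ 2 := by
  simp only [one_mul, one_pow]
  rw [sum_IA A h r (fun b => (mu (G + b) : ℝ) ^ 2)]
  unfold QS
  apply Finset.sum_congr rfl
  intro a _
  rw [add_assoc]

/-- the moments for one good remainder -/
theorem coreA (p : ℕ) [Fact p.Prime] [CharP K p] (hK : ringChar K ≠ 2) (k : ℕ) :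
    ∃ C : ℝ, 0 ≤ C ∧ ∀ (h d m : ℕ) (A w : K[X]), 4 ≤ h → A.Monic → w.Monic → m ≤ w.natDegree →
      h ≤ d → (k + 1) * (d + 2 * A.natDegree) ≤ m → ∀ r ∈ PL K d,
      GoodA A ((5 * k + 3) * (h + A.natDegree)) h r →
      |ex (PL K m) (fun v => MS h (A * (w + v) ^ p + r) ^ k) -
        gm k * ex (PL K m) (fun v => QS h (A * (w + v) ^ p + r) ^ (k / 2))| ≤
      C * √((Fintype.card K : ℝ) ^ h) ^ k * (Fintype.card K : ℝ) ^ (-(h : ℝ) / 6) := by
  obtain ⟨C0, hC0, hmom⟩ := gcoreA (K := K) (ι := K[X]) p hK k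
  have hq1 : (1 : ℝ) < (Fintype.card K : ℝ) := by exact_mod_cast Fintype.one_lt_card
  have hq0 : (0 : ℝ) < (Fintype.card K : ℝ) := by linarith
  set q : ℝ := (Fintype.card K : ℝ) with hq
  refine ⟨C0 * (q + k * q ^ (2 * k)), by positivity, ?_⟩
  intro h d m A w hh hA hw hwm hd hm r hr hgood
  have hdm : d ≤ m := by
    have : d + 2 * A.natDegree ≤ (k + 1) * (d + 2 * A.natDegree) :=
      Nat.le_mul_of_pos_left _ (Nat.succ_pos _)
    omega
  have hkd : k * (d + 2 * A.natDegree) ≤ m := by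
    have : k * (d + 2 * A.natDegree) ≤ (k + 1) * (d + 2 * A.natDegree) :=
      Nat.mul_le_mul_right _ (Nat.le_succ _)
    omega
  have hp := three_le (K := K) p hK
  set s : ℕ := h + A.natDegree with hs
  set L : ℕ := (5 * k + 3) * s with hL
  have hs0 : 0 < s := by omega
  have hkL : (k + 1) * s < L := by
    rw [hL]
    apply Nat.mul_lt_mul_of_pos_right _ hs0
    omega
  have hF := famA_of_good (K := K) (p := p) hA hw hwm hr hd hdm (s := s) le_rfl hgood
  set B : ℝ := ((TA A h 0 0).card : ℝ) with hB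
  set R : ℝ := ((IA A h r).card : ℝ) with hR
  have hB1 : 1 ≤ B := by rw [hB]; exact_mod_cast card_T0_pos A h
  have hB0 : 0 < B := by linarith
  have hRB : R * B = q ^ h := by
    rw [hR, hB, hq]
    exact_mod_cast card_IA_mul A h r
  have hBle : B ≤ q ^ ((h + 2) / 3) := by
    rw [hB, hq]
    exact_mod_cast card_T0_le p hp hA h
  have hR0 : 0 < R := by
    have h1 : 0 < R * B := by rw [hRB]; positivity
    by_contra hcon
    push Not at hcon
    nlinarith
  have hBB : B * B ≤ R * B := by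
    rw [hRB]
    calc B * B ≤ q ^ ((h + 2) / 3) * q ^ ((h + 2) / 3) := by gcongr
      _ = q ^ ((h + 2) / 3 + (h + 2) / 3) := (pow_add _ _ _).symm
      _ ≤ q ^ h := pow_le_pow_right₀ hq1.le (by omega)
  have hBR : B ≤ R := le_of_mul_le_mul_right hBB hB0
  set η : ℝ := k * (B ^ (2 * k) / q ^ (L - (k + 1) * s)) with hη
  have hη0 : 0 ≤ η := by positivity
  have key := hmom A w (IA A h r) (TA A h r) (fun D => D) (fun _ => 1) B m
    (d + 2 * A.natDegree) s L hF (fun _ _ => by simp)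
    (fun D hD => by rw [card_TA hD]) hB1 hBR hkL hkd
  simp only [← MS_eqA, ← QS_eqA] at key
  refine key.trans ?_
  rw [← hR, hRB, ← hη]
  set a : ℕ := (h + 2) / 3 with ha
  have ha3 : (3 : ℝ) * a ≤ h + 2 := by
    have : 3 * a ≤ h + 2 := by omega
    exact_mod_cast this
  have hs1 : √(B / R) ≤ q * q ^ (-(h : ℝ) / 6) := by
    rw [Real.sqrt_le_iff]
    refine ⟨by positivity, ?_⟩
    have e1 : B / R = B * B / q ^ h := by rw [← hRB]; field_simp
    have e2 : (q * q ^ (-(h : ℝ) / 6)) ^ 2 = q ^ ((2 : ℝ) - (h : ℝ) / 3) := by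
      rw [mul_pow, ← Real.rpow_natCast q 2, ← Real.rpow_natCast _ 2, ← Real.rpow_mul hq0.le,
        ← Real.rpow_add hq0]
      congr 1
      push_cast
      ring
    rw [e1, e2]
    calc B * B / q ^ h ≤ q ^ a * q ^ a / q ^ h := by gcongr
      _ = q ^ ((a : ℝ) + a - h) := by
          rw [Real.rpow_sub hq0, Real.rpow_add hq0, Real.rpow_natCast, Real.rpow_natCast]
      _ ≤ q ^ ((2 : ℝ) - (h : ℝ) / 3) := by
          apply Real.rpow_le_rpow_of_exponent_le hq1.le
          linarith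
  have hs2 : (q ^ h) ^ k * η ≤ (k * q ^ (2 * k)) * (√(q ^ h) ^ k * q ^ (-(h : ℝ) / 6)) := by
    have hsq : (1 : ℝ) ≤ √(q ^ h) ^ k := by
      apply one_le_pow₀
      rw [Real.one_le_sqrt]
      exact one_le_pow₀ hq1.le
    have hLk : (4 * k + 2) * h ≤ L - (k + 1) * s := by
      have e1 : L - (k + 1) * s = (4 * k + 2) * s := by
        rw [hL, show (5 * k + 3) * s = (4 * k + 2) * s + (k + 1) * s by ring, Nat.add_sub_cancel]
      rw [e1]
      exact Nat.mul_le_mul_left _ (by omega)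
    have e1 : (q ^ h) ^ k * (B ^ (2 * k) / q ^ (L - (k + 1) * s)) ≤
        q ^ (2 * k) * q ^ (-(h : ℝ) / 6) := by
      calc (q ^ h) ^ k * (B ^ (2 * k) / q ^ (L - (k + 1) * s)) ≤
          (q ^ h) ^ k * ((q ^ a) ^ (2 * k) / q ^ ((4 * k + 2) * h)) := by
            gcongr
            exact hq1.le
        _ = q ^ (((h * k : ℕ) : ℝ) + ((a * (2 * k) : ℕ) : ℝ) - (((4 * k + 2) * h : ℕ) : ℝ)) := by
            rw [Real.rpow_sub hq0, Real.rpow_add hq0, Real.rpow_natCast, Real.rpow_natCast,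
              Real.rpow_natCast, ← pow_mul, ← pow_mul]
            ring
        _ ≤ q ^ (((2 * k : ℕ) : ℝ) + (-(h : ℝ) / 6)) := by
            apply Real.rpow_le_rpow_of_exponent_le hq1.le
            push_cast
            have hk0 : (0 : ℝ) ≤ k := Nat.cast_nonneg _
            have hh0 : (0 : ℝ) ≤ h := Nat.cast_nonneg _
            have h1 : (k : ℝ) * (3 * a) ≤ k * (h + 2) := mul_le_mul_of_nonneg_left ha3 hk0
            have h2 : 0 ≤ (k : ℝ) * h := mul_nonneg hk0 hh0
            nlinarith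
        _ = _ := by rw [Real.rpow_add hq0, Real.rpow_natCast]
    have e2 : (0 : ℝ) ≤ q ^ (-(h : ℝ) / 6) := by positivity
    calc (q ^ h) ^ k * η = k * ((q ^ h) ^ k * (B ^ (2 * k) / q ^ (L - (k + 1) * s))) := by
          rw [hη]; ring
      _ ≤ k * (q ^ (2 * k) * q ^ (-(h : ℝ) / 6)) := by gcongr
      _ = (k * q ^ (2 * k)) * (1 * q ^ (-(h : ℝ) / 6)) := by ring
      _ ≤ _ := by gcongr
  calc C0 * (√(q ^ h) ^ k * √(B / R) + (q ^ h) ^ k * η) ≤
      C0 * (√(q ^ h) ^ k * (q * q ^ (-(h : ℝ) / 6)) +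
        (k * q ^ (2 * k)) * (√(q ^ h) ^ k * q ^ (-(h : ℝ) / 6))) := by
        gcongr
    _ = _ := by ring

/-- the quenched moments along `A u^p` -/
theorem quenchedA (p : ℕ) [Fact p.Prime] [CharP K p] (hK : ringChar K ≠ 2) (k : ℕ) :
    ∃ C : ℝ, 0 < C ∧ ∀ (h d m : ℕ) (A w : K[X]), A.Monic → w.Monic → m ≤ w.natDegree →
      C * ((h : ℝ) + A.natDegree) ≤ d → C * (d : ℝ) ≤ m →
      ∑ r ∈ PL K d, |ex (PL K m) (fun v => Zn h (A * (w + v) ^ p + r) ^ k) - gm k| ≤
      C * (Fintype.card K : ℝ) ^ ((d : ℝ) - (h : ℝ) / 6) := by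
  classical
  obtain ⟨C0, hC0, hcore⟩ := coreA (K := K) p hK k
  obtain ⟨C7, hC7, hsqf⟩ := sqf_meanA (K := K) p hK
  have hq1 : (1 : ℝ) < (Fintype.card K : ℝ) := by exact_mod_cast Fintype.one_lt_card
  have hq0 : (0 : ℝ) < (Fintype.card K : ℝ) := by linarith
  set q : ℝ := (Fintype.card K : ℝ) with hq
  obtain ⟨c, hc⟩ : ∃ c : ℝ, c = 1 - 1 / q := ⟨_, rfl⟩
  have hc0 : 0 < c := by
    rw [hc, sub_pos, div_lt_one hq0]; exact hq1
  have hc1 : c ≤ 1 := by
    rw [hc]; have : 0 < 1 / q := by positivity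
    linarith
  have hg := gm_nonneg k
  have hsc : 0 < √c := Real.sqrt_pos.2 hc0
  set C1 : ℝ := (1 / √c) ^ k + gm k with hC1
  have hC10 : 0 ≤ C1 := by positivity
  set A1 : ℝ := q ^ (4 * k + 1) * C1 with hA1
  set A2 : ℝ := C0 * (1 / √c) ^ k with hA2
  set A3 : ℝ := gm k * ((k / 2 : ℕ) * (1 / c) ^ (k / 2)) * (C7 * q / c) with hA3
  set A4 : ℝ := 6 * (6 * k + 6) with hA4
  have hA10 : 0 ≤ A1 := by positivity
  have hA20 : 0 ≤ A2 := by positivity
  have hA30 : 0 ≤ A3 := by positivity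
  have hA40 : 0 ≤ A4 := by positivity
  have hp := three_le (K := K) p hK
  refine ⟨A1 + A2 + A3 + A4 + C1 + C7 + 3 * (k + 1), by positivity, ?_⟩
  intro h d m A w hA hw hwm hd hm
  have hh0 : (0 : ℝ) ≤ h := Nat.cast_nonneg _
  have hd0 : (0 : ℝ) ≤ d := Nat.cast_nonneg _
  have hk0 : (0 : ℝ) ≤ k := Nat.cast_nonneg _
  have ha0 : (0 : ℝ) ≤ A.natDegree := Nat.cast_nonneg _
  have hha : (0 : ℝ) ≤ (h : ℝ) + A.natDegree := by linarith
  have hd1 : C7 * ((h : ℝ) + A.natDegree) ≤ d :=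
    (mul_le_mul_of_nonneg_right (by linarith) hha).trans hd
  have hd2 : A4 * ((h : ℝ) + A.natDegree) ≤ d :=
    (mul_le_mul_of_nonneg_right (by linarith) hha).trans hd
  have hd3 : 1 * ((h : ℝ) + A.natDegree) ≤ d :=
    (mul_le_mul_of_nonneg_right (by linarith) hha).trans hd
  have hdm7 : C7 * (d : ℝ) ≤ m := (mul_le_mul_of_nonneg_right (by linarith) hd0).trans hm
  have hm1 : ((k : ℝ) + 1) * (d + 2 * A.natDegree) ≤ m := by
    have h1 : 3 * ((k : ℝ) + 1) * d ≤ m := (mul_le_mul_of_nonneg_right (by linarith) hd0).trans hm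
    have h2 : ((k : ℝ) + 1) * (d + 2 * A.natDegree) ≤ ((k : ℝ) + 1) * (3 * d) := by
      apply mul_le_mul_of_nonneg_left _ (by linarith)
      linarith
    linarith
  have hm2 : (k + 1) * (d + 2 * A.natDegree) ≤ m := by exact_mod_cast hm1
  have hhd : h ≤ d := by
    have : (h : ℝ) ≤ d := by linarith
    exact_mod_cast this
  have hdm : d ≤ m := by
    have : d + 2 * A.natDegree ≤ (k + 1) * (d + 2 * A.natDegree) :=
      Nat.le_mul_of_pos_left _ (Nat.succ_pos _)
    omega
  set E : ℝ := q ^ ((d : ℝ) - (h : ℝ) / 6) with hE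
  have hE0 : 0 < E := by positivity
  set T : K[X] → ℝ := fun r => |ex (PL K m) (fun v => Zn h (A * (w + v) ^ p + r) ^ k) - gm k|
    with hT
  have htriv : ∀ r, T r ≤ C1 * (q ^ h) ^ k := by
    intro r
    have := triv_le (K := K) k h (c := c) hc hc0 (PL K m) (fun v => A * (w + v) ^ p + r)
    rw [← hq, ← hC1] at this
    exact this
  have hcardPL : ((PL K d).card : ℝ) = q ^ d := by rw [card_PL]; push_cast; rfl
  have hqd : q ^ d = q ^ (d : ℝ) := (Real.rpow_natCast q d).symm
  by_cases hh4 : h < 4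
  · -- small h
    have h1 : ∑ r ∈ PL K d, T r ≤ q ^ d * (C1 * (q ^ 4) ^ k) := by
      refine (Finset.sum_le_sum (fun r _ => htriv r)).trans ?_
      rw [Finset.sum_const, nsmul_eq_mul, hcardPL]
      have e0 : (q ^ h) ^ k ≤ (q ^ 4) ^ k :=
        pow_le_pow_left₀ (by positivity) (pow_le_pow_right₀ hq1.le hh4.le) k
      gcongr
    have h2 : q ^ d * (C1 * (q ^ 4) ^ k) ≤ A1 * E := by
      have e1 : A1 * E = C1 * (q ^ 4) ^ k * (q * E) := by
        rw [hA1]; ring
      have e2 : q ^ d ≤ q * E := by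
        rw [hE, hqd]
        nth_rewrite 2 [← Real.rpow_one q]
        rw [← Real.rpow_add hq0]
        apply Real.rpow_le_rpow_of_exponent_le hq1.le
        have : (h : ℝ) ≤ 4 := by exact_mod_cast hh4.le
        linarith
      rw [e1, mul_comm]
      gcongr
    refine (h1.trans h2).trans ?_
    apply mul_le_mul_of_nonneg_right _ hE0.le
    linarith
  push Not at hh4
  -- the good remainders
  have hgoodr : ∀ r ∈ PL K d, GoodA A ((5 * k + 3) * (h + A.natDegree)) h r →
      T r ≤ A2 * q ^ (-(h : ℝ) / 6) + gm k * ((k / 2 : ℕ) * (1 / c) ^ (k / 2)) *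
        (1 / (q ^ h * c) * ex (PL K m) (fun v => |QS h (A * (w + v) ^ p + r) - q ^ h * c|)) := by
    intro r hr hgood
    have key := hcore h d m A w hh4 hA hw hwm hhd hm2 r hr hgood
    set s : ℝ := √(q ^ h * c) with hs
    have hs0 : 0 < s := Real.sqrt_pos.2 (by positivity)
    have hss : s = √(q ^ h) * √c := by rw [hs, Real.sqrt_mul (by positivity)]
    have hsH : 0 < √(q ^ h) := Real.sqrt_pos.2 (by positivity)
    have e1 : ex (PL K m) (fun v => Zn h (A * (w + v) ^ p + r) ^ k) =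
        ex (PL K m) (fun v => MS h (A * (w + v) ^ p + r) ^ k) / s ^ k := by
      rw [div_eq_inv_mul, ← ex_const_mul]
      apply ex_congr
      intro v _
      unfold Zn
      rw [← hq, ← hc, ← hs, div_pow]
      field_simp
    have e2 : gm k * ex (PL K m) (fun v => (QS h (A * (w + v) ^ p + r) / (q ^ h * c)) ^ (k / 2)) =
        gm k * ex (PL K m) (fun v => QS h (A * (w + v) ^ p + r) ^ (k / 2)) / s ^ k := by
      rcases Nat.even_or_odd' k with ⟨l, hl | hl⟩
      · have hk2 : k / 2 = l := by omega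
        rw [hk2]
        have e3 : s ^ k = (q ^ h * c) ^ l := by
          rw [hl, pow_mul, hs, Real.sq_sqrt (by positivity)]
        rw [e3, mul_div_assoc]
        congr 1
        rw [div_eq_inv_mul, ← ex_const_mul]
        apply ex_congr
        intro v _
        rw [div_pow]
        field_simp
      · have : gm k = 0 := gm_odd ⟨l, hl⟩
        rw [this]; simp
    have e4 : |ex (PL K m) (fun v => Zn h (A * (w + v) ^ p + r) ^ k) -
        gm k * ex (PL K m) (fun v => (QS h (A * (w + v) ^ p + r) / (q ^ h * c)) ^ (k / 2))| ≤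
        A2 * q ^ (-(h : ℝ) / 6) := by
      rw [e1, e2, ← sub_div, abs_div, abs_of_pos (by positivity : 0 < s ^ k),
        div_le_iff₀ (by positivity)]
      refine key.trans (le_of_eq ?_)
      have hcc : (1 / √c) ^ k * √c ^ k = 1 := by
        rw [← mul_pow, one_div, inv_mul_cancel₀ hsc.ne', one_pow]
      rw [hA2, hss, mul_pow]
      linear_combination (-(C0 * √(q ^ h) ^ k * q ^ (-(h : ℝ) / 6))) * hcc
    have e5 : |ex (PL K m) (fun v => (QS h (A * (w + v) ^ p + r) / (q ^ h * c)) ^ (k / 2)) - 1| ≤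
        ((k / 2 : ℕ) * (1 / c) ^ (k / 2)) *
        (1 / (q ^ h * c) * ex (PL K m) (fun v => |QS h (A * (w + v) ^ p + r) - q ^ h * c|)) := by
      have hW : (1 : ℝ) = ex (PL K m) (fun _ => (1 : ℝ)) := by
        unfold ex
        rw [Finset.sum_const, nsmul_eq_mul, mul_one, div_self]
        rw [card_PL]
        have := Fintype.card_pos (α := K)
        positivity
      nth_rewrite 1 [hW]
      rw [← ex_sub, ← ex_const_mul, ← ex_const_mul]
      apply abs_ex_le
      intro v _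
      have hM : 1 ≤ 1 / c := by rw [le_div_iff₀ hc0]; linarith
      have hx0 : 0 ≤ QS h (A * (w + v) ^ p + r) / (q ^ h * c) :=
        div_nonneg (QS_nonneg _ _) (by positivity)
      have hx1 : QS h (A * (w + v) ^ p + r) / (q ^ h * c) ≤ 1 / c := by
        rw [div_le_div_iff₀ (by positivity) hc0, one_mul]
        apply mul_le_mul_of_nonneg_right _ hc0.le
        exact QS_le _ _
      refine (pow_sub_one_le hx0 hx1 hM (k / 2)).trans (le_of_eq ?_)
      congr 1
      have e6 : QS h (A * (w + v) ^ p + r) / (q ^ h * c) - 1 =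
          (QS h (A * (w + v) ^ p + r) - q ^ h * c) / (q ^ h * c) := by
        field_simp
      rw [e6, abs_div, abs_of_pos (by positivity : 0 < q ^ h * c)]
      ring
    have e7 : ex (PL K m) (fun v => Zn h (A * (w + v) ^ p + r) ^ k) - gm k =
        (ex (PL K m) (fun v => Zn h (A * (w + v) ^ p + r) ^ k) -
        gm k * ex (PL K m) (fun v => (QS h (A * (w + v) ^ p + r) / (q ^ h * c)) ^ (k / 2))) +
        gm k * (ex (PL K m) (fun v => (QS h (A * (w + v) ^ p + r) / (q ^ h * c)) ^ (k / 2)) - 1) := by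
      ring
    simp only [hT]
    rw [e7]
    refine (abs_add_le _ _).trans (add_le_add e4 ?_)
    rw [abs_mul, abs_of_nonneg hg, mul_assoc]
    exact mul_le_mul_of_nonneg_left e5 hg
  -- split the sum
  rw [← Finset.sum_filter_add_sum_filter_not (PL K d) (fun r => GoodA A ((5 * k + 3) * (h + A.natDegree)) h r)]
  have s1 : ∑ r ∈ (PL K d).filter (fun r => GoodA A ((5 * k + 3) * (h + A.natDegree)) h r), T r ≤
      A2 * E + A3 * E := by
    set G := (PL K d).filter (fun r => GoodA A ((5 * k + 3) * (h + A.natDegree)) h r) with hG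
    have f1 : ∑ r ∈ G, T r ≤ ∑ r ∈ G, (A2 * q ^ (-(h : ℝ) / 6) +
        gm k * ((k / 2 : ℕ) * (1 / c) ^ (k / 2)) *
        (1 / (q ^ h * c) * ex (PL K m) (fun v => |QS h (A * (w + v) ^ p + r) - q ^ h * c|))) := by
      apply Finset.sum_le_sum
      intro r hr
      rw [hG, Finset.mem_filter] at hr
      exact hgoodr r hr.1 hr.2
    have f2 : ∑ r ∈ G, (A2 * q ^ (-(h : ℝ) / 6) +
        gm k * ((k / 2 : ℕ) * (1 / c) ^ (k / 2)) *
        (1 / (q ^ h * c) * ex (PL K m) (fun v => |QS h (A * (w + v) ^ p + r) - q ^ h * c|))) ≤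
        ∑ r ∈ PL K d, (A2 * q ^ (-(h : ℝ) / 6) +
        gm k * ((k / 2 : ℕ) * (1 / c) ^ (k / 2)) *
        (1 / (q ^ h * c) * ex (PL K m) (fun v => |QS h (A * (w + v) ^ p + r) - q ^ h * c|))) := by
      apply Finset.sum_le_sum_of_subset_of_nonneg (Finset.filter_subset _ _)
      intro r _ _
      have : 0 ≤ ex (PL K m) (fun v => |QS h (A * (w + v) ^ p + r) - q ^ h * c|) :=
        ex_nonneg (fun _ _ => abs_nonneg _)
      positivity
    refine (f1.trans f2).trans ?_
    rw [Finset.sum_add_distrib, Finset.sum_const, nsmul_eq_mul, hcardPL, ← Finset.mul_sum,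
      ← Finset.mul_sum]
    apply add_le_add
    · apply le_of_eq
      rw [hE, hqd, mul_left_comm, ← Real.rpow_add hq0]
      congr 2
      ring
    · have g1 : ∑ r ∈ PL K d, ex (PL K m) (fun v => |QS h (A * (w + v) ^ p + r) - q ^ h * c|) ≤
          C7 * q ^ (m + d + h - h / 2) / q ^ m := by
        unfold ex
        rw [← Finset.sum_div, card_PL]
        push_cast
        rw [← hq]
        apply div_le_div_of_nonneg_right _ (by positivity)
        have := hsqf h d m A w (by omega) hA hw hwm hd1 hdm7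
        rw [← hc] at this
        exact this
      have g2 : 1 / (q ^ h * c) * (C7 * q ^ (m + d + h - h / 2) / q ^ m) ≤ C7 * q / c * E := by
        have g3 : q ^ (m + d + h - h / 2) / (q ^ m * q ^ h) ≤ q * E := by
          have hnat : (h / 2 : ℕ) ≤ m + d + h := by omega
          have hh2 : (h : ℝ) - 1 ≤ 2 * ((h / 2 : ℕ) : ℝ) := by
            have : h ≤ 2 * (h / 2) + 1 := by omega
            have : (h : ℝ) ≤ 2 * ((h / 2 : ℕ) : ℝ) + 1 := by exact_mod_cast this
            linarith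
          have g4 : q ^ (m + d + h - h / 2) / (q ^ m * q ^ h) =
              q ^ ((d : ℝ) - ((h / 2 : ℕ) : ℝ)) := by
            rw [← pow_add, ← Real.rpow_natCast, ← Real.rpow_natCast, ← Real.rpow_sub hq0]
            congr 1
            rw [Nat.cast_sub hnat]
            push_cast
            ring
          rw [g4, hE]
          nth_rewrite 2 [← Real.rpow_one q]
          rw [← Real.rpow_add hq0]
          apply Real.rpow_le_rpow_of_exponent_le hq1.le
          linarith
        calc 1 / (q ^ h * c) * (C7 * q ^ (m + d + h - h / 2) / q ^ m) =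
            C7 / c * (q ^ (m + d + h - h / 2) / (q ^ m * q ^ h)) := by field_simp
          _ ≤ C7 / c * (q * E) := by gcongr
          _ = _ := by ring
      calc gm k * ((k / 2 : ℕ) * (1 / c) ^ (k / 2)) * (1 / (q ^ h * c) *
            ∑ r ∈ PL K d, ex (PL K m) (fun v => |QS h (A * (w + v) ^ p + r) - q ^ h * c|)) ≤
          gm k * ((k / 2 : ℕ) * (1 / c) ^ (k / 2)) * (1 / (q ^ h * c) *
            (C7 * q ^ (m + d + h - h / 2) / q ^ m)) := by gcongr
        _ ≤ gm k * ((k / 2 : ℕ) * (1 / c) ^ (k / 2)) * (C7 * q / c * E) := by gcongr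
        _ = A3 * E := by rw [hA3]; ring
  have s2 : ∑ r ∈ (PL K d).filter (fun r => ¬ GoodA A ((5 * k + 3) * (h + A.natDegree)) h r), T r ≤ C1 * E := by
    have f1 := card_badA (K := K) p hA ((5 * k + 3) * (h + A.natDegree)) h d hhd
    have f2 : ((((PL K d).filter (fun r => ¬ GoodA A ((5 * k + 3) * (h + A.natDegree)) h r)).card : ℕ) : ℝ) ≤
        q ^ (h + ((5 * k + 3) * (h + A.natDegree) + (d + A.natDegree + 1) / 2) + (d + p - 1) / p) := by
      rw [hq]; exact_mod_cast f1
    refine (Finset.sum_le_sum (fun r _ => htriv r)).trans ?_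
    rw [Finset.sum_const, nsmul_eq_mul]
    have f3 : q ^ (h + ((5 * k + 3) * (h + A.natDegree) + (d + A.natDegree + 1) / 2) + (d + p - 1) / p) * (q ^ h) ^ k ≤ E := by
      have x1 : (2 : ℝ) * (((d + A.natDegree + 1) / 2 : ℕ) : ℝ) ≤ d + A.natDegree + 1 := by
        have : 2 * ((d + A.natDegree + 1) / 2) ≤ d + A.natDegree + 1 := by omega
        exact_mod_cast this
      have x2 : (3 : ℝ) * (((d + p - 1) / p : ℕ) : ℝ) ≤ d + 3 := by
        have h1 : p * ((d + p - 1) / p) ≤ d + p - 1 := Nat.mul_div_le _ _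
        obtain ⟨x, hx⟩ : ∃ x, x = (d + p - 1) / p := ⟨_, rfl⟩
        rw [← hx] at h1 ⊢
        have h2 : 3 * x ≤ d + 3 := by
          rcases Nat.eq_zero_or_pos x with h0 | h0
          · omega
          · obtain ⟨y, rfl⟩ : ∃ y, x = y + 1 := ⟨x - 1, by omega⟩
            have h3 : 3 * y ≤ p * y := Nat.mul_le_mul_right _ hp
            have h4 : p * (y + 1) = p * y + p := by ring
            omega
        exact_mod_cast h2
      have hh4' : (4 : ℝ) ≤ h := by exact_mod_cast hh4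
      rw [← pow_mul, ← pow_add, ← Real.rpow_natCast, hE]
      apply Real.rpow_le_rpow_of_exponent_le hq1.le
      push_cast at x1 x2 ⊢
      rw [hA4] at hd2
      have y1 : 0 ≤ (k : ℝ) * A.natDegree := mul_nonneg hk0 ha0
      have y2 : 0 ≤ (k : ℝ) * h := mul_nonneg hk0 hh0
      nlinarith
    calc _ ≤ q ^ (h + ((5 * k + 3) * (h + A.natDegree) + (d + A.natDegree + 1) / 2) + (d + p - 1) / p) * (C1 * (q ^ h) ^ k) := by
          gcongr
      _ = C1 * (q ^ (h + ((5 * k + 3) * (h + A.natDegree) + (d + A.natDegree + 1) / 2) + (d + p - 1) / p) * (q ^ h) ^ k) := by ring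
      _ ≤ _ := by gcongr
  refine (add_le_add s1 s2).trans ?_
  have : A2 * E + A3 * E + C1 * E = (A2 + A3 + C1) * E := by ring
  rw [this]
  apply mul_le_mul_of_nonneg_right _ hE0.le
  linarith

end P4f18dfF
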