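import Pool.Agent.Lib.P4f18dfF.AG
import Pool.Agent.Lib.P4f18dfF.A6
import Pool.Agent.Lib.P4f18dfF.M8d

/-! The classes of `WA A` on `r + PL K h`. -/

set_option autoImplicit false

namespace P4f18dfF
open Polynomial Finset Pool.Agent.P4f18dfF Pool.Agent.P4f18dfT Pool.Agent.P4f18dfC

section
variable {K : Type*} [Field K]

lemma natDegree_WA_le (A b : K[X]) : (WA A b).natDegree ≤ A.natDegree + b.natDegree := by
  unfold WA
  refine (natDegree_sub_le _ _).trans (max_le ?_ ?_)
  · exact natDegree_mul_le.trans (Nat.add_le_add_left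
      ((natDegree_derivative_le b).trans (Nat.sub_le _ _)) _)
  · exact natDegree_mul_le.trans (Nat.add_le_add_right
      ((natDegree_derivative_le A).trans (Nat.sub_le _ _)) _)

end

variable {K : Type*} [Field K] [Fintype K] [DecidableEq K]

/-- `r + PL K h` -/
noncomputable def shf (h : ℕ) (r : K[X]) : Finset K[X] := (PL K h).image (fun a => r + a)

lemma mem_shf {h : ℕ} {r b : K[X]} : b ∈ shf h r ↔ b - r ∈ PL K h := by
  unfold shf
  rw [Finset.mem_image]
  constructor
  · rintro ⟨a, ha, rfl⟩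
    simpa using ha
  · intro hb
    exact ⟨b - r, hb, by ring⟩

lemma sum_shf {M : Type*} [AddCommMonoid M] (h : ℕ) (r : K[X]) (f : K[X] → M) :
    ∑ b ∈ shf h r, f b = ∑ a ∈ PL K h, f (r + a) := by
  unfold shf
  exact Finset.sum_image (fun _ _ _ _ h => add_left_cancel h)

lemma card_shf (h : ℕ) (r : K[X]) : (shf h r).card = Fintype.card K ^ h := by
  unfold shf
  rw [Finset.card_image_of_injective _ (add_right_injective r), card_PL]

/-- the values of `WA A` on `r + PL K h` -/
noncomputable def IA (A : K[X]) (h : ℕ) (r : K[X]) : Finset K[X] := (shf h r).image (WA A)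

/-- the class of the value `D` -/
noncomputable def TA (A : K[X]) (h : ℕ) (r D : K[X]) : Finset K[X] :=
  (shf h r).filter (fun b => WA A b = D)

lemma mem_TA {A : K[X]} {h : ℕ} {r D b : K[X]} : b ∈ TA A h r D ↔ b - r ∈ PL K h ∧ WA A b = D := by
  unfold TA
  rw [Finset.mem_filter, mem_shf]

lemma mem_IA {A : K[X]} {h : ℕ} {r D : K[X]} : D ∈ IA A h r ↔ ∃ a ∈ PL K h, WA A (r + a) = D := by
  unfold IA
  rw [Finset.mem_image]
  constructor
  · rintro ⟨b, hb, rfl⟩
    exact ⟨b - r, mem_shf.1 hb, by rw [add_sub_cancel]⟩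
  · rintro ⟨a, ha, rfl⟩
    exact ⟨r + a, mem_shf.2 (by simpa using ha), rfl⟩

lemma sum_IA {M : Type*} [AddCommMonoid M] (A : K[X]) (h : ℕ) (r : K[X]) (f : K[X] → M) :
    ∑ D ∈ IA A h r, ∑ b ∈ TA A h r D, f b = ∑ a ∈ PL K h, f (r + a) := by
  rw [← sum_shf h r f]
  unfold IA TA
  exact Finset.sum_fiberwise_of_maps_to (fun b hb => Finset.mem_image_of_mem _ hb) f

lemma card_TA {A : K[X]} {h : ℕ} {r D : K[X]} (hD : D ∈ IA A h r) :
    (TA A h r D).card = (TA A h 0 0).card := by
  obtain ⟨a0, ha0, rfl⟩ := mem_IA.1 hD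
  refine Finset.card_bij' (fun b _ => b - (r + a0)) (fun b _ => b + (r + a0)) ?_ ?_ ?_ ?_
  · intro b hb
    rw [mem_TA] at hb ⊢
    refine ⟨?_, by rw [WA_sub, hb.2, sub_self]⟩
    rw [show b - (r + a0) - 0 = (b - r) + -a0 by ring]
    exact add_mem_PL hb.1 (neg_mem_PL ha0)
  · intro b hb
    rw [mem_TA, sub_zero] at hb
    rw [mem_TA]
    refine ⟨?_, by rw [WA_add, hb.2, zero_add]⟩
    rw [show b + (r + a0) - r = b + a0 by ring]
    exact add_mem_PL hb.1 ha0
  · intro b _; ring
  · intro b _; ring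

lemma card_IA_mul (A : K[X]) (h : ℕ) (r : K[X]) :
    (IA A h r).card * (TA A h 0 0).card = Fintype.card K ^ h := by
  rw [← card_shf h r]
  have h1 : (shf h r).card = ∑ D ∈ IA A h r, (TA A h r D).card := by
    unfold IA TA
    exact Finset.card_eq_sum_card_fiberwise (fun a ha => Finset.mem_coe.2
      (Finset.mem_image_of_mem _ (Finset.mem_coe.1 ha)))
  rw [h1, Finset.sum_congr rfl (fun D hD => card_TA hD), Finset.sum_const, smul_eq_mul]

lemma card_T0_pos (A : K[X]) (h : ℕ) : 0 < (TA A h 0 0).card := by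
  apply Finset.card_pos.2
  exact ⟨0, mem_TA.2 ⟨by rw [sub_zero]; exact zero_mem_PL h, WA_zero A⟩⟩

lemma card_T0_le (p : ℕ) [Fact p.Prime] [CharP K p] (hp : 3 ≤ p) {A : K[X]} (hA : A.Monic)
    (h : ℕ) : (TA A h 0 0).card ≤ Fintype.card K ^ ((h + 2) / 3) := by
  have h1 : TA A h 0 0 = (PL K h).filter (fun r => WA A r = 0) := by
    ext b
    rw [mem_TA, sub_zero, Finset.mem_filter]
  rw [h1]
  refine (card_fibA p hA h 0).trans ?_
  apply Nat.pow_le_pow_right Fintype.card_pos
  have h2 : p * ((h + p - 1) / p) ≤ h + p - 1 := Nat.mul_div_le _ _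
  obtain ⟨x, hx⟩ : ∃ x, x = (h + p - 1) / p := ⟨_, rfl⟩
  rw [← hx] at h2 ⊢
  rcases Nat.eq_zero_or_pos x with h0 | h0
  · omega
  · obtain ⟨y, rfl⟩ : ∃ y, x = y + 1 := ⟨x - 1, by omega⟩
    have h3 : 3 * y ≤ p * y := Nat.mul_le_mul_right _ hp
    have h4 : p * (y + 1) = p * y + p := by ring
    omega

/-- the family of classes for a good remainder -/
lemma famA_of_good {p m d h s L : ℕ} [Fact p.Prime] [CharP K p] {A w r : K[X]}
    (hA : A.Monic) (hw : w.Monic) (hwm : m ≤ w.natDegree) (hr : r ∈ PL K d) (hd : h ≤ d)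
    (hdm : d ≤ m) (hs : h + A.natDegree ≤ s) (hgood : GoodA A L h r) :
    FamA p m (d + 2 * A.natDegree) s L A w (IA A h r) (TA A h r) (fun D => D) where
  mon := hA
  wmon := hw
  wdeg := hwm
  adeg := by omega
  der := fun D _ b hb => (mem_TA.1 hb).2
  deg := by
    intro D _ b hb
    have h1 : b ∈ PL K d := by
      have := add_mem_PL hr (PL_mono hd (mem_TA.1 hb).1)
      rwa [add_sub_cancel] at this
    refine (mem_PL.1 h1).trans_le ?_
    have h3 : d ≤ A.natDegree + p * w.natDegree := by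
      have : w.natDegree ≤ p * w.natDegree := Nat.le_mul_of_pos_left _ (Fact.out : p.Prime).pos
      omega
    exact_mod_cast h3
  ne := by
    intro D hD
    obtain ⟨a, ha, rfl⟩ := mem_IA.1 hD
    exact (hgood a (mem_PL.1 ha)).1
  odd := by
    intro D hD
    obtain ⟨a, ha, rfl⟩ := mem_IA.1 hD
    exact (hgood a (mem_PL.1 ha)).2
  nd := by
    intro D hD
    obtain ⟨a, ha, rfl⟩ := mem_IA.1 hD
    have h1 := natDegree_WA_le A (r + a)
    have h2 : (r + a).natDegree ≤ d :=
      natDegree_le_of_degree_le (mem_PL.1 (add_mem_PL hr (PL_mono hd ha))).le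
    omega
  cross := by
    intro D hD E hE hne S hS hdv
    obtain ⟨a, ha, rfl⟩ := mem_IA.1 hD
    obtain ⟨b, hb, rfl⟩ := mem_IA.1 hE
    have hD0 : WA A (r + a) ≠ 0 := (hgood a (mem_PL.1 ha)).1
    have h1 : WA A (r + a) - WA A (r + b) = WA A (a - b) := by
      rw [← WA_sub]; congr 1; ring
    have h2 : WA A (r + a) - WA A (r + b) ≠ 0 := sub_ne_zero.2 hne
    refine (sum_natDegree_le hD0 h2 S hS (fun P hP =>
      dvd_sub (dvd_of_mem_oddp hD0 (hS hP)) (hdv P hP))).trans ?_
    rw [h1]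
    refine (natDegree_WA_le _ _).trans ?_
    have h3 : (a - b).natDegree ≤ h :=
      (natDegree_sub_le _ _).trans (max_le (natDegree_le_of_degree_le (mem_PL.1 ha).le)
        (natDegree_le_of_degree_le (mem_PL.1 hb).le))
    omega
  close := by
    intro D _ b hb c hc _
    have h1 := (mem_TA.1 hb).1
    have h2 := (mem_TA.1 hc).1
    have h3 : (b - c).natDegree ≤ h := by
      rw [show b - c = (b - r) - (c - r) by ring]
      exact (natDegree_sub_le _ _).trans (max_le (natDegree_le_of_degree_le (mem_PL.1 h1).le)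
        (natDegree_le_of_degree_le (mem_PL.1 h2).le))
    omega

end P4f18dfF
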