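import Pool.Agent.Lib.P4f18dfF.M4

/-! Most r are good: no b near r has a derivative with small odd part. -/

namespace P4f18dfF
open Polynomial Finset

/-- total degree of the primes of odd multiplicity -/
noncomputable def oddeg {K : Type*} [Field K] (D : K[X]) : ℕ := ∑ P ∈ oddp D, P.natDegree

/-- every b in the interval of length h around r has a derivative with large odd part -/
def Good {K : Type*} [Field K] (L h : ℕ) (r : K[X]) : Prop :=
  ∀ a : K[X], a.degree < h → derivative (r + a) ≠ 0 ∧ L ≤ oddeg (derivative (r + a))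

section
variable {K : Type*} [Field K]

lemma exists_odd_part {D : K[X]} (hD : D ≠ 0) :
    ∃ B : K[X], D = C D.leadingCoeff * (∏ P ∈ oddp D, P) * B ^ 2 := by
  classical
  have h0 := leadingCoeff_mul_prod_normalizedFactors D
  set s := UniqueFactorizationMonoid.normalizedFactors D with hs
  have h1 : s.prod = ∏ P ∈ s.toFinset, P ^ s.count P := by
    rw [Finset.prod_multiset_count]
  refine ⟨∏ P ∈ s.toFinset, P ^ (s.count P / 2), ?_⟩
  have h2 : ∏ P ∈ oddp D, P = ∏ P ∈ s.toFinset, P ^ (s.count P % 2) := by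
    rw [oddp, Finset.prod_filter]
    refine Finset.prod_congr rfl fun P _ => ?_
    by_cases h : Odd (s.count P)
    · rw [if_pos h, Nat.odd_iff.1 h, pow_one]
    · rw [if_neg h, Nat.not_odd_iff.1 h, pow_zero]
  rw [h2, mul_assoc, ← Finset.prod_pow, ← Finset.prod_mul_distrib]
  conv_lhs => rw [← h0, h1]
  congr 1
  refine Finset.prod_congr rfl fun P _ => ?_
  rw [← pow_mul, ← pow_add]
  congr 1
  omega

lemma natDegree_oddp_prod {D : K[X]} (hD : D ≠ 0) : (∏ P ∈ oddp D, P).natDegree = oddeg D :=
  natDegree_prod_of_monic _ _ fun P hP => ((mem_oddp hD).1 hP).2.1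
end

section
variable {K : Type*} [Field K] [Fintype K]

lemma PL_subset_bad (L e : ℕ) {D : K[X]} (hD : D.degree < e) (h : D = 0 ∨ oddeg D < L) :
    ∃ x ∈ PL K L ×ˢ PL K ((e + 1) / 2), x.1 * x.2 ^ 2 = D := by
  by_cases h0 : D = 0
  · subst h0
    exact ⟨(0, 0), mem_product.2 ⟨zero_mem_PL _, zero_mem_PL _⟩, by simp⟩
  have hod : oddeg D < L := h.resolve_left h0
  obtain ⟨B, hB⟩ := exists_odd_part h0
  have hlc : D.leadingCoeff ≠ 0 := leadingCoeff_ne_zero.2 h0
  have hA0 : (∏ P ∈ oddp D, P) ≠ 0 :=
    (monic_prod_of_monic _ _ fun P hP => ((mem_oddp h0).1 hP).2.1).ne_zero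
  have hB0 : B ≠ 0 := by
    rintro rfl
    apply h0; rw [hB]; simp
  have hdeg : D.natDegree = oddeg D + 2 * B.natDegree := by
    conv_lhs => rw [hB]
    rw [natDegree_mul (mul_ne_zero (C_ne_zero.2 hlc) hA0) (pow_ne_zero 2 hB0),
      natDegree_C_mul hlc, natDegree_oddp_prod h0, natDegree_pow]
  refine ⟨(C D.leadingCoeff * (∏ P ∈ oddp D, P), B), mem_product.2 ⟨?_, ?_⟩, hB.symm⟩
  · rw [mem_PL, degree_eq_natDegree (mul_ne_zero (C_ne_zero.2 hlc) hA0), natDegree_C_mul hlc,
      natDegree_oddp_prod h0]
    exact_mod_cast hod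
  · rw [mem_PL, degree_eq_natDegree hB0]
    rw [degree_eq_natDegree h0] at hD
    have : D.natDegree < e := by exact_mod_cast hD
    exact_mod_cast (by omega : B.natDegree < (e + 1) / 2)

variable (p : ℕ) [Fact p.Prime] [CharP K p]

/-- a derivative has few antiderivatives of bounded degree -/
lemma card_antider_le (d : ℕ) (D : K[X]) [DecidableEq K[X]] :
    ((PL K d).filter (fun r => derivative r = D)).card ≤ Fintype.card K ^ ((d + p - 1) / p) := by
  rcases ((PL K d).filter (fun r => derivative r = D)).eq_empty_or_nonempty with h | ⟨r₀, hr₀⟩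
  · rw [h]; simp
  rw [← card_PL]
  have hp := (Fact.out : p.Prime).pos
  choose! f hf using fun (g : K[X]) (hg : derivative g = 0) => exists_pow_eq p hg
  rw [mem_filter] at hr₀
  refine Finset.card_le_card_of_injOn (fun r => f (r - r₀)) ?_ ?_
  · intro r hr
    rw [Finset.mem_coe, mem_filter] at hr
    have hder : derivative (r - r₀) = 0 := by rw [derivative_sub, hr.2, hr₀.2, sub_self]
    have h1 := hf _ hder
    have h2 : (r - r₀) ∈ PL K d := by
      rw [sub_eq_add_neg]; exact add_mem_PL hr.1 (neg_mem_PL hr₀.1)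
    rw [Finset.mem_coe, mem_PL]
    by_cases h0 : f (r - r₀) = 0
    · simp only [h0]; simp [bot_lt_iff_ne_bot]
    · have h3 : (f (r - r₀) ^ p).degree < d := by rw [h1]; exact mem_PL.1 h2
      rw [degree_eq_natDegree (pow_ne_zero p h0), natDegree_pow] at h3
      have h4 : p * (f (r - r₀)).natDegree < d := by exact_mod_cast h3
      rw [degree_eq_natDegree h0]
      have h5 : (f (r - r₀)).natDegree < (d + p - 1) / p := by
        have h6 : (f (r - r₀)).natDegree + 1 ≤ (d + p - 1) / p := by
          rw [Nat.le_div_iff_mul_le hp, add_mul, one_mul, mul_comm]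
          omega
        omega
      exact_mod_cast h5
  · intro r hr s hs h
    rw [Finset.mem_coe, mem_filter] at hr hs
    have hr' : derivative (r - r₀) = 0 := by rw [derivative_sub, hr.2, hr₀.2, sub_self]
    have hs' : derivative (s - r₀) = 0 := by rw [derivative_sub, hs.2, hr₀.2, sub_self]
    have h1 := hf _ hr'
    have h2 := hf _ hs'
    simp only at h
    rw [h, h2] at h1
    exact (sub_left_injective h1).symm

/-- few r are bad -/
theorem card_bad_le (L h d : ℕ) (hd : h ≤ d) [DecidableEq K[X]] [DecidablePred (Good (K := K) L h)] :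
    ((PL K d).filter (fun r => ¬ Good L h r)).card ≤
      Fintype.card K ^ (h + (L + (d + 1) / 2) + (d + p - 1) / p) := by
  classical
  set W := (PL K L ×ˢ PL K ((d + 1) / 2)).image (fun x => x.1 * x.2 ^ 2) with hW
  have hWc : W.card ≤ Fintype.card K ^ (L + (d + 1) / 2) := by
    refine card_image_le.trans ?_
    rw [card_product, card_PL, card_PL, pow_add]
  have hsub : (PL K d).filter (fun r => ¬ Good L h r) ⊆
      (PL K h).biUnion fun a => W.biUnion fun D => (PL K d).filter (fun r => derivative (r + a) = D) := by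
    intro r hr
    rw [mem_filter] at hr
    obtain ⟨hr, hg⟩ := hr
    rw [Good] at hg
    push Not at hg
    obtain ⟨a, ha, hg⟩ := hg
    have hra : r + a ∈ PL K d := add_mem_PL hr (PL_mono hd (mem_PL.2 ha))
    have hdeg : (derivative (r + a)).degree < d :=
      (degree_derivative_le).trans_lt (mem_PL.1 hra)
    obtain ⟨x, hx, hxD⟩ := PL_subset_bad L d hdeg (by
      by_cases h0 : derivative (r + a) = 0
      · exact Or.inl h0
      · exact Or.inr (hg h0))
    rw [mem_biUnion]
    refine ⟨a, mem_PL.2 ha, ?_⟩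
    rw [mem_biUnion]
    refine ⟨derivative (r + a), ?_, mem_filter.2 ⟨hr, rfl⟩⟩
    rw [hW, mem_image]
    exact ⟨x, hx, hxD⟩
  refine (card_le_card hsub).trans ?_
  refine card_biUnion_le.trans ?_
  have h1 : ∀ a ∈ PL K h, (W.biUnion fun D => (PL K d).filter (fun r => derivative (r + a) = D)).card ≤
      Fintype.card K ^ (L + (d + 1) / 2) * Fintype.card K ^ ((d + p - 1) / p) := by
    intro a ha
    refine card_biUnion_le.trans ?_
    refine (Finset.sum_le_card_nsmul _ _ (Fintype.card K ^ ((d + p - 1) / p)) ?_).trans ?_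
    · intro D _
      refine le_trans ?_ (card_antider_le p d D)
      refine Finset.card_le_card_of_injOn (fun r => r + a) ?_ ?_
      · intro r hr
        rw [Finset.mem_coe, mem_filter] at hr ⊢
        exact ⟨add_mem_PL hr.1 (PL_mono hd ha), hr.2⟩
      · intro r _ s _ hrs
        exact add_right_cancel hrs
    · rw [smul_eq_mul]
      exact Nat.mul_le_mul_right _ hWc
  refine (Finset.sum_le_card_nsmul _ _ _ h1).trans ?_
  rw [card_PL, smul_eq_mul, pow_add (Fintype.card K) (h + (L + (d + 1) / 2)),
    pow_add (Fintype.card K) h, mul_assoc]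

end
end P4f18dfF
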