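import Pool.Agent.Lib.P4f18dfF.M8
import Pool.Agent.Lib.P4f18dfF.M6

/-! Windows: abstract second moment argument. -/

set_option autoImplicit false

namespace P4f18dfF
open Polynomial Finset Pool.Agent.P4f18dfF Pool.Agent.P4f18dfT Pool.Agent.P4f18dfC

universe u

variable {K : Type u} [Field K] [Fintype K]

lemma cardPL_real (n : ℕ) : ((PL K n).card : ℝ) = (Fintype.card K : ℝ) ^ n := by
  rw [card_PL]; push_cast; rfl

/-- Cauchy-Schwarz for the mean over windows -/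
lemma window_cs {d e m : ℕ} (hed : e ≤ d) (f : K[X] → K[X] → ℝ) (g b1 b2 : ℝ)
    (h1 : |∑ r ∈ PL K d, ∑ v ∈ PL K m, (f v r - g)| ≤ b1)
    (h2 : ∑ r₁ ∈ PL K e, ∑ r₂ ∈ PL K e,
      |∑ r₀ ∈ PL K d, ∑ v ∈ PL K m, (f v (r₀ + r₁) * f v (r₀ + r₂) - g ^ 2)| ≤ b2) :
    (∑ r₀ ∈ PL K d, ∑ v ∈ PL K m, |ex (PL K e) (fun r₁ => f v (r₀ + r₁)) - g|) ^ 2 ≤
      (Fintype.card K : ℝ) ^ (d + m) * (b2 / (Fintype.card K : ℝ) ^ (2 * e) + 2 * |g| * b1) := by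
  have hq0 : (0 : ℝ) < Fintype.card K := by exact_mod_cast Fintype.card_pos
  set q : ℝ := (Fintype.card K : ℝ) with hq
  have hqe : (0 : ℝ) < q ^ e := pow_pos hq0 e
  set A : K[X] → K[X] → ℝ := fun r₀ v => ex (PL K e) (fun r₁ => f v (r₀ + r₁)) with hA
  -- Cauchy-Schwarz
  have cs : (∑ r₀ ∈ PL K d, ∑ v ∈ PL K m, |A r₀ v - g|) ^ 2 ≤
      q ^ (d + m) * ∑ r₀ ∈ PL K d, ∑ v ∈ PL K m, (A r₀ v - g) ^ 2 := by
    rw [← Finset.sum_product', ← Finset.sum_product' (f := fun r₀ v => (A r₀ v - g) ^ 2)]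
    have h3 := sq_sum_le_card_mul_sum_sq (s := PL K d ×ˢ PL K m)
      (f := fun x : K[X] × K[X] => |A x.1 x.2 - g|)
    simp only [sq_abs] at h3
    rw [card_product] at h3
    push_cast at h3
    rw [cardPL_real, cardPL_real, ← pow_add] at h3
    exact h3
  refine cs.trans (mul_le_mul_of_nonneg_left ?_ (pow_pos hq0 _).le)
  -- the mean of `A - g`
  have m1 : ∑ r₀ ∈ PL K d, ∑ v ∈ PL K m, (A r₀ v - g) =
      ∑ r ∈ PL K d, ∑ v ∈ PL K m, (f v r - g) := by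
    have e1 : ∀ r₀ v, A r₀ v - g = (∑ r₁ ∈ PL K e, (f v (r₀ + r₁) - g)) / q ^ e := by
      intro r₀ v
      rw [Finset.sum_sub_distrib, sum_const, nsmul_eq_mul, cardPL_real, hA]
      simp only
      rw [ex, cardPL_real, ← hq]
      field_simp
    simp_rw [e1]
    simp_rw [← Finset.sum_div]
    rw [div_eq_iff hqe.ne']
    have e2 : ∑ r₀ ∈ PL K d, ∑ v ∈ PL K m, ∑ r₁ ∈ PL K e, (f v (r₀ + r₁) - g) =
        ∑ r₁ ∈ PL K e, ∑ r₀ ∈ PL K d, ∑ v ∈ PL K m, (f v (r₀ + r₁) - g) := by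
      rw [Finset.sum_comm]
      rw [Finset.sum_congr rfl fun v _ => Finset.sum_comm]
      rw [Finset.sum_comm]
      refine Finset.sum_congr rfl fun r₁ _ => ?_
      rw [Finset.sum_comm]
    rw [e2]
    have e3 : ∀ r₁ ∈ PL K e, ∑ r₀ ∈ PL K d, ∑ v ∈ PL K m, (f v (r₀ + r₁) - g) =
        ∑ r ∈ PL K d, ∑ v ∈ PL K m, (f v r - g) := by
      intro r₁ hr₁
      exact sum_PL_add d (fun r => ∑ v ∈ PL K m, (f v r - g)) (PL_mono hed hr₁)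
    rw [Finset.sum_congr rfl e3, sum_const, nsmul_eq_mul, cardPL_real]
    ring
  -- the mean of `A ^ 2 - g ^ 2`
  have m2 : |∑ r₀ ∈ PL K d, ∑ v ∈ PL K m, (A r₀ v ^ 2 - g ^ 2)| ≤ b2 / q ^ (2 * e) := by
    have e1 : ∀ r₀ v, A r₀ v ^ 2 - g ^ 2 =
        (∑ r₁ ∈ PL K e, ∑ r₂ ∈ PL K e, (f v (r₀ + r₁) * f v (r₀ + r₂) - g ^ 2)) / q ^ (2 * e) := by
      intro r₀ v
      have e4 : ∑ r₁ ∈ PL K e, ∑ r₂ ∈ PL K e, (f v (r₀ + r₁) * f v (r₀ + r₂) - g ^ 2) =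
          (∑ r₁ ∈ PL K e, f v (r₀ + r₁)) ^ 2 - q ^ (2 * e) * g ^ 2 := by
        simp_rw [Finset.sum_sub_distrib, sum_const, nsmul_eq_mul, cardPL_real]
        rw [sq (∑ r₁ ∈ PL K e, f v (r₀ + r₁)), Finset.sum_mul_sum, ← hq]
        ring
      rw [e4, hA]
      simp only
      rw [ex, cardPL_real, ← hq, two_mul, pow_add]
      field_simp
    simp_rw [e1]
    simp_rw [← Finset.sum_div]
    rw [abs_div, abs_of_pos (pow_pos hq0 (2 * e))]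
    apply div_le_div_of_nonneg_right _ (pow_pos hq0 _).le
    have e2 : ∑ r₀ ∈ PL K d, ∑ v ∈ PL K m, ∑ r₁ ∈ PL K e, ∑ r₂ ∈ PL K e,
          (f v (r₀ + r₁) * f v (r₀ + r₂) - g ^ 2) =
        ∑ r₁ ∈ PL K e, ∑ r₂ ∈ PL K e, ∑ r₀ ∈ PL K d, ∑ v ∈ PL K m,
          (f v (r₀ + r₁) * f v (r₀ + r₂) - g ^ 2) := by
      simp_rw [← Finset.sum_product' (PL K e) (PL K e), ← Finset.sum_product' (PL K d) (PL K m)]
      exact Finset.sum_comm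
    rw [e2]
    exact (Finset.abs_sum_le_sum_abs _ _).trans
      ((Finset.sum_le_sum fun r₁ _ => Finset.abs_sum_le_sum_abs _ _).trans h2)
  have m3 : ∑ r₀ ∈ PL K d, ∑ v ∈ PL K m, (A r₀ v - g) ^ 2 =
      ∑ r₀ ∈ PL K d, ∑ v ∈ PL K m, (A r₀ v ^ 2 - g ^ 2) -
        2 * g * ∑ r₀ ∈ PL K d, ∑ v ∈ PL K m, (A r₀ v - g) := by
    simp_rw [Finset.mul_sum, ← Finset.sum_sub_distrib]
    refine Finset.sum_congr rfl fun r₀ _ => Finset.sum_congr rfl fun v _ => ?_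
    ring
  rw [m3, m1]
  have h5 : |2 * g * ∑ r ∈ PL K d, ∑ v ∈ PL K m, (f v r - g)| ≤ 2 * |g| * b1 := by
    rw [abs_mul, abs_mul, abs_two]
    exact mul_le_mul_of_nonneg_left h1 (by positivity)
  have h6 := (abs_le.1 m2).2
  have h7 := (abs_le.1 h5).1
  linarith

end P4f18dfF
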