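import Pool.Agent.Lib.P4f18dfF.Joint
import Pool.Agent.Lib.P4f18dfF.WinA

/-! Windows: the joint moments summed over the centres. -/

set_option autoImplicit false

namespace P4f18dfF
open Polynomial Finset Pool.Agent.P4f18dfF Pool.Agent.P4f18dfT Pool.Agent.P4f18dfC

universe u

variable {K : Type u} [Field K] [Fintype K] [DecidableEq K]

omit [DecidableEq K] in
lemma one_lt_q (K : Type u) [Field K] [Fintype K] : (1 : ℝ) < Fintype.card K := by
  exact_mod_cast Fintype.one_lt_card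

omit [DecidableEq K] in
lemma cK_pos (K : Type u) [Field K] [Fintype K] : (0 : ℝ) < 1 - 1 / (Fintype.card K : ℝ) := by
  have h1 := one_lt_q K
  rw [sub_pos, div_lt_one (by linarith)]; exact h1

omit [DecidableEq K] in
lemma cK_le (K : Type u) [Field K] [Fintype K] : 1 - 1 / (Fintype.card K : ℝ) ≤ 1 := by
  have h1 := one_lt_q K
  have : (0 : ℝ) < 1 / (Fintype.card K : ℝ) := by positivity
  linarith

omit [DecidableEq K] in
lemma HC_pos (h : ℕ) : 0 < HC K h :=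
  mul_pos (pow_pos (by have := one_lt_q K; linarith) _) (cK_pos K)

omit [DecidableEq K] in
lemma QS_div_nonneg (h : ℕ) (f : K[X]) : 0 ≤ QS h f / HC K h :=
  div_nonneg (QS_nonneg _ _) (HC_pos h).le

omit [DecidableEq K] in
lemma QS_div_le (h : ℕ) (f : K[X]) : QS h f / HC K h ≤ 1 / (1 - 1 / (Fintype.card K : ℝ)) := by
  have h1 := one_lt_q K
  have h0 : (0 : ℝ) < (Fintype.card K : ℝ) ^ h := pow_pos (by linarith) _
  rw [div_le_div_iff₀ (HC_pos h) (cK_pos K), one_mul, HC]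
  exact mul_le_mul_of_nonneg_right (QS_le h f) (cK_pos K).le

/-- mean deviation of the squarefree counts -/
theorem qs_mean (p : ℕ) [Fact p.Prime] [CharP K p] (hK : ringChar K ≠ 2) :
    ∃ C : ℝ, 0 < C ∧ ∀ h d m : ℕ, C * h ≤ d → d ≤ m →
      ∑ r ∈ PL K d, ex (PL K m) (fun v => |QS h ((X ^ m + v) ^ p + r) / HC K h - 1|) ≤
        C * (Fintype.card K : ℝ) ^ ((d : ℝ) - (h : ℝ) / 6) := by
  obtain ⟨C7, hC7, hsqf⟩ := sqf_mean (K := K) p hK
  have hq1 := one_lt_q K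
  have hc0 := cK_pos K
  have hc1 := cK_le K
  set q : ℝ := (Fintype.card K : ℝ) with hq
  have hq0 : 0 < q := by linarith
  set c : ℝ := 1 - 1 / q with hc
  set M : ℝ := 1 / c with hM
  have hM1 : 1 ≤ M := by rw [hM, le_div_iff₀ hc0]; linarith
  refine ⟨M * q + C7 * q / c, by positivity, fun h d m hd hdm => ?_⟩
  have hh0 : (0 : ℝ) ≤ h := Nat.cast_nonneg _
  set E : ℝ := q ^ ((d : ℝ) - (h : ℝ) / 6) with hE
  have hE0 : 0 < E := by positivity
  have hqd : q ^ d = q ^ (d : ℝ) := (Real.rpow_natCast q d).symm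
  have hd1 : C7 * h ≤ d := by
    refine le_trans (mul_le_mul_of_nonneg_right ?_ hh0) hd
    have h1 : C7 ≤ C7 * q / c := by
      rw [le_div_iff₀ hc0]
      have h2 : C7 * c ≤ C7 * 1 := mul_le_mul_of_nonneg_left hc1 hC7.le
      have h3 : C7 * 1 ≤ C7 * q := mul_le_mul_of_nonneg_left hq1.le hC7.le
      linarith
    have h2 : 0 ≤ M * q := by positivity
    linarith
  by_cases hh : h < 2
  · -- trivial bound
    have h1 : ∑ r ∈ PL K d, ex (PL K m) (fun v => |QS h ((X ^ m + v) ^ p + r) / HC K h - 1|) ≤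
        ∑ r ∈ PL K d, M := by
      refine Finset.sum_le_sum fun r _ => ex_le_const (by linarith) fun v _ => ?_
      rw [abs_le]
      have h2 := QS_div_nonneg (K := K) h ((X ^ m + v) ^ p + r)
      have h3 := QS_div_le (K := K) h ((X ^ m + v) ^ p + r)
      rw [← hq, ← hc, ← hM] at h3
      constructor <;> linarith
    rw [sum_const, nsmul_eq_mul, cardPL_real, ← hq] at h1
    have h2 : q ^ d ≤ q * E := by
      rw [hE, hqd]
      nth_rewrite 2 [← Real.rpow_one q]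
      rw [← Real.rpow_add hq0]
      apply Real.rpow_le_rpow_of_exponent_le hq1.le
      have : (h : ℝ) ≤ 2 := by exact_mod_cast hh.le
      linarith
    have h3 : q ^ d * M ≤ q * E * M := mul_le_mul_of_nonneg_right h2 (by linarith)
    have h4 : 0 ≤ C7 * q / c * E := by positivity
    calc _ ≤ q ^ d * M := h1
      _ ≤ q * E * M := h3
      _ ≤ (M * q + C7 * q / c) * E := by linarith
  · push Not at hh
    have h1 : ∑ r ∈ PL K d, ex (PL K m) (fun v => |QS h ((X ^ m + v) ^ p + r) / HC K h - 1|) =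
        (∑ r ∈ PL K d, ∑ v ∈ PL K m, |QS h ((X ^ m + v) ^ p + r) - q ^ h * c|) /
          (q ^ m * (q ^ h * c)) := by
      rw [Finset.sum_div]
      refine Finset.sum_congr rfl fun r _ => ?_
      rw [ex, cardPL_real, ← hq, ← div_div, div_right_comm]
      congr 1
      rw [Finset.sum_div]
      refine Finset.sum_congr rfl fun v _ => ?_
      have e1 : QS h ((X ^ m + v) ^ p + r) / HC K h - 1 =
          (QS h ((X ^ m + v) ^ p + r) - q ^ h * c) / (q ^ h * c) := by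
        rw [HC, ← hq, ← hc]
        field_simp
      rw [e1, abs_div, abs_of_pos (by positivity : 0 < q ^ h * c)]
    rw [h1]
    have h2 := hsqf h d m hh hd1 hdm
    rw [div_le_iff₀ (by positivity)]
    refine h2.trans ?_
    have g3 : q ^ (m + d + h - h / 2) ≤ q * E * (q ^ m * q ^ h) := by
      have hnat : (h / 2 : ℕ) ≤ m + d + h := by omega
      have hh2 : (h : ℝ) - 1 ≤ 2 * ((h / 2 : ℕ) : ℝ) := by
        have : h ≤ 2 * (h / 2) + 1 := by omega
        have : (h : ℝ) ≤ 2 * ((h / 2 : ℕ) : ℝ) + 1 := by exact_mod_cast this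
        linarith
      rw [← pow_add, ← Real.rpow_natCast, ← Real.rpow_natCast, hE]
      nth_rewrite 2 [← Real.rpow_one q]
      rw [← Real.rpow_add hq0, ← Real.rpow_add hq0]
      apply Real.rpow_le_rpow_of_exponent_le hq1.le
      rw [Nat.cast_sub hnat]
      push_cast
      linarith
    have h4 : 0 ≤ M * q * E * (q ^ m * (q ^ h * c)) := by positivity
    calc C7 * q ^ (m + d + h - h / 2) ≤ C7 * (q * E * (q ^ m * q ^ h)) :=
          mul_le_mul_of_nonneg_left g3 hC7.le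
      _ = C7 * q / c * E * (q ^ m * (q ^ h * c)) := by field_simp
      _ ≤ (M * q + C7 * q / c) * E * (q ^ m * (q ^ h * c)) := by
          rw [add_mul, add_mul]
          linarith

omit [DecidableEq K] in
lemma prod_pow_sub_one_le {x y M : ℝ} (hx : 0 ≤ x) (hxM : x ≤ M) (hy : 0 ≤ y) (hyM : y ≤ M)
    (hM : 1 ≤ M) (l : ℕ) :
    |x ^ l * y ^ l - 1| ≤ l * M ^ (2 * l) * (|x - 1| + |y - 1|) := by
  have h1 := pow_sub_one_le hx hxM hM l
  have h2 := pow_sub_one_le hy hyM hM l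
  have hMl : 1 ≤ M ^ l := one_le_pow₀ hM
  have e1 : x ^ l * y ^ l - 1 = x ^ l * (y ^ l - 1) + (x ^ l - 1) := by ring
  have h3 : x ^ l ≤ M ^ l := pow_le_pow_left₀ hx hxM l
  have h0 : (0 : ℝ) ≤ l * M ^ l * |x - 1| := by positivity
  have h0' : (0 : ℝ) ≤ l * M ^ l * |y - 1| := by positivity
  calc |x ^ l * y ^ l - 1| ≤ |x ^ l * (y ^ l - 1)| + |x ^ l - 1| := by rw [e1]; exact abs_add_le _ _
    _ = x ^ l * |y ^ l - 1| + |x ^ l - 1| := by rw [abs_mul, abs_of_nonneg (pow_nonneg hx l)]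
    _ ≤ M ^ l * (l * M ^ l * |y - 1|) + l * M ^ l * |x - 1| := by
        refine add_le_add ?_ h1
        exact mul_le_mul h3 h2 (abs_nonneg _) (by positivity)
    _ ≤ M ^ l * (l * M ^ l * |y - 1|) + M ^ l * (l * M ^ l * |x - 1|) := by
        have := le_mul_of_one_le_left h0 hMl
        linarith
    _ = _ := by rw [two_mul, pow_add]; ring

/-- the trivial bound -/
lemma triv2_le (k h : ℕ) (W : Finset K[X]) (F G : K[X] → K[X]) :
    |ex W (fun v => Zn h (F v) ^ k * Zn h (G v) ^ k) - gm k ^ 2| ≤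
      ((1 / √(1 - 1 / (Fintype.card K : ℝ))) ^ k + gm k) ^ 2 *
        (((Fintype.card K : ℝ) ^ h) ^ k) ^ 2 := by
  have hq1 := one_lt_q K
  have hc0 := cK_pos K
  set q : ℝ := (Fintype.card K : ℝ) with hq
  have hq0 : 0 < q := by linarith
  set c : ℝ := 1 - 1 / q with hc
  have hg := gm_nonneg k
  have hH : 1 ≤ q ^ h := one_le_pow₀ hq1.le
  have h3 : 0 < √c := Real.sqrt_pos.2 hc0
  have h1 : ∀ f : K[X], |Zn h f| ≤ (1 / √c) * q ^ h := by
    intro f
    unfold Zn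
    rw [← hq, ← hc, abs_div, abs_of_nonneg (Real.sqrt_nonneg _), Real.sqrt_mul (by positivity)]
    have h2 : 1 ≤ √(q ^ h) := by rw [Real.one_le_sqrt]; exact hH
    rw [div_le_iff₀ (by positivity)]
    have h4 := abs_MS_le h f
    rw [← hq] at h4
    calc |MS h f| ≤ q ^ h := h4
      _ = 1 / √c * q ^ h * (1 * √c) := by field_simp
      _ ≤ _ := by gcongr
  have h2 : |ex W (fun v => Zn h (F v) ^ k * Zn h (G v) ^ k)| ≤ (((1 / √c) * q ^ h) ^ k) ^ 2 := by
    refine (abs_ex_le (g := fun _ => (((1 / √c) * q ^ h) ^ k) ^ 2) ?_).trans ?_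
    · intro v _
      rw [abs_mul, abs_pow, abs_pow, sq]
      exact mul_le_mul (pow_le_pow_left₀ (abs_nonneg _) (h1 _) k)
        (pow_le_pow_left₀ (abs_nonneg _) (h1 _) k) (pow_nonneg (abs_nonneg _) k)
        (pow_nonneg (by positivity) k)
    · exact ex_le_const (by positivity) (fun _ _ => le_rfl)
  have hHk : 1 ≤ (q ^ h) ^ k := one_le_pow₀ hH
  have h4 : gm k ^ 2 ≤ gm k ^ 2 * ((q ^ h) ^ k) ^ 2 :=
    le_mul_of_one_le_right (sq_nonneg _) (one_le_pow₀ hHk)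
  have h5 : 0 ≤ (1 / √c) ^ k := by positivity
  calc _ ≤ |ex W (fun v => Zn h (F v) ^ k * Zn h (G v) ^ k)| + |gm k ^ 2| := abs_sub _ _
    _ ≤ (((1 / √c) * q ^ h) ^ k) ^ 2 + gm k ^ 2 * ((q ^ h) ^ k) ^ 2 := by
        rw [abs_of_nonneg (sq_nonneg (gm k))]; exact add_le_add h2 h4
    _ = (((1 / √c) ^ k) ^ 2 + gm k ^ 2) * ((q ^ h) ^ k) ^ 2 := by rw [mul_pow]; ring
    _ ≤ _ := by
        apply mul_le_mul_of_nonneg_right _ (sq_nonneg _)
        nlinarith [mul_nonneg h5 hg]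

lemma ceil_third {p : ℕ} (hp : 3 ≤ p) (d : ℕ) : 3 * ((d + p - 1) / p) ≤ d + 3 := by
  have h1 : p * ((d + p - 1) / p) ≤ d + p - 1 := Nat.mul_div_le _ _
  obtain ⟨x, hx⟩ : ∃ x, x = (d + p - 1) / p := ⟨_, rfl⟩
  rw [← hx] at h1 ⊢
  rcases Nat.eq_zero_or_pos x with h0 | h0
  · omega
  · obtain ⟨y, rfl⟩ : ∃ y, x = y + 1 := ⟨x - 1, by omega⟩
    have h3 : 3 * y ≤ p * y := Nat.mul_le_mul_right _ hp
    have h4 : p * (y + 1) = p * y + p := by ring
    omega

/-- the sum over the centres of the joint moments, for separated `r₁`, `r₂` -/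
theorem joint_sep (p : ℕ) [Fact p.Prime] [CharP K p] (hK : ringChar K ≠ 2) (k : ℕ) :
    ∃ C : ℝ, 1 ≤ C ∧ ∀ h e d m : ℕ, 1 ≤ h → C * h ≤ e → C * e ≤ d → C * d ≤ m →
      ∀ r₁ ∈ PL K e, ∀ r₂ ∈ PL K e, (∀ a ∈ PL K h, derivative (r₁ - r₂) ≠ derivative a) →
      ∑ r₀ ∈ PL K d, |ex (PL K m) (fun v => Zn h ((X ^ m + v) ^ p + (r₀ + r₁)) ^ k *
          Zn h ((X ^ m + v) ^ p + (r₀ + r₂)) ^ k) - gm k ^ 2| ≤
        C * (Fintype.card K : ℝ) ^ ((d : ℝ) - (h : ℝ) / 6) := by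
  classical
  obtain ⟨CJ, L₀, hCJ, hjoint⟩ := joint (K := K) p hK k
  obtain ⟨CS, hCS, hqs⟩ := qs_mean (K := K) p hK
  have hp3 := three_le (K := K) p hK
  have hq1 := one_lt_q K
  have hc0 := cK_pos K
  have hc1 := cK_le K
  set q : ℝ := (Fintype.card K : ℝ) with hq
  have hq0 : 0 < q := by linarith
  set c : ℝ := 1 - 1 / q with hc
  set M : ℝ := 1 / c with hM
  have hM1 : 1 ≤ M := by rw [hM, le_div_iff₀ hc0]; linarith
  set C1 : ℝ := (1 / √c) ^ k + gm k with hC1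
  have hg := gm_nonneg k
  have hC10 : 0 ≤ C1 := by positivity
  set A2 : ℝ := gm k ^ 2 * ((k / 2 : ℕ) * M ^ (2 * (k / 2))) with hA2
  have hA20 : 0 ≤ A2 := by positivity
  set A4 : ℝ := 6 * (L₀ + 2 * k + 6) with hA4
  have hA40 : 0 ≤ A4 := by positivity
  refine ⟨CJ + A2 * (2 * CS) + C1 ^ 2 + A4 + CS + 1, by nlinarith [mul_nonneg hA20 hCS.le], ?_⟩
  intro h e d m hh1 he hd hm r₁ hr₁ r₂ hr₂ hsep
  set C : ℝ := CJ + A2 * (2 * CS) + C1 ^ 2 + A4 + CS + 1 with hC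
  have hx1 : 0 ≤ A2 * (2 * CS) := by positivity
  have hx2 : 0 ≤ C1 ^ 2 := sq_nonneg _
  have hC_CJ : CJ ≤ C := by linarith
  have hC_CS : CS ≤ C := by linarith
  have hC_A4 : A4 ≤ C := by linarith
  have hC_1 : 1 ≤ C := by linarith
  have hh0 : (0 : ℝ) ≤ h := Nat.cast_nonneg _
  have he0 : (0 : ℝ) ≤ e := Nat.cast_nonneg _
  have hd0 : (0 : ℝ) ≤ d := Nat.cast_nonneg _
  have hh1' : (1 : ℝ) ≤ h := by exact_mod_cast hh1
  have g1 : CJ * h ≤ e := (mul_le_mul_of_nonneg_right hC_CJ hh0).trans he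
  have g2 : CJ * e ≤ d := (mul_le_mul_of_nonneg_right hC_CJ he0).trans hd
  have g3 : CJ * d ≤ m := (mul_le_mul_of_nonneg_right hC_CJ hd0).trans hm
  have g4 : (h : ℝ) ≤ e := by nlinarith
  have g5 : (e : ℝ) ≤ d := by nlinarith
  have g6 : (d : ℝ) ≤ m := by nlinarith
  have g7 : CS * h ≤ d := by
    have : CS * h ≤ C * h := mul_le_mul_of_nonneg_right hC_CS hh0
    linarith
  have g8 : A4 * e ≤ d := (mul_le_mul_of_nonneg_right hC_A4 he0).trans hd
  have hed : e ≤ d := by exact_mod_cast g5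
  have hdm : d ≤ m := by exact_mod_cast g6
  set E : ℝ := q ^ ((d : ℝ) - (h : ℝ) / 6) with hE
  have hE0 : 0 < E := by positivity
  have hqd : q ^ d = q ^ (d : ℝ) := (Real.rpow_natCast q d).symm
  set T : K[X] → ℝ := fun r₀ => |ex (PL K m) (fun v => Zn h ((X ^ m + v) ^ p + (r₀ + r₁)) ^ k *
          Zn h ((X ^ m + v) ^ p + (r₀ + r₂)) ^ k) - gm k ^ 2| with hT
  set U : K[X] → ℝ := fun r => ex (PL K m) (fun v => |QS h ((X ^ m + v) ^ p + r) / HC K h - 1|)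
    with hU
  have hU0 : ∀ r, 0 ≤ U r := fun r => ex_nonneg fun _ _ => abs_nonneg _
  have htriv : ∀ r₀, T r₀ ≤ C1 ^ 2 * ((q ^ h) ^ k) ^ 2 := by
    intro r₀
    exact triv2_le k h (PL K m) (fun v => (X ^ m + v) ^ p + (r₀ + r₁))
      (fun v => (X ^ m + v) ^ p + (r₀ + r₂))
  have hgood : ∀ r₀ ∈ PL K d, Good (L₀ * e) e r₀ →
      T r₀ ≤ CJ * q ^ (-(h : ℝ) / 6) + A2 * (U (r₀ + r₁) + U (r₀ + r₂)) := by
    intro r₀ hr₀ hgd
    have h1 := hjoint h e d m g1 g2 g3 r₀ hr₀ hgd r₁ hr₁ r₂ hr₂ hsep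
    have h2 : |ex (PL K m) (fun v => (QS h ((X ^ m + v) ^ p + (r₀ + r₁)) / HC K h) ^ (k / 2) *
          (QS h ((X ^ m + v) ^ p + (r₀ + r₂)) / HC K h) ^ (k / 2)) - 1| ≤
        (k / 2 : ℕ) * M ^ (2 * (k / 2)) * (U (r₀ + r₁) + U (r₀ + r₂)) := by
      have hW : (1 : ℝ) = ex (PL K m) (fun _ => (1 : ℝ)) := by
        unfold ex
        rw [Finset.sum_const, nsmul_eq_mul, mul_one, div_self]
        rw [card_PL]
        have := Fintype.card_pos (α := K)
        positivity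
      nth_rewrite 1 [hW]
      rw [← ex_sub, hU]
      simp only
      rw [← ex_add, ← ex_const_mul]
      apply abs_ex_le
      intro v _
      have hb1 := QS_div_le (K := K) h ((X ^ m + v) ^ p + (r₀ + r₁))
      have hb2 := QS_div_le (K := K) h ((X ^ m + v) ^ p + (r₀ + r₂))
      rw [← hq, ← hc, ← hM] at hb1 hb2
      exact prod_pow_sub_one_le (QS_div_nonneg _ _) hb1 (QS_div_nonneg _ _) hb2 hM1 _
    have e7 : ex (PL K m) (fun v => Zn h ((X ^ m + v) ^ p + (r₀ + r₁)) ^ k *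
          Zn h ((X ^ m + v) ^ p + (r₀ + r₂)) ^ k) - gm k ^ 2 =
        (ex (PL K m) (fun v => Zn h ((X ^ m + v) ^ p + (r₀ + r₁)) ^ k *
          Zn h ((X ^ m + v) ^ p + (r₀ + r₂)) ^ k) -
        gm k ^ 2 * ex (PL K m) (fun v => (QS h ((X ^ m + v) ^ p + (r₀ + r₁)) / HC K h) ^ (k / 2) *
          (QS h ((X ^ m + v) ^ p + (r₀ + r₂)) / HC K h) ^ (k / 2))) +
        gm k ^ 2 * (ex (PL K m) (fun v => (QS h ((X ^ m + v) ^ p + (r₀ + r₁)) / HC K h) ^ (k / 2) *
          (QS h ((X ^ m + v) ^ p + (r₀ + r₂)) / HC K h) ^ (k / 2)) - 1) := by ring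
    rw [hT]
    simp only
    rw [e7]
    refine (abs_add_le _ _).trans (add_le_add h1 ?_)
    rw [abs_mul, abs_of_nonneg (sq_nonneg (gm k)), hA2, mul_assoc (gm k ^ 2)]
    exact mul_le_mul_of_nonneg_left h2 (sq_nonneg _)
  rw [← Finset.sum_filter_add_sum_filter_not (PL K d) (fun r₀ => Good (L₀ * e) e r₀)]
  have s1 : ∑ r₀ ∈ (PL K d).filter (fun r₀ => Good (L₀ * e) e r₀), T r₀ ≤
      CJ * E + A2 * (2 * CS) * E := by
    have f1 : ∑ r₀ ∈ (PL K d).filter (fun r₀ => Good (L₀ * e) e r₀), T r₀ ≤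
        ∑ r₀ ∈ (PL K d).filter (fun r₀ => Good (L₀ * e) e r₀),
          (CJ * q ^ (-(h : ℝ) / 6) + A2 * (U (r₀ + r₁) + U (r₀ + r₂))) := by
      apply Finset.sum_le_sum
      intro r hr
      rw [Finset.mem_filter] at hr
      exact hgood r hr.1 hr.2
    have f2 : ∑ r₀ ∈ (PL K d).filter (fun r₀ => Good (L₀ * e) e r₀),
          (CJ * q ^ (-(h : ℝ) / 6) + A2 * (U (r₀ + r₁) + U (r₀ + r₂))) ≤
        ∑ r₀ ∈ PL K d, (CJ * q ^ (-(h : ℝ) / 6) + A2 * (U (r₀ + r₁) + U (r₀ + r₂))) := by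
      apply Finset.sum_le_sum_of_subset_of_nonneg (Finset.filter_subset _ _)
      intro r _ _
      have h1 := hU0 (r + r₁)
      have h2 := hU0 (r + r₂)
      have : 0 ≤ CJ * q ^ (-(h : ℝ) / 6) := by positivity
      have : 0 ≤ A2 * (U (r + r₁) + U (r + r₂)) := by positivity
      linarith
    refine (f1.trans f2).trans ?_
    rw [Finset.sum_add_distrib, Finset.sum_const, nsmul_eq_mul, cardPL_real, ← hq, ← Finset.mul_sum,
      Finset.sum_add_distrib, sum_PL_add d U (PL_mono hed hr₁), sum_PL_add d U (PL_mono hed hr₂)]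
    have f3 := hqs h d m g7 hdm
    rw [← hE] at f3
    apply add_le_add
    · apply le_of_eq
      rw [hE, hqd, mul_left_comm, ← Real.rpow_add hq0]
      congr 2
      ring
    · calc A2 * (∑ r ∈ PL K d, U r + ∑ r ∈ PL K d, U r) ≤ A2 * (CS * E + CS * E) := by
            apply mul_le_mul_of_nonneg_left _ hA20
            exact add_le_add f3 f3
        _ = A2 * (2 * CS) * E := by ring
  have s2 : ∑ r₀ ∈ (PL K d).filter (fun r₀ => ¬ Good (L₀ * e) e r₀), T r₀ ≤ C1 ^ 2 * E := by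
    have f1 := card_bad_le (K := K) p (L₀ * e) e d hed
    have f2 : ((((PL K d).filter (fun r => ¬ Good (L₀ * e) e r)).card : ℕ) : ℝ) ≤
        q ^ (e + (L₀ * e + (d + 1) / 2) + (d + p - 1) / p) := by
      rw [hq]; exact_mod_cast f1
    refine (Finset.sum_le_sum (fun r _ => htriv r)).trans ?_
    rw [Finset.sum_const, nsmul_eq_mul]
    have f3 : q ^ (e + (L₀ * e + (d + 1) / 2) + (d + p - 1) / p) * ((q ^ h) ^ k) ^ 2 ≤ E := by
      have x1 : (2 : ℝ) * (((d + 1) / 2 : ℕ) : ℝ) ≤ d + 1 := by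
        have : 2 * ((d + 1) / 2) ≤ d + 1 := by omega
        exact_mod_cast this
      have x2 : (3 : ℝ) * (((d + p - 1) / p : ℕ) : ℝ) ≤ d + 3 := by
        exact_mod_cast ceil_third hp3 d
      rw [← pow_mul, ← pow_mul, ← pow_add, ← Real.rpow_natCast, hE]
      apply Real.rpow_le_rpow_of_exponent_le hq1.le
      push_cast at x1 x2 ⊢
      rw [hA4] at g8
      have hk0 : (0 : ℝ) ≤ k := Nat.cast_nonneg _
      have hkh : (h : ℝ) * k ≤ e * k := mul_le_mul_of_nonneg_right g4 hk0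
      nlinarith
    calc _ ≤ q ^ (e + (L₀ * e + (d + 1) / 2) + (d + p - 1) / p) * (C1 ^ 2 * ((q ^ h) ^ k) ^ 2) := by
          gcongr
      _ = C1 ^ 2 * (q ^ (e + (L₀ * e + (d + 1) / 2) + (d + p - 1) / p) * ((q ^ h) ^ k) ^ 2) := by
          ring
      _ ≤ _ := by gcongr
  refine (add_le_add s1 s2).trans ?_
  have : CJ * E + A2 * (2 * CS) * E + C1 ^ 2 * E = (CJ + A2 * (2 * CS) + C1 ^ 2) * E := by ring
  rw [this]
  apply mul_le_mul_of_nonneg_right _ hE0.le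
  linarith

/-- the sum over all pairs -/
theorem joint_sum (p : ℕ) [Fact p.Prime] [CharP K p] (hK : ringChar K ≠ 2) (k : ℕ) :
    ∃ C : ℝ, 1 ≤ C ∧ ∀ h e d m : ℕ, C * h ≤ e → C * e ≤ d → C * d ≤ m →
      ∑ r₁ ∈ PL K e, ∑ r₂ ∈ PL K e,
      ∑ r₀ ∈ PL K d, |ex (PL K m) (fun v => Zn h ((X ^ m + v) ^ p + (r₀ + r₁)) ^ k *
          Zn h ((X ^ m + v) ^ p + (r₀ + r₂)) ^ k) - gm k ^ 2| ≤
        (Fintype.card K : ℝ) ^ (2 * e) * (C * (Fintype.card K : ℝ) ^ ((d : ℝ) - (h : ℝ) / 6)) := by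
  classical
  obtain ⟨CJ, hCJ, hsep⟩ := joint_sep (K := K) p hK k
  have hp3 := three_le (K := K) p hK
  have hq1 := one_lt_q K
  have hc0 := cK_pos K
  set q : ℝ := (Fintype.card K : ℝ) with hq
  have hq0 : 0 < q := by linarith
  set c : ℝ := 1 - 1 / q with hc
  set C1 : ℝ := (1 / √c) ^ k + gm k with hC1
  have hg := gm_nonneg k
  have hC10 : 0 ≤ C1 := by positivity
  set A4 : ℝ := 6 * k + 6 with hA4
  have hA40 : 0 ≤ A4 := by positivity
  refine ⟨CJ + C1 ^ 2 + A4, by nlinarith [sq_nonneg C1], ?_⟩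
  intro h e d m he hd hm
  have hx2 : 0 ≤ C1 ^ 2 := sq_nonneg _
  set C : ℝ := CJ + C1 ^ 2 + A4 with hC
  have hh0 : (0 : ℝ) ≤ h := Nat.cast_nonneg _
  have he0 : (0 : ℝ) ≤ e := Nat.cast_nonneg _
  have hd0 : (0 : ℝ) ≤ d := Nat.cast_nonneg _
  set E : ℝ := q ^ ((d : ℝ) - (h : ℝ) / 6) with hE
  have hE0 : 0 < E := by positivity
  have hqd : q ^ d = q ^ (d : ℝ) := (Real.rpow_natCast q d).symm
  set T : K[X] → K[X] → K[X] → ℝ := fun r₁ r₂ r₀ =>
    |ex (PL K m) (fun v => Zn h ((X ^ m + v) ^ p + (r₀ + r₁)) ^ k *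
          Zn h ((X ^ m + v) ^ p + (r₀ + r₂)) ^ k) - gm k ^ 2| with hT
  have htriv : ∀ r₁ r₂ r₀, T r₁ r₂ r₀ ≤ C1 ^ 2 * ((q ^ h) ^ k) ^ 2 := by
    intro r₁ r₂ r₀
    exact triv2_le k h (PL K m) (fun v => (X ^ m + v) ^ p + (r₀ + r₁))
      (fun v => (X ^ m + v) ^ p + (r₀ + r₂))
  have htriv' : ∀ r₁ r₂, ∑ r₀ ∈ PL K d, T r₁ r₂ r₀ ≤ q ^ d * (C1 ^ 2 * ((q ^ h) ^ k) ^ 2) := by
    intro r₁ r₂
    refine (Finset.sum_le_sum fun r₀ _ => htriv r₁ r₂ r₀).trans ?_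
    rw [sum_const, nsmul_eq_mul, cardPL_real]
  rcases Nat.eq_zero_or_pos h with h0 | hh1
  · subst h0
    have h1 : ∑ r₁ ∈ PL K e, ∑ r₂ ∈ PL K e, ∑ r₀ ∈ PL K d, T r₁ r₂ r₀ ≤
        ∑ r₁ ∈ PL K e, ∑ r₂ ∈ PL K e, q ^ d * (C1 ^ 2 * ((q ^ 0) ^ k) ^ 2) :=
      Finset.sum_le_sum fun r₁ _ => Finset.sum_le_sum fun r₂ _ => htriv' r₁ r₂
    refine h1.trans ?_
    simp only [sum_const, nsmul_eq_mul, cardPL_real, pow_zero, one_pow, mul_one, ← hq]
    rw [two_mul, pow_add, mul_assoc]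
    apply mul_le_mul_of_nonneg_left _ (by positivity)
    apply mul_le_mul_of_nonneg_left _ (by positivity)
    rw [hE, Nat.cast_zero, zero_div, sub_zero, ← hqd, mul_comm]
    apply mul_le_mul_of_nonneg_right _ (by positivity)
    linarith
  have hh1' : (1 : ℝ) ≤ h := by exact_mod_cast hh1
  have hC_CJ : CJ ≤ C := by linarith
  have hC_A4 : A4 ≤ C := by linarith
  have g1 : CJ * h ≤ e := (mul_le_mul_of_nonneg_right hC_CJ hh0).trans he
  have g2 : CJ * e ≤ d := (mul_le_mul_of_nonneg_right hC_CJ he0).trans hd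
  have g3 : CJ * d ≤ m := (mul_le_mul_of_nonneg_right hC_CJ hd0).trans hm
  have g4 : A4 * h ≤ e := (mul_le_mul_of_nonneg_right hC_A4 hh0).trans he
  -- for each `r₁`
  obtain ⟨P, hP⟩ : ∃ P : K[X] → K[X] → Prop, ∀ r₁ r₂, P r₁ r₂ ↔
      ∀ a ∈ PL K h, derivative (r₁ - r₂) ≠ derivative a := ⟨_, fun _ _ => Iff.rfl⟩
  have key : ∀ r₁ ∈ PL K e, ∑ r₂ ∈ PL K e, ∑ r₀ ∈ PL K d, T r₁ r₂ r₀ ≤ q ^ e * (C * E) := by
    intro r₁ hr₁
    rw [← Finset.sum_filter_add_sum_filter_not (PL K e) (P r₁)]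
    have s1 : ∑ r₂ ∈ (PL K e).filter (P r₁),
        ∑ r₀ ∈ PL K d, T r₁ r₂ r₀ ≤ q ^ e * (CJ * E) := by
      have f1 : ∑ r₂ ∈ (PL K e).filter (P r₁),
          ∑ r₀ ∈ PL K d, T r₁ r₂ r₀ ≤ ∑ r₂ ∈ (PL K e).filter (P r₁), CJ * E := by
        apply Finset.sum_le_sum
        intro r₂ hr₂
        rw [Finset.mem_filter] at hr₂
        exact hsep h e d m hh1 g1 g2 g3 r₁ hr₁ r₂ hr₂.1 ((hP _ _).1 hr₂.2)
      refine f1.trans ?_
      rw [sum_const, nsmul_eq_mul]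
      apply mul_le_mul_of_nonneg_right _ (by positivity)
      rw [hq, ← cardPL_real]
      exact_mod_cast Finset.card_filter_le _ _
    have s2 : ∑ r₂ ∈ (PL K e).filter (fun r₂ => ¬ P r₁ r₂),
        ∑ r₀ ∈ PL K d, T r₁ r₂ r₀ ≤ q ^ e * (C1 ^ 2 * E) := by
      have f0 : (PL K e).filter (fun r₂ => ¬ P r₁ r₂) ⊆
          (PL K h).biUnion (fun a => (PL K e).filter
            (fun r => derivative r = derivative (r₁ - a))) := by
        intro r₂ hr₂
        rw [Finset.mem_filter] at hr₂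
        obtain ⟨hr₂, hn⟩ := hr₂
        rw [hP] at hn
        push Not at hn
        obtain ⟨a, ha, hea⟩ := hn
        rw [Finset.mem_biUnion]
        refine ⟨a, ha, Finset.mem_filter.2 ⟨hr₂, ?_⟩⟩
        rw [derivative_sub] at hea ⊢
        rw [← hea]; ring
      have f1 : ((PL K e).filter (fun r₂ => ¬ P r₁ r₂)).card ≤
          Fintype.card K ^ h * Fintype.card K ^ ((e + p - 1) / p) := by
        refine (Finset.card_le_card f0).trans (Finset.card_biUnion_le.trans ?_)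
        refine (Finset.sum_le_sum fun a _ => card_antider_le (K := K) p e _).trans ?_
        rw [sum_const, smul_eq_mul, card_PL]
      have f2 : ((((PL K e).filter (fun r₂ => ¬ P r₁ r₂)).card : ℕ) : ℝ) ≤
          q ^ h * q ^ ((e + p - 1) / p) := by
        rw [hq]; exact_mod_cast f1
      refine (Finset.sum_le_sum fun r₂ _ => htriv' r₁ r₂).trans ?_
      rw [sum_const, nsmul_eq_mul]
      have f3 : q ^ h * q ^ ((e + p - 1) / p) * (q ^ d * ((q ^ h) ^ k) ^ 2) ≤ q ^ e * E := by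
        have x2 : (3 : ℝ) * (((e + p - 1) / p : ℕ) : ℝ) ≤ e + 3 := by
          exact_mod_cast ceil_third hp3 e
        rw [← pow_mul, ← pow_mul, ← pow_add, ← pow_add, ← pow_add, ← Real.rpow_natCast,
          ← Real.rpow_natCast, hE, ← Real.rpow_add hq0]
        apply Real.rpow_le_rpow_of_exponent_le hq1.le
        push_cast at x2 ⊢
        rw [hA4] at g4
        have hk0 : (0 : ℝ) ≤ k := Nat.cast_nonneg _
        nlinarith
      calc _ ≤ q ^ h * q ^ ((e + p - 1) / p) * (q ^ d * (C1 ^ 2 * ((q ^ h) ^ k) ^ 2)) := by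
            gcongr
        _ = C1 ^ 2 * (q ^ h * q ^ ((e + p - 1) / p) * (q ^ d * ((q ^ h) ^ k) ^ 2)) := by ring
        _ ≤ C1 ^ 2 * (q ^ e * E) := by gcongr
        _ = _ := by ring
    refine (add_le_add s1 s2).trans ?_
    rw [← mul_add, ← add_mul]
    apply mul_le_mul_of_nonneg_left _ (by positivity)
    apply mul_le_mul_of_nonneg_right _ hE0.le
    linarith
  refine (Finset.sum_le_sum key).trans ?_
  rw [sum_const, nsmul_eq_mul, cardPL_real, ← hq, ← mul_assoc, ← pow_add, ← two_mul]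

end P4f18dfF
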