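import Pool.Agent.Lib.P4f18dfF.Defs8

/-! The polynomials `u^p + r` are the monic polynomials with small derivative. -/

set_option autoImplicit false

namespace P4f18dfF
open Polynomial Finset Pool.Agent.P4f18dfF Pool.Agent.P4f18dfT

section
variable {K : Type*} [Field K] [Fintype K]

/-- the centres: monic of degree `n`, derivative of degree less than `d` -/
noncomputable def Cen (K : Type*) [Field K] [Fintype K] (n d : ℕ) : Finset K[X] :=
  open Classical in
  (PL K (n + 1)).filter (fun f => f.Monic ∧ f.natDegree = n ∧ f.derivative.degree < (d : WithBot ℕ))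
end

section
variable {K : Type*} [Field K] [Fintype K] [DecidableEq K] (p : ℕ) [Fact p.Prime] [CharP K p]

omit [DecidableEq K] in
lemma mem_Cen {n d : ℕ} {f : K[X]} :
    f ∈ Cen K n d ↔ f.Monic ∧ f.natDegree = n ∧ (derivative f).degree < (d : WithBot ℕ) := by
  classical
  rw [Cen, mem_filter, mem_PL]
  refine ⟨fun h => h.2, fun h => ⟨?_, h⟩⟩
  rw [degree_eq_natDegree h.1.ne_zero, h.2.1]
  exact_mod_cast Nat.lt_succ_self n

lemma center_maps {m d : ℕ} (hd : d + 1 ≤ p * m) {v r : K[X]} (hv : v ∈ PL K m)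
    (hr : r ∈ PL K (d + 1)) : (X ^ m + v) ^ p + r ∈ Cen K (p * m) d := by
  rw [mem_PL] at hv hr
  have h1 := natDegree_center p hv (hr.trans_le (by exact_mod_cast hd : ((d + 1 : ℕ) : WithBot ℕ) ≤ _))
  rw [mem_Cen]
  refine ⟨h1.1, h1.2, ?_⟩
  · rw [derivative_center]
    rcases eq_or_ne r 0 with rfl | h0
    · simp [bot_lt_iff_ne_bot]
    · rcases eq_or_ne (derivative r) 0 with h | h
      · rw [h]; simp [bot_lt_iff_ne_bot]
      · have h4 : (derivative r).degree < r.degree := degree_derivative_lt h0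
        rw [degree_eq_natDegree h0] at h4 hr
        rw [degree_eq_natDegree h] at h4 ⊢
        have h5 : (derivative r).natDegree < r.natDegree := by exact_mod_cast h4
        have h6 : r.natDegree < d + 1 := by exact_mod_cast hr
        exact_mod_cast (by omega : (derivative r).natDegree < d)

lemma center_onto {m d : ℕ} (hd : d + 1 ≤ p * m) {f : K[X]} (hf : f ∈ Cen K (p * m) d) :
    ∃ v ∈ PL K m, ∃ r ∈ PL K (d + 1), (X ^ m + v) ^ p + r = f := by
  have hp := (Fact.out : p.Prime)
  rw [mem_Cen] at hf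
  obtain ⟨hmon, hdeg, hder⟩ := hf
  -- the part of degree at most `d`
  set r : K[X] := ∑ i ∈ range (d + 1), monomial i (f.coeff i) with hr
  have hrc : ∀ i, r.coeff i = if i < d + 1 then f.coeff i else 0 := by
    intro i
    rw [hr, finsetSum_coeff]
    simp only [coeff_monomial]
    rw [Finset.sum_ite_eq' (range (d + 1)) i]
    simp [mem_range]
  have hrd : r.degree < ((d + 1 : ℕ) : WithBot ℕ) := by
    rw [degree_lt_iff_coeff_zero]
    intro i hi
    rw [hrc, if_neg (by omega)]
  have h0 : derivative (f - r) = 0 := by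
    ext i
    rw [coeff_derivative, coeff_sub, hrc, coeff_zero]
    split_ifs with h
    · rw [sub_self, zero_mul]
    · rw [sub_zero]
      have h1 : (derivative f).coeff i = 0 := by
        apply coeff_eq_zero_of_degree_lt
        refine hder.trans_le ?_
        exact_mod_cast (by omega : d ≤ i)
      rwa [coeff_derivative] at h1
  obtain ⟨u, hu⟩ := exists_pow_eq p h0
  have hlt : r.degree < f.degree := by
    rw [degree_eq_natDegree hmon.ne_zero, hdeg]
    exact hrd.trans_le (by exact_mod_cast hd)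
  have hmon' : (f - r).Monic := by
    rw [sub_eq_add_neg]
    exact hmon.add_of_left (by rwa [degree_neg])
  have hdeg' : (f - r).natDegree = p * m := by
    rw [natDegree_sub_eq_left_of_natDegree_lt, hdeg]
    rw [hdeg]
    rcases eq_or_ne r 0 with h | h
    · rw [h, natDegree_zero]; omega
    · rw [degree_eq_natDegree h] at hrd
      have : r.natDegree < d + 1 := by exact_mod_cast hrd
      omega
  have humon : u.Monic := by
    have h1 : u.leadingCoeff ^ p = 1 := by
      rw [← leadingCoeff_pow, hu]; exact hmon'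
    have h2 : (u.leadingCoeff - 1) ^ p = 0 := by
      rw [sub_pow_char, h1, one_pow, sub_self]
    have h3 := pow_eq_zero_iff hp.ne_zero |>.1 h2
    exact sub_eq_zero.1 h3
  have hudeg : u.natDegree = m := by
    have h1 : p * u.natDegree = p * m := by rw [← natDegree_pow, hu, hdeg']
    exact Nat.eq_of_mul_eq_mul_left hp.pos h1
  refine ⟨u - X ^ m, ?_, r, mem_PL.2 hrd, ?_⟩
  · rw [mem_PL]
    have h1 : (u - X ^ m).degree < u.degree := by
      apply degree_sub_lt_left
      · rw [degree_eq_natDegree humon.ne_zero, hudeg, degree_X_pow]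
      · exact humon.ne_zero
      · rw [humon.leadingCoeff, (monic_X_pow m).leadingCoeff]
    rwa [degree_eq_natDegree humon.ne_zero, hudeg] at h1
  · rw [add_sub_cancel, hu, sub_add_cancel]

lemma sub_pow_p (a b : K[X]) : (a - b) ^ p = a ^ p - b ^ p := sub_pow_char ..

/-- the fibres of `(v, r) ↦ (X^m+v)^p + r` -/
lemma card_fibre {m d : ℕ} (hd : d + 1 ≤ p * m) {f : K[X]} (hf : f ∈ Cen K (p * m) d) :
    ((PL K m ×ˢ PL K (d + 1)).filter (fun x => (X ^ m + x.1) ^ p + x.2 = f)).card =
      Fintype.card K ^ (d / p + 1) := by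
  classical
  have hp := (Fact.out : p.Prime)
  obtain ⟨v₀, hv₀, r₀, hr₀, h₀⟩ := center_onto p hd hf
  rw [← card_PL, eq_comm]
  have hdiv : d / p + 1 ≤ m := by
    have : d / p < m := by
      rw [Nat.div_lt_iff_lt_mul hp.pos, mul_comm]
      omega
    omega
  have hwp : ∀ w : K[X], w ∈ PL K (d / p + 1) ↔ w ^ p ∈ PL K (d + 1) := by
    intro w
    rcases eq_or_ne w 0 with rfl | hw
    · rw [zero_pow hp.ne_zero]
      exact ⟨fun _ => zero_mem_PL _, fun _ => zero_mem_PL _⟩
    · rw [mem_PL, mem_PL, degree_eq_natDegree hw, degree_eq_natDegree (pow_ne_zero p hw), natDegree_pow]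
      have : w.natDegree < d / p + 1 ↔ p * w.natDegree < d + 1 := by
        rw [Nat.lt_succ_iff, Nat.lt_succ_iff, Nat.le_div_iff_mul_le hp.pos, mul_comm]
      constructor
      · intro h
        exact_mod_cast this.1 (by exact_mod_cast h)
      · intro h
        exact_mod_cast this.2 (by exact_mod_cast h)
  refine Finset.card_bij (fun w _ => (v₀ - w, r₀ + w ^ p)) ?_ ?_ ?_
  · intro w hw
    rw [mem_filter, mem_product]
    refine ⟨⟨?_, ?_⟩, ?_⟩
    · rw [sub_eq_add_neg]
      exact add_mem_PL hv₀ (neg_mem_PL (PL_mono hdiv hw))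
    · exact add_mem_PL hr₀ ((hwp w).1 hw)
    · simp only
      have e : (X ^ m + (v₀ - w) : K[X]) = (X ^ m + v₀) - w := by ring
      rw [e, sub_pow_p, ← h₀]
      ring
  · intro w _ w' _ h
    have := congrArg Prod.fst h
    simp only at this
    exact sub_right_injective this
  · rintro ⟨v, r⟩ hx
    rw [mem_filter, mem_product] at hx
    obtain ⟨⟨hv, hr⟩, hx⟩ := hx
    simp only at hv hr hx
    have e1 : (v₀ - v) ^ p = r - r₀ := by
      have e : (v₀ - v : K[X]) = (X ^ m + v₀) - (X ^ m + v) := by ring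
      rw [e, sub_pow_p]
      have h2 : (X ^ m + v₀ : K[X]) ^ p = f - r₀ := by rw [← h₀]; ring
      have h3 : (X ^ m + v : K[X]) ^ p = f - r := by rw [← hx]; ring
      rw [h2, h3]; ring
    refine ⟨v₀ - v, ?_, ?_⟩
    · rw [hwp, e1, sub_eq_add_neg]
      exact add_mem_PL hr (neg_mem_PL hr₀)
    · rw [e1]
      simp

/-- `(u, r) ↦ u^p + r` covers the centres, all fibres have the same size -/
theorem family {m d : ℕ} (hd : d + 1 ≤ p * m)
    (F : K[X] → ℝ) :
    (Fintype.card K : ℝ) ^ (d / p + 1) * ∑ f ∈ Cen K (p * m) d, F f =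
      ∑ r ∈ PL K (d + 1), ∑ v ∈ PL K m, F ((X ^ m + v) ^ p + r) := by
  symm
  classical
  rw [Finset.sum_comm, ← Finset.sum_product']
  rw [← Finset.sum_fiberwise_of_maps_to (g := fun x : K[X] × K[X] => (X ^ m + x.1) ^ p + x.2)
    (t := Cen K (p * m) d)]
  · rw [Finset.mul_sum]
    apply Finset.sum_congr rfl
    intro f hf
    have e : ∑ x ∈ (PL K m ×ˢ PL K (d + 1)).filter (fun x => (X ^ m + x.1) ^ p + x.2 = f),
        F ((X ^ m + x.1) ^ p + x.2) =
        ∑ x ∈ (PL K m ×ˢ PL K (d + 1)).filter (fun x => (X ^ m + x.1) ^ p + x.2 = f), F f := by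
      apply Finset.sum_congr rfl
      intro x hx
      rw [(mem_filter.1 hx).2]
    rw [e, sum_const, card_fibre p hd hf, nsmul_eq_mul]
    push_cast
    rfl
  · intro x hx
    rw [mem_product] at hx
    exact center_maps p hd hx.1 hx.2

/-- number of centres -/
theorem card_centres {m d : ℕ} (hd : d + 1 ≤ p * m) :
    (Fintype.card K : ℝ) ^ (d / p + 1) * ((Cen K (p * m) d).card : ℝ) =
      (Fintype.card K : ℝ) ^ (d + 1 + m) := by
  have h := (family (K := K) p hd (fun _ => 1)).symm
  simp only [sum_const, card_PL, nsmul_eq_mul, mul_one] at h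
  rw [← h, pow_add]
  push_cast
  ring

end
end P4f18dfF
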