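import Pool.Agent.Lib.P4f18dfF.M8
import Pool.Agent.Lib.P4f18dfF.M10
import Pool.Agent.Lib.P4f18dfC.Gm

/-! Moments over the family of centres, from the quenched moments. -/

set_option autoImplicit false

namespace P4f18dfF
open Polynomial Finset Pool.Agent.P4f18dfF Pool.Agent.P4f18dfT

variable {K : Type*} [Field K] [Fintype K] [DecidableEq K]

namespace CenMomAux

omit [DecidableEq K] in
lemma PL_zero : PL K 0 = {0} := by
  ext f
  rw [mem_PL, mem_singleton]
  constructor
  · intro h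
    by_contra h0
    rw [degree_eq_natDegree h0] at h
    have : f.natDegree < 0 := by exact_mod_cast h
    omega
  · rintro rfl
    simp [bot_lt_iff_ne_bot]

omit [Fintype K] [DecidableEq K] in
lemma abs_mu_le (f : K[X]) : |(mu f : ℝ)| ≤ 1 := by
  unfold mu
  split_ifs
  · push_cast
    rw [abs_pow, abs_neg, abs_one, one_pow]
  · simp

lemma card_two_le : 2 ≤ Fintype.card K := Fintype.one_lt_card

/-- trivial bound for `h = 0` -/
lemma abs_Zn_zero (f : K[X]) : |Zn 0 f| ≤ 2 := by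
  have hq : (2 : ℝ) ≤ Fintype.card K := by exact_mod_cast card_two_le (K := K)
  unfold Zn MS
  rw [PL_zero, sum_singleton, add_zero, pow_zero, one_mul, abs_div]
  have h1 : (1 : ℝ) / 4 ≤ 1 - 1 / (Fintype.card K : ℝ) := by
    have : 1 / (Fintype.card K : ℝ) ≤ 1 / 2 := one_div_le_one_div_of_le (by norm_num) hq
    linarith
  have h2 : (1 : ℝ) / 2 ≤ √(1 - 1 / (Fintype.card K : ℝ)) := by
    apply Real.le_sqrt_of_sq_le
    norm_num at h1 ⊢
    linarith
  rw [abs_of_nonneg (Real.sqrt_nonneg _), div_le_iff₀ (by linarith)]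
  have := abs_mu_le f
  linarith

end CenMomAux

open CenMomAux in
/-- M9a: moments over the centres -/
theorem cen_moments (p : ℕ) [Fact p.Prime] [CharP K p] (hK : ringChar K ≠ 2) (k : ℕ) :
    ∃ C : ℝ, 0 < C ∧ ∀ h d n : ℕ, p ∣ n → C * h ≤ d → C * d ≤ n →
      |ex (Cen K n d) (fun f => Zn h f ^ k) - gm k| ≤
        C * (Fintype.card K : ℝ) ^ (-(h : ℝ) / 6) := by
  obtain ⟨C₀, hC₀, H⟩ := quenched (K := K) p hK k
  have hp := (Fact.out : p.Prime)
  have hp1 : (1 : ℝ) ≤ p := by exact_mod_cast hp.one_lt.le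
  have hq : (0 : ℝ) < Fintype.card K := by exact_mod_cast Fintype.card_pos
  have hgm := Pool.Agent.P4f18dfC.gm_nonneg k
  refine ⟨2 * p * (C₀ + 1) + 2 ^ k + gm k, by positivity, ?_⟩
  intro h d n hpn hCh hCd
  obtain ⟨m, rfl⟩ := hpn
  set C : ℝ := 2 * p * (C₀ + 1) + 2 ^ k + gm k with hC
  have h2k : (1 : ℝ) ≤ 2 ^ k := one_le_pow₀ (by norm_num)
  have hCC : C₀ ≤ C := by nlinarith
  have hC1 : 1 ≤ C := by
    have : 0 ≤ 2 * (p : ℝ) * (C₀ + 1) := by positivity
    linarith
  rcases Nat.eq_zero_or_pos d with hd | hd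
  · -- `d = 0`, so `h = 0`
    subst hd
    have hh : h = 0 := by
      have h1 : (h : ℝ) ≤ 0 := by
        have : (0 : ℝ) ≤ h := Nat.cast_nonneg _
        simp only [Nat.cast_zero] at hCh
        nlinarith
      have : (h : ℝ) = 0 := le_antisymm h1 (Nat.cast_nonneg _)
      exact_mod_cast this
    subst hh
    have e : (Fintype.card K : ℝ) ^ (-((0 : ℕ) : ℝ) / 6) = 1 := by simp
    rw [e, mul_one]
    have h1 : |ex (Cen K (p * m) 0) (fun f => Zn 0 f ^ k)| ≤ 2 ^ k := by
      unfold ex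
      rw [abs_div, Nat.abs_cast]
      apply div_le_of_le_mul₀ (Nat.cast_nonneg _) (by positivity)
      refine (Finset.abs_sum_le_sum_abs _ _).trans ?_
      calc ∑ f ∈ Cen K (p * m) 0, |Zn 0 f ^ k| ≤ ∑ f ∈ Cen K (p * m) 0, (2 : ℝ) ^ k := by
            apply Finset.sum_le_sum
            intro f _
            rw [abs_pow]
            exact pow_le_pow_left₀ (abs_nonneg _) (abs_Zn_zero f) _
        _ = 2 ^ k * (Cen K (p * m) 0).card := by rw [sum_const, nsmul_eq_mul, mul_comm]
    calc |ex (Cen K (p * m) 0) (fun f => Zn 0 f ^ k) - gm k| ≤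
        |ex (Cen K (p * m) 0) (fun f => Zn 0 f ^ k)| + |gm k| := abs_sub _ _
      _ ≤ 2 ^ k + gm k := by rw [abs_of_nonneg hgm]; linarith
      _ ≤ C := by
          have : 0 ≤ 2 * (p : ℝ) * (C₀ + 1) := by positivity
          linarith
  · have hd1 : (1 : ℝ) ≤ d := by exact_mod_cast hd
    have hmd : 2 * (C₀ + 1) * d ≤ m := by
      have h1 : 2 * p * (C₀ + 1) * d ≤ p * m := by
        have : 2 * p * (C₀ + 1) * d ≤ C * d := by
          apply mul_le_mul_of_nonneg_right _ (by linarith)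
          linarith
        push_cast at hCd
        linarith
      have : (p : ℝ) * (2 * (C₀ + 1) * d) ≤ p * m := by linarith
      exact le_of_mul_le_mul_left this (by linarith)
    have hm : C₀ * ((d + 1 : ℕ) : ℝ) ≤ m := by
      push_cast
      nlinarith
    have hh : C₀ * (h : ℝ) ≤ ((d + 1 : ℕ) : ℝ) := by
      have h1 : C₀ * (h : ℝ) ≤ C * h := mul_le_mul_of_nonneg_right hCC (Nat.cast_nonneg _)
      push_cast
      linarith
    have hdm : d + 1 ≤ p * m := by
      have h2 : (d : ℝ) + 1 ≤ p * m := by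
        have h3 : (d : ℝ) + 1 ≤ m := by nlinarith
        have hm0 : (0 : ℝ) ≤ m := Nat.cast_nonneg _
        nlinarith
      exact_mod_cast h2
    have hfam := family (K := K) p hdm (fun f => Zn h f ^ k)
    have hcard := card_centres (K := K) p hdm
    have Hq := H h (d + 1) m hh hm
    set s : ℕ := d / p + 1 with hs
    set N : ℝ := ((Cen K (p * m) d).card : ℝ) with hN
    set q : ℝ := (Fintype.card K : ℝ) with hqdef
    have hN0 : N ≠ 0 := by
      intro h0
      rw [h0, mul_zero] at hcard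
      exact absurd hcard.symm (by positivity)
    have hNpos : 0 < N := lt_of_le_of_ne (Nat.cast_nonneg _) (Ne.symm hN0)
    have e1 : ex (Cen K (p * m) d) (fun f => Zn h f ^ k) - gm k =
        (∑ r ∈ PL K (d + 1), (ex (PL K m) (fun v => Zn h ((X ^ m + v) ^ p + r) ^ k) - gm k)) /
          q ^ (d + 1) := by
      have e2 : ∀ r : K[X], ex (PL K m) (fun v => Zn h ((X ^ m + v) ^ p + r) ^ k) =
          (∑ v ∈ PL K m, Zn h ((X ^ m + v) ^ p + r) ^ k) / q ^ m := by
        intro r
        unfold ex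
        rw [card_PL]
        push_cast
        rfl
      rw [Finset.sum_sub_distrib, Finset.sum_congr rfl (fun r _ => e2 r), ← Finset.sum_div, ← hfam,
        sum_const, card_PL, nsmul_eq_mul]
      unfold ex
      push_cast
      rw [← hqdef, ← hN, div_sub' (by positivity), div_eq_div_iff hN0 (by positivity)]
      have e3 : q ^ s * N = q ^ (d + 1) * q ^ m := by rw [hcard, pow_add]
      have hqm : q ^ m ≠ 0 := by positivity
      have e4 : N * gm k = gm k * N := mul_comm _ _
      field_simp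
      have e5 : q ^ m * q ^ (d + 1) = q ^ s * N := by rw [e3]; ring
      calc _ = (∑ f ∈ Cen K (p * m) d, Zn h f ^ k - N * gm k) * (q ^ m * q ^ (d + 1)) := by ring
        _ = (∑ f ∈ Cen K (p * m) d, Zn h f ^ k - N * gm k) * (q ^ s * N) := by rw [e5]
        _ = N * (q ^ s * ∑ f ∈ Cen K (p * m) d, Zn h f ^ k - (q ^ s * N) * gm k) := by ring
        _ = _ := by rw [e3]; ring
    rw [e1, abs_div, abs_of_nonneg (show (0 : ℝ) ≤ q ^ (d + 1) by positivity),
      div_le_iff₀ (by positivity)]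
    have e6 : q ^ (-(h : ℝ) / 6) * q ^ (d + 1) = q ^ (((d + 1 : ℕ) : ℝ) - (h : ℝ) / 6) := by
      rw [← Real.rpow_natCast q (d + 1), ← Real.rpow_add hq]
      congr 1
      ring
    calc |∑ r ∈ PL K (d + 1), (ex (PL K m) (fun v => Zn h ((X ^ m + v) ^ p + r) ^ k) - gm k)| ≤
        ∑ r ∈ PL K (d + 1), |ex (PL K m) (fun v => Zn h ((X ^ m + v) ^ p + r) ^ k) - gm k| :=
          Finset.abs_sum_le_sum_abs _ _
      _ ≤ C₀ * q ^ (((d + 1 : ℕ) : ℝ) - (h : ℝ) / 6) := Hq
      _ ≤ C * q ^ (((d + 1 : ℕ) : ℝ) - (h : ℝ) / 6) := by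
          apply mul_le_mul_of_nonneg_right hCC (by positivity)
      _ = C * q ^ (-(h : ℝ) / 6) * q ^ (d + 1) := by rw [mul_assoc, e6]

end P4f18dfF
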