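import Pool.Agent.Lib.P4f18dfF.Defs8
import Pool.Agent.Lib.P4f18dfC.MoM

/-! The law of a finite sample from its moments. -/

set_option autoImplicit false

open Finset Filter MeasureTheory ProbabilityTheory

namespace P4f18dfF

open Pool.Agent.P4f18dfF Pool.Agent.P4f18dfT

universe u

theorem sample_key {α : Type u} (W : Finset α) (f : α → ℝ) (hW : W.Nonempty) :
    ∃ ν : Measure ℝ, IsProbabilityMeasure ν ∧ (∀ g : ℝ → ℝ, Integrable g ν) ∧
      (∀ g : ℝ → ℝ, ∫ x, g x ∂ν = (∑ w ∈ W, g (f w)) / W.card) ∧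
      ∀ t : ℝ, ν.real (Set.Iic t) = ((W.filter (fun w => f w ≤ t)).card : ℝ) / W.card := by
  classical
  have hc0 : 0 < W.card := hW.card_pos
  have hy0 : (W.card : ENNReal) ≠ 0 := by exact_mod_cast hc0.ne'
  have hyr : (0 : ℝ) < W.card := by exact_mod_cast hc0
  have hc : ((W.card : ENNReal)⁻¹) ≠ ⊤ := ENNReal.inv_ne_top.2 hy0
  have hcr : ((W.card : ENNReal)⁻¹).toReal = (W.card : ℝ)⁻¹ := by
    rw [ENNReal.toReal_inv, ENNReal.toReal_natCast]
  refine ⟨∑ w ∈ W, (W.card : ENNReal)⁻¹ • Measure.dirac (f w), ?_, ?_, ?_, ?_⟩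
  · constructor
    rw [Measure.finsetSum_apply]
    simp only [Measure.smul_apply, measure_univ, smul_eq_mul, mul_one, sum_const, nsmul_eq_mul]
    exact ENNReal.mul_inv_cancel hy0 (ENNReal.natCast_ne_top _)
  · intro g
    rw [integrable_finsetSum_measure]
    intro n _
    exact (integrable_dirac (by simp)).smul_measure hc
  · intro g
    rw [integral_finsetSum_measure (fun n _ => (integrable_dirac (by simp)).smul_measure hc)]
    rw [sum_div]
    refine sum_congr rfl fun n _ => ?_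
    rw [integral_smul_measure, integral_dirac, hcr, smul_eq_mul]
    field_simp
  · intro t
    rw [Measure.real, Measure.finsetSum_apply]
    have h1 : ∀ w ∈ W, ((W.card : ENNReal)⁻¹ • Measure.dirac (f w)) (Set.Iic t) =
        if f w ≤ t then (W.card : ENNReal)⁻¹ else 0 := by
      intro n _
      rw [Measure.smul_apply, Measure.dirac_apply' _ measurableSet_Iic, smul_eq_mul]
      by_cases h : f n ≤ t
      · rw [if_pos h, Set.indicator_of_mem (Set.mem_Iic.2 h)]
        simp
      · rw [if_neg h, Set.indicator_of_notMem (fun hh => h (Set.mem_Iic.1 hh))]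
        simp
    rw [sum_congr rfl h1, ← sum_filter, sum_const, nsmul_eq_mul, ENNReal.toReal_mul, hcr,
      ENNReal.toReal_natCast]
    rw [div_eq_mul_inv]

/-- M9b: law from moments, any finite family `W` -/
theorem law_of_mom (δ : ℝ) (hδ : 0 < δ) : ∃ k0 : ℕ, 1 ≤ k0 ∧
    ∀ (ω : Type u) (W : Finset ω) (Z : ω → ℝ), W.Nonempty →
      (∀ k ≤ k0, |ex W (fun w => Z w ^ k) - gm k| ≤ 1 / k0) →
      ∀ t : ℝ, |((W.filter (fun w => Z w ≤ t)).card : ℝ) / W.card - cdf (gaussianReal 0 1) t| ≤ δ := by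
  obtain ⟨K, hK, h⟩ := Pool.Agent.P4f18dfC.mom_law δ hδ
  refine ⟨K, hK, fun ω W f hW hm t => ?_⟩
  obtain ⟨ν, hP, hI, hint, hr⟩ := sample_key W f hW
  have h1 := h ν hP (fun k => hI _) (fun k hk => by rw [hint]; exact hm k hk) t
  rw [ProbabilityTheory.cdf_eq_real, hr] at h1
  convert h1 using 6

end P4f18dfF
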