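import Pool.Agent.Lib.P4f18dfF.M8
import Pool.Agent.Lib.P4f18dfF.M10
import Pool.Agent.Lib.P4f18dfF.M9law
import Pool.Agent.Lib.P4f18dfF.M9

/-! From the quenched moments to the laws. -/

set_option autoImplicit false

open Finset Filter MeasureTheory ProbabilityTheory Polynomial

namespace P4f18dfF

open Pool.Agent.P4f18dfF Pool.Agent.P4f18dfT

variable {K : Type*} [Field K] [Fintype K] [DecidableEq K]

omit [DecidableEq K] in
theorem q_one (K : Type*) [Field K] [Fintype K] : (1 : ℝ) < Fintype.card K := by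
  exact_mod_cast Fintype.one_lt_card

/-- all `k ≤ k₀` with one constant -/
theorem quenched_all (p : ℕ) [Fact p.Prime] [CharP K p] (hK : ringChar K ≠ 2) (k₀ : ℕ) :
    ∃ C : ℝ, 1 ≤ C ∧ ∀ k ≤ k₀, ∀ h d m : ℕ, C * h ≤ d → C * d ≤ m →
      ∑ r ∈ PL K d, |ex (PL K m) (fun v => Zn h ((X ^ m + v) ^ p + r) ^ k) - gm k| ≤
        C * (Fintype.card K : ℝ) ^ ((d : ℝ) - (h : ℝ) / 6) := by
  have hq := q_one K
  have hmono : ∀ A B : ℝ, A ≤ B → ∀ h d : ℕ,
      A * (Fintype.card K : ℝ) ^ ((d : ℝ) - (h : ℝ) / 6) ≤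
        B * (Fintype.card K : ℝ) ^ ((d : ℝ) - (h : ℝ) / 6) := fun A B hAB h d =>
    mul_le_mul_of_nonneg_right hAB (Real.rpow_nonneg (by linarith) _)
  induction k₀ with
  | zero =>
    obtain ⟨C, hC, h⟩ := quenched (K := K) p hK 0
    refine ⟨max C 1, le_max_right _ _, fun k hk h₁ d m e1 e2 => ?_⟩
    obtain rfl : k = 0 := by omega
    have hh0 : (0 : ℝ) ≤ h₁ := Nat.cast_nonneg _
    have hd0 : (0 : ℝ) ≤ d := Nat.cast_nonneg _
    exact (h h₁ d m ((mul_le_mul_of_nonneg_right (le_max_left _ _) hh0).trans e1)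
      ((mul_le_mul_of_nonneg_right (le_max_left _ _) hd0).trans e2)).trans
      (hmono _ _ (le_max_left _ _) _ _)
  | succ n ih =>
    obtain ⟨C, hC, h⟩ := ih
    obtain ⟨C', hC', h'⟩ := quenched (K := K) p hK (n + 1)
    refine ⟨max C C', le_max_of_le_left hC, fun k hk h₁ d m e1 e2 => ?_⟩
    have hh0 : (0 : ℝ) ≤ h₁ := Nat.cast_nonneg _
    have hd0 : (0 : ℝ) ≤ d := Nat.cast_nonneg _
    rcases Nat.lt_or_ge k (n + 1) with hk' | hk'
    · exact (h k (by omega) h₁ d m ((mul_le_mul_of_nonneg_right (le_max_left _ _) hh0).trans e1)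
        ((mul_le_mul_of_nonneg_right (le_max_left _ _) hd0).trans e2)).trans
        (hmono _ _ (le_max_left _ _) _ _)
    · obtain rfl : k = n + 1 := by omega
      exact (h' h₁ d m ((mul_le_mul_of_nonneg_right (le_max_right _ _) hh0).trans e1)
        ((mul_le_mul_of_nonneg_right (le_max_right _ _) hd0).trans e2)).trans
        (hmono _ _ (le_max_right _ _) _ _)

/-- `q ^ (-h/s) ≤ 1/k` for `h ≥ C` -/
theorem rpow_small {q : ℝ} (hq : 1 < q) {s : ℝ} (hs : 0 < s) {k : ℕ} (hk : 1 ≤ k) {h : ℝ}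
    (hh : s * (Real.log k / Real.log q) ≤ h) : q ^ (-(h / s)) ≤ 1 / k := by
  have hk0 : (0 : ℝ) < k := by exact_mod_cast hk
  have hlogq : 0 < Real.log q := Real.log_pos hq
  have h12 : Real.log k / Real.log q ≤ h / s := by
    rw [le_div_iff₀ hs]; linarith
  have h14 : Real.log k ≤ h / s * Real.log q := by
    rwa [div_le_iff₀ hlogq] at h12
  rw [Real.rpow_neg (by linarith), one_div]
  apply inv_anti₀ hk0
  rw [← Real.log_le_log_iff hk0 (Real.rpow_pos_of_pos (by linarith) _),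
    Real.log_rpow (by linarith)]
  exact h14

/-- quenched form: for almost all `r` moments and law over `u` alone -/
theorem quenched_law (p : ℕ) [Fact p.Prime] [CharP K p] (hK : ringChar K ≠ 2) (δ : ℝ) (hδ : 0 < δ)
    (k₀ : ℕ) :
    ∃ C : ℝ, 1 ≤ C ∧ ∀ h d m : ℕ, C ≤ h → C * h ≤ d → C * d ≤ m → ∃ E : Finset K[X],
      (E.card : ℝ) ≤ C * (Fintype.card K : ℝ) ^ ((d : ℝ) - (h : ℝ) / 12) ∧ ∀ r ∈ PL K d, r ∉ E →
        (∀ k ≤ k₀, |ex (PL K m) (fun v => Zn h ((X ^ m + v) ^ p + r) ^ k) - gm k| ≤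
          (Fintype.card K : ℝ) ^ (-((h : ℝ) / 12))) ∧
        ∀ t : ℝ, |(((PL K m).filter (fun v => Zn h ((X ^ m + v) ^ p + r) ≤ t)).card : ℝ) /
          (PL K m).card - cdf (gaussianReal 0 1) t| ≤ δ := by
  classical
  have hq := q_one K
  set q : ℝ := (Fintype.card K : ℝ) with hqdef
  obtain ⟨K₁, hK₁, law⟩ := law_of_mom δ hδ
  set L := max k₀ K₁ with hL
  obtain ⟨C₀, hC₀, h4⟩ := quenched_all (K := K) p hK L
  have hC₀0 : 0 < C₀ := by linarith
  have hK₁0 : (0 : ℝ) < K₁ := by exact_mod_cast hK₁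
  set C : ℝ := max (C₀ * (L + 1)) (12 * (Real.log K₁ / Real.log q)) with hC
  have hL1 : (1 : ℝ) ≤ L + 1 := by
    have : (0 : ℝ) ≤ L := Nat.cast_nonneg _
    linarith
  have hC2 : C₀ ≤ C := by
    refine le_trans ?_ (le_max_left _ _)
    nlinarith
  have hC1 : 1 ≤ C := by linarith
  have hC0 : 0 < C := by linarith
  refine ⟨C, hC1, fun h d m hh1 hh2 hh3 => ?_⟩
  have hh0 : (0 : ℝ) ≤ h := Nat.cast_nonneg _
  have hd0 : (0 : ℝ) ≤ d := Nat.cast_nonneg _
  have g1 : C₀ * h ≤ d := (mul_le_mul_of_nonneg_right hC2 hh0).trans hh2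
  have g2 : C₀ * d ≤ m := (mul_le_mul_of_nonneg_right hC2 hd0).trans hh3
  set τ : ℝ := q ^ (-((h : ℝ) / 12)) with hτ
  have hτ0 : 0 < τ := Real.rpow_pos_of_pos (by linarith) _
  set D : ℕ → K[X] → ℝ := fun k r => |ex (PL K m) (fun v => Zn h ((X ^ m + v) ^ p + r) ^ k) - gm k| with hD
  set E : Finset K[X] := (range (L + 1)).biUnion (fun k => (PL K d).filter (fun r => τ < D k r)) with hE
  have hEk : ∀ k ≤ L, (((PL K d).filter (fun r => τ < D k r)).card : ℝ) ≤
      C₀ * q ^ ((d : ℝ) - (h : ℝ) / 12) := by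
    intro k hk
    have h5 := h4 k hk h d m g1 g2
    have h6 : (((PL K d).filter (fun r => τ < D k r)).card : ℝ) * τ ≤ ∑ r ∈ PL K d, D k r := by
      have h7 : ∑ r ∈ (PL K d).filter (fun r => τ < D k r), τ ≤
          ∑ r ∈ (PL K d).filter (fun r => τ < D k r), D k r :=
        Finset.sum_le_sum fun r hr => (Finset.mem_filter.1 hr).2.le
      have h8 : ∑ r ∈ (PL K d).filter (fun r => τ < D k r), D k r ≤ ∑ r ∈ PL K d, D k r :=
        Finset.sum_le_sum_of_subset_of_nonneg (Finset.filter_subset _ _) fun r _ _ => abs_nonneg _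
      rw [Finset.sum_const, nsmul_eq_mul] at h7
      exact h7.trans h8
    have h9 : (((PL K d).filter (fun r => τ < D k r)).card : ℝ) * τ ≤
        (C₀ * q ^ ((d : ℝ) - (h : ℝ) / 12)) * τ := by
      refine h6.trans (h5.trans (le_of_eq ?_))
      rw [hτ, mul_assoc, ← Real.rpow_add (by linarith)]
      congr 2
      ring
    exact le_of_mul_le_mul_right h9 hτ0
  refine ⟨E, ?_, ?_⟩
  · calc (E.card : ℝ) ≤ ∑ k ∈ range (L + 1), (((PL K d).filter (fun r => τ < D k r)).card : ℝ) := by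
          rw [hE]
          exact_mod_cast Finset.card_biUnion_le
      _ ≤ ∑ k ∈ range (L + 1), C₀ * q ^ ((d : ℝ) - (h : ℝ) / 12) :=
          Finset.sum_le_sum fun k hk => hEk k (by rw [Finset.mem_range] at hk; omega)
      _ = (C₀ * ((L : ℝ) + 1)) * q ^ ((d : ℝ) - (h : ℝ) / 12) := by
          rw [Finset.sum_const, card_range, nsmul_eq_mul]
          push_cast
          ring
      _ ≤ C * q ^ ((d : ℝ) - (h : ℝ) / 12) :=
          mul_le_mul_of_nonneg_right (le_max_left _ _) (Real.rpow_nonneg (by linarith) _)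
  · intro r hr hrE
    have hDk : ∀ k ≤ L, D k r ≤ τ := by
      intro k hk
      by_contra hcon
      push Not at hcon
      exact hrE (Finset.mem_biUnion.2 ⟨k, by rw [Finset.mem_range]; omega, Finset.mem_filter.2 ⟨hr, hcon⟩⟩)
    refine ⟨fun k hk => hDk k (hk.trans (le_max_left _ _)), fun t => ?_⟩
    have hne : (PL K m).Nonempty := ⟨0, zero_mem_PL m⟩
    refine law _ (PL K m) (fun v => Zn h ((X ^ m + v) ^ p + r)) hne ?_ t
    intro k hk
    refine (hDk k (hk.trans (le_max_right _ _))).trans ?_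
    exact rpow_small hq (by norm_num) hK₁ (le_trans (le_max_right _ _) hh1)

theorem Cen_nonempty (p : ℕ) [Fact p.Prime] [CharP K p] {m d : ℕ} (hd : d + 1 ≤ p * m) :
    (Cen K (p * m) d).Nonempty := by
  have hq := q_one K
  rw [← Finset.card_pos]
  have h2 := family (K := K) p hd (fun _ => 1)
  simp only [Finset.sum_const, card_PL, nsmul_eq_mul, mul_one] at h2
  have hqp : ∀ n : ℕ, (0 : ℝ) < (Fintype.card K : ℝ) ^ n := fun n => pow_pos (by linarith) n
  have h3 : 0 < (Fintype.card K : ℝ) ^ (d / p + 1) * ((Cen K (p * m) d).card : ℝ) := by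
    rw [h2]; push_cast; exact mul_pos (hqp _) (hqp _)
  exact_mod_cast (mul_pos_iff_of_pos_left (hqp _)).1 h3

/-- moments over the centres, all `k ≤ k₀` with one constant -/
theorem cen_moments_all (p : ℕ) [Fact p.Prime] [CharP K p] (hK : ringChar K ≠ 2) (k₀ : ℕ) :
    ∃ C : ℝ, 2 ≤ C ∧ ∀ k ≤ k₀, ∀ h d n : ℕ, p ∣ n → C * h ≤ d → C * d ≤ n →
      |ex (Cen K n d) (fun f => Zn h f ^ k) - gm k| ≤
        C * (Fintype.card K : ℝ) ^ (-(h : ℝ) / 6) := by
  have hq := q_one K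
  have hmono : ∀ A B : ℝ, A ≤ B → ∀ h : ℕ,
      A * (Fintype.card K : ℝ) ^ (-(h : ℝ) / 6) ≤
        B * (Fintype.card K : ℝ) ^ (-(h : ℝ) / 6) := fun A B hAB h =>
    mul_le_mul_of_nonneg_right hAB (Real.rpow_nonneg (by linarith) _)
  induction k₀ with
  | zero =>
    obtain ⟨C, hC, h⟩ := cen_moments (K := K) p hK 0
    refine ⟨max C 2, le_max_right _ _, fun k hk h₁ d n hn e1 e2 => ?_⟩
    obtain rfl : k = 0 := by omega
    have hh0 : (0 : ℝ) ≤ h₁ := Nat.cast_nonneg _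
    have hd0 : (0 : ℝ) ≤ d := Nat.cast_nonneg _
    exact (h h₁ d n hn ((mul_le_mul_of_nonneg_right (le_max_left _ _) hh0).trans e1)
      ((mul_le_mul_of_nonneg_right (le_max_left _ _) hd0).trans e2)).trans
      (hmono _ _ (le_max_left _ _) _)
  | succ n ih =>
    obtain ⟨C, hC, h⟩ := ih
    obtain ⟨C', hC', h'⟩ := cen_moments (K := K) p hK (n + 1)
    refine ⟨max C C', le_max_of_le_left hC, fun k hk h₁ d N hN e1 e2 => ?_⟩
    have hh0 : (0 : ℝ) ≤ h₁ := Nat.cast_nonneg _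
    have hd0 : (0 : ℝ) ≤ d := Nat.cast_nonneg _
    rcases Nat.lt_or_ge k (n + 1) with hk' | hk'
    · exact (h k (by omega) h₁ d N hN ((mul_le_mul_of_nonneg_right (le_max_left _ _) hh0).trans e1)
        ((mul_le_mul_of_nonneg_right (le_max_left _ _) hd0).trans e2)).trans
        (hmono _ _ (le_max_left _ _) _)
    · obtain rfl : k = n + 1 := by omega
      exact (h' h₁ d N hN ((mul_le_mul_of_nonneg_right (le_max_right _ _) hh0).trans e1)
        ((mul_le_mul_of_nonneg_right (le_max_right _ _) hd0).trans e2)).trans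
        (hmono _ _ (le_max_right _ _) _)

/-- the law over the centres -/
theorem cen_law (p : ℕ) [Fact p.Prime] [CharP K p] (hK : ringChar K ≠ 2) (δ : ℝ) (hδ : 0 < δ) :
    ∃ C : ℝ, 2 ≤ C ∧ ∀ h d n : ℕ, p ∣ n → C ≤ h → C * h ≤ d → C * d ≤ n →
      (Cen K n d).Nonempty ∧
      ∀ t : ℝ, |(((Cen K n d).filter (fun f => Zn h f ≤ t)).card : ℝ) / (Cen K n d).card -
        cdf (gaussianReal 0 1) t| ≤ δ := by
  classical
  have hq := q_one K
  set q : ℝ := (Fintype.card K : ℝ) with hqdef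
  have hlogq : 0 < Real.log q := Real.log_pos hq
  obtain ⟨K₁, hK₁, law⟩ := law_of_mom δ hδ
  have hK₁0 : (0 : ℝ) < K₁ := by exact_mod_cast hK₁
  obtain ⟨C₀, hC₀, h4⟩ := cen_moments_all (K := K) p hK K₁
  have hC₀0 : 0 < C₀ := by linarith
  obtain ⟨N, hN⟩ := exists_nat_ge (C₀ * K₁)
  have hN1 : 1 ≤ N := by
    have : (0 : ℝ) < N := lt_of_lt_of_le (by positivity) hN
    exact_mod_cast this
  set C : ℝ := max C₀ (6 * (Real.log N / Real.log q)) with hC
  have hCC : C₀ ≤ C := le_max_left _ _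
  refine ⟨C, hC₀.trans hCC, fun h d n hpn hh1 hh2 hh3 => ?_⟩
  have hh0 : (0 : ℝ) ≤ h := Nat.cast_nonneg _
  have hd0 : (0 : ℝ) ≤ d := Nat.cast_nonneg _
  have hC2 : 2 ≤ C := hC₀.trans hCC
  have hne : (Cen K n d).Nonempty := by
    obtain ⟨m, rfl⟩ := hpn
    apply Cen_nonempty
    have hh2' : (2 : ℝ) ≤ h := hC2.trans hh1
    have hd1 : (1 : ℝ) ≤ d := by nlinarith
    have h5 : (d : ℝ) + 1 ≤ ((p * m : ℕ) : ℝ) := by nlinarith
    exact_mod_cast h5
  refine ⟨hne, fun t => law _ _ _ hne ?_ t⟩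
  intro k hk
  refine (h4 k hk h d n hpn ((mul_le_mul_of_nonneg_right hCC hh0).trans hh2)
    ((mul_le_mul_of_nonneg_right hCC hd0).trans hh3)).trans ?_
  have h6 := rpow_small hq (s := 6) (by norm_num) hN1 (le_trans (le_max_right _ _) hh1)
  rw [neg_div]
  have hN0 : (0 : ℝ) < N := by exact_mod_cast hN1
  calc C₀ * q ^ (-((h : ℝ) / 6)) ≤ C₀ * (1 / N) := mul_le_mul_of_nonneg_left h6 hC₀0.le
    _ ≤ 1 / K₁ := by
        rw [mul_one_div, div_le_div_iff₀ hN0 hK₁0]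
        linarith

end P4f18dfF
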