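import Pool.Agent.Lib.P4f18dfF.WinB
import Pool.Agent.Lib.P4f18dfF.FinF

/-! Windows: moments and law for the polynomials of a full window. -/

set_option autoImplicit false

namespace P4f18dfF
open Polynomial Finset ProbabilityTheory Pool.Agent.P4f18dfF Pool.Agent.P4f18dfT Pool.Agent.P4f18dfC

universe u

variable {K : Type u} [Field K] [Fintype K]

lemma ex_const_PL (n : ℕ) (c : ℝ) : ex (PL K n) (fun _ => c) = c := by
  have : (0 : ℝ) < Fintype.card K := by exact_mod_cast Fintype.card_pos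
  rw [ex, sum_const, nsmul_eq_mul, cardPL_real]
  field_simp

/-- a window is the union of its subwindows -/
lemma ex_window {e₁ e : ℕ} (he : e₁ ≤ e) (f : K[X] → ℝ) (r : K[X]) :
    ex (PL K e) (fun s => f (r + s)) =
      ex (PL K e) (fun s => ex (PL K e₁) (fun t => f (r + s + t))) := by
  have hq : (0 : ℝ) < Fintype.card K := by exact_mod_cast Fintype.card_pos
  unfold ex
  simp_rw [← Finset.sum_div]
  rw [Finset.sum_comm]
  have h1 : ∀ t ∈ PL K e₁, ∑ s ∈ PL K e, f (r + s + t) = ∑ s ∈ PL K e, f (r + s) := by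
    intro t ht
    rw [← sum_PL_add e (fun s => f (r + s)) (PL_mono he ht)]
    refine Finset.sum_congr rfl fun s _ => ?_
    rw [add_assoc]
  have h2 : ((PL K e₁).card : ℝ) ≠ 0 := by rw [cardPL_real]; positivity
  rw [Finset.sum_congr rfl h1, sum_const, nsmul_eq_mul, mul_div_cancel_left₀ _ h2]

lemma ex_translate {e : ℕ} (f : K[X] → ℝ) {r : K[X]} (hr : r ∈ PL K e) :
    ex (PL K e) (fun s => f (r + s)) = ex (PL K e) f := by
  unfold ex
  rw [← sum_PL_add e f hr]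
  congr 1
  refine Finset.sum_congr rfl fun s _ => ?_
  rw [add_comm]

/-- averaging over larger windows -/
lemma tile {e₁ e D m : ℕ} (h1 : e₁ ≤ e) (h2 : e ≤ D) (f : K[X] → K[X] → ℝ) (g : ℝ) :
    ∑ r₀ ∈ PL K D, ∑ v ∈ PL K m, |ex (PL K e) (fun s => f v (r₀ + s)) - g| ≤
      ∑ r₀ ∈ PL K D, ∑ v ∈ PL K m, |ex (PL K e₁) (fun s => f v (r₀ + s)) - g| := by
  have hq : (0 : ℝ) < Fintype.card K := by exact_mod_cast Fintype.card_pos
  have a1 : ∀ r₀ v, |ex (PL K e) (fun s => f v (r₀ + s)) - g| ≤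
      ex (PL K e) (fun s => |ex (PL K e₁) (fun t => f v (r₀ + s + t)) - g|) := by
    intro r₀ v
    rw [ex_window h1 (f v) r₀]
    have h3 : ex (PL K e) (fun s => ex (PL K e₁) (fun t => f v (r₀ + s + t))) - g =
        ex (PL K e) (fun s => ex (PL K e₁) (fun t => f v (r₀ + s + t)) - g) := by
      nth_rewrite 1 [← ex_const_PL (K := K) e g]
      rw [← ex_sub]
    rw [h3]
    exact abs_ex_le fun _ _ => le_rfl
  refine (Finset.sum_le_sum fun r₀ _ => Finset.sum_le_sum fun v _ => a1 r₀ v).trans ?_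
  unfold ex
  simp_rw [← Finset.sum_div]
  rw [div_le_iff₀ (by rw [cardPL_real]; positivity)]
  have e2 : ∑ r₀ ∈ PL K D, ∑ v ∈ PL K m, ∑ s ∈ PL K e,
        |(∑ t ∈ PL K e₁, f v (r₀ + s + t)) / ((PL K e₁).card : ℝ) - g| =
      ∑ s ∈ PL K e, ∑ r₀ ∈ PL K D, ∑ v ∈ PL K m,
        |(∑ t ∈ PL K e₁, f v (r₀ + s + t)) / ((PL K e₁).card : ℝ) - g| := by
    simp_rw [← Finset.sum_product' (PL K D) (PL K m)]
    exact Finset.sum_comm
  rw [e2]
  have e3 : ∀ s ∈ PL K e, ∑ r₀ ∈ PL K D, ∑ v ∈ PL K m,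
        |(∑ t ∈ PL K e₁, f v (r₀ + s + t)) / ((PL K e₁).card : ℝ) - g| =
      ∑ r₀ ∈ PL K D, ∑ v ∈ PL K m,
        |(∑ t ∈ PL K e₁, f v (r₀ + t)) / ((PL K e₁).card : ℝ) - g| := by
    intro s hs
    exact sum_PL_add D (fun r => ∑ v ∈ PL K m,
        |(∑ t ∈ PL K e₁, f v (r + t)) / ((PL K e₁).card : ℝ) - g|) (PL_mono h2 hs)
  rw [Finset.sum_congr rfl e3, sum_const, nsmul_eq_mul]
  exact (mul_comm _ _).le

variable [DecidableEq K]

/-- small windows -/
theorem windows_small (p : ℕ) [Fact p.Prime] [CharP K p] (hK : ringChar K ≠ 2) (k : ℕ) :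
    ∃ C : ℝ, 1 ≤ C ∧ ∀ h e d m : ℕ, C * h ≤ e → C * e ≤ d → C * d ≤ m →
      ∑ r₀ ∈ PL K d, ∑ v ∈ PL K m,
        |ex (PL K e) (fun s => Zn h ((X ^ m + v) ^ p + (r₀ + s)) ^ k) - gm k| ≤
        C * (Fintype.card K : ℝ) ^ ((m : ℝ) + d - (h : ℝ) / 12) := by
  obtain ⟨CJ, hCJ, hj⟩ := joint_sum (K := K) p hK k
  obtain ⟨CQ, hCQ, hqu⟩ := quenched (K := K) p hK k
  have hq1 := one_lt_q K
  have hg := gm_nonneg k
  set q : ℝ := (Fintype.card K : ℝ) with hq
  have hq0 : 0 < q := by linarith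
  set C : ℝ := CJ + 2 * gm k * CQ + CQ with hC
  have hC1 : 1 ≤ C := by nlinarith [mul_nonneg hg hCQ.le]
  have hxx : 0 ≤ 2 * gm k * CQ := by positivity
  refine ⟨C, hC1, fun h e d m he hd hm => ?_⟩
  have hh0 : (0 : ℝ) ≤ h := Nat.cast_nonneg _
  have he0 : (0 : ℝ) ≤ e := Nat.cast_nonneg _
  have hd0 : (0 : ℝ) ≤ d := Nat.cast_nonneg _
  have hC_CJ : CJ ≤ C := by linarith
  have hC_CQ : CQ ≤ C := by linarith
  have g1 : CJ * h ≤ e := (mul_le_mul_of_nonneg_right hC_CJ hh0).trans he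
  have g2 : CJ * e ≤ d := (mul_le_mul_of_nonneg_right hC_CJ he0).trans hd
  have g3 : CJ * d ≤ m := (mul_le_mul_of_nonneg_right hC_CJ hd0).trans hm
  have g4 : (h : ℝ) ≤ e := by nlinarith
  have g5 : (e : ℝ) ≤ d := by nlinarith
  have g7 : CQ * h ≤ d := by
    have : CQ * h ≤ C * h := mul_le_mul_of_nonneg_right hC_CQ hh0
    linarith
  have g8 : CQ * d ≤ m := (mul_le_mul_of_nonneg_right hC_CQ hd0).trans hm
  have hed : e ≤ d := by exact_mod_cast g5
  set E : ℝ := q ^ ((d : ℝ) - (h : ℝ) / 6) with hE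
  have hE0 : 0 < E := by positivity
  have hqm : (0 : ℝ) < q ^ m := by positivity
  have b1 : |∑ r ∈ PL K d, ∑ v ∈ PL K m, (Zn h ((X ^ m + v) ^ p + r) ^ k - gm k)| ≤
      q ^ m * (CQ * E) := by
    have e1 : ∀ r, ∑ v ∈ PL K m, (Zn h ((X ^ m + v) ^ p + r) ^ k - gm k) =
        q ^ m * (ex (PL K m) (fun v => Zn h ((X ^ m + v) ^ p + r) ^ k) - gm k) := by
      intro r
      rw [Finset.sum_sub_distrib, sum_const, nsmul_eq_mul, cardPL_real, ex, cardPL_real, ← hq]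
      field_simp
    simp_rw [e1]
    rw [← Finset.mul_sum, abs_mul, abs_of_pos hqm]
    apply mul_le_mul_of_nonneg_left _ hqm.le
    exact (Finset.abs_sum_le_sum_abs _ _).trans (hqu h d m g7 g8)
  have b2 : ∑ r₁ ∈ PL K e, ∑ r₂ ∈ PL K e, |∑ r₀ ∈ PL K d, ∑ v ∈ PL K m,
      (Zn h ((X ^ m + v) ^ p + (r₀ + r₁)) ^ k * Zn h ((X ^ m + v) ^ p + (r₀ + r₂)) ^ k -
        gm k ^ 2)| ≤ q ^ m * (q ^ (2 * e) * (CJ * E)) := by
    have e1 : ∀ r₁ r₂ r₀, ∑ v ∈ PL K m,
        (Zn h ((X ^ m + v) ^ p + (r₀ + r₁)) ^ k * Zn h ((X ^ m + v) ^ p + (r₀ + r₂)) ^ k -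
          gm k ^ 2) =
        q ^ m * (ex (PL K m) (fun v => Zn h ((X ^ m + v) ^ p + (r₀ + r₁)) ^ k *
          Zn h ((X ^ m + v) ^ p + (r₀ + r₂)) ^ k) - gm k ^ 2) := by
      intro r₁ r₂ r₀
      rw [Finset.sum_sub_distrib, sum_const, nsmul_eq_mul, cardPL_real, ex, cardPL_real, ← hq]
      field_simp
    simp_rw [e1]
    simp_rw [← Finset.mul_sum, abs_mul, abs_of_pos hqm, ← Finset.mul_sum]
    apply mul_le_mul_of_nonneg_left _ hqm.le
    refine le_trans ?_ (hj h e d m g1 g2 g3)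
    exact Finset.sum_le_sum fun r₁ _ => Finset.sum_le_sum fun r₂ _ =>
      Finset.abs_sum_le_sum_abs _ _
  have key := window_cs (K := K) hed (fun v r => Zn h ((X ^ m + v) ^ p + r) ^ k) (gm k) _ _ b1 b2
  rw [← hq, abs_of_nonneg hg] at key
  have h5 : q ^ (d + m) * (q ^ m * (q ^ (2 * e) * (CJ * E)) / q ^ (2 * e) +
      2 * gm k * (q ^ m * (CQ * E))) ≤ (C * q ^ ((m : ℝ) + d - (h : ℝ) / 12)) ^ 2 := by
    have e6 : q ^ (d + m) * (q ^ m * (q ^ (2 * e) * (CJ * E)) / q ^ (2 * e) +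
        2 * gm k * (q ^ m * (CQ * E))) = (CJ + 2 * gm k * CQ) * (q ^ (d + m) * q ^ m * E) := by
      have : q ^ (2 * e) ≠ 0 := by positivity
      field_simp
    have e7 : q ^ (d + m) * q ^ m * E = (q ^ ((m : ℝ) + d - (h : ℝ) / 12)) ^ 2 := by
      rw [← pow_add, ← Real.rpow_natCast, hE, ← Real.rpow_add hq0, ← Real.rpow_natCast,
        ← Real.rpow_mul hq0.le]
      congr 1
      push_cast
      ring
    rw [e6, e7, mul_pow]
    apply mul_le_mul_of_nonneg_right _ (sq_nonneg _)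
    nlinarith
  exact (pow_le_pow_iff_left₀ (Finset.sum_nonneg fun _ _ => Finset.sum_nonneg fun _ _ => abs_nonneg _)
    (by positivity) two_ne_zero).1 (key.trans h5)

/-- all windows -/
theorem windows (p : ℕ) [Fact p.Prime] [CharP K p] (hK : ringChar K ≠ 2) (k : ℕ) :
    ∃ C : ℝ, 1 ≤ C ∧ ∀ h e d m : ℕ, C * h ≤ e → C * e ≤ m → C * d ≤ m →
      ∑ r₀ ∈ PL K d, ∑ v ∈ PL K m,
        |ex (PL K e) (fun s => Zn h ((X ^ m + v) ^ p + (r₀ + s)) ^ k) - gm k| ≤
        C * (Fintype.card K : ℝ) ^ ((m : ℝ) + d - (h : ℝ) / 12) := by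
  obtain ⟨C', hC', hw⟩ := windows_small (K := K) p hK k
  have hq1 := one_lt_q K
  set q : ℝ := (Fintype.card K : ℝ) with hq
  have hq0 : 0 < q := by linarith
  have hC'C : C' ≤ C' * (C' + 1) := by nlinarith
  refine ⟨C' * (C' + 1), by nlinarith, fun h e d m he hem hdm => ?_⟩
  have hh0 : (0 : ℝ) ≤ h := Nat.cast_nonneg _
  have he0 : (0 : ℝ) ≤ e := Nat.cast_nonneg _
  have hd0 : (0 : ℝ) ≤ d := Nat.cast_nonneg _
  set e₁ : ℕ := ⌈C' * h⌉₊ with he₁
  have k1 : C' * h ≤ e₁ := Nat.le_ceil _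
  have k2 : (e₁ : ℝ) ≤ (C' + 1) * h := by
    rcases Nat.eq_zero_or_pos h with h0 | h0
    · rw [he₁, h0]; simp
    · have h1 : (1 : ℝ) ≤ h := by exact_mod_cast h0
      have h2 := Nat.ceil_lt_add_one (a := C' * h) (by positivity)
      rw [← he₁] at h2
      linarith
  have k3 : C' * e₁ ≤ e := by
    have : C' * e₁ ≤ C' * ((C' + 1) * h) := mul_le_mul_of_nonneg_left k2 (by linarith)
    linarith
  have k4 : e₁ ≤ e := by
    have : (e₁ : ℝ) ≤ e := by
      have h0 : (0 : ℝ) ≤ e₁ := Nat.cast_nonneg _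
      nlinarith
    exact_mod_cast this
  have hD1 : C' * ((max d e : ℕ) : ℝ) ≤ m := by
    rcases le_total d e with h1 | h1
    · rw [max_eq_right h1]
      exact (mul_le_mul_of_nonneg_right hC'C he0).trans hem
    · rw [max_eq_left h1]
      exact (mul_le_mul_of_nonneg_right hC'C hd0).trans hdm
  have hD2 : C' * e₁ ≤ ((max d e : ℕ) : ℝ) := k3.trans (by exact_mod_cast le_max_right d e)
  have h1 := hw h e₁ (max d e) m k1 hD2 hD1
  have h2 := (tile (K := K) (m := m) k4 (le_max_right d e)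
    (fun v r => Zn h ((X ^ m + v) ^ p + r) ^ k) (gm k)).trans h1
  rcases le_total e d with hed | hde
  · rw [max_eq_left hed] at h2
    refine h2.trans ?_
    exact mul_le_mul_of_nonneg_right hC'C (Real.rpow_nonneg hq0.le _)
  · rw [max_eq_right hde] at h2
    -- the window does not depend on `r₀`
    have h3 : ∀ r₀ ∈ PL K e, ∑ v ∈ PL K m,
        |ex (PL K e) (fun s => Zn h ((X ^ m + v) ^ p + (r₀ + s)) ^ k) - gm k| =
        ∑ v ∈ PL K m, |ex (PL K e) (fun s => Zn h ((X ^ m + v) ^ p + s) ^ k) - gm k| := by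
      intro r₀ hr₀
      refine Finset.sum_congr rfl fun v _ => ?_
      rw [ex_translate (fun s => Zn h ((X ^ m + v) ^ p + s) ^ k) hr₀]
    rw [Finset.sum_congr rfl h3, sum_const, nsmul_eq_mul, cardPL_real, ← hq] at h2
    rw [Finset.sum_congr rfl fun r₀ hr₀ => h3 r₀ (PL_mono hde hr₀), sum_const, nsmul_eq_mul,
      cardPL_real, ← hq]
    set Y : ℝ := ∑ v ∈ PL K m, |ex (PL K e) (fun s => Zn h ((X ^ m + v) ^ p + s) ^ k) - gm k| with hY
    have h4 : Y ≤ C' * q ^ ((m : ℝ) - (h : ℝ) / 12) := by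
      have h5 : q ^ e * Y ≤ q ^ e * (C' * q ^ ((m : ℝ) - (h : ℝ) / 12)) := by
        refine h2.trans (le_of_eq ?_)
        rw [mul_left_comm, ← Real.rpow_natCast q e, ← Real.rpow_add hq0]
        congr 2
        ring
      exact le_of_mul_le_mul_left h5 (by positivity)
    calc q ^ d * Y ≤ q ^ d * (C' * q ^ ((m : ℝ) - (h : ℝ) / 12)) :=
          mul_le_mul_of_nonneg_left h4 (by positivity)
      _ = C' * q ^ ((m : ℝ) + d - (h : ℝ) / 12) := by
          rw [mul_left_comm, ← Real.rpow_natCast q d, ← Real.rpow_add hq0]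
          congr 2
          ring
      _ ≤ _ := mul_le_mul_of_nonneg_right hC'C (Real.rpow_nonneg hq0.le _)

/-- the number of centres -/
lemma card_Cen (p : ℕ) [Fact p.Prime] [CharP K p] {m d : ℕ} (hd : d + 1 ≤ p * m) :
    (Fintype.card K : ℝ) ^ (d / p + 1) * ((Cen K (p * m) d).card : ℝ) =
      (Fintype.card K : ℝ) ^ (m + (d + 1)) := by
  have h2 := family (K := K) p hd (fun _ => 1)
  simp only [Finset.sum_const, nsmul_eq_mul, mul_one, cardPL_real] at h2
  rw [h2, ← pow_add, add_comm]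

/-- windows around the centres -/
theorem cen_windows (p : ℕ) [Fact p.Prime] [CharP K p] (hK : ringChar K ≠ 2) (k : ℕ) :
    ∃ C : ℝ, 1 ≤ C ∧ ∀ h e d n : ℕ, 1 ≤ h → p ∣ n → C * h ≤ e → C * e ≤ n → C * d ≤ n →
      ∑ g ∈ Cen K n d, |ex (PL K e) (fun s => Zn h (g + s) ^ k) - gm k| ≤
        C * (Fintype.card K : ℝ) ^ (-(h : ℝ) / 12) * (Cen K n d).card := by
  obtain ⟨C', hC', hw⟩ := windows (K := K) p hK k
  have hq1 := one_lt_q K
  have hpp := (Fact.out : p.Prime)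
  have hp2 : (2 : ℝ) ≤ p := by exact_mod_cast hpp.two_le
  set q : ℝ := (Fintype.card K : ℝ) with hq
  have hq0 : 0 < q := by linarith
  refine ⟨2 * p * C', by nlinarith, fun h e d n hh1 hpn he hen hdn => ?_⟩
  obtain ⟨m, rfl⟩ := hpn
  have hh1' : (1 : ℝ) ≤ h := by exact_mod_cast hh1
  have he0 : (0 : ℝ) ≤ e := Nat.cast_nonneg _
  have hd0 : (0 : ℝ) ≤ d := Nat.cast_nonneg _
  push_cast at hen hdn
  have g1 : C' * h ≤ e := by nlinarith
  have g2 : 2 * (C' * e) ≤ m := by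
    have h1 : (p : ℝ) * (2 * (C' * e)) ≤ p * m := by linarith
    exact le_of_mul_le_mul_left h1 (by linarith)
  have g3 : 2 * (C' * d) ≤ m := by
    have h1 : (p : ℝ) * (2 * (C' * d)) ≤ p * m := by linarith
    exact le_of_mul_le_mul_left h1 (by linarith)
  have he1 : (1 : ℝ) ≤ e := by nlinarith
  have g4 : C' * e ≤ m := by nlinarith
  have g5 : C' * ((d + 1 : ℕ) : ℝ) ≤ m := by
    push_cast
    nlinarith
  have g6 : d + 1 ≤ p * m := by
    have h1 : ((d + 1 : ℕ) : ℝ) ≤ m := by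
      have h0 : (0 : ℝ) ≤ ((d + 1 : ℕ) : ℝ) := Nat.cast_nonneg _
      nlinarith
    have h2 : d + 1 ≤ m := by exact_mod_cast h1
    exact h2.trans (Nat.le_mul_of_pos_left _ hpp.pos)
  have h1 := hw h e (d + 1) m g1 g4 g5
  have h2 := family (K := K) p g6
    (fun g => |ex (PL K e) (fun s => Zn h (g + s) ^ k) - gm k|)
  have h3 := card_Cen (K := K) p g6
  rw [← hq] at h2 h3
  simp_rw [add_assoc] at h2
  have h4 : (0 : ℝ) < q ^ (d / p + 1) := by positivity
  have h5 : q ^ (d / p + 1) * ∑ g ∈ Cen K (p * m) d,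
      |ex (PL K e) (fun s => Zn h (g + s) ^ k) - gm k| ≤
      q ^ (d / p + 1) * (2 * p * C' * q ^ (-(h : ℝ) / 12) * (Cen K (p * m) d).card) := by
    rw [h2]
    refine h1.trans ?_
    calc C' * q ^ ((m : ℝ) + ((d + 1 : ℕ) : ℝ) - (h : ℝ) / 12) =
          C' * q ^ (-(h : ℝ) / 12) * q ^ (m + (d + 1)) := by
          rw [mul_assoc, ← Real.rpow_natCast q (m + (d + 1)), ← Real.rpow_add hq0]
          congr 2
          push_cast
          ring
      _ ≤ 2 * p * C' * q ^ (-(h : ℝ) / 12) * q ^ (m + (d + 1)) := by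
          apply mul_le_mul_of_nonneg_right _ (by positivity)
          apply mul_le_mul_of_nonneg_right _ (Real.rpow_nonneg hq0.le _)
          nlinarith
      _ = _ := by rw [← h3]; ring
  exact le_of_mul_le_mul_left h5 h4

/-- all `k ≤ k₀` with one constant -/
theorem cen_windows_all (p : ℕ) [Fact p.Prime] [CharP K p] (hK : ringChar K ≠ 2) (k₀ : ℕ) :
    ∃ C : ℝ, 1 ≤ C ∧ ∀ k ≤ k₀, ∀ h e d n : ℕ, 1 ≤ h → p ∣ n → C * h ≤ e → C * e ≤ n →
      C * d ≤ n → ∑ g ∈ Cen K n d, |ex (PL K e) (fun s => Zn h (g + s) ^ k) - gm k| ≤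
        C * (Fintype.card K : ℝ) ^ (-(h : ℝ) / 12) * (Cen K n d).card := by
  have hq := one_lt_q K
  have hmono : ∀ A B : ℝ, A ≤ B → ∀ h n d : ℕ,
      A * (Fintype.card K : ℝ) ^ (-(h : ℝ) / 12) * (Cen K n d).card ≤
        B * (Fintype.card K : ℝ) ^ (-(h : ℝ) / 12) * (Cen K n d).card := fun A B hAB h n d =>
    mul_le_mul_of_nonneg_right (mul_le_mul_of_nonneg_right hAB (Real.rpow_nonneg (by linarith) _))
      (Nat.cast_nonneg _)
  induction k₀ with
  | zero =>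
    obtain ⟨C, hC, h⟩ := cen_windows (K := K) p hK 0
    refine ⟨C, hC, fun k hk => ?_⟩
    obtain rfl : k = 0 := by omega
    exact h
  | succ n ih =>
    obtain ⟨C, hC, h⟩ := ih
    obtain ⟨C', hC', h'⟩ := cen_windows (K := K) p hK (n + 1)
    refine ⟨max C C', le_max_of_le_left hC, fun k hk h₁ e d N hh hN e1 e2 e3 => ?_⟩
    have hh0 : (0 : ℝ) ≤ h₁ := Nat.cast_nonneg _
    have he0 : (0 : ℝ) ≤ e := Nat.cast_nonneg _
    have hd0 : (0 : ℝ) ≤ d := Nat.cast_nonneg _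
    rcases Nat.lt_or_ge k (n + 1) with hk' | hk'
    · exact (h k (by omega) h₁ e d N hh hN
        ((mul_le_mul_of_nonneg_right (le_max_left _ _) hh0).trans e1)
        ((mul_le_mul_of_nonneg_right (le_max_left _ _) he0).trans e2)
        ((mul_le_mul_of_nonneg_right (le_max_left _ _) hd0).trans e3)).trans
        (hmono _ _ (le_max_left _ _) _ _ _)
    · obtain rfl : k = n + 1 := by omega
      exact (h' h₁ e d N hh hN
        ((mul_le_mul_of_nonneg_right (le_max_right _ _) hh0).trans e1)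
        ((mul_le_mul_of_nonneg_right (le_max_right _ _) he0).trans e2)
        ((mul_le_mul_of_nonneg_right (le_max_right _ _) hd0).trans e3)).trans
        (hmono _ _ (le_max_right _ _) _ _ _)

/-- moments and law in almost all windows -/
theorem windows_law (p : ℕ) [Fact p.Prime] [CharP K p] (hK : ringChar K ≠ 2) (δ : ℝ) (hδ : 0 < δ)
    (k₀ : ℕ) :
    ∃ C : ℝ, 1 ≤ C ∧ ∀ h e d n : ℕ, p ∣ n → C ≤ h → C * h ≤ e → C * e ≤ n → C * d ≤ n →
      ∃ E ⊆ Cen K n d,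
      (E.card : ℝ) ≤ C * (Fintype.card K : ℝ) ^ (-(h : ℝ) / 24) * (Cen K n d).card ∧
      ∀ g ∈ Cen K n d, g ∉ E →
        (∀ k ≤ k₀, |ex (PL K e) (fun s => Zn h (g + s) ^ k) - gm k| ≤
          (Fintype.card K : ℝ) ^ (-(h : ℝ) / 24)) ∧
        ∀ t : ℝ, |(((PL K e).filter (fun s => Zn h (g + s) ≤ t)).card : ℝ) /
          (PL K e).card - cdf (gaussianReal 0 1) t| ≤ δ := by
  classical
  have hq := one_lt_q K
  set q : ℝ := (Fintype.card K : ℝ) with hqdef
  have hq0 : 0 < q := by linarith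
  obtain ⟨K₁, hK₁, law⟩ := law_of_mom δ hδ
  set L := max k₀ K₁ with hL
  obtain ⟨C₀, hC₀, h4⟩ := cen_windows_all (K := K) p hK L
  have hC₀0 : 0 < C₀ := by linarith
  set C : ℝ := max (C₀ * (L + 1)) (24 * (Real.log K₁ / Real.log q)) with hC
  have hL1 : (1 : ℝ) ≤ L + 1 := by
    have : (0 : ℝ) ≤ L := Nat.cast_nonneg _
    linarith
  have hC2 : C₀ ≤ C := by
    refine le_trans ?_ (le_max_left _ _)
    nlinarith
  have hC1 : 1 ≤ C := by linarith
  have hC0 : 0 < C := by linarith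
  refine ⟨C, hC1, fun h e d n hpn hh1 hh2 hh3 hh4 => ?_⟩
  have hh0 : (0 : ℝ) ≤ h := Nat.cast_nonneg _
  have he0 : (0 : ℝ) ≤ e := Nat.cast_nonneg _
  have hd0 : (0 : ℝ) ≤ d := Nat.cast_nonneg _
  have hh1n : 1 ≤ h := by
    have : (1 : ℝ) ≤ h := hC1.trans hh1
    exact_mod_cast this
  have g1 : C₀ * h ≤ e := (mul_le_mul_of_nonneg_right hC2 hh0).trans hh2
  have g2 : C₀ * e ≤ n := (mul_le_mul_of_nonneg_right hC2 he0).trans hh3
  have g3 : C₀ * d ≤ n := (mul_le_mul_of_nonneg_right hC2 hd0).trans hh4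
  set τ : ℝ := q ^ (-(h : ℝ) / 24) with hτ
  have hτ0 : 0 < τ := Real.rpow_pos_of_pos hq0 _
  set D : ℕ → K[X] → ℝ := fun k g => |ex (PL K e) (fun s => Zn h (g + s) ^ k) - gm k| with hD
  set N : ℝ := ((Cen K n d).card : ℝ) with hN
  have hN0 : 0 ≤ N := Nat.cast_nonneg _
  set E : Finset K[X] := (range (L + 1)).biUnion
    (fun k => (Cen K n d).filter (fun g => τ < D k g)) with hE
  have hEk : ∀ k ≤ L, (((Cen K n d).filter (fun g => τ < D k g)).card : ℝ) ≤ C₀ * τ * N := by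
    intro k hk
    have h5 := h4 k hk h e d n hh1n hpn g1 g2 g3
    have h6 : (((Cen K n d).filter (fun g => τ < D k g)).card : ℝ) * τ ≤
        ∑ g ∈ Cen K n d, D k g := by
      have h7 : ∑ g ∈ (Cen K n d).filter (fun g => τ < D k g), τ ≤
          ∑ g ∈ (Cen K n d).filter (fun g => τ < D k g), D k g :=
        Finset.sum_le_sum fun r hr => (Finset.mem_filter.1 hr).2.le
      have h8 : ∑ g ∈ (Cen K n d).filter (fun g => τ < D k g), D k g ≤ ∑ g ∈ Cen K n d, D k g :=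
        Finset.sum_le_sum_of_subset_of_nonneg (Finset.filter_subset _ _) fun r _ _ => abs_nonneg _
      rw [Finset.sum_const, nsmul_eq_mul] at h7
      exact h7.trans h8
    have h9 : (((Cen K n d).filter (fun g => τ < D k g)).card : ℝ) * τ ≤ (C₀ * τ * N) * τ := by
      refine h6.trans (h5.trans (le_of_eq ?_))
      have h10 : q ^ (-(h : ℝ) / 12) = τ * τ := by
        rw [hτ, ← Real.rpow_add hq0]
        congr 1
        ring
      rw [h10]
      ring
    exact le_of_mul_le_mul_right h9 hτ0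
  refine ⟨E, ?_, ?_, ?_⟩
  · intro g hg
    rw [hE, Finset.mem_biUnion] at hg
    obtain ⟨k, -, hk⟩ := hg
    exact (Finset.mem_filter.1 hk).1
  · calc (E.card : ℝ) ≤ ∑ k ∈ range (L + 1), (((Cen K n d).filter (fun g => τ < D k g)).card : ℝ) := by
          rw [hE]
          exact_mod_cast Finset.card_biUnion_le
      _ ≤ ∑ k ∈ range (L + 1), C₀ * τ * N :=
          Finset.sum_le_sum fun k hk => hEk k (by rw [Finset.mem_range] at hk; omega)
      _ = (C₀ * ((L : ℝ) + 1)) * τ * N := by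
          rw [Finset.sum_const, card_range, nsmul_eq_mul]
          push_cast
          ring
      _ ≤ C * τ * N := by
          apply mul_le_mul_of_nonneg_right _ hN0
          exact mul_le_mul_of_nonneg_right (le_max_left _ _) hτ0.le
  · intro g hg hgE
    have hDk : ∀ k ≤ L, D k g ≤ τ := by
      intro k hk
      by_contra hcon
      push Not at hcon
      exact hgE (Finset.mem_biUnion.2 ⟨k, by rw [Finset.mem_range]; omega,
        Finset.mem_filter.2 ⟨hg, hcon⟩⟩)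
    refine ⟨fun k hk => hDk k (hk.trans (le_max_left _ _)), fun t => ?_⟩
    have hne : (PL K e).Nonempty := ⟨0, zero_mem_PL e⟩
    refine law _ (PL K e) (fun s => Zn h (g + s)) hne ?_ t
    intro k hk
    refine (hDk k (hk.trans (le_max_right _ _))).trans ?_
    have h11 := rpow_small hq (s := 24) (by norm_num) hK₁ (le_trans (le_max_right _ _) hh1)
    rw [hτ, neg_div]
    exact h11

end P4f18dfF
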