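import Pool.Agent.Lib.P4f18dfF.AW
import Pool.Agent.Lib.P4f18dfF.WinC

/-! Windows around `A u ^ p`: moments and law for the polynomials of a full window. -/

set_option autoImplicit false

namespace P4f18dfF
open Polynomial Finset ProbabilityTheory Pool.Agent.P4f18dfF Pool.Agent.P4f18dfT Pool.Agent.P4f18dfC

universe u

variable {K : Type u} [Field K] [Fintype K] [DecidableEq K]

/-- small windows -/
theorem windows_smallA (p : ℕ) [Fact p.Prime] [CharP K p] (hK : ringChar K ≠ 2) (k : ℕ) :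
    ∃ C : ℝ, 1 ≤ C ∧ ∀ (h e d m : ℕ) (A w : K[X]), A.Monic → w.Monic → m ≤ w.natDegree →
      C * h ≤ e → C * ((e : ℝ) + A.natDegree) ≤ d → C * d ≤ m →
      ∑ r₀ ∈ PL K d, ∑ v ∈ PL K m,
        |ex (PL K e) (fun s => Zn h (A * (w + v) ^ p + (r₀ + s)) ^ k) - gm k| ≤
        C * (Fintype.card K : ℝ) ^ ((m : ℝ) + d - (h : ℝ) / 12) := by
  obtain ⟨CJ, hCJ, hj⟩ := joint_sumA (K := K) p hK k
  obtain ⟨CQ, hCQ, hqu⟩ := quenchedA (K := K) p hK k
  have hCQ0 : 0 < CQ := hCQ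
  have hq1 := one_lt_q K
  have hg := gm_nonneg k
  set q : ℝ := (Fintype.card K : ℝ) with hq
  have hq0 : 0 < q := by linarith
  set C : ℝ := CJ + 2 * gm k * CQ + CQ with hC
  have hC1 : 1 ≤ C := by nlinarith [mul_nonneg hg hCQ0.le]
  have hxx : 0 ≤ 2 * gm k * CQ := by positivity
  refine ⟨C, hC1, fun h e d m A w hAm hw hwm he hd hm => ?_⟩
  have hh0 : (0 : ℝ) ≤ h := Nat.cast_nonneg _
  have he0 : (0 : ℝ) ≤ e := Nat.cast_nonneg _
  have hd0 : (0 : ℝ) ≤ d := Nat.cast_nonneg _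
  have ha0 : (0 : ℝ) ≤ A.natDegree := Nat.cast_nonneg _
  have hea0 : (0 : ℝ) ≤ (e : ℝ) + A.natDegree := by positivity
  have hha0 : (0 : ℝ) ≤ (h : ℝ) + A.natDegree := by positivity
  have hC_CJ : CJ ≤ C := by linarith
  have hC_CQ : CQ ≤ C := by linarith
  have g1 : CJ * h ≤ e := (mul_le_mul_of_nonneg_right hC_CJ hh0).trans he
  have g2 : CJ * ((e : ℝ) + A.natDegree) ≤ d := (mul_le_mul_of_nonneg_right hC_CJ hea0).trans hd
  have g3 : CJ * d ≤ m := (mul_le_mul_of_nonneg_right hC_CJ hd0).trans hm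
  have g4 : (h : ℝ) ≤ e := by nlinarith
  have g5 : (e : ℝ) ≤ d := by nlinarith
  have g7 : CQ * ((h : ℝ) + A.natDegree) ≤ d := by
    have : CQ * ((h : ℝ) + A.natDegree) ≤ C * ((e : ℝ) + A.natDegree) :=
      mul_le_mul hC_CQ (by linarith) hha0 (by linarith)
    linarith
  have g8 : CQ * d ≤ m := (mul_le_mul_of_nonneg_right hC_CQ hd0).trans hm
  have hed : e ≤ d := by exact_mod_cast g5
  set E : ℝ := q ^ ((d : ℝ) - (h : ℝ) / 6) with hE
  have hE0 : 0 < E := by positivity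
  have hqm : (0 : ℝ) < q ^ m := by positivity
  have b1 : |∑ r ∈ PL K d, ∑ v ∈ PL K m, (Zn h (A * (w + v) ^ p + r) ^ k - gm k)| ≤
      q ^ m * (CQ * E) := by
    have e1 : ∀ r, ∑ v ∈ PL K m, (Zn h (A * (w + v) ^ p + r) ^ k - gm k) =
        q ^ m * (ex (PL K m) (fun v => Zn h (A * (w + v) ^ p + r) ^ k) - gm k) := by
      intro r
      rw [Finset.sum_sub_distrib, sum_const, nsmul_eq_mul, cardPL_real, ex, cardPL_real, ← hq]
      field_simp
    simp_rw [e1]
    rw [← Finset.mul_sum, abs_mul, abs_of_pos hqm]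
    apply mul_le_mul_of_nonneg_left _ hqm.le
    exact (Finset.abs_sum_le_sum_abs _ _).trans (hqu h d m A w hAm hw hwm g7 g8)
  have b2 : ∑ r₁ ∈ PL K e, ∑ r₂ ∈ PL K e, |∑ r₀ ∈ PL K d, ∑ v ∈ PL K m,
      (Zn h (A * (w + v) ^ p + (r₀ + r₁)) ^ k * Zn h (A * (w + v) ^ p + (r₀ + r₂)) ^ k -
        gm k ^ 2)| ≤ q ^ m * (q ^ (2 * e) * (CJ * E)) := by
    have e1 : ∀ r₁ r₂ r₀, ∑ v ∈ PL K m,
        (Zn h (A * (w + v) ^ p + (r₀ + r₁)) ^ k * Zn h (A * (w + v) ^ p + (r₀ + r₂)) ^ k -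
          gm k ^ 2) =
        q ^ m * (ex (PL K m) (fun v => Zn h (A * (w + v) ^ p + (r₀ + r₁)) ^ k *
          Zn h (A * (w + v) ^ p + (r₀ + r₂)) ^ k) - gm k ^ 2) := by
      intro r₁ r₂ r₀
      rw [Finset.sum_sub_distrib, sum_const, nsmul_eq_mul, cardPL_real, ex, cardPL_real, ← hq]
      field_simp
    simp_rw [e1]
    simp_rw [← Finset.mul_sum, abs_mul, abs_of_pos hqm, ← Finset.mul_sum]
    apply mul_le_mul_of_nonneg_left _ hqm.le
    refine le_trans ?_ (hj h e d m A w hAm hw hwm g1 g2 g3)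
    exact Finset.sum_le_sum fun r₁ _ => Finset.sum_le_sum fun r₂ _ =>
      Finset.abs_sum_le_sum_abs _ _
  have key := window_cs (K := K) hed (fun v r => Zn h (A * (w + v) ^ p + r) ^ k) (gm k) _ _ b1 b2
  rw [← hq, abs_of_nonneg hg] at key
  have h5 : q ^ (d + m) * (q ^ m * (q ^ (2 * e) * (CJ * E)) / q ^ (2 * e) +
      2 * gm k * (q ^ m * (CQ * E))) ≤ (C * q ^ ((m : ℝ) + d - (h : ℝ) / 12)) ^ 2 := by
    have e6 : q ^ (d + m) * (q ^ m * (q ^ (2 * e) * (CJ * E)) / q ^ (2 * e) +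
        2 * gm k * (q ^ m * (CQ * E))) = (CJ + 2 * gm k * CQ) * (q ^ (d + m) * q ^ m * E) := by
      have : q ^ (2 * e) ≠ 0 := by positivity
      field_simp
    have e7 : q ^ (d + m) * q ^ m * E = (q ^ ((m : ℝ) + d - (h : ℝ) / 12)) ^ 2 := by
      rw [← pow_add, ← Real.rpow_natCast, hE, ← Real.rpow_add hq0, ← Real.rpow_natCast,
        ← Real.rpow_mul hq0.le]
      congr 1
      push_cast
      ring
    rw [e6, e7, mul_pow]
    apply mul_le_mul_of_nonneg_right _ (sq_nonneg _)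
    nlinarith
  exact (pow_le_pow_iff_left₀ (Finset.sum_nonneg fun _ _ => Finset.sum_nonneg fun _ _ => abs_nonneg _)
    (by positivity) two_ne_zero).1 (key.trans h5)

/-- the windows around `A u ^ p + r` -/
theorem windowsA (p : ℕ) [Fact p.Prime] [CharP K p] (hK : ringChar K ≠ 2) (k : ℕ) :
    ∃ C : ℝ, 1 ≤ C ∧ ∀ (h e d m : ℕ) (A w : K[X]), A.Monic → w.Monic → m ≤ w.natDegree → 1 ≤ h →
      C * h ≤ e → C * ((h : ℝ) + A.natDegree) ≤ (max d e : ℕ) → C * (max d e : ℕ) ≤ m →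
      ∑ r ∈ PL K d, ∑ v ∈ PL K m,
        |ex (PL K e) (fun s => Zn h (A * (w + v) ^ p + (r + s)) ^ k) - gm k| ≤
        C * (Fintype.card K : ℝ) ^ ((m : ℝ) + d - (h : ℝ) / 12) := by
  obtain ⟨C', hC', hw⟩ := windows_smallA (K := K) p hK k
  have hq1 := one_lt_q K
  set q : ℝ := (Fintype.card K : ℝ) with hq
  have hq0 : 0 < q := by linarith
  have hC'C : C' ≤ C' * (C' + 1) := by nlinarith
  refine ⟨C' * (C' + 1), by nlinarith, fun h e d m A w hAm hwm hwd hh1 he heA hem => ?_⟩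
  have hh0 : (0 : ℝ) ≤ h := Nat.cast_nonneg _
  have hh1' : (1 : ℝ) ≤ h := by exact_mod_cast hh1
  have he0 : (0 : ℝ) ≤ e := Nat.cast_nonneg _
  have ha0 : (0 : ℝ) ≤ A.natDegree := Nat.cast_nonneg _
  have hD0 : (0 : ℝ) ≤ ((max d e : ℕ) : ℝ) := Nat.cast_nonneg _
  set e₁ : ℕ := ⌈C' * h⌉₊ with he₁
  have k1 : C' * h ≤ e₁ := Nat.le_ceil _
  have k2 : (e₁ : ℝ) ≤ (C' + 1) * h := by
    have h2 := Nat.ceil_lt_add_one (a := C' * h) (by positivity)
    rw [← he₁] at h2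
    linarith
  have k3 : C' * ((e₁ : ℝ) + A.natDegree) ≤ ((max d e : ℕ) : ℝ) := by
    have h1 : C' * ((e₁ : ℝ) + A.natDegree) ≤ C' * ((C' + 1) * (h + A.natDegree)) := by
      apply mul_le_mul_of_nonneg_left _ (by linarith)
      nlinarith
    linarith
  have k4 : e₁ ≤ e := by
    have : (e₁ : ℝ) ≤ e := by
      have h0 : (0 : ℝ) ≤ e₁ := Nat.cast_nonneg _
      nlinarith
    exact_mod_cast this
  have hD1 : C' * ((max d e : ℕ) : ℝ) ≤ m := (mul_le_mul_of_nonneg_right hC'C hD0).trans hem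
  have h1 := hw h e₁ (max d e) m A w hAm hwm hwd k1 k3 hD1
  have h2 := (tile (K := K) (m := m) k4 (le_max_right d e)
    (fun v r => Zn h (A * (w + v) ^ p + r) ^ k) (gm k)).trans h1
  rcases le_total e d with hed | hde
  · rw [max_eq_left hed] at h2
    refine h2.trans ?_
    exact mul_le_mul_of_nonneg_right hC'C (Real.rpow_nonneg hq0.le _)
  · rw [max_eq_right hde] at h2
    have h3 : ∀ r₀ ∈ PL K e, ∑ v ∈ PL K m,
        |ex (PL K e) (fun s => Zn h (A * (w + v) ^ p + (r₀ + s)) ^ k) - gm k| =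
        ∑ v ∈ PL K m, |ex (PL K e) (fun s => Zn h (A * (w + v) ^ p + s) ^ k) - gm k| := by
      intro r₀ hr₀
      refine Finset.sum_congr rfl fun v _ => ?_
      rw [ex_translate (fun s => Zn h (A * (w + v) ^ p + s) ^ k) hr₀]
    rw [Finset.sum_congr rfl h3, sum_const, nsmul_eq_mul, cardPL_real, ← hq] at h2
    rw [Finset.sum_congr rfl fun r₀ hr₀ => h3 r₀ (PL_mono hde hr₀), sum_const, nsmul_eq_mul,
      cardPL_real, ← hq]
    set Y : ℝ := ∑ v ∈ PL K m, |ex (PL K e) (fun s => Zn h (A * (w + v) ^ p + s) ^ k) - gm k|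
      with hY
    have h4 : Y ≤ C' * q ^ ((m : ℝ) - (h : ℝ) / 12) := by
      have h5 : q ^ e * Y ≤ q ^ e * (C' * q ^ ((m : ℝ) - (h : ℝ) / 12)) := by
        refine h2.trans (le_of_eq ?_)
        rw [mul_left_comm, ← Real.rpow_natCast q e, ← Real.rpow_add hq0]
        congr 2
        ring
      exact le_of_mul_le_mul_left h5 (by positivity)
    calc q ^ d * Y ≤ q ^ d * (C' * q ^ ((m : ℝ) - (h : ℝ) / 12)) :=
          mul_le_mul_of_nonneg_left h4 (by positivity)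
      _ = C' * q ^ ((m : ℝ) + d - (h : ℝ) / 12) := by
          rw [mul_left_comm, ← Real.rpow_natCast q d, ← Real.rpow_add hq0]
          congr 2
          ring
      _ ≤ _ := mul_le_mul_of_nonneg_right hC'C (Real.rpow_nonneg hq0.le _)

/-- all `k ≤ k₀` with one constant -/
theorem windowsA_all (p : ℕ) [Fact p.Prime] [CharP K p] (hK : ringChar K ≠ 2) (k₀ : ℕ) :
    ∃ C : ℝ, 1 ≤ C ∧ ∀ k ≤ k₀, ∀ (h e d m : ℕ) (A w : K[X]), A.Monic → w.Monic →
      m ≤ w.natDegree → 1 ≤ h → C * h ≤ e → C * ((h : ℝ) + A.natDegree) ≤ (max d e : ℕ) →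
      C * (max d e : ℕ) ≤ m →
      ∑ r ∈ PL K d, ∑ v ∈ PL K m,
        |ex (PL K e) (fun s => Zn h (A * (w + v) ^ p + (r + s)) ^ k) - gm k| ≤
        C * (Fintype.card K : ℝ) ^ ((m : ℝ) + d - (h : ℝ) / 12) := by
  have hq := one_lt_q K
  have hmono : ∀ A B : ℝ, A ≤ B → ∀ m d h : ℕ,
      A * (Fintype.card K : ℝ) ^ ((m : ℝ) + d - (h : ℝ) / 12) ≤
        B * (Fintype.card K : ℝ) ^ ((m : ℝ) + d - (h : ℝ) / 12) := fun A B hAB m d h =>
    mul_le_mul_of_nonneg_right hAB (Real.rpow_nonneg (by linarith) _)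
  induction k₀ with
  | zero =>
    obtain ⟨C, hC, h⟩ := windowsA (K := K) p hK 0
    refine ⟨C, hC, fun k hk => ?_⟩
    obtain rfl : k = 0 := by omega
    exact h
  | succ n ih =>
    obtain ⟨C, hC, h⟩ := ih
    obtain ⟨C', hC', h'⟩ := windowsA (K := K) p hK (n + 1)
    refine ⟨max C C', le_max_of_le_left hC, fun k hk h₁ e d m A w hA hw hwm hh e0 e1 e2 => ?_⟩
    have hhh : (0 : ℝ) ≤ (h₁ : ℝ) := Nat.cast_nonneg _
    have hh0 : (0 : ℝ) ≤ (h₁ : ℝ) + A.natDegree := by positivity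
    have he0 : (0 : ℝ) ≤ ((max d e : ℕ) : ℝ) := Nat.cast_nonneg _
    rcases Nat.lt_or_ge k (n + 1) with hk' | hk'
    · exact (h k (by omega) h₁ e d m A w hA hw hwm hh
        ((mul_le_mul_of_nonneg_right (le_max_left _ _) hhh).trans e0)
        ((mul_le_mul_of_nonneg_right (le_max_left _ _) hh0).trans e1)
        ((mul_le_mul_of_nonneg_right (le_max_left _ _) he0).trans e2)).trans
        (hmono _ _ (le_max_left _ _) _ _ _)
    · obtain rfl : k = n + 1 := by omega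
      exact (h' h₁ e d m A w hA hw hwm hh
        ((mul_le_mul_of_nonneg_right (le_max_right _ _) hhh).trans e0)
        ((mul_le_mul_of_nonneg_right (le_max_right _ _) hh0).trans e1)
        ((mul_le_mul_of_nonneg_right (le_max_right _ _) he0).trans e2)).trans
        (hmono _ _ (le_max_right _ _) _ _ _)

/-- moments and law in almost all windows around `A u ^ p + r`, `u` in any interval -/
theorem windowsA_law (p : ℕ) [Fact p.Prime] [CharP K p] (hK : ringChar K ≠ 2) (δ : ℝ)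
    (hδ : 0 < δ) (k₀ : ℕ) :
    ∃ C : ℝ, 1 ≤ C ∧ ∀ (h e d m : ℕ) (A w : K[X]), A.Monic → w.Monic → m ≤ w.natDegree →
      C ≤ h → C * h ≤ e → C * ((h : ℝ) + A.natDegree) ≤ (max d e : ℕ) →
      C * (max d e : ℕ) ≤ m →
      ∃ E ⊆ PL K m ×ˢ PL K d,
      (E.card : ℝ) ≤ C * (Fintype.card K : ℝ) ^ ((m : ℝ) + d - (h : ℝ) / 24) ∧
      ∀ v ∈ PL K m, ∀ r ∈ PL K d, (v, r) ∉ E →
        (∀ k ≤ k₀, |ex (PL K e) (fun s => Zn h (A * (w + v) ^ p + (r + s)) ^ k) - gm k| ≤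
          (Fintype.card K : ℝ) ^ (-(h : ℝ) / 24)) ∧
        ∀ t : ℝ, |(((PL K e).filter (fun s => Zn h (A * (w + v) ^ p + (r + s)) ≤ t)).card : ℝ) /
          (PL K e).card - cdf (gaussianReal 0 1) t| ≤ δ := by
  classical
  have hq := one_lt_q K
  set q : ℝ := (Fintype.card K : ℝ) with hqdef
  have hq0 : 0 < q := by linarith
  obtain ⟨K₁, hK₁, law⟩ := law_of_mom δ hδ
  set L := max k₀ K₁ with hL
  obtain ⟨C₀, hC₀, h4⟩ := windowsA_all (K := K) p hK L
  have hC₀0 : 0 < C₀ := by linarith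
  set C : ℝ := max (C₀ * (L + 1)) (24 * (Real.log K₁ / Real.log q)) with hC
  have hL1 : (1 : ℝ) ≤ L + 1 := by
    have : (0 : ℝ) ≤ L := Nat.cast_nonneg _
    linarith
  have hC2 : C₀ ≤ C := by
    refine le_trans ?_ (le_max_left _ _)
    nlinarith
  have hC1 : 1 ≤ C := by linarith
  have hC0 : 0 < C := by linarith
  refine ⟨C, hC1, fun h e d m A w hAm hw hwm hh1 hh2 hh3 hh4 => ?_⟩
  have hh0 : (0 : ℝ) ≤ h := Nat.cast_nonneg _
  have hD0 : (0 : ℝ) ≤ ((max d e : ℕ) : ℝ) := Nat.cast_nonneg _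
  have hha0 : (0 : ℝ) ≤ (h : ℝ) + A.natDegree := by positivity
  have hh1n : 1 ≤ h := by
    have : (1 : ℝ) ≤ h := hC1.trans hh1
    exact_mod_cast this
  have g0 : C₀ * (h : ℝ) ≤ e := (mul_le_mul_of_nonneg_right hC2 hh0).trans hh2
  have g1 : C₀ * ((h : ℝ) + A.natDegree) ≤ (max d e : ℕ) :=
    (mul_le_mul_of_nonneg_right hC2 hha0).trans hh3
  have g2 : C₀ * (max d e : ℕ) ≤ m := (mul_le_mul_of_nonneg_right hC2 hD0).trans hh4
  set τ : ℝ := q ^ (-(h : ℝ) / 24) with hτ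
  have hτ0 : 0 < τ := Real.rpow_pos_of_pos hq0 _
  set D : ℕ → K[X] × K[X] → ℝ :=
    fun k x => |ex (PL K e) (fun s => Zn h (A * (w + x.1) ^ p + (x.2 + s)) ^ k) - gm k| with hD
  set N : ℝ := q ^ ((m : ℝ) + d - (h : ℝ) / 24) with hN
  have hN0 : 0 ≤ N := Real.rpow_nonneg hq0.le _
  set W : Finset (K[X] × K[X]) := PL K m ×ˢ PL K d with hW
  set E : Finset (K[X] × K[X]) := (range (L + 1)).biUnion
    (fun k => W.filter (fun g => τ < D k g)) with hE
  have hEk : ∀ k ≤ L, ((W.filter (fun g => τ < D k g)).card : ℝ) ≤ C₀ * N := by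
    intro k hk
    have h5 := h4 k hk h e d m A w hAm hw hwm hh1n g0 g1 g2
    have h5' : ∑ x ∈ W, D k x ≤ C₀ * q ^ ((m : ℝ) + d - (h : ℝ) / 12) := by
      rw [hW, Finset.sum_product, Finset.sum_comm]
      exact h5
    have h6 : ((W.filter (fun g => τ < D k g)).card : ℝ) * τ ≤ ∑ g ∈ W, D k g := by
      have h7 : ∑ g ∈ W.filter (fun g => τ < D k g), τ ≤ ∑ g ∈ W.filter (fun g => τ < D k g), D k g :=
        Finset.sum_le_sum fun r hr => (Finset.mem_filter.1 hr).2.le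
      have h8 : ∑ g ∈ W.filter (fun g => τ < D k g), D k g ≤ ∑ g ∈ W, D k g :=
        Finset.sum_le_sum_of_subset_of_nonneg (Finset.filter_subset _ _) fun r _ _ => abs_nonneg _
      rw [Finset.sum_const, nsmul_eq_mul] at h7
      exact h7.trans h8
    have h9 : ((W.filter (fun g => τ < D k g)).card : ℝ) * τ ≤ (C₀ * N) * τ := by
      refine h6.trans (h5'.trans (le_of_eq ?_))
      have h10 : q ^ ((m : ℝ) + d - (h : ℝ) / 12) = N * τ := by
        rw [hτ, hN, ← Real.rpow_add hq0]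
        congr 1
        ring
      rw [h10]
      ring
    exact le_of_mul_le_mul_right h9 hτ0
  refine ⟨E, ?_, ?_, ?_⟩
  · intro g hg
    rw [hE, Finset.mem_biUnion] at hg
    obtain ⟨k, -, hk⟩ := hg
    exact (Finset.mem_filter.1 hk).1
  · calc (E.card : ℝ) ≤ ∑ k ∈ range (L + 1), ((W.filter (fun g => τ < D k g)).card : ℝ) := by
          rw [hE]
          exact_mod_cast Finset.card_biUnion_le
      _ ≤ ∑ k ∈ range (L + 1), C₀ * N :=
          Finset.sum_le_sum fun k hk => hEk k (by rw [Finset.mem_range] at hk; omega)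
      _ = (C₀ * ((L : ℝ) + 1)) * N := by
          rw [Finset.sum_const, card_range, nsmul_eq_mul]
          push_cast
          ring
      _ ≤ C * N := mul_le_mul_of_nonneg_right (le_max_left _ _) hN0
  · intro v hv r hr hgE
    have hDk : ∀ k ≤ L, D k (v, r) ≤ τ := by
      intro k hk
      by_contra hcon
      push Not at hcon
      exact hgE (Finset.mem_biUnion.2 ⟨k, by rw [Finset.mem_range]; omega,
        Finset.mem_filter.2 ⟨Finset.mem_product.2 ⟨hv, hr⟩, hcon⟩⟩)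
    refine ⟨fun k hk => hDk k (hk.trans (le_max_left _ _)), fun t => ?_⟩
    have hne : (PL K e).Nonempty := ⟨0, zero_mem_PL e⟩
    refine law _ (PL K e) (fun s => Zn h (A * (w + v) ^ p + (r + s))) hne ?_ t
    intro k hk
    refine (hDk k (hk.trans (le_max_right _ _))).trans ?_
    have h11 := rpow_small hq (s := 24) (by norm_num) hK₁ (le_trans (le_max_right _ _) hh1)
    rw [hτ, neg_div]
    exact h11

/-- all `k ≤ k₀` with one constant -/
theorem quenchedA_all (p : ℕ) [Fact p.Prime] [CharP K p] (hK : ringChar K ≠ 2) (k₀ : ℕ) :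
    ∃ C : ℝ, 1 ≤ C ∧ ∀ k ≤ k₀, ∀ (h d m : ℕ) (A w : K[X]), A.Monic → w.Monic → m ≤ w.natDegree →
      C * ((h : ℝ) + A.natDegree) ≤ d → C * d ≤ m →
      ∑ r ∈ PL K d, |ex (PL K m) (fun v => Zn h (A * (w + v) ^ p + r) ^ k) - gm k| ≤
        C * (Fintype.card K : ℝ) ^ ((d : ℝ) - (h : ℝ) / 6) := by
  have hq := one_lt_q K
  have hmono : ∀ A B : ℝ, A ≤ B → ∀ h d : ℕ,
      A * (Fintype.card K : ℝ) ^ ((d : ℝ) - (h : ℝ) / 6) ≤
        B * (Fintype.card K : ℝ) ^ ((d : ℝ) - (h : ℝ) / 6) := fun A B hAB h d =>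
    mul_le_mul_of_nonneg_right hAB (Real.rpow_nonneg (by linarith) _)
  induction k₀ with
  | zero =>
    obtain ⟨C, hC, h⟩ := quenchedA (K := K) p hK 0
    refine ⟨max C 1, le_max_right _ _, fun k hk h₁ d m A w hA hw hwm e1 e2 => ?_⟩
    obtain rfl : k = 0 := by omega
    have hh0 : (0 : ℝ) ≤ (h₁ : ℝ) + A.natDegree := by positivity
    have hd0 : (0 : ℝ) ≤ d := Nat.cast_nonneg _
    exact (h h₁ d m A w hA hw hwm
      ((mul_le_mul_of_nonneg_right (le_max_left _ _) hh0).trans e1)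
      ((mul_le_mul_of_nonneg_right (le_max_left _ _) hd0).trans e2)).trans
      (hmono _ _ (le_max_left _ _) _ _)
  | succ n ih =>
    obtain ⟨C, hC, h⟩ := ih
    obtain ⟨C', hC', h'⟩ := quenchedA (K := K) p hK (n + 1)
    refine ⟨max C C', le_max_of_le_left hC, fun k hk h₁ d m A w hA hw hwm e1 e2 => ?_⟩
    have hh0 : (0 : ℝ) ≤ (h₁ : ℝ) + A.natDegree := by positivity
    have hd0 : (0 : ℝ) ≤ d := Nat.cast_nonneg _
    rcases Nat.lt_or_ge k (n + 1) with hk' | hk'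
    · exact (h k (by omega) h₁ d m A w hA hw hwm
        ((mul_le_mul_of_nonneg_right (le_max_left _ _) hh0).trans e1)
        ((mul_le_mul_of_nonneg_right (le_max_left _ _) hd0).trans e2)).trans
        (hmono _ _ (le_max_left _ _) _ _)
    · obtain rfl : k = n + 1 := by omega
      exact (h' h₁ d m A w hA hw hwm
        ((mul_le_mul_of_nonneg_right (le_max_right _ _) hh0).trans e1)
        ((mul_le_mul_of_nonneg_right (le_max_right _ _) hd0).trans e2)).trans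
        (hmono _ _ (le_max_right _ _) _ _)

/-- one remainder: moments and law over `u` alone, `u` in any interval -/
theorem quenchedA_law (p : ℕ) [Fact p.Prime] [CharP K p] (hK : ringChar K ≠ 2) (δ : ℝ)
    (hδ : 0 < δ) (k₀ : ℕ) :
    ∃ C : ℝ, 1 ≤ C ∧ ∀ (h d m : ℕ) (A w : K[X]), A.Monic → w.Monic → m ≤ w.natDegree →
      C ≤ h → C * ((h : ℝ) + A.natDegree) ≤ d → C * d ≤ m →
      ∃ E ⊆ PL K d, (E.card : ℝ) ≤ C * (Fintype.card K : ℝ) ^ ((d : ℝ) - (h : ℝ) / 12) ∧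
      ∀ r ∈ PL K d, r ∉ E →
        (∀ k ≤ k₀, |ex (PL K m) (fun v => Zn h (A * (w + v) ^ p + r) ^ k) - gm k| ≤
          (Fintype.card K : ℝ) ^ (-(h : ℝ) / 12)) ∧
        ∀ t : ℝ, |(((PL K m).filter (fun v => Zn h (A * (w + v) ^ p + r) ≤ t)).card : ℝ) /
          (PL K m).card - cdf (gaussianReal 0 1) t| ≤ δ := by
  classical
  have hq := one_lt_q K
  set q : ℝ := (Fintype.card K : ℝ) with hqdef
  have hq0 : 0 < q := by linarith
  obtain ⟨K₁, hK₁, law⟩ := law_of_mom δ hδ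
  set L := max k₀ K₁ with hL
  obtain ⟨C₀, hC₀, h4⟩ := quenchedA_all (K := K) p hK L
  have hC₀0 : 0 < C₀ := by linarith
  set C : ℝ := max (C₀ * (L + 1)) (12 * (Real.log K₁ / Real.log q)) with hC
  have hL1 : (1 : ℝ) ≤ L + 1 := by
    have : (0 : ℝ) ≤ L := Nat.cast_nonneg _
    linarith
  have hC2 : C₀ ≤ C := by
    refine le_trans ?_ (le_max_left _ _)
    nlinarith
  have hC1 : 1 ≤ C := by linarith
  have hC0 : 0 < C := by linarith
  refine ⟨C, hC1, fun h d m A w hAm hw hwm hh1 hh2 hh3 => ?_⟩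
  have hh0 : (0 : ℝ) ≤ h := Nat.cast_nonneg _
  have hd0 : (0 : ℝ) ≤ d := Nat.cast_nonneg _
  have hha0 : (0 : ℝ) ≤ (h : ℝ) + A.natDegree := by positivity
  have g1 : C₀ * ((h : ℝ) + A.natDegree) ≤ d := (mul_le_mul_of_nonneg_right hC2 hha0).trans hh2
  have g2 : C₀ * d ≤ m := (mul_le_mul_of_nonneg_right hC2 hd0).trans hh3
  set τ : ℝ := q ^ (-(h : ℝ) / 12) with hτ
  have hτ0 : 0 < τ := Real.rpow_pos_of_pos hq0 _
  set D : ℕ → K[X] → ℝ :=
    fun k r => |ex (PL K m) (fun v => Zn h (A * (w + v) ^ p + r) ^ k) - gm k| with hD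
  set N : ℝ := q ^ ((d : ℝ) - (h : ℝ) / 12) with hN
  have hN0 : 0 ≤ N := Real.rpow_nonneg hq0.le _
  set E : Finset K[X] := (range (L + 1)).biUnion
    (fun k => (PL K d).filter (fun g => τ < D k g)) with hE
  have hEk : ∀ k ≤ L, (((PL K d).filter (fun g => τ < D k g)).card : ℝ) ≤ C₀ * N := by
    intro k hk
    have h5 := h4 k hk h d m A w hAm hw hwm g1 g2
    have h6 : (((PL K d).filter (fun g => τ < D k g)).card : ℝ) * τ ≤
        ∑ g ∈ PL K d, D k g := by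
      have h7 : ∑ g ∈ (PL K d).filter (fun g => τ < D k g), τ ≤
          ∑ g ∈ (PL K d).filter (fun g => τ < D k g), D k g :=
        Finset.sum_le_sum fun r hr => (Finset.mem_filter.1 hr).2.le
      have h8 : ∑ g ∈ (PL K d).filter (fun g => τ < D k g), D k g ≤ ∑ g ∈ PL K d, D k g :=
        Finset.sum_le_sum_of_subset_of_nonneg (Finset.filter_subset _ _) fun r _ _ => abs_nonneg _
      rw [Finset.sum_const, nsmul_eq_mul] at h7
      exact h7.trans h8
    have h9 : (((PL K d).filter (fun g => τ < D k g)).card : ℝ) * τ ≤ (C₀ * N) * τ := by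
      refine h6.trans (h5.trans (le_of_eq ?_))
      have h10 : q ^ ((d : ℝ) - (h : ℝ) / 6) = N * τ := by
        rw [hτ, hN, ← Real.rpow_add hq0]
        congr 1
        ring
      rw [h10]
      ring
    exact le_of_mul_le_mul_right h9 hτ0
  refine ⟨E, ?_, ?_, ?_⟩
  · intro g hg
    rw [hE, Finset.mem_biUnion] at hg
    obtain ⟨k, -, hk⟩ := hg
    exact (Finset.mem_filter.1 hk).1
  · calc (E.card : ℝ) ≤ ∑ k ∈ range (L + 1), (((PL K d).filter (fun g => τ < D k g)).card : ℝ) := by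
          rw [hE]
          exact_mod_cast Finset.card_biUnion_le
      _ ≤ ∑ k ∈ range (L + 1), C₀ * N :=
          Finset.sum_le_sum fun k hk => hEk k (by rw [Finset.mem_range] at hk; omega)
      _ = (C₀ * ((L : ℝ) + 1)) * N := by
          rw [Finset.sum_const, card_range, nsmul_eq_mul]
          push_cast
          ring
      _ ≤ C * N := mul_le_mul_of_nonneg_right (le_max_left _ _) hN0
  · intro g hg hgE
    have hDk : ∀ k ≤ L, D k g ≤ τ := by
      intro k hk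
      by_contra hcon
      push Not at hcon
      exact hgE (Finset.mem_biUnion.2 ⟨k, by rw [Finset.mem_range]; omega,
        Finset.mem_filter.2 ⟨hg, hcon⟩⟩)
    refine ⟨fun k hk => hDk k (hk.trans (le_max_left _ _)), fun t => ?_⟩
    have hne : (PL K m).Nonempty := ⟨0, zero_mem_PL m⟩
    refine law _ (PL K m) (fun v => Zn h (A * (w + v) ^ p + g)) hne ?_ t
    intro k hk
    refine (hDk k (hk.trans (le_max_right _ _))).trans ?_
    have h11 := rpow_small hq (s := 12) (by norm_num) hK₁ (le_trans (le_max_right _ _) hh1)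
    rw [hτ, neg_div]
    exact h11

end P4f18dfF
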