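import Pool.Agent.Lib.P4f18dfF.Pellet

/-! Complete sums of Jacobi symbols over residue systems. -/

namespace P4f18dfF
open Polynomial Finset

section PL
variable {K : Type*} [Field K] [Fintype K]

lemma finite_degLT (n : ℕ) : {f : K[X] | f.degree < n}.Finite := by
  have : Finite (degreeLT K n) := Finite.of_equiv _ (degreeLTEquiv K n).toEquiv.symm
  have h : {f : K[X] | f.degree < n} = (degreeLT K n : Set K[X]) := by
    ext f; simp [mem_degreeLT]
  rw [h]
  exact Set.toFinite _

/-- the polynomials of degree < n -/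
noncomputable def PL (K : Type*) [Field K] [Fintype K] (n : ℕ) : Finset K[X] :=
  (finite_degLT (K := K) n).toFinset

@[simp] lemma mem_PL {n : ℕ} {f : K[X]} : f ∈ PL K n ↔ f.degree < n := by
  simp [PL]

lemma card_PL (n : ℕ) : (PL K n).card = Fintype.card K ^ n := by
  have h1 : (PL K n).card = Nat.card (degreeLT K n) := by
    rw [PL, ← Set.ncard_eq_toFinset_card _ (finite_degLT n), Set.ncard_def]
    have h : {f : K[X] | f.degree < n} = (degreeLT K n : Set K[X]) := by
      ext f; simp [mem_degreeLT]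
    rw [h]; rfl
  rw [h1, Nat.card_congr (degreeLTEquiv K n).toEquiv]
  simp

lemma zero_mem_PL (n : ℕ) : (0 : K[X]) ∈ PL K n := by
  simp [bot_lt_iff_ne_bot]

lemma add_mem_PL {n : ℕ} {f g : K[X]} (hf : f ∈ PL K n) (hg : g ∈ PL K n) : f + g ∈ PL K n := by
  rw [mem_PL] at *
  exact (degree_add_le _ _).trans_lt (max_lt hf hg)

lemma neg_mem_PL {n : ℕ} {f : K[X]} (hf : f ∈ PL K n) : -f ∈ PL K n := by
  rw [mem_PL] at *
  rwa [degree_neg]

lemma PL_mono {m n : ℕ} (h : m ≤ n) {f : K[X]} (hf : f ∈ PL K m) : f ∈ PL K n := by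
  rw [mem_PL] at *
  exact hf.trans_le (by exact_mod_cast h)

lemma mul_mem_PL {m n : ℕ} {N f : K[X]} (hN : N.natDegree + m ≤ n) (hf : f ∈ PL K m) :
    N * f ∈ PL K n := by
  rw [mem_PL] at *
  rcases eq_or_ne f 0 with rfl | hf0
  · simp [bot_lt_iff_ne_bot]
  rcases eq_or_ne N 0 with rfl | hN0
  · simp [bot_lt_iff_ne_bot]
  rw [degree_mul, degree_eq_natDegree hf0, degree_eq_natDegree hN0] at *
  have : f.natDegree < m := by exact_mod_cast hf
  exact_mod_cast (by omega : N.natDegree + f.natDegree < n)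

/-- translation invariance -/
lemma sum_PL_add {M : Type*} [AddCommMonoid M] (n : ℕ) (f : K[X] → M) {w : K[X]}
    (hw : w ∈ PL K n) : ∑ v ∈ PL K n, f (v + w) = ∑ v ∈ PL K n, f v := by
  refine Finset.sum_bij' (fun v _ => v + w) (fun v _ => v + -w) ?_ ?_ ?_ ?_ ?_
  · intro v hv; exact add_mem_PL hv hw
  · intro v hv; exact add_mem_PL hv (neg_mem_PL hw)
  · intro v hv; ring
  · intro v hv; ring
  · intro v hv; rfl

/-- division by a monic polynomial -/
lemma sum_PL_split {M : Type*} [AddCommMonoid M] {B : K[X]} (hB : B.Monic) (m : ℕ)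
    (f : K[X] → M) : ∑ t ∈ PL K (B.natDegree + m), f t =
      ∑ x ∈ PL K B.natDegree ×ˢ PL K m, f (x.1 + B * x.2) := by
  refine Finset.sum_bij' (fun t _ => (t %ₘ B, t /ₘ B)) (fun x _ => x.1 + B * x.2) ?_ ?_ ?_ ?_ ?_
  · intro t ht
    rw [mem_product]
    refine ⟨?_, ?_⟩
    · rw [mem_PL]
      have := degree_modByMonic_lt t hB
      rwa [degree_eq_natDegree hB.ne_zero] at this
    · rw [mem_PL] at *
      rcases eq_or_ne (t /ₘ B) 0 with h | h
      · simp [h, bot_lt_iff_ne_bot]
      · have h1 : (t /ₘ B).natDegree = t.natDegree - B.natDegree := natDegree_divByMonic t hB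
        have ht0 : t ≠ 0 := by rintro rfl; simp at h
        have h2 : t.natDegree < B.natDegree + m := by
          rw [degree_eq_natDegree ht0] at ht; exact_mod_cast ht
        have h3 : B.natDegree ≤ t.natDegree := by
          by_contra hc
          apply h
          rw [divByMonic_eq_zero_iff hB]
          exact degree_lt_degree (by omega)
        rw [degree_eq_natDegree h]
        exact_mod_cast (by omega : (t /ₘ B).natDegree < m)
  · intro x hx
    rw [mem_product] at hx
    exact add_mem_PL (PL_mono (by omega) hx.1) (mul_mem_PL le_rfl hx.2)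
  · intro t ht
    exact modByMonic_add_div t B
  · intro x hx
    rw [mem_product, mem_PL] at hx
    have hd : x.1.degree < B.degree := by
      rw [degree_eq_natDegree hB.ne_zero]; exact hx.1
    have := div_modByMonic_unique (f := x.1 + B * x.2) (g := B) x.2 x.1 hB ⟨by ring, hd⟩
    exact Prod.ext this.2 this.1
  · intro t ht
    rw [modByMonic_add_div t B]

end PL
end P4f18dfF
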