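import Pool.Agent.Lib.P4f18dfF.JIrr

/-! Averages of products of Jacobi symbols over long intervals of polynomials. -/

namespace P4f18dfF
open Polynomial Finset

variable {K : Type*} [Field K] [Fintype K] [DecidableEq K]

/-- monic, irreducible, no multiplicities -/
def Fac (s : Multiset K[X]) : Prop := (∀ P ∈ s, Irreducible P ∧ P.Monic) ∧ s.Nodup

omit [Fintype K] [DecidableEq K] in
lemma Fac.monic {s : Multiset K[X]} (hs : Fac s) : s.prod.Monic := by
  simpa using monic_multiset_prod_of_monic s id (fun Q hQ => (hs.1 Q hQ).2)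

omit [Fintype K] [DecidableEq K] in
lemma Fac.tail {P : K[X]} {s : Multiset K[X]} (hs : Fac (P ::ₘ s)) :
    Irreducible P ∧ P.Monic ∧ Fac s ∧ ¬ P ∣ s.prod := by
  have hn := Multiset.nodup_cons.1 hs.2
  have hP := hs.1 P (Multiset.mem_cons_self _ _)
  have hs' : ∀ Q ∈ s, Irreducible Q ∧ Q.Monic := fun Q hQ => hs.1 Q (Multiset.mem_cons_of_mem hQ)
  refine ⟨hP.1, hP.2, ⟨hs', hn.2⟩, ?_⟩
  intro hd
  obtain ⟨Q, hQ, hPQ⟩ := Prime.exists_mem_multiset_dvd hP.1.prime hd
  have : P = Q := eq_of_monic_of_associated hP.2 (hs' Q hQ).2 (hP.1.associated_of_dvd (hs' Q hQ).1 hPQ)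
  exact hn.1 (this ▸ hQ)

variable (p : ℕ) [Fact p.Prime] [CharP K p]

omit [Fintype K] [DecidableEq K] in
lemma dvd_shift {B : K[X]} (v N t' t'' s b : K[X]) :
    B ∣ ((v + N * (t' + B * t'') + s) ^ p + b) - ((v + N * t' + s) ^ p + b) := by
  have h1 : (v + N * (t' + B * t'') + s) - (v + N * t' + s) ∣
      (v + N * (t' + B * t'') + s) ^ p - (v + N * t' + s) ^ p := sub_dvd_pow_sub_pow _ _ _
  refine dvd_trans ?_ (by simpa using h1)
  exact ⟨N * t'', by ring⟩

lemma sum_J_double_prod (hK : ringChar K ≠ 2) (s : Multiset K[X]) (hs : Fac s)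
    {δ : K[X]} (hδ : ∀ P ∈ s, ¬ P ∣ δ) (b : K[X]) :
    ∀ (N : K[X]) (_ : ∀ P ∈ s, ¬ P ∣ N) (v : K[X]),
    ∑ t ∈ PL K s.prod.natDegree,
      J s.prod ((v + N * t) ^ p + b) * J s.prod ((v + N * t + δ) ^ p + b) =
        (-1) ^ Multiset.card s := by
  induction s using Multiset.induction with
  | empty =>
    intro N _ v
    simp only [Multiset.prod_zero, natDegree_one, J_one_left, mul_one, sum_const, card_PL,
      pow_zero, one_smul, Multiset.card_zero]
  | cons P s ih =>
    intro N hN v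
    obtain ⟨hirr, hP, hs', hPs⟩ := hs.tail
    have hB := hs'.monic
    set B := s.prod with hBdef
    have ih' := ih hs' (fun Q hQ => hδ Q (Multiset.mem_cons_of_mem hQ)) N
      (fun Q hQ => hN Q (Multiset.mem_cons_of_mem hQ)) v
    have hPN : ¬ P ∣ N * B := by
      rw [hirr.prime.dvd_mul]
      exact not_or.2 ⟨hN P (Multiset.mem_cons_self _ _), hPs⟩
    rw [Multiset.prod_cons, hP.natDegree_mul hB, add_comm P.natDegree, sum_PL_split hB,
      Finset.sum_product, Multiset.card_cons, pow_succ, ← ih', Finset.sum_mul]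
    refine Finset.sum_congr rfl fun t' _ => ?_
    have h1 : ∀ t'' ∈ PL K P.natDegree,
        J (P * B) ((v + N * (t' + B * t'')) ^ p + b) * J (P * B) ((v + N * (t' + B * t'') + δ) ^ p + b)
        = (J B ((v + N * t') ^ p + b) * J B ((v + N * t' + δ) ^ p + b)) *
          (J P (((v + N * t') + (N * B) * t'') ^ p + b) *
            J P (((v + N * t') + (N * B) * t'' + δ) ^ p + b)) := by
      intro t'' _
      rw [J_mul_left hP hB, J_mul_left hP hB]
      have e0 := J_congr hB (dvd_shift p (B := B) v N t' t'' 0 b)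
      simp only [add_zero] at e0
      have e1 := J_congr hB (dvd_shift p (B := B) v N t' t'' δ b)
      rw [e0, e1]
      have e2 : v + N * (t' + B * t'') = (v + N * t') + (N * B) * t'' := by ring
      rw [e2]
      ring
    rw [Finset.sum_congr rfl h1, ← Finset.mul_sum,
      sum_J_double p hK hP hirr hPN (v + N * t') b (hδ P (Multiset.mem_cons_self _ _))]

/-- a product of a function of u mod N with a singly occurring prime averages to 0 -/
lemma sum_single_eq_zero (hK : ringChar K ≠ 2) {P N : K[X]} (hP : P.Monic) (hirr : Irreducible P)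
    (hN : ¬ P ∣ N) {m : ℕ} (hm : N.natDegree + P.natDegree ≤ m) (g : K[X] → ℝ)
    (hg : ∀ v t, g (v + N * t) = g v) (w b : K[X]) :
    ∑ v ∈ PL K m, g v * (J P ((v + w) ^ p + b) : ℝ) = 0 := by
  have hq : (0 : ℝ) < (Fintype.card K : ℝ) ^ P.natDegree := by
    have := Fintype.card_pos (α := K); positivity
  have key : (Fintype.card K : ℝ) ^ P.natDegree * ∑ v ∈ PL K m, g v * (J P ((v + w) ^ p + b) : ℝ)
      = 0 := by
    calc (Fintype.card K : ℝ) ^ P.natDegree * ∑ v ∈ PL K m, g v * (J P ((v + w) ^ p + b) : ℝ)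
        = ∑ t ∈ PL K P.natDegree, ∑ v ∈ PL K m, g v * (J P ((v + w) ^ p + b) : ℝ) := by
          rw [Finset.sum_const, card_PL]; simp
      _ = ∑ t ∈ PL K P.natDegree, ∑ v ∈ PL K m,
            g (v + N * t) * (J P ((v + N * t + w) ^ p + b) : ℝ) := by
          refine Finset.sum_congr rfl fun t ht => ?_
          rw [sum_PL_add m (fun v => g v * (J P ((v + w) ^ p + b) : ℝ)) (mul_mem_PL hm ht)]
      _ = ∑ v ∈ PL K m, g v * ∑ t ∈ PL K P.natDegree, (J P (((v + w) + N * t) ^ p + b) : ℝ) := by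
          rw [Finset.sum_comm]
          refine Finset.sum_congr rfl fun v _ => ?_
          rw [Finset.mul_sum]
          refine Finset.sum_congr rfl fun t _ => ?_
          rw [hg, show v + N * t + w = (v + w) + N * t by ring]
      _ = 0 := by
          refine Finset.sum_eq_zero fun v _ => ?_
          rw [← Int.cast_sum, sum_J_single p hK hP hirr hN (v + w) b]
          simp
  exact (mul_eq_zero.1 key).resolve_left hq.ne'

/-- the cross terms average to something tiny -/
lemma abs_sum_double_le (hK : ringChar K ≠ 2) {N : K[X]} (s : Multiset K[X]) (hs : Fac s)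
    (hN : ∀ P ∈ s, ¬ P ∣ N) {δ : K[X]} (hδ : ∀ P ∈ s, ¬ P ∣ δ) {m : ℕ}
    (hm : N.natDegree + s.prod.natDegree ≤ m) (g : K[X] → ℝ) {C : ℝ} (hgC : ∀ v, |g v| ≤ C)
    (hg : ∀ v t, g (v + N * t) = g v) (w b : K[X]) :
    (Fintype.card K : ℝ) ^ s.prod.natDegree *
      |∑ v ∈ PL K m, g v * ((J s.prod ((v + w) ^ p + b) : ℝ) *
        (J s.prod ((v + w + δ) ^ p + b) : ℝ))| ≤ C * (Fintype.card K : ℝ) ^ m := by
  have hq : (0 : ℝ) < (Fintype.card K : ℝ) ^ s.prod.natDegree := by
    have := Fintype.card_pos (α := K); positivity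
  have key : (Fintype.card K : ℝ) ^ s.prod.natDegree * ∑ v ∈ PL K m,
      g v * ((J s.prod ((v + w) ^ p + b) : ℝ) * (J s.prod ((v + w + δ) ^ p + b) : ℝ))
      = ∑ v ∈ PL K m, g v * (-1) ^ Multiset.card s := by
    calc (Fintype.card K : ℝ) ^ s.prod.natDegree * ∑ v ∈ PL K m,
            g v * ((J s.prod ((v + w) ^ p + b) : ℝ) * (J s.prod ((v + w + δ) ^ p + b) : ℝ))
        = ∑ t ∈ PL K s.prod.natDegree, ∑ v ∈ PL K m,
            g v * ((J s.prod ((v + w) ^ p + b) : ℝ) * (J s.prod ((v + w + δ) ^ p + b) : ℝ)) := by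
          rw [Finset.sum_const, card_PL]; simp
      _ = ∑ t ∈ PL K s.prod.natDegree, ∑ v ∈ PL K m,
            g (v + N * t) * ((J s.prod ((v + N * t + w) ^ p + b) : ℝ) *
              (J s.prod ((v + N * t + w + δ) ^ p + b) : ℝ)) := by
          refine Finset.sum_congr rfl fun t ht => ?_
          rw [sum_PL_add m (fun v => g v * ((J s.prod ((v + w) ^ p + b) : ℝ) *
            (J s.prod ((v + w + δ) ^ p + b) : ℝ))) (mul_mem_PL hm ht)]
      _ = ∑ v ∈ PL K m, g v * ∑ t ∈ PL K s.prod.natDegree,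
            ((J s.prod (((v + w) + N * t) ^ p + b) : ℝ) *
              (J s.prod (((v + w) + N * t + δ) ^ p + b) : ℝ)) := by
          rw [Finset.sum_comm]
          refine Finset.sum_congr rfl fun v _ => ?_
          rw [Finset.mul_sum]
          refine Finset.sum_congr rfl fun t _ => ?_
          rw [hg, show v + N * t + w = (v + w) + N * t by ring]
      _ = ∑ v ∈ PL K m, g v * (-1) ^ Multiset.card s := by
          refine Finset.sum_congr rfl fun v _ => ?_
          have h1 := sum_J_double_prod p hK s hs hδ b N hN (v + w)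
          have h2 := congrArg (Int.cast : ℤ → ℝ) h1
          push_cast at h2
          rw [h2]
  have key2 := congrArg abs key
  rw [abs_mul, abs_of_pos hq] at key2
  rw [key2]
  refine (Finset.abs_sum_le_sum_abs _ _).trans ?_
  calc (∑ v ∈ PL K m, abs (g v * (-1) ^ Multiset.card s)) ≤ ∑ v ∈ PL K m, C := by
        refine Finset.sum_le_sum fun v _ => ?_
        rw [abs_mul, abs_pow, abs_neg, abs_one, one_pow, mul_one]
        exact hgC v
    _ = C * (Fintype.card K : ℝ) ^ m := by
        rw [Finset.sum_const, card_PL]; simp [mul_comm]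

end P4f18dfF
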