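import Pool.Agent.Lib.P4f18dfF.Rad2

/-!
# Abstract moment computation

`mom5`: moments of `∑ X_i` under (a) tuples with a value attained once have mean zero,
(c) `E ∏_S X_i^2` is close to `E ∏_S Y_i`.
-/

set_option autoImplicit false

namespace Pool.Agent.P4f18dfF

open Finset Pool.Agent.P4f18df Pool.Agent.P4f18dfT Pool.Agent.P4f18dfC

variable {κ ω : Type*} [DecidableEq κ]

/-- mean over a finite set -/
noncomputable def ex (W : Finset ω) (f : ω → ℝ) : ℝ := (∑ w ∈ W, f w) / (W.card : ℝ)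

lemma ex_congr {W : Finset ω} {f g : ω → ℝ} (h : ∀ w ∈ W, f w = g w) : ex W f = ex W g := by
  unfold ex; rw [Finset.sum_congr rfl h]

lemma ex_add (W : Finset ω) (f g : ω → ℝ) : ex W (fun w => f w + g w) = ex W f + ex W g := by
  unfold ex; rw [Finset.sum_add_distrib, add_div]

lemma ex_sub (W : Finset ω) (f g : ω → ℝ) : ex W (fun w => f w - g w) = ex W f - ex W g := by
  unfold ex; rw [Finset.sum_sub_distrib, sub_div]

lemma ex_const_mul (W : Finset ω) (c : ℝ) (f : ω → ℝ) :
    ex W (fun w => c * f w) = c * ex W f := by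
  unfold ex; rw [← Finset.mul_sum, mul_div_assoc]

lemma ex_sum {ι : Type*} (W : Finset ω) (T : Finset ι) (f : ι → ω → ℝ) :
    ex W (fun w => ∑ t ∈ T, f t w) = ∑ t ∈ T, ex W (f t) := by
  unfold ex; rw [Finset.sum_comm, Finset.sum_div]

lemma ex_mono {W : Finset ω} {f g : ω → ℝ} (h : ∀ w ∈ W, f w ≤ g w) : ex W f ≤ ex W g := by
  unfold ex; exact div_le_div_of_nonneg_right (Finset.sum_le_sum h) (Nat.cast_nonneg _)

lemma ex_nonneg {W : Finset ω} {f : ω → ℝ} (h : ∀ w ∈ W, 0 ≤ f w) : 0 ≤ ex W f := by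
  unfold ex; exact div_nonneg (Finset.sum_nonneg h) (Nat.cast_nonneg _)

lemma abs_ex_le {W : Finset ω} {f g : ω → ℝ} (h : ∀ w ∈ W, |f w| ≤ g w) : |ex W f| ≤ ex W g := by
  unfold ex
  rw [abs_div, Nat.abs_cast]
  exact div_le_div_of_nonneg_right
    ((Finset.abs_sum_le_sum_abs _ _).trans (Finset.sum_le_sum h)) (Nat.cast_nonneg _)

lemma ex_le_const {W : Finset ω} {f : ω → ℝ} {c : ℝ} (hc : 0 ≤ c) (h : ∀ w ∈ W, f w ≤ c) :
    ex W f ≤ c := by
  unfold ex
  rcases W.eq_empty_or_nonempty with rfl | hW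
  · simpa using hc
  have h0 : (0 : ℝ) < W.card := by exact_mod_cast hW.card_pos
  rw [div_le_iff₀ h0]
  calc _ ≤ ∑ w ∈ W, c := Finset.sum_le_sum h
    _ = _ := by rw [Finset.sum_const, nsmul_eq_mul, mul_comm]

/-- number of distinct values of a tuple -/
def nv {n : ℕ} (t : Fin n → κ) : ℕ := (univ.image t).card

lemma nv_le {n : ℕ} (t : Fin n → κ) : nv t ≤ n := by
  unfold nv
  exact Finset.card_image_le.trans (by simp)

lemma tup_count (n s : ℕ) (D : Finset κ) :
    ((Fintype.piFinset (fun _ : Fin n => D)).filter (fun t => nv t = s)).card ≤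
      n ^ n * D.card ^ s := by
  by_cases hs : s ≤ n
  · rw [Finset.card_eq_sum_card_fiberwise (f := fun t => univ.image t)
      (t := D.powersetCard s)]
    · have h1 : ∀ S ∈ D.powersetCard s, (((Fintype.piFinset (fun _ : Fin n => D)).filter
          (fun t => nv t = s)).filter (fun t => univ.image t = S)).card ≤ n ^ n := by
        intro S hS
        rw [Finset.mem_powersetCard] at hS
        have h2 : (((Fintype.piFinset (fun _ : Fin n => D)).filter
          (fun t => nv t = s)).filter (fun t => univ.image t = S)) ⊆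
            Fintype.piFinset (fun _ : Fin n => S) := by
          intro t ht
          rw [Finset.mem_filter] at ht
          rw [Fintype.mem_piFinset]
          intro j
          rw [← ht.2]
          exact Finset.mem_image_of_mem _ (Finset.mem_univ _)
        refine (Finset.card_le_card h2).trans ?_
        rw [Fintype.card_piFinset]
        simp only [Finset.prod_const, Finset.card_univ, Fintype.card_fin, hS.2]
        exact Nat.pow_le_pow_left hs n
      refine (Finset.sum_le_sum h1).trans ?_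
      rw [Finset.sum_const, smul_eq_mul, Finset.card_powersetCard, mul_comm]
      exact Nat.mul_le_mul_left _ (Nat.choose_le_pow _ _)
    · intro t ht
      rw [Finset.mem_coe, Finset.mem_filter, Fintype.mem_piFinset] at ht
      rw [Finset.mem_coe, Finset.mem_powersetCard]
      refine ⟨?_, ht.2⟩
      intro x hx
      obtain ⟨j, -, rfl⟩ := Finset.mem_image.1 hx
      exact ht.1 j
  · have : ((Fintype.piFinset (fun _ : Fin n => D)).filter (fun t => nv t = s)) = ∅ := by
      rw [Finset.filter_eq_empty_iff]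
      intro t _ h
      exact hs (h ▸ nv_le t)
    rw [this]; simp

/-- sum over a set of tuples with at most `s0` distinct values -/
lemma tup_sum (n N s0 : ℕ) (hs : s0 ≤ N) (D : Finset κ) {R B η : ℝ} (hB : 1 ≤ B) (hBR : B ≤ R)
    (hR : (D.card : ℝ) = R) (hη : 0 ≤ η) (T : Finset (Fin n → κ))
    (hT : T ⊆ Fintype.piFinset (fun _ : Fin n => D)) (hTs : ∀ t ∈ T, nv t ≤ s0)
    (F : (Fin n → κ) → ℝ) (hF : ∀ t ∈ T, F t ≤ B ^ (N - nv t) + B ^ N * η) :
    ∑ t ∈ T, F t ≤ (s0 + 1) * (n : ℝ) ^ n * (R ^ s0 * B ^ (N - s0) + (R * B) ^ N * η) := by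
  have hB0 : 0 ≤ B := by linarith
  have hR1 : 1 ≤ R := hB.trans hBR
  have hR0 : 0 ≤ R := by linarith
  have h1 : ∑ t ∈ T, F t ≤ ∑ s ∈ range (s0 + 1), ∑ t ∈ T.filter (fun t => nv t = s), F t := by
    rw [Finset.sum_fiberwise_of_maps_to]
    intro t ht
    rw [Finset.mem_range]
    exact Nat.lt_succ_of_le (hTs t ht)
  refine h1.trans ?_
  have h2 : ∀ s ∈ range (s0 + 1), ∑ t ∈ T.filter (fun t => nv t = s), F t ≤
      (n : ℝ) ^ n * (R ^ s0 * B ^ (N - s0) + (R * B) ^ N * η) := by
    intro s hsr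
    rw [Finset.mem_range] at hsr
    have hss : s ≤ s0 := by omega
    have e0 : 0 ≤ B ^ (N - s) + B ^ N * η := by positivity
    have e1 : ∑ t ∈ T.filter (fun t => nv t = s), F t ≤
        ∑ t ∈ T.filter (fun t => nv t = s), (B ^ (N - s) + B ^ N * η) := by
      apply Finset.sum_le_sum
      intro t ht
      rw [Finset.mem_filter] at ht
      have := hF t ht.1
      rwa [ht.2] at this
    refine e1.trans ?_
    rw [Finset.sum_const, nsmul_eq_mul]
    have e2 : ((T.filter (fun t => nv t = s)).card : ℝ) ≤ (n : ℝ) ^ n * R ^ s := by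
      rw [← hR]
      have : (T.filter (fun t => nv t = s)).card ≤ n ^ n * D.card ^ s :=
        (Finset.card_le_card (Finset.filter_subset_filter _ hT)).trans (tup_count n s D)
      exact_mod_cast this
    refine (mul_le_mul_of_nonneg_right e2 e0).trans ?_
    rw [mul_assoc]
    apply mul_le_mul_of_nonneg_left _ (by positivity)
    rw [mul_add]
    apply add_le_add
    · have : B ^ (N - s) = B ^ (s0 - s) * B ^ (N - s0) := by rw [← pow_add]; congr 1; omega
      rw [this, ← mul_assoc]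
      apply mul_le_mul_of_nonneg_right _ (by positivity)
      have : R ^ s0 = R ^ s * R ^ (s0 - s) := by rw [← pow_add]; congr 1; omega
      rw [this]
      apply mul_le_mul_of_nonneg_left _ (by positivity)
      exact pow_le_pow_left₀ hB0 hBR _
    · rw [mul_pow, ← mul_assoc]
      apply mul_le_mul_of_nonneg_right _ hη
      apply mul_le_mul_of_nonneg_right _ (by positivity)
      exact pow_le_pow_right₀ hR1 (by omega)
  refine (Finset.sum_le_sum h2).trans ?_
  rw [Finset.sum_const, Finset.card_range, nsmul_eq_mul]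
  push_cast
  rw [mul_assoc]

omit [DecidableEq κ] in
/-- a product with all exponents at least two -/
lemma prod_exp_le (S : Finset κ) (x : κ → ℝ) (a : κ → ℕ) (ha : ∀ i ∈ S, 2 ≤ a i) {B : ℝ}
    (hx : ∀ i ∈ S, |x i| ≤ B) :
    |∏ i ∈ S, x i ^ a i| ≤ B ^ (∑ i ∈ S, a i - 2 * S.card) * ∏ i ∈ S, x i ^ 2 := by
  have h1 : ∑ i ∈ S, a i - 2 * S.card = ∑ i ∈ S, (a i - 2) := by
    have : ∑ i ∈ S, a i = ∑ i ∈ S, (a i - 2) + ∑ i ∈ S, 2 := by
      rw [← Finset.sum_add_distrib]
      apply Finset.sum_congr rfl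
      intro i hi
      have := ha i hi
      omega
    rw [this, Finset.sum_const, smul_eq_mul]
    omega
  rw [h1, Finset.abs_prod, ← Finset.prod_pow_eq_pow_sum, ← Finset.prod_mul_distrib]
  apply Finset.prod_le_prod
  · intro i _; exact abs_nonneg _
  · intro i hi
    have := ha i hi
    rw [abs_pow, ← sq_abs (x i)]
    have e : |x i| ^ a i = |x i| ^ (a i - 2) * |x i| ^ 2 := by rw [← pow_add]; congr 1; omega
    rw [e]
    apply mul_le_mul_of_nonneg_right _ (by positivity)
    exact pow_le_pow_left₀ (abs_nonneg _) (hx i hi) _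

/-- number of `j` with the value `i` -/
def mlt {n : ℕ} (t : Fin n → κ) (i : κ) : ℕ := (univ.filter (fun j => t j = i)).card

lemma prod_tup {n : ℕ} (t : Fin n → κ) (f : κ → ℝ) :
    ∏ j, f (t j) = ∏ i ∈ univ.image t, f i ^ mlt t i := by
  rw [Finset.prod_comp]
  rfl

lemma sum_mlt {n : ℕ} (t : Fin n → κ) : ∑ i ∈ univ.image t, mlt t i = n := by
  unfold mlt
  rw [← Finset.card_eq_sum_card_image]
  simp

section main

variable {D : Finset κ} {W : Finset ω} {X Y : κ → ω → ℝ} {B R η : ℝ} {k : ℕ}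

omit [DecidableEq κ] in
/-- one set of values -/
private lemma one_set (hB : 1 ≤ B)
    (hY : ∀ i ∈ D, ∀ w ∈ W, 0 ≤ Y i w ∧ Y i w ≤ B)
    (hc : ∀ S ⊆ D, S.card ≤ k →
      |ex W (fun w => ∏ i ∈ S, X i w ^ 2) - ex W (fun w => ∏ i ∈ S, Y i w)| ≤ η)
    (S : Finset κ) (hS : S ⊆ D) (hk : S.card ≤ k) :
    ex W (fun w => ∏ i ∈ S, X i w ^ 2) ≤ B ^ S.card + η := by
  have h1 := (abs_le.1 (hc S hS hk)).2
  have h2 : ex W (fun w => ∏ i ∈ S, Y i w) ≤ B ^ S.card := by
    apply ex_le_const (by positivity)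
    intro w hw
    refine (Finset.prod_le_prod (fun i hi => (hY i (hS hi) w hw).1)
      (fun i hi => (hY i (hS hi) w hw).2)).trans ?_
    rw [Finset.prod_const]
  linarith

/-- a tuple all of whose multiplicities (with weights) are at least two -/
private lemma one_tuple (hB : 1 ≤ B) (hη : 0 ≤ η)
    (hX : ∀ i ∈ D, ∀ w ∈ W, |X i w| ≤ B)
    (hY : ∀ i ∈ D, ∀ w ∈ W, 0 ≤ Y i w ∧ Y i w ≤ B)
    (hc : ∀ S ⊆ D, S.card ≤ k →
      |ex W (fun w => ∏ i ∈ S, X i w ^ 2) - ex W (fun w => ∏ i ∈ S, Y i w)| ≤ η)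
    {n : ℕ} (e : ℕ) (t : Fin n → κ) (ht : ∀ j, t j ∈ D) (hn : n ≤ k)
    (hm : ∀ i ∈ univ.image t, 2 ≤ e * mlt t i) :
    |ex W (fun w => ∏ j, X (t j) w ^ e)| ≤ B ^ (e * n - nv t) + B ^ (e * n) * η := by
  have hsub : univ.image t ⊆ D := by
    intro x hx
    obtain ⟨j, -, rfl⟩ := Finset.mem_image.1 hx
    exact ht j
  have hsum : ∑ i ∈ univ.image t, e * mlt t i = e * n := by
    rw [← Finset.mul_sum, sum_mlt]
  have h2s : 2 * nv t ≤ e * n := by
    rw [← hsum]
    unfold nv
    calc 2 * (univ.image t).card = ∑ i ∈ univ.image t, 2 := by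
          rw [Finset.sum_const, smul_eq_mul, mul_comm]
      _ ≤ _ := Finset.sum_le_sum hm
  have h1 : |ex W (fun w => ∏ j, X (t j) w ^ e)| ≤
      ex W (fun w => B ^ (e * n - 2 * nv t) * ∏ i ∈ univ.image t, X i w ^ 2) := by
    apply abs_ex_le
    intro w hw
    rw [prod_tup t (fun i => X i w ^ e)]
    have := prod_exp_le (univ.image t) (fun i => X i w) (fun i => e * mlt t i) hm
      (fun i hi => hX i (hsub hi) w hw)
    rw [hsum] at this
    simp only [pow_mul] at this
    exact this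
  refine h1.trans ?_
  rw [ex_const_mul]
  have hnk : (univ.image t).card ≤ k := (nv_le t).trans hn
  have h3 := one_set hB hY hc (univ.image t) hsub hnk
  have hB0 : 0 ≤ B := by linarith
  calc _ ≤ B ^ (e * n - 2 * nv t) * (B ^ (univ.image t).card + η) :=
        mul_le_mul_of_nonneg_left h3 (by positivity)
    _ = B ^ (e * n - nv t) + B ^ (e * n - 2 * nv t) * η := by
        rw [mul_add]
        congr 1
        rw [← pow_add]
        congr 1
        unfold nv at h2s ⊢
        omega
    _ ≤ _ := by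
        gcongr
        exact Nat.sub_le _ _

/-- arithmetic -/
private lemma rb_arith (hB : 1 ≤ B) (hBR : B ≤ R) {s k : ℕ} (hs : 2 * s + 1 ≤ k) :
    R ^ s * B ^ (k - s) ≤ √(R * B) ^ k * √(B / R) := by
  have hB0 : 0 < B := by linarith
  have hR0 : 0 < R := by linarith
  obtain ⟨y, hy0, rfl⟩ : ∃ y : ℝ, 0 < y ∧ B = y ^ 2 := ⟨√B, by positivity, (Real.sq_sqrt hB0.le).symm⟩
  obtain ⟨x, hx0, rfl⟩ : ∃ x : ℝ, 0 < x ∧ R = x ^ 2 := ⟨√R, by positivity, (Real.sq_sqrt hR0.le).symm⟩
  have hyx : y ≤ x := by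
    exact le_of_sq_le_sq hBR hx0.le
  rw [← mul_pow, Real.sqrt_sq (by positivity), ← div_pow, Real.sqrt_sq (by positivity),
    ← pow_mul, ← pow_mul]
  obtain ⟨j, rfl⟩ : ∃ j, k = 2 * s + 1 + j := ⟨k - (2 * s + 1), by omega⟩
  have e1 : 2 * (2 * s + 1 + j - s) = 2 * s + 2 + 2 * j := by omega
  rw [e1, mul_div_assoc', le_div_iff₀ hx0]
  calc x ^ (2 * s) * y ^ (2 * s + 2 + 2 * j) * x = x ^ (2 * s + 1) * y ^ (2 * s + 2 + j) * y ^ j := by
        ring
    _ ≤ x ^ (2 * s + 1) * y ^ (2 * s + 2 + j) * x ^ j := by gcongr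
    _ = _ := by ring

/-- the tuples with an odd multiplicity -/
private lemma ntr_part (hk : 0 < k) (hB : 1 ≤ B) (hBR : B ≤ R) (hR : (D.card : ℝ) = R) (hη : 0 ≤ η)
    (hX : ∀ i ∈ D, ∀ w ∈ W, |X i w| ≤ B)
    (hY : ∀ i ∈ D, ∀ w ∈ W, 0 ≤ Y i w ∧ Y i w ≤ B)
    (ha : ∀ t : Fin k → κ, (∀ j, t j ∈ D) → (∃ i, ∀ j, j ≠ i → t j ≠ t i) →
      ex W (fun w => ∏ j, X (t j) w) = 0)
    (hc : ∀ S ⊆ D, S.card ≤ k →
      |ex W (fun w => ∏ i ∈ S, X i w ^ 2) - ex W (fun w => ∏ i ∈ S, Y i w)| ≤ η) :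
    |∑ t ∈ ntr k D, ex W (fun w => ∏ j, X (t j) w)| ≤
      (k + 1) * (k : ℝ) ^ k * (√(R * B) ^ k * √(B / R) + (R * B) ^ k * η) := by
  have hB0 : 0 < B := by linarith
  have hR0 : 0 < R := by linarith
  refine (Finset.abs_sum_le_sum_abs _ _).trans ?_
  obtain ⟨T, hT⟩ : ∃ T : Finset (Fin k → κ), ∀ t, t ∈ T ↔
      (t ∈ ntr k D ∧ ∀ i ∈ univ.image t, 2 ≤ 1 * mlt t i) := by
    have hf : Set.Finite {t : Fin k → κ | t ∈ ntr k D ∧ ∀ i ∈ univ.image t, 2 ≤ 1 * mlt t i} :=
      (ntr k D).finite_toSet.subset (fun t ht => ht.1)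
    exact ⟨hf.toFinset, fun t => by rw [Set.Finite.mem_toFinset]; exact Iff.rfl⟩
  have hTn : T ⊆ ntr k D := fun t ht => ((hT t).1 ht).1
  have h1 : ∑ t ∈ ntr k D, |ex W (fun w => ∏ j, X (t j) w)| =
      ∑ t ∈ T, |ex W (fun w => ∏ j, X (t j) w)| := by
    symm
    apply Finset.sum_subset hTn
    intro t ht hn
    rw [hT, not_and] at hn
    have hn' := hn ht
    push Not at hn'
    obtain ⟨i, hi, hlt⟩ := hn'
    obtain ⟨j, -, rfl⟩ := Finset.mem_image.1 hi
    rw [ntr, Finset.mem_filter, Fintype.mem_piFinset] at ht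
    rw [abs_eq_zero]
    apply ha t ht.1
    refine ⟨j, fun j' hj' he => ?_⟩
    have : ({j, j'} : Finset (Fin k)) ⊆ univ.filter (fun l => t l = t j) := by
      intro x hx
      rw [Finset.mem_insert, Finset.mem_singleton] at hx
      rw [Finset.mem_filter]
      rcases hx with rfl | rfl
      · exact ⟨Finset.mem_univ _, rfl⟩
      · exact ⟨Finset.mem_univ _, he⟩
    have h2 := Finset.card_le_card this
    rw [Finset.card_pair (Ne.symm hj')] at h2
    unfold mlt at hlt
    omega
  rw [h1]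
  have hTsub : T ⊆ Fintype.piFinset (fun _ : Fin k => D) :=
    hTn.trans (by unfold ntr; exact Finset.filter_subset _ _)
  have h2 : ∀ t ∈ T, nv t ≤ (k - 1) / 2 := by
    intro t ht
    rw [hT, ntr, Finset.mem_filter, Fintype.mem_piFinset] at ht
    obtain ⟨⟨htD, hodd⟩, hm⟩ := ht
    push Not at hodd
    obtain ⟨v, -, hv⟩ := hodd
    have hv0 : v ∈ univ.image t := by
      by_contra hcon
      apply hv
      have : univ.filter (fun i => t i = v) = ∅ := by
        rw [Finset.filter_eq_empty_iff]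
        intro i _ h
        exact hcon (h ▸ Finset.mem_image_of_mem t (Finset.mem_univ i))
      rw [this]; simp
    have h3 : ∑ i ∈ univ.image t, 2 < ∑ i ∈ univ.image t, mlt t i := by
      apply Finset.sum_lt_sum
      · intro i hi; have := hm i hi; omega
      · refine ⟨v, hv0, ?_⟩
        have h4 := hm v hv0
        have h5 : mlt t v ≠ 2 := by
          intro h6
          apply hv
          unfold mlt at h6
          rw [h6]; exact even_two
        omega
    rw [sum_mlt, Finset.sum_const, smul_eq_mul] at h3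
    unfold nv
    omega
  have h3 := tup_sum k k ((k - 1) / 2) (by omega) D hB hBR hR hη T hTsub h2
    (fun t => |ex W (fun w => ∏ j, X (t j) w)|) (fun t ht => by
      have ht' := hTsub ht
      rw [Fintype.mem_piFinset] at ht'
      have := one_tuple (n := k) hB hη hX hY hc 1 t ht' le_rfl
        ((hT t).1 ht).2
      simpa using this)
  refine h3.trans ?_
  have e1 : (((k - 1) / 2 : ℕ) : ℝ) + 1 ≤ (k : ℝ) + 1 := by
    have : (k - 1) / 2 ≤ k := by omega
    have : (((k - 1) / 2 : ℕ) : ℝ) ≤ (k : ℝ) := by exact_mod_cast this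
    linarith
  have e2 := rb_arith hB hBR (s := (k - 1) / 2) (k := k) (by omega)
  have e3 : 0 ≤ R ^ ((k - 1) / 2) * B ^ (k - (k - 1) / 2) + (R * B) ^ k * η := by positivity
  gcongr

/-- the even part -/
private lemma even_part {l : ℕ} (hk : k = 2 * (l + 1)) (hB : 1 ≤ B) (hBR : B ≤ R)
    (hR : (D.card : ℝ) = R) (hη : 0 ≤ η)
    (hX : ∀ i ∈ D, ∀ w ∈ W, |X i w| ≤ B)
    (hY : ∀ i ∈ D, ∀ w ∈ W, 0 ≤ Y i w ∧ Y i w ≤ B)
    (hc : ∀ S ⊆ D, S.card ≤ k →
      |ex W (fun w => ∏ i ∈ S, X i w ^ 2) - ex W (fun w => ∏ i ∈ S, Y i w)| ≤ η) :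
    |ex W (fun w => (∑ i ∈ D, X i w ^ 2) ^ (l + 1)) - ex W (fun w => (∑ i ∈ D, Y i w) ^ (l + 1))| ≤
      (2 * ((k + 1) * (k : ℝ) ^ k) + 1) * (√(R * B) ^ k * √(B / R) + (R * B) ^ k * η) ∧
    B ^ 2 * ex W (fun w => (∑ i ∈ D, X i w ^ 2) ^ l) ≤
      (k + 1) * (k : ℝ) ^ k * (√(R * B) ^ k * √(B / R) + (R * B) ^ k * η) := by
  have hB0 : 0 < B := by linarith
  have hR0 : 0 < R := by linarith
  have hR1 : 1 ≤ R := hB.trans hBR
  set Q : ℝ := √(R * B) ^ k * √(B / R) + (R * B) ^ k * η with hQ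
  have hQ0 : 0 ≤ Q := by positivity
  have hexp : ∀ (n : ℕ) (f : κ → ω → ℝ), ex W (fun w => (∑ i ∈ D, f i w) ^ n) =
      ∑ t ∈ Fintype.piFinset (fun _ : Fin n => D), ex W (fun w => ∏ j, f (t j) w) := by
    intro n f
    rw [← ex_sum]
    apply ex_congr
    intro w _
    rw [← Finset.prod_univ_sum (fun _ : Fin n => D) (fun _ i => f i w)]; simp
  have ar : R ^ l * B ^ (k - l) ≤ √(R * B) ^ k * √(B / R) := rb_arith hB hBR (by omega)
  have tX : ∀ (n : ℕ) (hn : n ≤ k) (t : Fin n → κ), (∀ j, t j ∈ D) →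
      ex W (fun w => ∏ j, X (t j) w ^ 2) ≤ B ^ (2 * n - nv t) + B ^ (2 * n) * η := by
    intro n hn t ht
    have := one_tuple (n := n) hB hη hX hY hc 2 t ht hn (fun i hi => by
      obtain ⟨j, -, rfl⟩ := Finset.mem_image.1 hi
      have : 0 < mlt t (t j) := by
        unfold mlt
        apply Finset.card_pos.2
        exact ⟨j, by simp⟩
      omega)
    exact (le_abs_self _).trans this
  constructor
  · rw [hexp (l + 1) (fun i w => X i w ^ 2), hexp (l + 1) Y, ← Finset.sum_sub_distrib]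
    refine (Finset.abs_sum_le_sum_abs _ _).trans ?_
    rw [← Finset.sum_filter_add_sum_filter_not _ (fun t => nv t = l + 1)]
    have g1 : ∑ t ∈ (Fintype.piFinset (fun _ : Fin (l + 1) => D)).filter (fun t => nv t = l + 1),
        |ex W (fun w => ∏ j, X (t j) w ^ 2) - ex W (fun w => ∏ j, Y (t j) w)| ≤
        R ^ (l + 1) * η := by
      have : ∀ t ∈ (Fintype.piFinset (fun _ : Fin (l + 1) => D)).filter (fun t => nv t = l + 1),
          |ex W (fun w => ∏ j, X (t j) w ^ 2) - ex W (fun w => ∏ j, Y (t j) w)| ≤ η := by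
        intro t ht
        rw [Finset.mem_filter, Fintype.mem_piFinset] at ht
        obtain ⟨htD, hnv⟩ := ht
        have hinj : Set.InjOn t (univ : Finset (Fin (l + 1))) := by
          unfold nv at hnv
          apply Finset.card_image_iff.1
          rw [hnv]; simp
        have e1 : ∀ f : κ → ℝ, ∏ j, f (t j) = ∏ i ∈ univ.image t, f i := by
          intro f
          rw [Finset.prod_image (fun a _ b _ h => hinj (Finset.mem_coe.2 (Finset.mem_univ _))
            (Finset.mem_coe.2 (Finset.mem_univ _)) h)]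
        have hsub : univ.image t ⊆ D := by
          intro x hx
          obtain ⟨j, -, rfl⟩ := Finset.mem_image.1 hx
          exact htD j
        have hcard : (univ.image t).card ≤ k := (nv_le t).trans (by omega)
        have := hc (univ.image t) hsub hcard
        rw [ex_congr (f := fun w => ∏ j, X (t j) w ^ 2)
            (g := fun w => ∏ i ∈ univ.image t, X i w ^ 2) (fun w _ => e1 (fun i => X i w ^ 2)),
          ex_congr (f := fun w => ∏ j, Y (t j) w)
            (g := fun w => ∏ i ∈ univ.image t, Y i w) (fun w _ => e1 (fun i => Y i w))]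
        exact this
      refine (Finset.sum_le_sum this).trans ?_
      rw [Finset.sum_const, nsmul_eq_mul]
      apply mul_le_mul_of_nonneg_right _ hη
      rw [← hR]
      have h3 := Finset.card_le_card (Finset.filter_subset (fun t => nv t = l + 1)
        (Fintype.piFinset (fun _ : Fin (l + 1) => D)))
      rw [Fintype.card_piFinset] at h3
      simp only [Finset.prod_const, Finset.card_univ, Fintype.card_fin] at h3
      exact_mod_cast h3
    have g2 : ∑ t ∈ (Fintype.piFinset (fun _ : Fin (l + 1) => D)).filter (fun t => ¬ nv t = l + 1),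
        |ex W (fun w => ∏ j, X (t j) w ^ 2) - ex W (fun w => ∏ j, Y (t j) w)| ≤
        2 * ((k + 1) * (k : ℝ) ^ k * Q) := by
      have q1 := tup_sum (l + 1) k l (by omega) D hB hBR hR hη
        ((Fintype.piFinset (fun _ : Fin (l + 1) => D)).filter (fun t => ¬ nv t = l + 1))
        (Finset.filter_subset _ _) (fun t ht => by
          rw [Finset.mem_filter] at ht
          have := nv_le t
          have := ht.2
          omega) (fun t => |ex W (fun w => ∏ j, X (t j) w ^ 2) - ex W (fun w => ∏ j, Y (t j) w)| / 2)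
          (fun t ht => by
            rw [Finset.mem_filter, Fintype.mem_piFinset] at ht
            have a1 := tX (l + 1) (by omega) t ht.1
            rw [← hk] at a1
            have a2 : 0 ≤ ex W (fun w => ∏ j, X (t j) w ^ 2) :=
              ex_nonneg (fun w _ => Finset.prod_nonneg (fun j _ => sq_nonneg _))
            have a3 : 0 ≤ ex W (fun w => ∏ j, Y (t j) w) :=
              ex_nonneg (fun w hw => Finset.prod_nonneg (fun j _ => (hY _ (ht.1 j) w hw).1))
            have a4 : ex W (fun w => ∏ j, Y (t j) w) ≤ B ^ (k - nv t) := by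
              apply ex_le_const (by positivity)
              intro w hw
              refine (Finset.prod_le_prod (fun j _ => (hY _ (ht.1 j) w hw).1)
                (fun j _ => (hY _ (ht.1 j) w hw).2)).trans ?_
              rw [Finset.prod_const, Finset.card_univ, Fintype.card_fin]
              apply pow_le_pow_right₀ hB
              have := nv_le t
              omega
            have a5 : |ex W (fun w => ∏ j, X (t j) w ^ 2) - ex W (fun w => ∏ j, Y (t j) w)| ≤
                B ^ (k - nv t) + B ^ k * η := by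
              have : 0 ≤ B ^ k * η := by positivity
              rw [abs_le]; constructor <;> linarith
            have a6 : 0 ≤ |ex W (fun w => ∏ j, X (t j) w ^ 2) - ex W (fun w => ∏ j, Y (t j) w)| :=
              abs_nonneg _
            linarith)
      rw [← Finset.sum_div] at q1
      have q2 : ((l : ℝ) + 1) * (((l + 1 : ℕ) : ℝ)) ^ (l + 1) * (R ^ l * B ^ (k - l) + (R * B) ^ k * η) ≤
          (k + 1) * (k : ℝ) ^ k * Q := by
        apply mul_le_mul
        · apply mul_le_mul
          · have : (l : ℝ) ≤ (k : ℝ) := by exact_mod_cast (by omega : l ≤ k)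
            linarith
          · exact_mod_cast (Nat.pow_le_pow_left (by omega) _).trans
              (Nat.pow_le_pow_right (by omega) (by omega) : k ^ (l + 1) ≤ k ^ k)
          · positivity
          · positivity
        · rw [hQ]; linarith
        · positivity
        · positivity
      linarith
    have g3 : R ^ (l + 1) * η ≤ Q := by
      have r1 : R ^ (l + 1) ≤ (R * B) ^ k := by
        calc R ^ (l + 1) ≤ (R * B) ^ (l + 1) := pow_le_pow_left₀ hR0.le (by nlinarith) _
          _ ≤ (R * B) ^ k := pow_le_pow_right₀ (by nlinarith) (by omega)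
      have r2 : 0 ≤ √(R * B) ^ k * √(B / R) := by positivity
      have r3 := mul_le_mul_of_nonneg_right r1 hη
      rw [hQ]; linarith
    linarith
  · rw [hexp l (fun i w => X i w ^ 2), Finset.mul_sum]
    have q1 := tup_sum l k l (by omega) D hB hBR hR hη
      (Fintype.piFinset (fun _ : Fin l => D)) (Finset.Subset.refl _) (fun t _ => nv_le t)
      (fun t => B ^ 2 * ex W (fun w => ∏ j, X (t j) w ^ 2)) (fun t ht => by
        rw [Fintype.mem_piFinset] at ht
        have a1 := tX l (by omega) t ht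
        have hnv := nv_le t
        calc B ^ 2 * ex W (fun w => ∏ j, X (t j) w ^ 2) ≤
              B ^ 2 * (B ^ (2 * l - nv t) + B ^ (2 * l) * η) :=
              mul_le_mul_of_nonneg_left a1 (by positivity)
          _ = B ^ (k - nv t) + B ^ k * η := by
              have e1 : k - nv t = 2 + (2 * l - nv t) := by omega
              have e2 : k = 2 + 2 * l := by omega
              rw [e1, e2, pow_add, pow_add]
              ring)
    refine q1.trans ?_
    apply mul_le_mul
    · apply mul_le_mul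
      · have : (l : ℝ) ≤ (k : ℝ) := by exact_mod_cast (by omega : l ≤ k)
        linarith
      · exact_mod_cast (Nat.pow_le_pow_left (by omega) _).trans
          (Nat.pow_le_pow_right (by omega) (by omega) : k ^ l ≤ k ^ k)
      · positivity
      · positivity
    · rw [hQ]; linarith
    · positivity
    · positivity

end main

/-- **abstract moments** -/
theorem mom5 (k : ℕ) : ∃ C : ℝ, 0 ≤ C ∧ ∀ (D : Finset κ) (W : Finset ω) (X Y : κ → ω → ℝ)
    (B R η : ℝ), 1 ≤ B → B ≤ R → (D.card : ℝ) = R → 0 ≤ η →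
    (∀ i ∈ D, ∀ w ∈ W, |X i w| ≤ B) →
    (∀ i ∈ D, ∀ w ∈ W, 0 ≤ Y i w ∧ Y i w ≤ B) →
    (∀ t : Fin k → κ, (∀ j, t j ∈ D) → (∃ i, ∀ j, j ≠ i → t j ≠ t i) →
      ex W (fun w => ∏ j, X (t j) w) = 0) →
    (∀ S ⊆ D, S.card ≤ k →
      |ex W (fun w => ∏ i ∈ S, X i w ^ 2) - ex W (fun w => ∏ i ∈ S, Y i w)| ≤ η) →
    |ex W (fun w => (∑ i ∈ D, X i w) ^ k) -
      gm k * ex W (fun w => (∑ i ∈ D, Y i w) ^ (k / 2))| ≤
    C * (√(R * B) ^ k * √(B / R) + (R * B) ^ k * η) := by
  rcases Nat.eq_zero_or_pos k with rfl | hk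
  · refine ⟨0, le_rfl, fun D W X Y B R η _ _ _ _ _ _ _ _ => ?_⟩
    simp [gm_zero]
  rcases Nat.even_or_odd' k with ⟨m, hm | hm⟩
  · obtain ⟨l, rfl⟩ : ∃ l, m = l + 1 := ⟨m - 1, by omega⟩
    obtain ⟨C0, hC0, hR0⟩ := Rg_even (κ := κ) l
    refine ⟨(k + 1) * (k : ℝ) ^ k + C0 * ((k + 1) * (k : ℝ) ^ k) +
      gm k * (2 * ((k + 1) * (k : ℝ) ^ k) + 1), by have := gm_nonneg k; positivity, ?_⟩
    intro D W X Y B R η hB hBR hR hη hX hY ha hc
    have b1 := ntr_part hk hB hBR hR hη hX hY ha hc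
    obtain ⟨b2, b3⟩ := even_part (l := l) (k := k) hm hB hBR hR hη hX hY hc
    set Q : ℝ := √(R * B) ^ k * √(B / R) + (R * B) ^ k * η with hQ
    have hk2 : k / 2 = l + 1 := by omega
    rw [hk2]
    have e1 : ex W (fun w => (∑ i ∈ D, X i w) ^ k) = ex W (fun w => Rg k D (fun i => X i w)) +
        ∑ t ∈ ntr k D, ex W (fun w => ∏ j, X (t j) w) := by
      rw [← ex_sum, ← ex_add]
      apply ex_congr
      intro w _
      exact rg_even_part k D (fun i => X i w)
    have e2 : |ex W (fun w => Rg k D (fun i => X i w)) -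
        gm k * ex W (fun w => (∑ i ∈ D, X i w ^ 2) ^ (l + 1))| ≤
        C0 * (B ^ 2 * ex W (fun w => (∑ i ∈ D, X i w ^ 2) ^ l)) := by
      rw [← ex_const_mul, ← ex_sub, ← mul_assoc, ← ex_const_mul]
      apply abs_ex_le
      intro w hw
      have := hR0 D (fun i => X i w) B (by linarith) (fun i hi => hX i hi w hw)
      rw [← hm] at this
      exact this
    have e3 := mul_le_mul_of_nonneg_left b3 hC0
    have e4 := mul_le_mul_of_nonneg_left b2 (gm_nonneg k)
    rw [← abs_of_nonneg (gm_nonneg k), ← abs_mul, abs_of_nonneg (gm_nonneg k)] at e4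
    rw [e1]
    have e5 : ex W (fun w => Rg k D (fun i => X i w)) +
        ∑ t ∈ ntr k D, ex W (fun w => ∏ j, X (t j) w) -
        gm k * ex W (fun w => (∑ i ∈ D, Y i w) ^ (l + 1)) =
        (∑ t ∈ ntr k D, ex W (fun w => ∏ j, X (t j) w)) +
        (ex W (fun w => Rg k D (fun i => X i w)) -
        gm k * ex W (fun w => (∑ i ∈ D, X i w ^ 2) ^ (l + 1))) +
        gm k * (ex W (fun w => (∑ i ∈ D, X i w ^ 2) ^ (l + 1)) -
          ex W (fun w => (∑ i ∈ D, Y i w) ^ (l + 1))) := by ring
    rw [e5]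
    refine (abs_add_le _ _).trans ?_
    refine (add_le_add (abs_add_le _ _) le_rfl).trans ?_
    refine (add_le_add (add_le_add b1 (e2.trans e3)) e4).trans ?_
    apply le_of_eq
    ring
  · have hodd : Odd k := ⟨m, hm⟩
    refine ⟨(k + 1) * (k : ℝ) ^ k, by positivity, ?_⟩
    intro D W X Y B R η hB hBR hR hη hX hY ha hc
    have b1 := ntr_part hk hB hBR hR hη hX hY ha hc
    have e1 : ex W (fun w => (∑ i ∈ D, X i w) ^ k) =
        ∑ t ∈ ntr k D, ex W (fun w => ∏ j, X (t j) w) := by
      rw [← ex_sum]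
      apply ex_congr
      intro w _
      rw [rg_even_part k D (fun i => X i w), Rg_odd hodd, zero_add]
    rw [e1, gm_odd hodd, zero_mul, sub_zero]
    exact b1

end Pool.Agent.P4f18dfF
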