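import Pool.Agent.Lib.P4f18dfF.M6
import Pool.Agent.Lib.P4f18dfF.Mom5

/-! Definitions for the moments: short interval sums. -/

set_option autoImplicit false

namespace P4f18dfF
open Polynomial Finset Pool.Agent.P4f18dfF Pool.Agent.P4f18dfT

variable {K : Type*} [Field K] [Fintype K] [DecidableEq K]

/-- the Moebius sum over the interval of length `q^h` around `f` -/
noncomputable def MS (h : ℕ) (f : K[X]) : ℝ := ∑ a ∈ PL K h, (mu (f + a) : ℝ)

/-- the number of squarefree polynomials in that interval -/
noncomputable def QS (h : ℕ) (f : K[X]) : ℝ := ∑ a ∈ PL K h, (mu (f + a) : ℝ) ^ 2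

/-- the normalised sum, `1 - 1/q` is the density of the squarefree polynomials -/
noncomputable def Zn (h : ℕ) (f : K[X]) : ℝ :=
  MS h f / √((Fintype.card K : ℝ) ^ h * (1 - 1 / (Fintype.card K : ℝ)))

end P4f18dfF
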