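import Pool.Agent.Lib.P4f18dfF.CSum

/-! Complete sums of Jacobi symbols modulo an irreducible polynomial. -/

namespace P4f18dfF
open Polynomial Finset

lemma cast_inj_of_sq {L : Type*} [Field L] (h2 : (2 : L) ≠ 0) {a b : ℤ}
    (ha : a = 1 ∨ a = -1) (hb : b = 1 ∨ b = -1) (h : (a : L) = b) : a = b := by
  have key : (1 : L) ≠ -1 := by
    intro h'; apply h2; linear_combination h'
  rcases ha with rfl | rfl <;> rcases hb with rfl | rfl
  · rfl
  · exfalso; exact key (by simpa using h)
  · exfalso; exact key (by simpa using h.symm)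
  · rfl

lemma card_odd {K : Type*} [Field K] [Fintype K] (hK : ringChar K ≠ 2) :
    Fintype.card K % 2 = 1 := by
  have := FiniteField.even_card_iff_char_two (F := K)
  rcases Nat.mod_two_eq_zero_or_one (Fintype.card K) with h | h
  · exact absurd (this.mpr h) hK
  · exact h

lemma quadraticChar_norm {K L : Type*} [Field K] [Fintype K] [DecidableEq K] [Field L] [Fintype L]
    [DecidableEq L] [Algebra K L] (hK : ringChar K ≠ 2) (z : L) :
    quadraticChar K (Algebra.norm K z) = quadraticChar L z := by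
  have hchar : ringChar L ≠ 2 := by
    rw [← Algebra.ringChar_eq K L]; exact hK
  by_cases hz0 : z = 0
  · rw [hz0, Algebra.norm_zero, MulChar.map_zero, MulChar.map_zero]
  have hNz : Algebra.norm K z ≠ 0 := Algebra.norm_ne_zero_iff.2 hz0
  refine cast_inj_of_sq (L := L) (Ring.two_ne_zero hchar) (quadraticChar_dichotomy hNz)
    (quadraticChar_dichotomy hz0) ?_
  rw [quadraticChar_eq_pow_of_char_ne_two' hchar]
  have h1 := congrArg (algebraMap K L) (quadraticChar_eq_pow_of_char_ne_two' hK (Algebra.norm K z))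
  rw [map_intCast, map_pow, FiniteField.algebraMap_norm_eq_pow, ← pow_mul] at h1
  rw [h1]
  congr 1
  rw [Nat.card_eq_fintype_card, Nat.card_eq_fintype_card]
  have hq := card_odd hK
  have hQ := card_odd (K := L) hchar
  have hdvd : Fintype.card K - 1 ∣ Fintype.card L - 1 := by
    rw [Module.card_eq_pow_finrank (K := K) (V := L)]
    simpa using Nat.sub_dvd_pow_sub_pow (Fintype.card K) 1 (Module.finrank K L)
  have h2 := Nat.div_mul_cancel hdvd
  set a := (Fintype.card L - 1) / (Fintype.card K - 1)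
  obtain ⟨c, hc⟩ : ∃ c, Fintype.card K = 2 * c + 1 := ⟨Fintype.card K / 2, by omega⟩
  have h3 : Fintype.card K / 2 = c := by omega
  have h4 : Fintype.card K - 1 = 2 * c := by omega
  rw [h3]
  rw [h4] at h2
  have h5 : a * c * 2 = Fintype.card L - 1 := by rw [← h2]; ring
  omega

/-- Jacobsthal -/
lemma sum_quadraticChar_mul_add {L : Type*} [Field L] [Fintype L] [DecidableEq L]
    (hL : ringChar L ≠ 2) {c : L} (hc : c ≠ 0) :
    ∑ w : L, quadraticChar L (w * (w + c)) = -1 := by
  have h1 : ∑ w : L, quadraticChar L (w * (w + c)) =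
      ∑ w ∈ univ.erase (0 : L), quadraticChar L (w * (w + c)) := by
    rw [← Finset.sum_erase_add _ _ (mem_univ (0 : L))]
    simp
  have h2 : ∑ w ∈ univ.erase (0 : L), quadraticChar L (w * (w + c)) =
      ∑ y ∈ univ.erase (1 : L), quadraticChar L y := by
    refine Finset.sum_bij' (fun w _ => 1 + c / w) (fun y _ => c / (y - 1)) ?_ ?_ ?_ ?_ ?_
    · intro w hw
      have hw0 : w ≠ 0 := by simpa using hw
      simp only [mem_erase, ne_eq, add_eq_left, mem_univ, and_true]
      exact div_ne_zero hc hw0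
    · intro y hy
      have hy0 : y ≠ 1 := by simpa using hy
      simp only [mem_erase, ne_eq, mem_univ, and_true]
      exact div_ne_zero hc (sub_ne_zero.2 hy0)
    · intro w hw
      have hw0 : w ≠ 0 := by simpa using hw
      field_simp
      ring_nf
      try simp [hc]
    · intro y hy
      have hy0 : y - 1 ≠ 0 := sub_ne_zero.2 (by simpa using hy)
      field_simp
      ring
    · intro w hw
      have hw0 : w ≠ 0 := by simpa using hw
      have : w * (w + c) = w ^ 2 * (1 + c / w) := by field_simp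
      rw [this, map_mul, map_pow, quadraticChar_sq_one hw0, one_mul]
  have h3 := quadraticChar_sum_zero hL
  rw [← Finset.sum_erase_add _ _ (mem_univ (1 : L)), map_one] at h3
  rw [h1, h2]
  linarith

section
variable {K : Type*} [Field K] [Fintype K] [DecidableEq K]

lemma J_irr (hK : ringChar K ≠ 2) {P : K[X]} (hP : P.Monic) (hirr : Irreducible P)
    [Fact (Irreducible P)] [Fintype (AdjoinRoot P)] [DecidableEq (AdjoinRoot P)] (F : K[X]) :
    J P F = quadraticChar (AdjoinRoot P) (AdjoinRoot.mk P F) := by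
  have hN : R P F = Algebra.norm K (AdjoinRoot.mk P F) := R_eq_norm hP hirr F
  rw [J, hN, quadraticChar_norm hK]

/-- the polynomials of degree < deg P represent the residue classes mod P once -/
lemma sum_PL_eq_sum_adjoinRoot {M : Type*} [AddCommMonoid M] {P : K[X]} (hP : P.Monic)
    [Fintype (AdjoinRoot P)] (f : AdjoinRoot P → M) :
    ∑ t ∈ PL K P.natDegree, f (AdjoinRoot.mk P t) = ∑ z : AdjoinRoot P, f z := by
  refine Finset.sum_bij (fun t _ => AdjoinRoot.mk P t) (fun _ _ => mem_univ _) ?_ ?_ ?_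
  · intro t ht s hs h
    rw [AdjoinRoot.mk_eq_mk] at h
    have hd : (t - s).degree < P.degree := by
      rw [degree_eq_natDegree hP.ne_zero]
      rw [mem_PL] at ht hs
      exact (degree_sub_le _ _).trans_lt (max_lt ht hs)
    have := eq_zero_of_dvd_of_degree_lt h hd
    exact sub_eq_zero.1 this
  · intro z _
    obtain ⟨F, rfl⟩ := AdjoinRoot.mk_surjective z
    refine ⟨F %ₘ P, ?_, ?_⟩
    · rw [mem_PL, ← degree_eq_natDegree hP.ne_zero]
      exact degree_modByMonic_lt F hP
    · rw [AdjoinRoot.mk_eq_mk]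
      refine ⟨-(F /ₘ P), ?_⟩
      have := modByMonic_add_div F P
      linear_combination this
  · intro t ht; rfl

variable (p : ℕ) [Fact p.Prime] [CharP K p]

lemma sum_frob {M : Type*} [AddCommMonoid M] {P : K[X]} (hP : P.Monic) (hirr : Irreducible P)
    [Fact (Irreducible P)] [Fintype (AdjoinRoot P)] {N : K[X]} (hN : ¬ P ∣ N) (v b : K[X])
    (f : AdjoinRoot P → M) :
    ∑ t ∈ PL K P.natDegree, f (AdjoinRoot.mk P ((v + N * t) ^ p + b)) = ∑ z, f z := by
  have hchar : CharP (AdjoinRoot P) p := charP_of_injective_algebraMap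
    (algebraMap K (AdjoinRoot P)).injective p
  have hN0 : AdjoinRoot.mk P N ≠ 0 := by
    rwa [Ne, AdjoinRoot.mk_eq_zero]
  let e : AdjoinRoot P → AdjoinRoot P := fun z =>
    (AdjoinRoot.mk P v + AdjoinRoot.mk P N * z) ^ p + AdjoinRoot.mk P b
  have he : Function.Bijective e := by
    rw [← Finite.injective_iff_bijective]
    intro x y hxy
    have h1 : (AdjoinRoot.mk P v + AdjoinRoot.mk P N * x) ^ p =
        (AdjoinRoot.mk P v + AdjoinRoot.mk P N * y) ^ p := add_right_cancel hxy
    have h2 := frobenius_inj (AdjoinRoot P) p h1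
    exact mul_left_cancel₀ hN0 (add_left_cancel h2)
  have h1 := sum_PL_eq_sum_adjoinRoot hP (fun z => f (e z))
  rw [← he.sum_comp f, ← h1]
  refine Finset.sum_congr rfl fun t _ => ?_
  simp [e]

lemma sum_J_single (hK : ringChar K ≠ 2) {P : K[X]} (hP : P.Monic) (hirr : Irreducible P)
    {N : K[X]} (hN : ¬ P ∣ N) (v b : K[X]) :
    ∑ t ∈ PL K P.natDegree, J P ((v + N * t) ^ p + b) = 0 := by
  classical
  have := Fact.mk hirr
  have : Module.Finite K (AdjoinRoot P) := (AdjoinRoot.powerBasis hirr.ne_zero).finite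
  have : Finite (AdjoinRoot P) := Module.finite_of_finite K
  have := Fintype.ofFinite (AdjoinRoot P)
  have hchar : ringChar (AdjoinRoot P) ≠ 2 := by
    rw [← Algebra.ringChar_eq K]; exact hK
  simp_rw [J_irr hK hP hirr]
  rw [sum_frob p hP hirr hN v b (fun z => quadraticChar (AdjoinRoot P) z)]
  exact quadraticChar_sum_zero hchar

lemma sum_J_double (hK : ringChar K ≠ 2) {P : K[X]} (hP : P.Monic) (hirr : Irreducible P)
    {N : K[X]} (hN : ¬ P ∣ N) (v b : K[X]) {δ : K[X]} (hδ : ¬ P ∣ δ) :
    ∑ t ∈ PL K P.natDegree, J P ((v + N * t) ^ p + b) * J P ((v + N * t + δ) ^ p + b) = -1 := by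
  classical
  have := Fact.mk hirr
  have : Module.Finite K (AdjoinRoot P) := (AdjoinRoot.powerBasis hirr.ne_zero).finite
  have : Finite (AdjoinRoot P) := Module.finite_of_finite K
  have := Fintype.ofFinite (AdjoinRoot P)
  have hchar : ringChar (AdjoinRoot P) ≠ 2 := by
    rw [← Algebra.ringChar_eq K]; exact hK
  have hc : AdjoinRoot.mk P (δ ^ p) ≠ 0 := by
    rw [map_pow]
    apply pow_ne_zero
    rwa [Ne, AdjoinRoot.mk_eq_zero]
  rw [← sum_quadraticChar_mul_add hchar hc,
    ← sum_frob p hP hirr hN v b (fun z => quadraticChar (AdjoinRoot P)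
      (z * (z + AdjoinRoot.mk P (δ ^ p))))]
  refine Finset.sum_congr rfl fun t _ => ?_
  rw [J_irr hK hP hirr, J_irr hK hP hirr, ← map_mul]
  congr 1
  have h1 : (v + N * t + δ) ^ p = (v + N * t) ^ p + δ ^ p := add_pow_char _ _ _
  rw [h1, map_add, map_add, map_add]
  ring

end
end P4f18dfF
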