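import Pool.Agent.Lib.P4f18dfF.Mom5
import Pool.Agent.Lib.P4f18dfC.Gm
import Mathlib.LinearAlgebra.Vandermonde

/-! Joint moments of two variables from the moments of their linear combinations. -/

set_option autoImplicit false

namespace P4f18dfF
open Finset Pool.Agent.P4f18dfF Pool.Agent.P4f18dfT

namespace JointAux

/-- extraction of a coefficient of a polynomial from its values in `[0,1]` -/
lemma extract (n k : ℕ) (hk : k ≤ n) : ∃ (al : Fin (n + 1) → ℝ) (w : Fin (n + 1) → ℝ),
    (∀ j, 0 ≤ al j ∧ al j ≤ 1) ∧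
      ∀ c : ℕ → ℝ, ∑ j, w j * ∑ i ∈ range (n + 1), c i * al j ^ i = c k := by
  set al : Fin (n + 1) → ℝ := fun j => (j : ℝ) / (n + 1) with hal
  have hinj : Function.Injective al := by
    intro i j h
    simp only [hal] at h
    have hn : (0 : ℝ) < n + 1 := by positivity
    rw [div_left_inj' hn.ne'] at h
    exact Fin.ext (by exact_mod_cast h)
  have hdet : (Matrix.vandermonde al).det ≠ 0 := Matrix.det_vandermonde_ne_zero_iff.2 hinj
  have hunit : IsUnit (Matrix.vandermonde al) := by
    rw [Matrix.isUnit_iff_isUnit_det]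
    exact isUnit_iff_ne_zero.2 hdet
  obtain ⟨w, hw⟩ := (Matrix.vecMul_surjective_iff_isUnit.2 hunit)
    (fun i => if (i : ℕ) = k then (1 : ℝ) else 0)
  refine ⟨al, w, ?_, ?_⟩
  · intro j
    have hn : (0 : ℝ) < n + 1 := by positivity
    refine ⟨by positivity, ?_⟩
    rw [hal]
    simp only
    rw [div_le_one hn]
    have : (j : ℕ) ≤ n := by omega
    have : ((j : ℕ) : ℝ) ≤ n := by exact_mod_cast this
    linarith
  · intro c
    have h1 : ∀ i : Fin (n + 1), ∑ j, w j * al j ^ (i : ℕ) = if (i : ℕ) = k then 1 else 0 := by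
      intro i
      have := congrFun hw i
      simpa [Matrix.vecMul, dotProduct, Matrix.vandermonde_apply] using this
    calc ∑ j, w j * ∑ i ∈ range (n + 1), c i * al j ^ i
        = ∑ j, ∑ i ∈ range (n + 1), c i * (w j * al j ^ i) := by
          apply Finset.sum_congr rfl
          intro j _
          rw [Finset.mul_sum]
          apply Finset.sum_congr rfl
          intro i _
          ring
      _ = ∑ i ∈ range (n + 1), c i * ∑ j, w j * al j ^ i := by
          rw [Finset.sum_comm]
          apply Finset.sum_congr rfl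
          intro i _
          rw [Finset.mul_sum]
      _ = ∑ i : Fin (n + 1), c i * ∑ j, w j * al j ^ (i : ℕ) := by
          rw [Finset.sum_range]
      _ = ∑ i : Fin (n + 1), c i * (if (i : ℕ) = k then 1 else 0) := by
          apply Finset.sum_congr rfl
          intro i _
          rw [h1 i]
      _ = c k := by
          rw [Finset.sum_eq_single ⟨k, by omega⟩]
          · simp
          · intro i _ hi
            rw [if_neg, mul_zero]
            intro h
            exact hi (Fin.ext h)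
          · intro h
            exact absurd (mem_univ _) h

lemma gm_joint {k : ℕ} (hk : Even k) :
    gm (2 * k) * (k.choose (k / 2) : ℝ) = ((2 * k).choose k : ℝ) * gm k ^ 2 := by
  obtain ⟨l, hl⟩ := hk
  have hk2 : k = 2 * l := by omega
  have hkl : k / 2 = l := by omega
  rw [hkl]
  have e1 : gm (2 * k) = ((2 * k).factorial : ℝ) / (2 ^ k * k.factorial) := by
    have h := Pool.Agent.P4f18dfC.gm_even k
    rw [div_eq_div_iff (by positivity) (by positivity)] at h
    rw [eq_div_iff (by positivity), h, one_mul]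
  have e2 : gm k = (k.factorial : ℝ) / (2 ^ l * l.factorial) := by
    have h := Pool.Agent.P4f18dfC.gm_even l
    rw [← hk2, div_eq_div_iff (by positivity) (by positivity)] at h
    rw [eq_div_iff (by positivity), h, one_mul]
  have e3 : (k.choose l : ℝ) = (k.factorial : ℝ) / (l.factorial * l.factorial) := by
    have h := Nat.add_choose_mul_factorial_mul_factorial l l
    rw [← hl] at h
    rw [eq_div_iff (by positivity)]
    rw [← mul_assoc]
    exact_mod_cast h
  have e4 : ((2 * k).choose k : ℝ) = ((2 * k).factorial : ℝ) / (k.factorial * k.factorial) := by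
    have h := Nat.add_choose_mul_factorial_mul_factorial k k
    rw [← two_mul] at h
    rw [eq_div_iff (by positivity)]
    rw [← mul_assoc]
    exact_mod_cast h
  rw [e1, e2, e3, e4]
  have e5 : (2 : ℝ) ^ k = 2 ^ l * 2 ^ l := by rw [hk2, two_mul, pow_add]
  rw [e5]
  field_simp

lemma ex_sum {ω ι : Type*} (W : Finset ω) (s : Finset ι) (f : ι → ω → ℝ) :
    ex W (fun w => ∑ i ∈ s, f i w) = ∑ i ∈ s, ex W (f i) := by
  unfold ex
  rw [Finset.sum_comm, Finset.sum_div]

lemma ex_mul {ω : Type*} (W : Finset ω) (c : ℝ) (f : ω → ℝ) :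
    ex W (fun w => c * f w) = c * ex W f := by
  unfold ex
  rw [← Finset.mul_sum, mul_div_assoc]

/-- coefficients of the left side -/
lemma ex_left {ω : Type*} (W : Finset ω) (M1 M2 : ω → ℝ) (k : ℕ) (a : ℝ) :
    ex W (fun w => (a * M1 w + M2 w) ^ (2 * k)) =
      ∑ i ∈ range (2 * k + 1), (((2 * k).choose i : ℝ) *
        ex W (fun w => M1 w ^ i * M2 w ^ (2 * k - i))) * a ^ i := by
  have h : ∀ w, (a * M1 w + M2 w) ^ (2 * k) = ∑ i ∈ range (2 * k + 1),
      (((2 * k).choose i : ℝ) * a ^ i) * (M1 w ^ i * M2 w ^ (2 * k - i)) := by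
    intro w
    rw [add_pow]
    apply Finset.sum_congr rfl
    intro i _
    rw [mul_pow]
    ring
  rw [show (fun w => (a * M1 w + M2 w) ^ (2 * k)) = fun w => ∑ i ∈ range (2 * k + 1),
      (((2 * k).choose i : ℝ) * a ^ i) * (M1 w ^ i * M2 w ^ (2 * k - i)) from funext h, ex_sum]
  apply Finset.sum_congr rfl
  intro i _
  rw [ex_mul]
  ring

/-- coefficients of the right side -/
lemma ex_right {ω : Type*} (W : Finset ω) (Q1 Q2 : ω → ℝ) (k : ℕ) (a : ℝ) :
    ex W (fun w => (a ^ 2 * Q1 w + Q2 w) ^ k) =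
      ∑ i ∈ range (2 * k + 1), (if Even i then ((k.choose (i / 2) : ℝ) *
        ex W (fun w => Q1 w ^ (i / 2) * Q2 w ^ (k - i / 2))) else 0) * a ^ i := by
  have h : ∀ w, (a ^ 2 * Q1 w + Q2 w) ^ k = ∑ i ∈ range (k + 1),
      ((k.choose i : ℝ) * a ^ (2 * i)) * (Q1 w ^ i * Q2 w ^ (k - i)) := by
    intro w
    rw [add_pow]
    apply Finset.sum_congr rfl
    intro i _
    rw [mul_pow, ← pow_mul]
    ring
  rw [show (fun w => (a ^ 2 * Q1 w + Q2 w) ^ k) = fun w => ∑ i ∈ range (k + 1),
      ((k.choose i : ℝ) * a ^ (2 * i)) * (Q1 w ^ i * Q2 w ^ (k - i)) from funext h, ex_sum]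
  have h2 : ∀ i ∈ range (k + 1), ex W (fun w => ((k.choose i : ℝ) * a ^ (2 * i)) *
      (Q1 w ^ i * Q2 w ^ (k - i))) = (fun j => (if Even j then ((k.choose (j / 2) : ℝ) *
        ex W (fun w => Q1 w ^ (j / 2) * Q2 w ^ (k - j / 2))) else 0) * a ^ j) (2 * i) := by
    intro i _
    rw [ex_mul]
    simp only [even_two, Even.mul_right, if_true, Nat.mul_div_cancel_left i two_pos]
    ring
  rw [Finset.sum_congr rfl h2]
  symm
  rw [← Finset.sum_image (s := range (k + 1)) (g := fun i => 2 * i)
    (f := fun j => (if Even j then ((k.choose (j / 2) : ℝ) *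
        ex W (fun w => Q1 w ^ (j / 2) * Q2 w ^ (k - j / 2))) else 0) * a ^ j)]
  · symm
    apply Finset.sum_subset
    · intro j hj
      rw [mem_image] at hj
      obtain ⟨i, hi, rfl⟩ := hj
      rw [mem_range] at hi ⊢
      omega
    · intro j hj hj'
      rw [if_neg, zero_mul]
      intro he
      apply hj'
      obtain ⟨i, hi⟩ := he
      rw [mem_range] at hj
      rw [mem_image]
      exact ⟨i, mem_range.2 (by omega), by omega⟩
  · intro i _ j _ h
    simp only at h
    omega

end JointAux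

open JointAux in
/-- Joint moments from the moments of the combinations `a * M1 + M2`, `0 ≤ a ≤ 1`. -/
theorem joint_of_mix (k : ℕ) : ∃ C : ℝ, 0 ≤ C ∧
    ∀ {ω : Type*} (W : Finset ω) (M1 M2 Q1 Q2 : ω → ℝ) (E : ℝ),
      (∀ a : ℝ, 0 ≤ a → a ≤ 1 →
        |ex W (fun w => (a * M1 w + M2 w) ^ (2 * k)) -
          gm (2 * k) * ex W (fun w => (a ^ 2 * Q1 w + Q2 w) ^ k)| ≤ E) →
      |ex W (fun w => M1 w ^ k * M2 w ^ k) -
        gm k ^ 2 * ex W (fun w => Q1 w ^ (k / 2) * Q2 w ^ (k / 2))| ≤ C * E := by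
  obtain ⟨al, wt, hal, hex⟩ := extract (2 * k) k (by omega)
  refine ⟨∑ j, |wt j|, Finset.sum_nonneg (fun _ _ => abs_nonneg _), ?_⟩
  intro ω W M1 M2 Q1 Q2 E hE
  set cL : ℕ → ℝ := fun i => ((2 * k).choose i : ℝ) *
        ex W (fun w => M1 w ^ i * M2 w ^ (2 * k - i)) with hcL
  set cR : ℕ → ℝ := fun i => (if Even i then ((k.choose (i / 2) : ℝ) *
        ex W (fun w => Q1 w ^ (i / 2) * Q2 w ^ (k - i / 2))) else 0) with hcR
  have h1 := hex (fun i => cL i - gm (2 * k) * cR i)
  have h2 : ∀ j, ∑ i ∈ range (2 * k + 1), (cL i - gm (2 * k) * cR i) * al j ^ i =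
      ex W (fun w => (al j * M1 w + M2 w) ^ (2 * k)) -
          gm (2 * k) * ex W (fun w => (al j ^ 2 * Q1 w + Q2 w) ^ k) := by
    intro j
    rw [ex_left, ex_right, Finset.mul_sum, ← Finset.sum_sub_distrib]
    apply Finset.sum_congr rfl
    intro i _
    simp only [hcL, hcR]
    ring
  have h3 : |cL k - gm (2 * k) * cR k| ≤ (∑ j, |wt j|) * E := by
    rw [← h1]
    refine (Finset.abs_sum_le_sum_abs _ _).trans ?_
    rw [Finset.sum_mul]
    apply Finset.sum_le_sum
    intro j _
    rw [abs_mul, h2 j]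
    exact mul_le_mul_of_nonneg_left (hE (al j) (hal j).1 (hal j).2) (abs_nonneg _)
  have h4 : cL k - gm (2 * k) * cR k = ((2 * k).choose k : ℝ) *
      (ex W (fun w => M1 w ^ k * M2 w ^ k) -
        gm k ^ 2 * ex W (fun w => Q1 w ^ (k / 2) * Q2 w ^ (k / 2))) := by
    simp only [hcL, hcR]
    have e1 : 2 * k - k = k := by omega
    rw [e1]
    by_cases hk : Even k
    · rw [if_pos hk]
      have e2 : k - k / 2 = k / 2 := by
        obtain ⟨l, hl⟩ := hk
        omega
      have h5 := gm_joint hk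
      rw [e2]
      calc _ = ((2 * k).choose k : ℝ) * ex W (fun w => M1 w ^ k * M2 w ^ k) -
            (gm (2 * k) * (k.choose (k / 2) : ℝ)) *
              ex W (fun w => Q1 w ^ (k / 2) * Q2 w ^ (k / 2)) := by ring
        _ = _ := by rw [h5]; ring
    · rw [if_neg hk, Pool.Agent.P4f18dfC.gm_odd (Nat.not_even_iff_odd.1 hk)]
      ring
  have h5 : (1 : ℝ) ≤ ((2 * k).choose k : ℝ) := by
    exact_mod_cast Nat.choose_pos (by omega : k ≤ 2 * k)
  rw [h4, abs_mul, abs_of_nonneg (by linarith)] at h3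
  refine le_trans ?_ h3
  exact le_mul_of_one_le_left (abs_nonneg _) h5

end P4f18dfF
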