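import Pool.Agent.Lib.P4f18dfF.Pair
import Pool.Agent.Lib.P4f18dfF.JointMix

set_option autoImplicit false

namespace P4f18dfF
open Polynomial Finset Pool.Agent.P4f18dfF Pool.Agent.P4f18dfT

universe u

variable {K : Type u} [Field K] [Fintype K] [DecidableEq K]

/-- joint moments at two values `r0 + r1`, `r0 + r2` -/
theorem joint (p : ℕ) [Fact p.Prime] [CharP K p] (hK : ringChar K ≠ 2) (k : ℕ) :
    ∃ (C : ℝ) (L₀ : ℕ), 1 ≤ C ∧ ∀ h e d m : ℕ, C * h ≤ e → C * e ≤ d → C * d ≤ m →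
      ∀ r₀ ∈ PL K d, Good (L₀ * e) e r₀ → ∀ r₁ ∈ PL K e, ∀ r₂ ∈ PL K e,
      (∀ a ∈ PL K h, derivative (r₁ - r₂) ≠ derivative a) →
      |ex (PL K m) (fun v => Zn h ((X ^ m + v) ^ p + (r₀ + r₁)) ^ k *
          Zn h ((X ^ m + v) ^ p + (r₀ + r₂)) ^ k) -
        gm k ^ 2 * ex (PL K m) (fun v => (QS h ((X ^ m + v) ^ p + (r₀ + r₁)) / HC K h) ^ (k / 2) *
          (QS h ((X ^ m + v) ^ p + (r₀ + r₂)) / HC K h) ^ (k / 2))| ≤
      C * (Fintype.card K : ℝ) ^ (-(h : ℝ) / 6) := by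
  obtain ⟨C₁, L₀, hC₁, H⟩ := pair_mom (K := K) p hK k
  obtain ⟨C₂, hC₂, H₂⟩ := joint_of_mix k
  refine ⟨C₁ * (1 + C₂), L₀, by nlinarith, ?_⟩
  have hle : C₁ ≤ C₁ * (1 + C₂) := by nlinarith
  intro h e d m he hd hm r₀ hr₀ hgood r₁ hr₁ r₂ hr₂ hne
  have hmono : ∀ {a b : ℕ}, C₁ * (1 + C₂) * (a : ℝ) ≤ b → C₁ * (a : ℝ) ≤ b := by
    intro a b hab
    exact (mul_le_mul_of_nonneg_right hle (Nat.cast_nonneg _)).trans hab
  have hp := H h e d m (hmono he) (hmono hd) (hmono hm) r₀ hr₀ hgood r₁ hr₁ r₂ hr₂ hne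
  refine (H₂ (PL K m) _ _ _ _ (C₁ * (Fintype.card K : ℝ) ^ (-(h : ℝ) / 6)) ?_).trans ?_
  · intro a ha0 ha1
    exact hp a (by rw [abs_of_nonneg ha0]; exact ha1)
  · have hq : 0 ≤ (Fintype.card K : ℝ) ^ (-(h : ℝ) / 6) := by positivity
    have : C₂ * (C₁ * (Fintype.card K : ℝ) ^ (-(h : ℝ) / 6)) =
        (C₁ * C₂) * (Fintype.card K : ℝ) ^ (-(h : ℝ) / 6) := by ring
    rw [this]
    apply mul_le_mul_of_nonneg_right _ hq
    nlinarith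

end P4f18dfF
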