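import Pool.Agent.Lib.P4f18dfF.PairA
import Pool.Agent.Lib.P4f18dfF.JointMix

set_option autoImplicit false

namespace P4f18dfF
open Polynomial Finset Pool.Agent.P4f18dfF Pool.Agent.P4f18dfT

universe u

variable {K : Type u} [Field K] [Fintype K] [DecidableEq K]

/-- joint moments at two values `r0 + r1`, `r0 + r2` -/
theorem jointA (p : ℕ) [Fact p.Prime] [CharP K p] (hK : ringChar K ≠ 2) (k : ℕ) :
    ∃ (C : ℝ) (L₀ : ℕ), 1 ≤ C ∧ ∀ (h e d m : ℕ) (A w : K[X]), A.Monic → w.Monic →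
      m ≤ w.natDegree → C * h ≤ e → C * ((e : ℝ) + A.natDegree) ≤ d → C * d ≤ m →
      ∀ r₀ ∈ PL K d, GoodA A (L₀ * (e + A.natDegree)) e r₀ → ∀ r₁ ∈ PL K e, ∀ r₂ ∈ PL K e,
      (∀ a ∈ PL K h, WA A (r₁ - r₂) ≠ WA A a) →
      |ex (PL K m) (fun v => Zn h (A * (w + v) ^ p + (r₀ + r₁)) ^ k *
          Zn h (A * (w + v) ^ p + (r₀ + r₂)) ^ k) -
        gm k ^ 2 * ex (PL K m) (fun v => (QS h (A * (w + v) ^ p + (r₀ + r₁)) / HC K h) ^ (k / 2) *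
          (QS h (A * (w + v) ^ p + (r₀ + r₂)) / HC K h) ^ (k / 2))| ≤
      C * (Fintype.card K : ℝ) ^ (-(h : ℝ) / 6) := by
  obtain ⟨C₁, L₀, hC₁, H⟩ := pair_momA (K := K) p hK k
  obtain ⟨C₂, hC₂, H₂⟩ := joint_of_mix k
  refine ⟨C₁ * (1 + C₂), L₀, by nlinarith, ?_⟩
  have hle : C₁ ≤ C₁ * (1 + C₂) := by nlinarith
  intro h e d m A w hA hw hwm he hd hm r₀ hr₀ hgood r₁ hr₁ r₂ hr₂ hne
  have hmono : ∀ {a b : ℝ}, 0 ≤ a → C₁ * (1 + C₂) * a ≤ b → C₁ * a ≤ b := by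
    intro a b ha hab
    exact (mul_le_mul_of_nonneg_right hle ha).trans hab
  have hp := H h e d m A w hA hw hwm (hmono (Nat.cast_nonneg _) he)
    (hmono (by positivity) hd) (hmono (Nat.cast_nonneg _) hm) r₀ hr₀ hgood r₁ hr₁ r₂ hr₂ hne
  refine (H₂ (PL K m) _ _ _ _ (C₁ * (Fintype.card K : ℝ) ^ (-(h : ℝ) / 6)) ?_).trans ?_
  · intro a ha0 ha1
    exact hp a (by rw [abs_of_nonneg ha0]; exact ha1)
  · have hq : 0 ≤ (Fintype.card K : ℝ) ^ (-(h : ℝ) / 6) := by positivity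
    have : C₂ * (C₁ * (Fintype.card K : ℝ) ^ (-(h : ℝ) / 6)) =
        (C₁ * C₂) * (Fintype.card K : ℝ) ^ (-(h : ℝ) / 6) := by ring
    rw [this]
    apply mul_le_mul_of_nonneg_right _ hq
    nlinarith

end P4f18dfF
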