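import Pool.Agent.Lib.P4f18dfF.Dec

/-! Averages of values of the Moebius function along u^p + b. -/

namespace P4f18dfF
open Polynomial Finset

section
variable {K : Type*} [Field K]

/-- P divides G with odd multiplicity -/
def OddMul (P G : K[X]) : Prop := ∃ e c, Odd e ∧ G = P ^ e * c ∧ ¬ P ∣ c

/-- the monic irreducible polynomials which divide D with odd multiplicity -/
noncomputable def oddp (D : K[X]) : Finset K[X] :=
  open Classical in
  (UniqueFactorizationMonoid.normalizedFactors D).toFinset.filter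
    (fun P => Odd ((UniqueFactorizationMonoid.normalizedFactors D).count P))

lemma mem_oddp {D P : K[X]} (hD : D ≠ 0) :
    P ∈ oddp D ↔ Irreducible P ∧ P.Monic ∧ OddMul P D := by
  classical
  rw [oddp, mem_filter, Multiset.mem_toFinset, Polynomial.mem_normalizedFactors_iff hD]
  constructor
  · rintro ⟨⟨hirr, hmon, hdvd⟩, hodd⟩
    refine ⟨hirr, hmon, ?_⟩
    have hfin : FiniteMultiplicity P D := FiniteMultiplicity.of_not_isUnit hirr.not_isUnit hD
    obtain ⟨c, hc, hPc⟩ := hfin.exists_eq_pow_mul_and_not_dvd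
    have hcount : (UniqueFactorizationMonoid.normalizedFactors D).count P = multiplicity P D := by
      have h1 := UniqueFactorizationMonoid.emultiplicity_eq_count_normalizedFactors hirr hD
      rw [hmon.normalize_eq_self, hfin.emultiplicity_eq_multiplicity] at h1
      exact_mod_cast h1.symm
    exact ⟨multiplicity P D, c, hcount ▸ hodd, hc, hPc⟩
  · rintro ⟨hirr, hmon, e, c, he, hc, hPc⟩
    have hdvd : P ∣ D := by
      rw [hc]
      exact dvd_mul_of_dvd_left (dvd_pow_self _ he.pos.ne') _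
    refine ⟨⟨hirr, hmon, hdvd⟩, ?_⟩
    have hfin : FiniteMultiplicity P D := FiniteMultiplicity.of_not_isUnit hirr.not_isUnit hD
    have hcount : (UniqueFactorizationMonoid.normalizedFactors D).count P = multiplicity P D := by
      have h1 := UniqueFactorizationMonoid.emultiplicity_eq_count_normalizedFactors hirr hD
      rw [hmon.normalize_eq_self, hfin.emultiplicity_eq_multiplicity] at h1
      exact_mod_cast h1.symm
    have hmul : multiplicity P D = e := by
      rw [hc]
      have := multiplicity_eq_of_dvd_of_not_dvd (a := P) (b := P ^ e * c) (k := e) (dvd_mul_right _ _)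
        (by
          rw [pow_succ]
          intro h
          exact hPc (by
            have := (mul_dvd_mul_iff_left (pow_ne_zero e hirr.ne_zero)).1 h
            exact this))
      exact this
    rw [hcount, hmul]; exact he
end

section
variable {K : Type*} [Field K] [Fintype K] [DecidableEq K]

lemma J_pow {P : K[X]} (hP : P.Monic) (e : ℕ) (F : K[X]) : J (P ^ e) F = J P F ^ e := by
  induction e with
  | zero => simp
  | succ n ih => rw [pow_succ, J_mul_left (hP.pow n) hP, ih, pow_succ]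

lemma J_cases (G F : K[X]) : J G F = 0 ∨ J G F = 1 ∨ J G F = -1 := by
  rw [J]
  by_cases h : R G F = 0
  · left; rw [h, MulChar.map_zero]
  · right; exact quadraticChar_dichotomy h

lemma J_pow_odd {P : K[X]} (hP : P.Monic) {e : ℕ} (he : Odd e) (F : K[X]) :
    J (P ^ e) F = J P F := by
  rw [J_pow hP]
  obtain ⟨k, rfl⟩ := he
  rcases J_cases P F with h | h | h
  · rw [h]; simp
  · rw [h]; simp
  · rw [h, pow_succ, pow_mul]; simp

lemma abs_J_le (G F : K[X]) : |(J G F : ℝ)| ≤ 1 := by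
  rcases J_cases G F with h | h | h <;> rw [h] <;> simp

lemma prod_monic (S : Finset K[X]) (hS : ∀ P ∈ S, Irreducible P ∧ P.Monic) :
    (∏ P ∈ S, P).Monic := monic_prod_of_monic _ _ fun P hP => (hS P hP).2

lemma J_split (S : Finset K[X]) : (∀ P ∈ S, Irreducible P ∧ P.Monic) → ∀ G : K[X], G.Monic →
    (∀ P ∈ S, OddMul P G) → ∃ R' : K[X], R'.Monic ∧ (∀ P ∈ S, ¬ P ∣ R') ∧ R' ∣ G ∧
      (∀ F, J G F = J (∏ P ∈ S, P) F * J R' F) ∧
      (∏ P ∈ S, P).natDegree + R'.natDegree ≤ G.natDegree := by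
  classical
  induction S using Finset.induction_on with
  | empty =>
    intro _ G hG _
    exact ⟨G, hG, by simp, dvd_rfl, by simp, by simp⟩
  | insert P S hPS ih =>
    intro hS G hG hodd
    have hP := hS P (mem_insert_self _ _)
    have hS' : ∀ Q ∈ S, Irreducible Q ∧ Q.Monic := fun Q hQ => hS Q (mem_insert_of_mem hQ)
    obtain ⟨e, c, he, hc, hPc⟩ := hodd P (mem_insert_self _ _)
    have hcm : c.Monic := (hP.2.pow e).of_mul_monic_left (hc ▸ hG)
    have hoc : ∀ Q ∈ S, OddMul Q c := by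
      intro Q hQ
      obtain ⟨f, d, hf, hd, hQd⟩ := hodd Q (mem_insert_of_mem hQ)
      have hQP : ¬ Q ∣ P := by
        intro h
        have : P = Q := (eq_of_monic_of_associated (hS' Q hQ).2 hP.2
          ((hS' Q hQ).1.associated_of_dvd hP.1 h)).symm
        exact hPS (this ▸ hQ)
      have hcop : IsCoprime Q P := ((hS' Q hQ).1.coprime_iff_not_dvd).2 hQP
      have h1 : Q ^ f ∣ c := by
        have h2 : Q ^ f ∣ P ^ e * c := by rw [← hc, hd]; exact dvd_mul_right _ _
        exact (hcop.pow (m := f) (n := e)).dvd_of_dvd_mul_left h2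
      obtain ⟨c', hc'⟩ := h1
      refine ⟨f, c', hf, hc', fun h => hQd ?_⟩
      have h3 : Q ^ f * d = Q ^ f * (P ^ e * c') := by
        rw [← hd, hc, hc']; ring
      have h4 := mul_left_cancel₀ (pow_ne_zero f (hS' Q hQ).1.ne_zero) h3
      rw [h4]
      exact dvd_mul_of_dvd_right h _
    obtain ⟨R', hR', hnd, hdv, hJ, hdeg⟩ := ih hS' c hcm hoc
    refine ⟨R', hR', ?_, ?_, ?_, ?_⟩
    · intro Q hQ
      rcases mem_insert.1 hQ with rfl | hQ
      · exact fun h => hPc (h.trans hdv)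
      · exact hnd Q hQ
    · rw [hc]; exact hdv.mul_left _
    · intro F
      rw [hc, J_mul_left (hP.2.pow e) hcm, J_pow_odd hP.2 he, hJ, prod_insert hPS,
        J_mul_left hP.2 (prod_monic S hS')]
      ring
    · rw [prod_insert hPS, hP.2.natDegree_mul (prod_monic S hS'), hc,
        (hP.2.pow e).natDegree_mul hcm, hP.2.natDegree_pow]
      have : 1 ≤ e := he.pos
      have h5 : P.natDegree ≤ e * P.natDegree := Nat.le_mul_of_pos_left _ this
      omega

end
end P4f18dfF

namespace P4f18dfF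
open Polynomial Finset

section
variable {K : Type*} [Field K] [Fintype K]
variable (p : ℕ) [Fact p.Prime] [CharP K p]

lemma exists_pow_eq {f : K[X]} (hf : derivative f = 0) : ∃ δ : K[X], δ ^ p = f := by
  have hp : p ≠ 0 := (Fact.out : p.Prime).ne_zero
  have h1 : expand K p (contract p f) = f := expand_contract p hf hp
  have hsur : Function.Surjective (frobenius K p) :=
    Finite.surjective_of_injective (frobenius_inj K p)
  obtain ⟨h, hh⟩ := Polynomial.map_surjective (frobenius K p) hsur (contract p f)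
  refine ⟨h, ?_⟩
  rw [← h1, ← hh]
  exact (map_frobenius_expand p h) |>.symm.trans (by rw [map_expand])
end

section
variable {K : Type*} [Field K] [Fintype K] [DecidableEq K]
variable (p : ℕ) [Fact p.Prime] [CharP K p]

omit [Fintype K] [DecidableEq K] in
lemma OddMul.mo {P D : K[X]} (h : OddMul P D) (hD : D ≠ 0) : OddMul P (mo D) := by
  obtain ⟨e, c, he, hc, hP⟩ := h
  have hl : D.leadingCoeff⁻¹ ≠ 0 := inv_ne_zero (leadingCoeff_ne_zero.2 hD)
  refine ⟨e, C D.leadingCoeff⁻¹ * c, he, ?_, ?_⟩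
  · rw [P4f18dfF.mo]
    nth_rewrite 2 [hc]
    ring
  · intro h
    apply hP
    have : IsUnit (C D.leadingCoeff⁻¹ : K[X]) := isUnit_C.2 hl.isUnit
    exact (this.dvd_mul_left).1 h

lemma J_periodic {G N : K[X]} (hG : G.Monic) (b w v t : K[X]) :
    J G ((w + (v + N * G * t)) ^ p + b) = J G ((w + v) ^ p + b) := by
  apply J_congr hG
  have h1 : (w + (v + N * G * t)) - (w + v) ∣ (w + (v + N * G * t)) ^ p - (w + v) ^ p :=
    sub_dvd_pow_sub_pow _ _ _
  have h2 : G ∣ (w + (v + N * G * t)) - (w + v) := ⟨N * t, by ring⟩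
  have h3 := h2.trans h1
  simpa using h3

/-- values with a prime of odd multiplicity in the derivative, off the period of Theta -/
theorem L1 (hK : ringChar K ≠ 2) {m : ℕ} {b : K[X]} (hb : b.degree < ((p * m : ℕ) : WithBot ℕ))
    (hb' : b.derivative ≠ 0) {P N : K[X]} (hP : P ∈ oddp b.derivative) (hN : ¬ P ∣ N)
    (hm : N.natDegree + b.derivative.natDegree ≤ m) (Θ : K[X] → ℝ)
    (hΘ : ∀ v t, Θ (v + N * t) = Θ v) :
    ∑ v ∈ PL K m, (mu ((X ^ m + v) ^ p + b) : ℝ) * Θ v = 0 := by
  obtain ⟨ε, hε, hmu⟩ := mu_center p hK hb hb'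
  obtain ⟨hirr, hPm, hodd⟩ := (mem_oddp hb').1 hP
  obtain ⟨R', hR', hnd, hdv, hJ, hdeg⟩ := J_split {P} (by simpa using ⟨hirr, hPm⟩) (mo b.derivative)
    (mo_monic hb') (by simpa using hodd.mo hb')
  simp only [prod_singleton] at hJ hdeg
  have hPR : ¬ P ∣ R' := hnd P (by simp)
  have hPNR : ¬ P ∣ N * R' := by
    rw [hirr.prime.dvd_mul]; exact not_or.2 ⟨hN, hPR⟩
  rw [natDegree_mo hb'] at hdeg
  have h1 := sum_single_eq_zero p hK hPm hirr hPNR (m := m)
    (by have := natDegree_mul_le (p := N) (q := R'); omega)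
    (fun v => (ε : ℝ) * (J R' ((X ^ m + v) ^ p + b) : ℝ) * Θ v)
    (by
      intro v t
      rw [J_periodic p hR', show N * R' * t = N * (R' * t) by ring, hΘ]) (X ^ m) b
  rw [← h1]
  refine Finset.sum_congr rfl fun v hv => ?_
  rw [hmu v (mem_PL.1 hv), hJ, add_comm v (X ^ m)]
  push_cast
  ring

/-- the cross terms -/
theorem L2 (hK : ringChar K ≠ 2) {m : ℕ} {b c : K[X]} (hb : b.degree < ((p * m : ℕ) : WithBot ℕ))
    (hc : c.degree < ((p * m : ℕ) : WithBot ℕ)) (hb' : b.derivative ≠ 0)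
    (hbc : c.derivative = b.derivative) {N : K[X]}
    (hm : N.natDegree + b.derivative.natDegree ≤ m) (Θ : K[X] → ℝ)
    (hΘ : ∀ v t, Θ (v + N * t) = Θ v) {B : ℝ} (hB : ∀ v, |Θ v| ≤ B)
    (S : Finset K[X]) (hS : ∀ P ∈ S, P ∈ oddp b.derivative ∧ ¬ P ∣ N ∧ ¬ P ∣ b - c) :
    (Fintype.card K : ℝ) ^ (∑ P ∈ S, P.natDegree) * |∑ v ∈ PL K m,
      (mu ((X ^ m + v) ^ p + b) : ℝ) * (mu ((X ^ m + v) ^ p + c) : ℝ) * Θ v| ≤
      B * (Fintype.card K : ℝ) ^ m := by
  classical
  obtain ⟨ε, hε, hmu⟩ := mu_center p hK hb hb'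
  obtain ⟨ε', hε', hmu'⟩ := mu_center p hK hc (by rwa [hbc])
  rw [hbc] at hmu'
  have hSm : ∀ P ∈ S, Irreducible P ∧ P.Monic := fun P hP =>
    ⟨((mem_oddp hb').1 (hS P hP).1).1, ((mem_oddp hb').1 (hS P hP).1).2.1⟩
  obtain ⟨R', hR', hnd, hdv, hJ, hdeg⟩ := J_split S hSm (mo b.derivative)
    (mo_monic hb') (fun P hP => ((mem_oddp hb').1 (hS P hP).1).2.2.mo hb')
  rw [natDegree_mo hb'] at hdeg
  obtain ⟨δ, hδ⟩ := exists_pow_eq p (f := c - b) (by rw [derivative_sub, hbc, sub_self])
  have hfac : Fac S.val := ⟨fun P hP => hSm P hP, S.nodup⟩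
  have hprod : S.val.prod = ∏ P ∈ S, P := by
    rw [Finset.prod_eq_multiset_prod, Multiset.map_id']
  have hdegS : (∏ P ∈ S, P).natDegree = ∑ P ∈ S, P.natDegree :=
    natDegree_prod_of_monic _ _ fun P hP => (hSm P hP).2
  have hshift : ∀ u : K[X], (u + δ) ^ p + b = u ^ p + c := by
    intro u
    rw [add_pow_char, hδ]; ring
  have habs : ∀ (e : ℤ), (e = 1 ∨ e = -1) → |(e : ℝ)| = 1 := by
    rintro e (rfl | rfl) <;> simp
  have h1 := abs_sum_double_le p hK (N := N * R') S.val hfac
    (by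
      intro P hP
      rw [(hSm P hP).1.prime.dvd_mul]
      exact not_or.2 ⟨(hS P hP).2.1, hnd P hP⟩)
    (δ := δ)
    (by
      intro P hP h
      apply (hS P hP).2.2
      have h2 : P ∣ c - b := hδ ▸ h.trans (dvd_pow_self _ (Fact.out : p.Prime).ne_zero)
      rw [← neg_sub]; exact (dvd_neg).2 h2)
    (m := m) (by rw [hprod]; have := natDegree_mul_le (p := N) (q := R'); omega)
    (fun v => (ε : ℝ) * (ε' : ℝ) * ((J R' ((X ^ m + v) ^ p + b) : ℝ) *
      (J R' ((X ^ m + v) ^ p + c) : ℝ)) * Θ v) (C := B)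
    (by
      intro v
      simp only [abs_mul, habs ε hε, habs ε' hε', one_mul]
      have h3 := abs_J_le R' ((X ^ m + v) ^ p + b)
      have h4 := abs_J_le R' ((X ^ m + v) ^ p + c)
      calc |(J R' ((X ^ m + v) ^ p + b) : ℝ)| * |(J R' ((X ^ m + v) ^ p + c) : ℝ)| * |Θ v|
          ≤ 1 * 1 * B := by
            gcongr
            exact hB v
        _ = B := by ring)
    (by
      intro v t
      rw [J_periodic p hR', J_periodic p hR', show N * R' * t = N * (R' * t) by ring, hΘ])
    (X ^ m) b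
  rw [hprod, hdegS] at h1
  refine le_trans (le_of_eq ?_) h1
  congr 2
  refine Finset.sum_congr rfl fun v hv => ?_
  rw [hmu v (mem_PL.1 hv), hmu' v (mem_PL.1 hv), hJ, hJ, hshift, add_comm v (X ^ m)]
  push_cast
  ring
end
end P4f18dfF
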