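import Pool.Agent.Lib.P4f18dfF.Defs8

/-! M8, first part: the hypotheses of the abstract moment lemma for a good remainder. -/

set_option autoImplicit false

namespace P4f18dfF
open Polynomial Finset Pool.Agent.P4f18dfF Pool.Agent.P4f18dfT

section per
variable {K : Type*} [Field K]

/-- `N`-periodic functions -/
def Per (N : K[X]) (Θ : K[X] → ℝ) : Prop := ∀ v t, Θ (v + N * t) = Θ v

lemma Per.of_dvd {N N' : K[X]} {Θ : K[X] → ℝ} (h : Per N Θ) (hd : N ∣ N') : Per N' Θ := by
  obtain ⟨c, rfl⟩ := hd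
  intro v t
  rw [mul_assoc]; exact h v _

lemma Per.prod {ι : Type*} (S : Finset ι) (N : ι → K[X]) (Θ : ι → K[X] → ℝ)
    (h : ∀ i ∈ S, Per (N i) (Θ i)) : Per (∏ i ∈ S, N i) (fun v => ∏ i ∈ S, Θ i v) := by
  intro v t
  apply Finset.prod_congr rfl
  intro i hi
  exact (h i hi).of_dvd (Finset.dvd_prod_of_mem N hi) v t

lemma Per.sum {ι : Type*} (S : Finset ι) (N : K[X]) (Θ : ι → K[X] → ℝ)
    (h : ∀ i ∈ S, Per N (Θ i)) : Per N (fun v => ∑ i ∈ S, Θ i v) := by
  intro v t
  apply Finset.sum_congr rfl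
  intro i hi
  exact h i hi v t

lemma Per.pow {N : K[X]} {Θ : K[X] → ℝ} (h : Per N Θ) (n : ℕ) : Per N (fun v => Θ v ^ n) := by
  intro v t
  simp only [h v t]

lemma Per.mul {N N' : K[X]} {Θ Θ' : K[X] → ℝ} (h : Per N Θ) (h' : Per N' Θ') :
    Per (N * N') (fun v => Θ v * Θ' v) := by
  intro v t
  simp only [h.of_dvd (dvd_mul_right N N') v t, h'.of_dvd (dvd_mul_left N' N) v t]

end per

section sur
variable {K : Type*} [Field K] [Fintype K] [DecidableEq K]
variable (p : ℕ) [Fact p.Prime] [CharP K p]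

/-- the periodic function which equals the Moebius function along the centres -/
lemma exists_sur (hK : ringChar K ≠ 2) (m : ℕ) (b : K[X])
    (hb : b.degree < ((p * m : ℕ) : WithBot ℕ)) (hb' : b.derivative ≠ 0) :
    ∃ g : K[X] → ℝ, (∀ v ∈ PL K m, (mu ((X ^ m + v) ^ p + b) : ℝ) = g v) ∧
      Per b.derivative g ∧ ∀ v, |g v| ≤ 1 := by
  obtain ⟨ε, hε, hmu⟩ := mu_center p hK hb hb'
  refine ⟨fun v => (ε : ℝ) * (J (mo b.derivative) ((X ^ m + v) ^ p + b) : ℝ), ?_, ?_, ?_⟩
  · intro v hv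
    rw [hmu v (mem_PL.1 hv)]; push_cast; ring
  · intro v t
    have h1 := J_periodic p (mo_monic hb') (N := 1) b (X ^ m) v (C b.derivative.leadingCoeff * t)
    rw [show (1 : K[X]) * mo b.derivative * (C b.derivative.leadingCoeff * t) =
      (C b.derivative.leadingCoeff * mo b.derivative) * t by ring, C_mul_mo hb'] at h1
    simp only [h1]
  · intro v
    rw [abs_mul]
    have h1 : |(ε : ℝ)| = 1 := by rcases hε with rfl | rfl <;> simp
    rw [h1, one_mul]
    exact abs_J_le _ _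

end sur

section cls
variable {K : Type*} [Field K] [Fintype K] [DecidableEq K]

/-- the elements of `PL K h` with the derivative `δ` -/
noncomputable def cls (h : ℕ) (δ : K[X]) : Finset K[X] := (PL K h).filter (fun a => derivative a = δ)

/-- the derivatives of the elements of `PL K h` -/
noncomputable def dd (K : Type*) [Field K] [Fintype K] [DecidableEq K] (h : ℕ) : Finset K[X] :=
  (PL K h).image (fun a => derivative a)

lemma mem_cls {h : ℕ} {δ a : K[X]} : a ∈ cls h δ ↔ a ∈ PL K h ∧ derivative a = δ := by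
  rw [cls, Finset.mem_filter]

lemma sum_dd (h : ℕ) (f : K[X] → ℝ) : ∑ δ ∈ dd K h, ∑ a ∈ cls h δ, f a = ∑ a ∈ PL K h, f a := by
  unfold dd cls
  exact Finset.sum_fiberwise_of_maps_to (fun a ha => Finset.mem_image_of_mem _ ha) f

lemma card_cls {h : ℕ} {δ : K[X]} (hδ : δ ∈ dd K h) : (cls h δ).card = (cls (K := K) h 0).card := by
  obtain ⟨a0, ha0, rfl⟩ := Finset.mem_image.1 hδ
  refine Finset.card_bij' (fun a _ => a + -a0) (fun a _ => a + a0) ?_ ?_ ?_ ?_
  · intro a ha
    rw [mem_cls] at ha ⊢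
    refine ⟨add_mem_PL ha.1 (neg_mem_PL ha0), ?_⟩
    rw [derivative_add, derivative_neg, ha.2]; ring
  · intro a ha
    rw [mem_cls] at ha ⊢
    refine ⟨add_mem_PL ha.1 ha0, ?_⟩
    rw [derivative_add, ha.2]; ring
  · intro a _; ring
  · intro a _; ring

lemma card_dd_mul (h : ℕ) : (dd K h).card * (cls (K := K) h 0).card = Fintype.card K ^ h := by
  rw [← card_PL]
  have h1 : (PL K h).card = ∑ δ ∈ dd K h, (cls h δ).card := by
    unfold dd cls
    exact Finset.card_eq_sum_card_fiberwise (fun a ha => Finset.mem_coe.2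
      (Finset.mem_image_of_mem _ (Finset.mem_coe.1 ha)))
  rw [h1, Finset.sum_congr rfl (fun δ hδ => card_cls hδ), Finset.sum_const, smul_eq_mul]

lemma cls_zero_pos (h : ℕ) : 0 < (cls (K := K) h 0).card := by
  apply Finset.card_pos.2
  exact ⟨0, mem_cls.2 ⟨zero_mem_PL h, by simp⟩⟩

lemma card_cls_zero_le (p : ℕ) [Fact p.Prime] [CharP K p] (hp : 3 ≤ p) (h : ℕ) :
    (cls (K := K) h 0).card ≤ Fintype.card K ^ ((h + 2) / 3) := by
  rw [← card_PL]
  have h1 : ∀ a : K[X], ∃ δ : K[X], derivative a = 0 → δ ^ p = a := by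
    intro a
    by_cases ha : derivative a = 0
    · obtain ⟨δ, hδ⟩ := exists_pow_eq p ha
      exact ⟨δ, fun _ => hδ⟩
    · exact ⟨0, fun h => absurd h ha⟩
  choose f hf using h1
  apply Finset.card_le_card_of_injOn f
  · intro a ha
    rw [Finset.mem_coe, mem_cls] at ha
    rw [Finset.mem_coe, mem_PL]
    have h2 := hf a ha.2
    have h3 : (f a ^ p).degree < (h : WithBot ℕ) := by rw [h2]; exact mem_PL.1 ha.1
    rcases eq_or_ne (f a) 0 with h0 | h0
    · rw [h0, degree_zero]; exact WithBot.bot_lt_coe _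
    rw [degree_pow, degree_eq_natDegree h0] at h3
    rw [degree_eq_natDegree h0]
    have h4 : p * (f a).natDegree < h := by
      have : (((p * (f a).natDegree : ℕ)) : WithBot ℕ) < (h : WithBot ℕ) := by
        push_cast
        rwa [nsmul_eq_mul] at h3
      exact_mod_cast this
    have h5 : 3 * (f a).natDegree ≤ p * (f a).natDegree := Nat.mul_le_mul_right _ hp
    exact_mod_cast (by omega : (f a).natDegree < (h + 2) / 3)
  · intro a ha b hb hab
    rw [Finset.mem_coe, mem_cls] at ha hb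
    rw [← hf a ha.2, ← hf b hb.2, hab]

end cls

section primes
variable {K : Type*} [Field K]

lemma dvd_prod_sub {ι : Type*} (S : Finset ι) (D : ι → K[X]) {D0 P : K[X]} (hP : Prime P)
    (h0 : P ∣ D0) (hN : P ∣ ∏ i ∈ S, D i) : P ∣ ∏ i ∈ S, (D0 - D i) := by
  obtain ⟨i, hi, hd⟩ := (Prime.dvd_finsetProd_iff hP _).1 hN
  exact (dvd_sub h0 hd).trans (Finset.dvd_prod_of_mem (fun i => D0 - D i) hi)

lemma dvd_of_mem_oddp {D P : K[X]} (hD : D ≠ 0) (hP : P ∈ oddp D) : P ∣ D := by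
  obtain ⟨-, -, e, c, he, hc, -⟩ := (mem_oddp hD).1 hP
  rw [hc]
  exact dvd_mul_of_dvd_left (dvd_pow_self _ he.pos.ne') _

lemma sum_natDegree_le {D G : K[X]} (hD : D ≠ 0) (hG : G ≠ 0) (S : Finset K[X]) (hS : S ⊆ oddp D)
    (hd : ∀ P ∈ S, P ∣ G) : ∑ P ∈ S, P.natDegree ≤ G.natDegree := by
  have hm : ∀ P ∈ S, Irreducible P ∧ P.Monic := fun P hP =>
    ⟨((mem_oddp hD).1 (hS hP)).1, ((mem_oddp hD).1 (hS hP)).2.1⟩
  rw [← natDegree_prod_of_monic _ _ (fun P hP => (hm P hP).2)]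
  apply natDegree_le_of_dvd _ hG
  apply Finset.prod_dvd_of_coprime
  · intro P hP Q hQ hne
    rw [Finset.mem_coe] at hP hQ
    rw [Function.onFun, (hm P hP).1.coprime_iff_not_dvd]
    intro h
    exact hne (eq_of_monic_of_associated (hm P hP).2 (hm Q hQ).2
      ((hm P hP).1.associated_of_dvd (hm Q hQ).1 h))
  · exact hd

end primes

end P4f18dfF
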