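import Pool.Agent.Lib.P4f18dfF.M8a

/-! M8, second part: the hypotheses of the abstract moment lemma for a good remainder. -/

set_option autoImplicit false

namespace P4f18dfF
open Polynomial Finset Pool.Agent.P4f18dfF Pool.Agent.P4f18dfT

variable {K : Type*} [Field K] [Fintype K] [DecidableEq K]

/-- surrogates for the values of the Moebius function -/
structure Sur (p m h : ℕ) (r : K[X]) (g : K[X] → K[X] → ℝ) : Prop where
  val : ∀ a ∈ PL K h, ∀ v ∈ PL K m, (mu ((X ^ m + v) ^ p + (r + a)) : ℝ) = g a v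
  per : ∀ a ∈ PL K h, Per (r + a).derivative (g a)
  le : ∀ a v, |g a v| ≤ 1

lemma exists_Sur (p : ℕ) [Fact p.Prime] [CharP K p] (hK : ringChar K ≠ 2) {m h d L : ℕ} {r : K[X]}
    (hr : r ∈ PL K d) (hd : h ≤ d) (hm : d ≤ m) (hgood : Good L h r) :
    ∃ g : K[X] → K[X] → ℝ, Sur p m h r g := by
  have h1 : ∀ a : K[X], ∃ g : K[X] → ℝ, (a ∈ PL K h →
      (∀ v ∈ PL K m, (mu ((X ^ m + v) ^ p + (r + a)) : ℝ) = g v) ∧
      Per (r + a).derivative g) ∧ ∀ v, |g v| ≤ 1 := by
    intro a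
    by_cases ha : a ∈ PL K h
    · have hb : (r + a).degree < ((p * m : ℕ) : WithBot ℕ) := by
        have h2 : (r + a) ∈ PL K d := add_mem_PL hr (PL_mono hd ha)
        have h3 : d ≤ p * m := hm.trans (Nat.le_mul_of_pos_left _ (Fact.out : p.Prime).pos)
        exact mem_PL.1 (PL_mono h3 h2)
      obtain ⟨g, g1, g2, g3⟩ := exists_sur p hK m (r + a) hb (hgood a (mem_PL.1 ha)).1
      exact ⟨g, fun _ => ⟨g1, g2⟩, g3⟩
    · exact ⟨fun _ => 0, fun h => absurd h ha, fun v => by simp⟩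
  choose g hg1 hg2 using h1
  exact ⟨g, fun a ha => (hg1 a ha).1, fun a ha => (hg1 a ha).2, hg2⟩

/-- class sums -/
noncomputable def XX (h : ℕ) (g : K[X] → K[X] → ℝ) (δ v : K[X]) : ℝ := ∑ a ∈ cls h δ, g a v

/-- class sums of squares -/
noncomputable def YY (h : ℕ) (g : K[X] → K[X] → ℝ) (δ v : K[X]) : ℝ := ∑ a ∈ cls h δ, g a v ^ 2

section
variable {p m h d L k : ℕ} {r : K[X]} {g : K[X] → K[X] → ℝ}

lemma per_XX (hs : Sur p m h r g) (δ : K[X]) : Per (r.derivative + δ) (XX h g δ) := by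
  unfold XX
  apply Per.sum
  intro a ha
  rw [mem_cls] at ha
  have := hs.per a ha.1
  rwa [derivative_add, ha.2] at this

lemma per_YY (hs : Sur p m h r g) (δ : K[X]) : Per (r.derivative + δ) (YY h g δ) := by
  unfold YY
  apply Per.sum
  intro a ha
  rw [mem_cls] at ha
  have := (hs.per a ha.1).pow 2
  rwa [derivative_add, ha.2] at this

lemma card_cls_le (δ : K[X]) : ((cls (K := K) h δ).card : ℝ) ≤ ((cls (K := K) h 0).card : ℝ) := by
  by_cases hδ : δ ∈ dd K h
  · rw [card_cls hδ]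
  · have : cls h δ = ∅ := by
      rw [Finset.eq_empty_iff_forall_notMem]
      intro a ha
      rw [mem_cls] at ha
      exact hδ (Finset.mem_image.2 ⟨a, ha.1, ha.2⟩)
    rw [this]; simp

lemma abs_XX_le (hs : Sur p m h r g) (δ v : K[X]) :
    |XX h g δ v| ≤ ((cls (K := K) h 0).card : ℝ) := by
  unfold XX
  refine (Finset.abs_sum_le_sum_abs _ _).trans ?_
  refine (Finset.sum_le_sum (fun a _ => hs.le a v)).trans ?_
  rw [Finset.sum_const, nsmul_eq_mul, mul_one]
  exact card_cls_le δ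

lemma YY_nonneg (δ v : K[X]) : 0 ≤ YY h g δ v := Finset.sum_nonneg (fun _ _ => sq_nonneg _)

lemma YY_le (hs : Sur p m h r g) (δ v : K[X]) :
    YY h g δ v ≤ ((cls (K := K) h 0).card : ℝ) := by
  unfold YY
  have h1 : ∀ a ∈ cls h δ, g a v ^ 2 ≤ 1 := by
    intro a _
    rw [← sq_abs]
    exact pow_le_one₀ (abs_nonneg _) (hs.le a v)
  refine (Finset.sum_le_sum h1).trans ?_
  rw [Finset.sum_const, nsmul_eq_mul, mul_one]
  exact card_cls_le δ

lemma natDegree_dd {δ : K[X]} (hδ : δ ∈ dd K h) : δ.natDegree ≤ h := by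
  obtain ⟨a, ha, rfl⟩ := Finset.mem_image.1 hδ
  have h1 : a.natDegree ≤ h := natDegree_le_of_degree_le (mem_PL.1 ha).le
  exact (natDegree_derivative_le a).trans ((Nat.sub_le _ _).trans h1)

lemma natDegree_rd (hr : r ∈ PL K d) (hd : h ≤ d) {δ : K[X]} (hδ : δ ∈ dd K h) :
    (r.derivative + δ).natDegree ≤ d := by
  obtain ⟨a, ha, rfl⟩ := Finset.mem_image.1 hδ
  rw [← derivative_add]
  have h1 : (r + a).natDegree ≤ d :=
    natDegree_le_of_degree_le (mem_PL.1 (add_mem_PL hr (PL_mono hd ha))).le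
  exact (natDegree_derivative_le _).trans ((Nat.sub_le _ _).trans h1)

omit [Fintype K] [DecidableEq K] in
lemma natDegree_prod_le_mul {ι : Type*} (S : Finset ι) (D : ι → K[X]) {n : ℕ}
    (hD : ∀ i ∈ S, (D i).natDegree ≤ n) : (∏ i ∈ S, D i).natDegree ≤ S.card * n := by
  refine (natDegree_prod_le S D).trans ?_
  refine (Finset.sum_le_sum hD).trans ?_
  rw [Finset.sum_const, smul_eq_mul]

variable [Fact p.Prime] [CharP K p]

/-- hypothesis (a) -/
lemma hyp_a (hK : ringChar K ≠ 2) (hs : Sur p m h r g) (hr : r ∈ PL K d) (hd : h ≤ d)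
    (hgood : Good L h r) (hL : k * h < L) (hdm : d ≤ m) (hm : k * d ≤ m)
    (t : Fin k → K[X]) (ht : ∀ j, t j ∈ dd K h) (hi : ∃ i, ∀ j, j ≠ i → t j ≠ t i) :
    ex (PL K m) (fun v => ∏ j, XX h g (t j) v) = 0 := by
  obtain ⟨i, hi⟩ := hi
  set D : Fin k → K[X] := fun j => r.derivative + t j with hDdef
  set N : K[X] := ∏ j ∈ univ.erase i, D j with hN
  set Θ : K[X] → ℝ := fun v => ∏ j ∈ univ.erase i, XX h g (t j) v with hΘ
  have hper : Per N Θ := Per.prod _ _ _ (fun j _ => per_XX hs (t j))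
  have hk : 0 < k := Fin.pos_iff_nonempty.2 ⟨i⟩
  have hcard : (univ.erase i : Finset (Fin k)).card = k - 1 := by
    rw [Finset.card_erase_of_mem (Finset.mem_univ _), Finset.card_univ, Fintype.card_fin]
  obtain ⟨a0, ha0, hta0⟩ := Finset.mem_image.1 (ht i)
  have hD0 : D i = (r + a0).derivative := by rw [hDdef, derivative_add]; simp only [hta0]
  have hDi : D i ≠ 0 := by rw [hD0]; exact (hgood a0 (mem_PL.1 ha0)).1
  have hodd : L ≤ oddeg (D i) := by rw [hD0]; exact (hgood a0 (mem_PL.1 ha0)).2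
  -- a prime of odd multiplicity not dividing N
  have hex : ∃ P ∈ oddp (D i), ¬ P ∣ N := by
    by_contra hcon
    push Not at hcon
    have hG : ∏ j ∈ univ.erase i, (D i - D j) ≠ 0 := by
      rw [Finset.prod_ne_zero_iff]
      intro j hj
      have hji : j ≠ i := (Finset.mem_erase.1 hj).1
      intro h0
      apply hi j hji
      have : D i - D j = t i - t j := by rw [hDdef]; ring
      rw [this, sub_eq_zero] at h0
      exact h0.symm
    have h1 := sum_natDegree_le hDi hG (oddp (D i)) (Finset.Subset.refl _) (fun P hP =>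
      dvd_prod_sub _ D ((mem_oddp hDi).1 hP).1.prime (dvd_of_mem_oddp hDi hP) (hcon P hP))
    have h2 : (∏ j ∈ univ.erase i, (D i - D j)).natDegree ≤ (k - 1) * h := by
      rw [← hcard]
      apply natDegree_prod_le_mul
      intro j _
      have : D i - D j = t i - t j := by rw [hDdef]; ring
      rw [this]
      exact (natDegree_sub_le _ _).trans (max_le (natDegree_dd (ht i)) (natDegree_dd (ht j)))
    have h3 : (k - 1) * h ≤ k * h := Nat.mul_le_mul_right _ (Nat.sub_le _ _)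
    unfold oddeg at hodd
    omega
  obtain ⟨P, hP, hPN⟩ := hex
  have hNdeg : N.natDegree ≤ (k - 1) * d := by
    rw [← hcard]
    exact natDegree_prod_le_mul _ _ (fun j _ => natDegree_rd hr hd (ht j))
  have h1 : ∀ v, ∏ j, XX h g (t j) v = ∑ a ∈ cls h (t i), g a v * Θ v := by
    intro v
    rw [← Finset.mul_prod_erase univ (fun j => XX h g (t j) v) (Finset.mem_univ i)]
    simp only [hΘ, XX, Finset.sum_mul]
  have h2 : ex (PL K m) (fun v => ∏ j, XX h g (t j) v) =
      ∑ a ∈ cls h (t i), ex (PL K m) (fun v => g a v * Θ v) := by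
    rw [← ex_sum]
    exact ex_congr (fun v _ => h1 v)
  rw [h2]
  apply Finset.sum_eq_zero
  intro a ha
  rw [mem_cls] at ha
  have hDa : (r + a).derivative = D i := by rw [derivative_add, ha.2]
  have hda : (r + a).derivative.natDegree ≤ d := by
    rw [hDa]; exact natDegree_rd hr hd (ht i)
  have hb : (r + a).degree < ((p * m : ℕ) : WithBot ℕ) := by
    have h2 : (r + a) ∈ PL K d := add_mem_PL hr (PL_mono hd ha.1)
    have h3 : d ≤ p * m := hdm.trans (Nat.le_mul_of_pos_left _ (Fact.out : p.Prime).pos)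
    exact mem_PL.1 (PL_mono h3 h2)
  have h3 := L1 p hK (m := m) (b := r + a) hb (hgood a (mem_PL.1 ha.1)).1 (P := P) (N := N)
    (by rw [hDa]; exact hP) hPN (by
      have : (k - 1) * d + d = k * d := by
        rw [← Nat.succ_mul, Nat.succ_eq_add_one, Nat.sub_add_cancel hk]
      omega) Θ hper
  have h4 : ∑ v ∈ PL K m, g a v * Θ v = 0 := by
    rw [← h3]
    apply Finset.sum_congr rfl
    intro v hv
    rw [hs.val a ha.1 v hv]
  unfold ex
  rw [h4, zero_div]

end

end P4f18dfF
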