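import Pool.Agent.Lib.P4f18dfF.M8b

/-! M8, third part: the diagonal approximation for a good remainder. -/

set_option autoImplicit false

namespace P4f18dfF
open Polynomial Finset Pool.Agent.P4f18dfF Pool.Agent.P4f18dfT

variable {K : Type*} [Field K] [Fintype K] [DecidableEq K]

section
variable {p m h d L k : ℕ} {r : K[X]} {g : K[X] → K[X] → ℝ}

lemma sq_sub_diag {ι : Type*} [DecidableEq ι] (A : Finset ι) (x : ι → ℝ) :
    (∑ a ∈ A, x a) ^ 2 - ∑ a ∈ A, x a ^ 2 = ∑ a ∈ A, ∑ b ∈ A.erase a, x a * x b := by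
  rw [sq, Finset.sum_mul_sum, ← Finset.sum_sub_distrib]
  apply Finset.sum_congr rfl
  intro a ha
  rw [← Finset.add_sum_erase A (fun b => x a * x b) ha]
  ring

variable [Fact p.Prime] [CharP K p]

/-- one pair of different elements of a class -/
lemma pair_le (hK : ringChar K ≠ 2) (hs : Sur p m h r g) (hr : r ∈ PL K d) (hd : h ≤ d)
    (hgood : Good L h r) (hL : k * h ≤ L) (hdm : d ≤ m) (hm : k * d ≤ m)
    {δ0 : K[X]} (hδ0 : δ0 ∈ dd K h) (S1 S2 : Finset K[X]) (hS1 : S1 ⊆ dd K h) (hS2 : S2 ⊆ dd K h)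
    (h01 : δ0 ∉ S1) (h02 : δ0 ∉ S2) (hcard : S1.card + S2.card + 1 ≤ k)
    (Θ : K[X] → ℝ)
    (hΘ : Per ((∏ δ ∈ S1, (r.derivative + δ)) * ∏ δ ∈ S2, (r.derivative + δ)) Θ)
    {B : ℝ} (hB : ∀ v, |Θ v| ≤ B) {a b : K[X]} (ha : a ∈ cls h δ0) (hb : b ∈ cls h δ0)
    (hab : b ≠ a) :
    |ex (PL K m) (fun v => g a v * g b v * Θ v)| ≤ B / (Fintype.card K : ℝ) ^ (L - k * h) := by
  classical
  have hq1 : (1 : ℝ) ≤ (Fintype.card K : ℝ) := by
    exact_mod_cast Fintype.card_pos (α := K)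
  have hq0 : (0 : ℝ) < (Fintype.card K : ℝ) := by linarith
  have hB0 : 0 ≤ B := (abs_nonneg _).trans (hB 0)
  rw [mem_cls] at ha hb
  set N1 : K[X] := ∏ δ ∈ S1, (r.derivative + δ) with hN1
  set N2 : K[X] := ∏ δ ∈ S2, (r.derivative + δ) with hN2
  set D0 : K[X] := r.derivative + δ0 with hD0def
  set G1 : K[X] := ∏ δ ∈ S1, (D0 - (r.derivative + δ)) with hG1
  set G2 : K[X] := ∏ δ ∈ S2, (D0 - (r.derivative + δ)) with hG2
  have hDa : (r + a).derivative = D0 := by rw [derivative_add, ha.2]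
  have hDb : (r + b).derivative = D0 := by rw [derivative_add, hb.2]
  have hD0 : D0 ≠ 0 := by rw [← hDa]; exact (hgood a (mem_PL.1 ha.1)).1
  have hodd : L ≤ oddeg D0 := by rw [← hDa]; exact (hgood a (mem_PL.1 ha.1)).2
  have hGne : ∀ S : Finset K[X], δ0 ∉ S → ∏ δ ∈ S, (D0 - (r.derivative + δ)) ≠ 0 := by
    intro S hS
    rw [Finset.prod_ne_zero_iff]
    intro δ hδ h0
    have : D0 - (r.derivative + δ) = δ0 - δ := by rw [hD0def]; ring
    rw [this, sub_eq_zero] at h0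
    exact hS (h0 ▸ hδ)
  have hGdeg : ∀ S : Finset K[X], S ⊆ dd K h →
      (∏ δ ∈ S, (D0 - (r.derivative + δ))).natDegree ≤ S.card * h := by
    intro S hS
    apply natDegree_prod_le_mul
    intro δ hδ
    have : D0 - (r.derivative + δ) = δ0 - δ := by rw [hD0def]; ring
    rw [this]
    exact (natDegree_sub_le _ _).trans (max_le (natDegree_dd hδ0) (natDegree_dd (hS hδ)))
  have hsub : a - b ≠ 0 := fun h0 => hab (sub_eq_zero.1 h0).symm
  have hsubdeg : (a - b).natDegree ≤ h :=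
    (natDegree_sub_le _ _).trans (max_le (natDegree_le_of_degree_le (mem_PL.1 ha.1).le)
      (natDegree_le_of_degree_le (mem_PL.1 hb.1).le))
  set S : Finset K[X] := (oddp D0).filter (fun P => ¬ (P ∣ N1 * N2 ∨ P ∣ a - b)) with hS
  set T : Finset K[X] := (oddp D0).filter (fun P => (P ∣ N1 * N2 ∨ P ∣ a - b)) with hT
  have hsplit : ∑ P ∈ T, P.natDegree + ∑ P ∈ S, P.natDegree = oddeg D0 := by
    rw [hS, hT, oddeg]
    exact Finset.sum_filter_add_sum_filter_not _ _ _
  have hTle : ∑ P ∈ T, P.natDegree ≤ k * h := by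
    have h1 := sum_natDegree_le hD0 (mul_ne_zero (mul_ne_zero (hGne S1 h01) (hGne S2 h02)) hsub)
      T (Finset.filter_subset _ _) (fun P hP => by
        rw [hT, Finset.mem_filter] at hP
        have hprime := ((mem_oddp hD0).1 hP.1).1.prime
        have hdvd := dvd_of_mem_oddp hD0 hP.1
        rcases hP.2 with h2 | h2
        · rcases hprime.dvd_or_dvd h2 with h3 | h3
          · exact ((dvd_prod_sub S1 (fun δ => r.derivative + δ) hprime hdvd h3).mul_right _).mul_right _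
          · exact ((dvd_prod_sub S2 (fun δ => r.derivative + δ) hprime hdvd h3).mul_left _).mul_right _
        · exact h2.mul_left _)
    refine h1.trans ?_
    refine natDegree_mul_le.trans ?_
    have h2 := natDegree_mul_le (p := ∏ δ ∈ S1, (D0 - (r.derivative + δ)))
      (q := ∏ δ ∈ S2, (D0 - (r.derivative + δ)))
    have h3 := hGdeg S1 hS1
    have h4 := hGdeg S2 hS2
    have h5 : (S1.card + S2.card + 1) * h ≤ k * h := Nat.mul_le_mul_right _ hcard
    have h6 : (S1.card + S2.card + 1) * h = S1.card * h + S2.card * h + h := by ring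
    omega
  have hSge : L - k * h ≤ ∑ P ∈ S, P.natDegree := by omega
  have hNdeg : (N1 * N2).natDegree ≤ (S1.card + S2.card) * d := by
    refine natDegree_mul_le.trans ?_
    have h3 : N1.natDegree ≤ S1.card * d :=
      natDegree_prod_le_mul _ _ (fun δ hδ => natDegree_rd hr hd (hS1 hδ))
    have h4 : N2.natDegree ≤ S2.card * d :=
      natDegree_prod_le_mul _ _ (fun δ hδ => natDegree_rd hr hd (hS2 hδ))
    rw [add_mul]; omega
  have hdeg : ∀ x ∈ PL K h, (r + x).degree < ((p * m : ℕ) : WithBot ℕ) := by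
    intro x hx
    have h2 : (r + x) ∈ PL K d := add_mem_PL hr (PL_mono hd hx)
    have h3 : d ≤ p * m := hdm.trans (Nat.le_mul_of_pos_left _ (Fact.out : p.Prime).pos)
    exact mem_PL.1 (PL_mono h3 h2)
  have hda : D0.natDegree ≤ d := natDegree_rd hr hd hδ0
  have key := L2 p hK (m := m) (b := r + a) (c := r + b) (hdeg a ha.1) (hdeg b hb.1)
    (by rw [hDa]; exact hD0) (by rw [hDa, hDb]) (N := N1 * N2)
    (by
      rw [hDa]
      have h5 : (S1.card + S2.card + 1) * d ≤ k * d := Nat.mul_le_mul_right _ hcard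
      have h6 : (S1.card + S2.card + 1) * d = (S1.card + S2.card) * d + d := by ring
      omega) Θ hΘ hB S
    (by
      intro P hP
      rw [hS, Finset.mem_filter, not_or] at hP
      rw [hDa]
      refine ⟨hP.1, hP.2.1, ?_⟩
      rw [show r + a - (r + b) = a - b by ring]
      exact hP.2.2)
  have e1 : ∑ v ∈ PL K m, (mu ((X ^ m + v) ^ p + (r + a)) : ℝ) *
      (mu ((X ^ m + v) ^ p + (r + b)) : ℝ) * Θ v = ∑ v ∈ PL K m, g a v * g b v * Θ v := by
    apply Finset.sum_congr rfl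
    intro v hv
    rw [hs.val a ha.1 v hv, hs.val b hb.1 v hv]
  rw [e1] at key
  unfold ex
  rw [abs_div, card_PL, Nat.abs_cast, div_le_div_iff₀ (by positivity) (by positivity)]
  push_cast
  calc |∑ v ∈ PL K m, g a v * g b v * Θ v| * (Fintype.card K : ℝ) ^ (L - k * h) ≤
      |∑ v ∈ PL K m, g a v * g b v * Θ v| * (Fintype.card K : ℝ) ^ (∑ P ∈ S, P.natDegree) := by
        gcongr
    _ = (Fintype.card K : ℝ) ^ (∑ P ∈ S, P.natDegree) *
          |∑ v ∈ PL K m, g a v * g b v * Θ v| := mul_comm _ _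
    _ ≤ _ := key

/-- one class -/
lemma one_class (hK : ringChar K ≠ 2) (hs : Sur p m h r g) (hr : r ∈ PL K d) (hd : h ≤ d)
    (hgood : Good L h r) (hL : k * h ≤ L) (hdm : d ≤ m) (hm : k * d ≤ m)
    {δ0 : K[X]} (hδ0 : δ0 ∈ dd K h) (S1 S2 : Finset K[X]) (hS1 : S1 ⊆ dd K h) (hS2 : S2 ⊆ dd K h)
    (h01 : δ0 ∉ S1) (h02 : δ0 ∉ S2) (hcard : S1.card + S2.card + 1 ≤ k) :
    |ex (PL K m) (fun v => (XX h g δ0 v ^ 2 - YY h g δ0 v) *
      ((∏ δ ∈ S1, XX h g δ v ^ 2) * ∏ δ ∈ S2, YY h g δ v))| ≤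
      ((cls (K := K) h 0).card : ℝ) ^ (2 * k) / (Fintype.card K : ℝ) ^ (L - k * h) := by
  set B : ℝ := ((cls (K := K) h 0).card : ℝ) with hB
  have hB1 : 1 ≤ B := by rw [hB]; exact_mod_cast cls_zero_pos h
  have hq0 : (0 : ℝ) < (Fintype.card K : ℝ) := by exact_mod_cast Fintype.card_pos (α := K)
  set Θ : K[X] → ℝ := fun v => (∏ δ ∈ S1, XX h g δ v ^ 2) * ∏ δ ∈ S2, YY h g δ v with hΘ
  have hper : Per ((∏ δ ∈ S1, (r.derivative + δ)) * ∏ δ ∈ S2, (r.derivative + δ)) Θ := by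
    apply Per.mul
    · exact Per.prod _ _ (fun δ v => XX h g δ v ^ 2) (fun δ _ => (per_XX hs δ).pow 2)
    · exact Per.prod _ _ (fun δ v => YY h g δ v) (fun δ _ => per_YY hs δ)
  have hΘB : ∀ v, |Θ v| ≤ B ^ (2 * (k - 1)) := by
    intro v
    have h1 : |∏ δ ∈ S1, XX h g δ v ^ 2| ≤ B ^ (2 * S1.card) := by
      rw [Finset.abs_prod, pow_mul, ← Finset.prod_const]
      apply Finset.prod_le_prod
      · intro _ _; exact abs_nonneg _
      · intro δ _
        rw [abs_pow]
        exact pow_le_pow_left₀ (abs_nonneg _) (abs_XX_le hs δ v) 2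
    have h2 : |∏ δ ∈ S2, YY h g δ v| ≤ B ^ (2 * S2.card) := by
      rw [Finset.abs_prod, pow_mul, ← Finset.prod_const]
      apply Finset.prod_le_prod
      · intro _ _; exact abs_nonneg _
      · intro δ _
        rw [abs_of_nonneg (YY_nonneg δ v)]
        refine (YY_le hs δ v).trans ?_
        rw [← hB]
        nlinarith
    rw [hΘ]
    simp only
    rw [abs_mul]
    calc _ ≤ B ^ (2 * S1.card) * B ^ (2 * S2.card) := by gcongr
      _ = B ^ (2 * S1.card + 2 * S2.card) := (pow_add _ _ _).symm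
      _ ≤ _ := pow_le_pow_right₀ hB1 (by omega)
  have e1 : ex (PL K m) (fun v => (XX h g δ0 v ^ 2 - YY h g δ0 v) * Θ v) =
      ∑ a ∈ cls h δ0, ∑ b ∈ (cls h δ0).erase a, ex (PL K m) (fun v => g a v * g b v * Θ v) := by
    simp only [← ex_sum]
    apply ex_congr
    intro v _
    unfold XX YY
    rw [sq_sub_diag, Finset.sum_mul]
    apply Finset.sum_congr rfl
    intro a _
    rw [Finset.sum_mul]
  rw [e1]
  have hBk : 0 ≤ B ^ (2 * (k - 1)) / (Fintype.card K : ℝ) ^ (L - k * h) := by positivity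
  have h3 : ∀ a ∈ cls h δ0, |∑ b ∈ (cls h δ0).erase a, ex (PL K m) (fun v => g a v * g b v * Θ v)| ≤
      B * (B ^ (2 * (k - 1)) / (Fintype.card K : ℝ) ^ (L - k * h)) := by
    intro a ha
    refine (Finset.abs_sum_le_sum_abs _ _).trans ?_
    refine (Finset.sum_le_sum (fun b hb => pair_le hK hs hr hd hgood hL hdm hm hδ0 S1 S2 hS1 hS2
      h01 h02 hcard Θ hper hΘB ha (Finset.mem_of_mem_erase hb) (Finset.ne_of_mem_erase hb))).trans ?_
    rw [Finset.sum_const, nsmul_eq_mul]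
    apply mul_le_mul_of_nonneg_right _ hBk
    have h4 : ((cls h δ0).erase a).card ≤ (cls h δ0).card := Finset.card_erase_le
    have h5 : ((((cls h δ0).erase a).card : ℕ) : ℝ) ≤ ((cls h δ0).card : ℝ) := by exact_mod_cast h4
    exact h5.trans (card_cls_le δ0)
  refine (Finset.abs_sum_le_sum_abs _ _).trans ((Finset.sum_le_sum h3).trans ?_)
  rw [Finset.sum_const, nsmul_eq_mul]
  have h6 : ((cls h δ0).card : ℝ) ≤ B := card_cls_le δ0
  calc ((cls h δ0).card : ℝ) * (B * (B ^ (2 * (k - 1)) / (Fintype.card K : ℝ) ^ (L - k * h))) ≤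
      B * (B * (B ^ (2 * (k - 1)) / (Fintype.card K : ℝ) ^ (L - k * h))) := by gcongr
    _ = B ^ (2 + 2 * (k - 1)) / (Fintype.card K : ℝ) ^ (L - k * h) := by
        rw [pow_add]; ring
    _ = _ := by
        congr 2; omega

/-- hypothesis (c) -/
lemma hyp_c (hK : ringChar K ≠ 2) (hs : Sur p m h r g) (hr : r ∈ PL K d) (hd : h ≤ d)
    (hgood : Good L h r) (hL : k * h ≤ L) (hdm : d ≤ m) (hm : k * d ≤ m)
    (S : Finset K[X]) : ∀ U : Finset K[X], S ⊆ dd K h → U ⊆ dd K h → Disjoint S U →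
      S.card + U.card ≤ k →
    |ex (PL K m) (fun v => (∏ δ ∈ S, XX h g δ v ^ 2) * ∏ δ ∈ U, YY h g δ v) -
      ex (PL K m) (fun v => (∏ δ ∈ S, YY h g δ v) * ∏ δ ∈ U, YY h g δ v)| ≤
      S.card * (((cls (K := K) h 0).card : ℝ) ^ (2 * k) / (Fintype.card K : ℝ) ^ (L - k * h)) := by
  induction S using Finset.induction_on with
  | empty => intro U _ _ _ _; simp
  | insert δ S hδS ih =>
    intro U hS hU hdis hcard
    rw [Finset.card_insert_of_notMem hδS] at hcard
    rw [Finset.card_insert_of_notMem hδS]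
    rw [Finset.disjoint_insert_left] at hdis
    have hδ : δ ∈ dd K h := hS (Finset.mem_insert_self _ _)
    have hS' : S ⊆ dd K h := fun x hx => hS (Finset.mem_insert_of_mem hx)
    have h1 := one_class hK hs hr hd hgood hL hdm hm hδ S U hS' hU hδS hdis.1 (by omega)
    have h2 := ih (insert δ U) hS' (Finset.insert_subset hδ hU)
      (by rw [Finset.disjoint_insert_right]; exact ⟨hδS, hdis.2⟩)
      (by rw [Finset.card_insert_of_notMem hdis.1]; omega)
    have e1 : ∀ v, (∏ x ∈ insert δ S, XX h g x v ^ 2) * ∏ x ∈ U, YY h g x v =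
        (XX h g δ v ^ 2 - YY h g δ v) * ((∏ x ∈ S, XX h g x v ^ 2) * ∏ x ∈ U, YY h g x v) +
        (∏ x ∈ S, XX h g x v ^ 2) * ∏ x ∈ insert δ U, YY h g x v := by
      intro v
      rw [Finset.prod_insert hδS, Finset.prod_insert hdis.1]; ring
    have e2 : ∀ v, (∏ x ∈ insert δ S, YY h g x v) * ∏ x ∈ U, YY h g x v =
        (∏ x ∈ S, YY h g x v) * ∏ x ∈ insert δ U, YY h g x v := by
      intro v
      rw [Finset.prod_insert hδS, Finset.prod_insert hdis.1]; ring
    rw [ex_congr (fun v _ => e1 v), ex_congr (fun v _ => e2 v), ex_add, add_sub_assoc]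
    refine (abs_add_le _ _).trans ?_
    push_cast
    rw [add_mul, one_mul, add_comm]
    exact add_le_add h2 h1

end

end P4f18dfF
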