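import Pool.Agent.Lib.P4f18dfF.M8a

/-! The moments of weighted sums over families of classes with a common derivative. -/

set_option autoImplicit false

namespace P4f18dfF
open Polynomial Finset Pool.Agent.P4f18dfF Pool.Agent.P4f18dfT Pool.Agent.P4f18dfC

variable {K : Type*} [Field K] [Fintype K] [DecidableEq K]
variable {ι : Type*} [DecidableEq ι]

/-- a family of classes `A i` of polynomials with the common derivative `D i` -/
structure Fam (p m d s L : ℕ) (I : Finset ι) (A : ι → Finset K[X]) (D : ι → K[X]) : Prop where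
  der : ∀ i ∈ I, ∀ b ∈ A i, b.derivative = D i
  deg : ∀ i ∈ I, ∀ b ∈ A i, b.degree < ((p * m : ℕ) : WithBot ℕ)
  ne : ∀ i ∈ I, D i ≠ 0
  odd : ∀ i ∈ I, L ≤ oddeg (D i)
  nd : ∀ i ∈ I, (D i).natDegree ≤ d
  cross : ∀ i ∈ I, ∀ j ∈ I, i ≠ j → ∀ S ⊆ oddp (D i), (∀ P ∈ S, P ∣ D j) →
    ∑ P ∈ S, P.natDegree ≤ s
  close : ∀ i ∈ I, ∀ b ∈ A i, ∀ c ∈ A i, b ≠ c → (b - c).natDegree ≤ s

/-- surrogates for all polynomials at once -/
lemma exists_gsur (p : ℕ) [Fact p.Prime] [CharP K p] (hK : ringChar K ≠ 2) (m : ℕ) :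
    ∃ g : K[X] → K[X] → ℝ, (∀ b v, |g b v| ≤ 1) ∧ ∀ b : K[X],
      b.degree < ((p * m : ℕ) : WithBot ℕ) → b.derivative ≠ 0 →
      (∀ v ∈ PL K m, (mu ((X ^ m + v) ^ p + b) : ℝ) = g b v) ∧ Per b.derivative (g b) := by
  have h1 : ∀ b : K[X], ∃ g : K[X] → ℝ, (∀ v, |g v| ≤ 1) ∧
      (b.degree < ((p * m : ℕ) : WithBot ℕ) → b.derivative ≠ 0 →
      (∀ v ∈ PL K m, (mu ((X ^ m + v) ^ p + b) : ℝ) = g v) ∧ Per b.derivative g) := by
    intro b
    by_cases hb : b.degree < ((p * m : ℕ) : WithBot ℕ) ∧ b.derivative ≠ 0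
    · obtain ⟨g, g1, g2, g3⟩ := exists_sur p hK m b hb.1 hb.2
      exact ⟨g, g3, fun _ _ => ⟨g1, g2⟩⟩
    · exact ⟨fun _ => 0, fun v => by simp, fun h1 h2 => absurd ⟨h1, h2⟩ hb⟩
  choose g hg1 hg2 using h1
  exact ⟨g, hg1, hg2⟩

omit [Fintype K] [DecidableEq K] in
/-- primes dividing one of several polynomials -/
lemma sum_cover {κ : Type*} (T : Finset K[X]) (J : Finset κ) (D : κ → K[X]) (s : ℕ)
    (hT : ∀ P ∈ T, ∃ j ∈ J, P ∣ D j)
    (h : ∀ j ∈ J, ∀ S ⊆ T, (∀ P ∈ S, P ∣ D j) → ∑ P ∈ S, P.natDegree ≤ s) :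
    ∑ P ∈ T, P.natDegree ≤ J.card * s := by
  classical
  have h1 : ∀ P ∈ T, P.natDegree ≤ ∑ j ∈ J, if P ∣ D j then P.natDegree else 0 := by
    intro P hP
    obtain ⟨j, hj, hd⟩ := hT P hP
    calc P.natDegree = if P ∣ D j then P.natDegree else 0 := by rw [if_pos hd]
      _ ≤ _ := Finset.single_le_sum (f := fun j => if P ∣ D j then P.natDegree else 0)
        (fun _ _ => Nat.zero_le _) hj
  refine (Finset.sum_le_sum h1).trans ?_
  rw [Finset.sum_comm]
  have h2 : ∀ j ∈ J, ∑ P ∈ T, (if P ∣ D j then P.natDegree else 0) ≤ s := by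
    intro j hj
    rw [← Finset.sum_filter]
    exact h j hj _ (Finset.filter_subset _ _) (fun P hP => (Finset.mem_filter.1 hP).2)
  refine (Finset.sum_le_sum h2).trans ?_
  rw [Finset.sum_const, smul_eq_mul]

/-- weighted class sums -/
noncomputable def XG (A : ι → Finset K[X]) (al : ι → ℝ) (g : K[X] → K[X] → ℝ) (i : ι) (v : K[X]) :
    ℝ := al i * ∑ b ∈ A i, g b v

/-- weighted class sums of squares -/
noncomputable def YG (A : ι → Finset K[X]) (al : ι → ℝ) (g : K[X] → K[X] → ℝ) (i : ι) (v : K[X]) :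
    ℝ := al i ^ 2 * ∑ b ∈ A i, g b v ^ 2

section
variable {p m d s L k : ℕ} {I : Finset ι} {A : ι → Finset K[X]} {D : ι → K[X]} {al : ι → ℝ}
  {g : K[X] → K[X] → ℝ} {B : ℝ}

omit [Fintype K] [DecidableEq K] [DecidableEq ι] in
lemma Per.const_mul {N : K[X]} {Θ : K[X] → ℝ} (h : Per N Θ) (c : ℝ) :
    Per N (fun v => c * Θ v) := by
  intro v t
  simp only [h v t]

omit [DecidableEq ι] [DecidableEq K] in
lemma per_XG (hF : Fam p m d s L I A D)
    (hg : ∀ b : K[X], b.degree < ((p * m : ℕ) : WithBot ℕ) → b.derivative ≠ 0 →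
      (∀ v ∈ PL K m, (mu ((X ^ m + v) ^ p + b) : ℝ) = g b v) ∧ Per b.derivative (g b))
    {i : ι} (hi : i ∈ I) : Per (D i) (XG A al g i) := by
  unfold XG
  apply Per.const_mul
  apply Per.sum
  intro b hb
  have h1 := hF.der i hi b hb
  have h2 := (hg b (hF.deg i hi b hb) (by rw [h1]; exact hF.ne i hi)).2
  rwa [h1] at h2

omit [DecidableEq ι] [DecidableEq K] in
lemma per_YG (hF : Fam p m d s L I A D)
    (hg : ∀ b : K[X], b.degree < ((p * m : ℕ) : WithBot ℕ) → b.derivative ≠ 0 →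
      (∀ v ∈ PL K m, (mu ((X ^ m + v) ^ p + b) : ℝ) = g b v) ∧ Per b.derivative (g b))
    {i : ι} (hi : i ∈ I) : Per (D i) (YG A al g i) := by
  unfold YG
  apply Per.const_mul
  apply Per.sum
  intro b hb
  have h1 := hF.der i hi b hb
  have h2 := (hg b (hF.deg i hi b hb) (by rw [h1]; exact hF.ne i hi)).2
  rw [h1] at h2
  exact h2.pow 2

omit [Fintype K] [DecidableEq K] [DecidableEq ι] in
lemma abs_XG_le (hal : ∀ i ∈ I, |al i| ≤ 1) (hA : ∀ i ∈ I, ((A i).card : ℝ) ≤ B)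
    (hg1 : ∀ b v, |g b v| ≤ 1) {i : ι} (hi : i ∈ I) (v : K[X]) : |XG A al g i v| ≤ B := by
  unfold XG
  rw [abs_mul]
  have h1 : |∑ b ∈ A i, g b v| ≤ ((A i).card : ℝ) := by
    refine (Finset.abs_sum_le_sum_abs _ _).trans ?_
    refine (Finset.sum_le_sum (fun b _ => hg1 b v)).trans ?_
    rw [Finset.sum_const, nsmul_eq_mul, mul_one]
  have h2 : (0 : ℝ) ≤ ((A i).card : ℝ) := Nat.cast_nonneg _
  calc _ ≤ 1 * ((A i).card : ℝ) := mul_le_mul (hal i hi) h1 (abs_nonneg _) zero_le_one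
    _ ≤ B := by rw [one_mul]; exact hA i hi

omit [Fintype K] [DecidableEq K] [DecidableEq ι] in
lemma YG_nonneg (i : ι) (v : K[X]) : 0 ≤ YG A al g i v :=
  mul_nonneg (sq_nonneg _) (Finset.sum_nonneg (fun _ _ => sq_nonneg _))

omit [Fintype K] [DecidableEq K] [DecidableEq ι] in
lemma YG_le (hal : ∀ i ∈ I, |al i| ≤ 1) (hA : ∀ i ∈ I, ((A i).card : ℝ) ≤ B)
    (hg1 : ∀ b v, |g b v| ≤ 1) {i : ι} (hi : i ∈ I) (v : K[X]) : YG A al g i v ≤ B := by
  unfold YG
  have h1 : ∑ b ∈ A i, g b v ^ 2 ≤ ((A i).card : ℝ) := by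
    have h0 : ∀ b ∈ A i, g b v ^ 2 ≤ 1 := by
      intro b _
      rw [← sq_abs]
      exact pow_le_one₀ (abs_nonneg _) (hg1 b v)
    refine (Finset.sum_le_sum h0).trans ?_
    rw [Finset.sum_const, nsmul_eq_mul, mul_one]
  have h2 : al i ^ 2 ≤ 1 := by
    rw [← sq_abs]
    exact pow_le_one₀ (abs_nonneg _) (hal i hi)
  calc _ ≤ 1 * ((A i).card : ℝ) :=
        mul_le_mul h2 h1 (Finset.sum_nonneg (fun _ _ => sq_nonneg _)) zero_le_one
    _ ≤ B := by rw [one_mul]; exact hA i hi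

variable [Fact p.Prime] [CharP K p]

omit [DecidableEq ι] in
/-- hypothesis (a) -/
lemma ghyp_a (hK : ringChar K ≠ 2) (hF : Fam p m d s L I A D)
    (hg : ∀ b : K[X], b.degree < ((p * m : ℕ) : WithBot ℕ) → b.derivative ≠ 0 →
      (∀ v ∈ PL K m, (mu ((X ^ m + v) ^ p + b) : ℝ) = g b v) ∧ Per b.derivative (g b))
    (hL : k * s < L) (hm : k * d ≤ m)
    (t : Fin k → ι) (ht : ∀ j, t j ∈ I) (hi : ∃ i, ∀ j, j ≠ i → t j ≠ t i) :
    ex (PL K m) (fun v => ∏ j, XG A al g (t j) v) = 0 := by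
  obtain ⟨i, hi⟩ := hi
  set N : K[X] := ∏ j ∈ univ.erase i, D (t j) with hN
  set Θ : K[X] → ℝ := fun v => ∏ j ∈ univ.erase i, XG A al g (t j) v with hΘ
  have hper : Per N Θ := Per.prod _ _ _ (fun j _ => per_XG hF hg (ht j))
  have hk : 0 < k := Fin.pos_iff_nonempty.2 ⟨i⟩
  have hcard : (univ.erase i : Finset (Fin k)).card = k - 1 := by
    rw [Finset.card_erase_of_mem (Finset.mem_univ _), Finset.card_univ, Fintype.card_fin]
  have hDi := hF.ne (t i) (ht i)
  have hodd := hF.odd (t i) (ht i)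
  -- a prime of odd multiplicity not dividing N
  have hex : ∃ P ∈ oddp (D (t i)), ¬ P ∣ N := by
    by_contra hcon
    push Not at hcon
    have h1 := sum_cover (oddp (D (t i))) (univ.erase i) (fun j => D (t j)) s
      (fun P hP => by
        have hprime := ((mem_oddp hDi).1 hP).1.prime
        obtain ⟨j, hj, hd⟩ := (Prime.dvd_finsetProd_iff hprime _).1 (hcon P hP)
        exact ⟨j, hj, hd⟩)
      (fun j hj S hS hd => hF.cross (t i) (ht i) (t j) (ht j)
        (fun h => hi j (Finset.mem_erase.1 hj).1 h.symm) S hS hd)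
    rw [hcard] at h1
    have h3 : (k - 1) * s ≤ k * s := Nat.mul_le_mul_right _ (Nat.sub_le _ _)
    unfold oddeg at hodd
    omega
  obtain ⟨P, hP, hPN⟩ := hex
  have hNdeg : N.natDegree ≤ (k - 1) * d := by
    rw [← hcard]
    refine (natDegree_prod_le _ _).trans ?_
    refine (Finset.sum_le_sum (fun j _ => hF.nd (t j) (ht j))).trans ?_
    rw [Finset.sum_const, smul_eq_mul]
  have h1 : ∀ v, ∏ j, XG A al g (t j) v = ∑ b ∈ A (t i), al (t i) * (g b v * Θ v) := by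
    intro v
    rw [← Finset.mul_prod_erase univ (fun j => XG A al g (t j) v) (Finset.mem_univ i)]
    rw [← Finset.mul_sum, ← Finset.sum_mul]
    simp only [hΘ, XG]
    ring
  have h2 : ex (PL K m) (fun v => ∏ j, XG A al g (t j) v) =
      ∑ b ∈ A (t i), al (t i) * ex (PL K m) (fun v => g b v * Θ v) := by
    simp only [← ex_const_mul]
    rw [← ex_sum]
    exact ex_congr (fun v _ => h1 v)
  rw [h2]
  apply Finset.sum_eq_zero
  intro b hb
  have hDb := hF.der (t i) (ht i) b hb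
  have hdeg := hF.deg (t i) (ht i) b hb
  have hb' : b.derivative ≠ 0 := by rw [hDb]; exact hDi
  have h3 := L1 p hK (m := m) (b := b) hdeg hb' (P := P) (N := N)
    (by rw [hDb]; exact hP) hPN (by
      have e1 : (k - 1) * d + d = k * d := by
        rw [← Nat.succ_mul, Nat.succ_eq_add_one, Nat.sub_add_cancel hk]
      have e2 := hF.nd (t i) (ht i)
      rw [hDb]
      omega) Θ hper
  have h4 : ∑ v ∈ PL K m, g b v * Θ v = 0 := by
    rw [← h3]
    apply Finset.sum_congr rfl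
    intro v hv
    rw [(hg b hdeg hb').1 v hv]
  unfold ex
  rw [h4, zero_div, mul_zero]

omit [DecidableEq ι] [Fact p.Prime] [CharP K p] in
private lemma gsq_sub_diag {κ : Type*} [DecidableEq κ] (A : Finset κ) (x : κ → ℝ) :
    (∑ a ∈ A, x a) ^ 2 - ∑ a ∈ A, x a ^ 2 = ∑ a ∈ A, ∑ b ∈ A.erase a, x a * x b := by
  rw [sq, Finset.sum_mul_sum, ← Finset.sum_sub_distrib]
  apply Finset.sum_congr rfl
  intro a ha
  rw [← Finset.add_sum_erase A (fun b => x a * x b) ha]
  ring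

/-- one pair of different elements of a class -/
lemma gpair_le (hK : ringChar K ≠ 2) (hF : Fam p m d s L I A D)
    (hg : ∀ b : K[X], b.degree < ((p * m : ℕ) : WithBot ℕ) → b.derivative ≠ 0 →
      (∀ v ∈ PL K m, (mu ((X ^ m + v) ^ p + b) : ℝ) = g b v) ∧ Per b.derivative (g b))
    (hm : k * d ≤ m) {i : ι} (hi : i ∈ I) (S1 S2 : Finset ι) (hS1 : S1 ⊆ I) (hS2 : S2 ⊆ I)
    (h01 : i ∉ S1) (h02 : i ∉ S2) (hcard : S1.card + S2.card + 1 ≤ k)
    (Θ : K[X] → ℝ) (hΘ : Per ((∏ j ∈ S1, D j) * ∏ j ∈ S2, D j) Θ)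
    {M : ℝ} (hM : ∀ v, |Θ v| ≤ M) {a b : K[X]} (ha : a ∈ A i) (hb : b ∈ A i) (hab : b ≠ a) :
    |ex (PL K m) (fun v => g a v * g b v * Θ v)| ≤ M / (Fintype.card K : ℝ) ^ (L - k * s) := by
  classical
  have hq1 : (1 : ℝ) ≤ (Fintype.card K : ℝ) := by
    exact_mod_cast Fintype.card_pos (α := K)
  have hq0 : (0 : ℝ) < (Fintype.card K : ℝ) := by linarith
  have hM0 : 0 ≤ M := (abs_nonneg _).trans (hM 0)
  set N1 : K[X] := ∏ j ∈ S1, D j with hN1
  set N2 : K[X] := ∏ j ∈ S2, D j with hN2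
  have hDa := hF.der i hi a ha
  have hDb := hF.der i hi b hb
  have hD0 := hF.ne i hi
  have hodd := hF.odd i hi
  have hsub : a - b ≠ 0 := fun h0 => hab (sub_eq_zero.1 h0).symm
  have hsubdeg : (a - b).natDegree ≤ s := hF.close i hi a ha b hb (Ne.symm hab)
  set S : Finset K[X] := (oddp (D i)).filter (fun P => ¬ (P ∣ N1 * N2 ∨ P ∣ a - b)) with hS
  set T : Finset K[X] := (oddp (D i)).filter (fun P => (P ∣ N1 * N2 ∨ P ∣ a - b)) with hT
  set T1 : Finset K[X] := (oddp (D i)).filter (fun P => P ∣ N1 * N2) with hT1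
  set T2 : Finset K[X] := (oddp (D i)).filter (fun P => P ∣ a - b) with hT2
  have hsplit : ∑ P ∈ T, P.natDegree + ∑ P ∈ S, P.natDegree = oddeg (D i) := by
    rw [hS, hT, oddeg]
    exact Finset.sum_filter_add_sum_filter_not _ _ _
  have hT12 : ∑ P ∈ T, P.natDegree ≤ ∑ P ∈ T1, P.natDegree + ∑ P ∈ T2, P.natDegree := by
    have h1 : T ⊆ T1 ∪ T2 := by
      intro P hP
      rw [hT, Finset.mem_filter] at hP
      rw [Finset.mem_union, hT1, hT2, Finset.mem_filter, Finset.mem_filter]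
      rcases hP.2 with h2 | h2
      · exact Or.inl ⟨hP.1, h2⟩
      · exact Or.inr ⟨hP.1, h2⟩
    calc ∑ P ∈ T, P.natDegree ≤ ∑ P ∈ T1 ∪ T2, P.natDegree :=
          Finset.sum_le_sum_of_subset h1
      _ ≤ ∑ P ∈ T1 ∪ T2, P.natDegree + ∑ P ∈ T1 ∩ T2, P.natDegree := Nat.le_add_right _ _
      _ = _ := Finset.sum_union_inter
  have hT1le : ∑ P ∈ T1, P.natDegree ≤ (S1 ∪ S2).card * s := by
    apply sum_cover T1 (S1 ∪ S2) D s
    · intro P hP
      rw [hT1, Finset.mem_filter] at hP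
      have hprime := ((mem_oddp hD0).1 hP.1).1.prime
      rcases hprime.dvd_or_dvd hP.2 with h3 | h3
      · obtain ⟨j, hj, hd⟩ := (Prime.dvd_finsetProd_iff hprime _).1 h3
        exact ⟨j, Finset.mem_union_left _ hj, hd⟩
      · obtain ⟨j, hj, hd⟩ := (Prime.dvd_finsetProd_iff hprime _).1 h3
        exact ⟨j, Finset.mem_union_right _ hj, hd⟩
    · intro j hj S' hS' hd
      have hjI : j ∈ I := by
        rcases Finset.mem_union.1 hj with h | h
        · exact hS1 h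
        · exact hS2 h
      have hij : i ≠ j := by
        rintro rfl
        rcases Finset.mem_union.1 hj with h | h
        · exact h01 h
        · exact h02 h
      exact hF.cross i hi j hjI hij S' (hS'.trans (Finset.filter_subset _ _)) hd
  have hT2le : ∑ P ∈ T2, P.natDegree ≤ s :=
    (sum_natDegree_le hD0 hsub T2 (Finset.filter_subset _ _)
      (fun P hP => (Finset.mem_filter.1 hP).2)).trans hsubdeg
  have hTle : ∑ P ∈ T, P.natDegree ≤ k * s := by
    have h1 := Finset.card_union_le S1 S2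
    have h5 : ((S1 ∪ S2).card + 1) * s ≤ k * s := Nat.mul_le_mul_right _ (by omega)
    have h6 : ((S1 ∪ S2).card + 1) * s = (S1 ∪ S2).card * s + s := by ring
    omega
  have hSge : L - k * s ≤ ∑ P ∈ S, P.natDegree := by omega
  have hNdeg : (N1 * N2).natDegree ≤ (S1.card + S2.card) * d := by
    refine natDegree_mul_le.trans ?_
    have h0 : ∀ S : Finset ι, S ⊆ I → (∏ j ∈ S, D j).natDegree ≤ S.card * d := by
      intro S hS
      refine (natDegree_prod_le _ _).trans ?_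
      refine (Finset.sum_le_sum (fun j hj => hF.nd j (hS hj))).trans ?_
      rw [Finset.sum_const, smul_eq_mul]
    have h3 : N1.natDegree ≤ S1.card * d := h0 S1 hS1
    have h4 : N2.natDegree ≤ S2.card * d := h0 S2 hS2
    rw [add_mul]; omega
  have ha' : a.derivative ≠ 0 := by rw [hDa]; exact hD0
  have hb' : b.derivative ≠ 0 := by rw [hDb]; exact hD0
  have key := L2 p hK (m := m) (b := a) (c := b) (hF.deg i hi a ha) (hF.deg i hi b hb)
    ha' (by rw [hDa, hDb]) (N := N1 * N2)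
    (by
      rw [hDa]
      have h5 : (S1.card + S2.card + 1) * d ≤ k * d := Nat.mul_le_mul_right _ hcard
      have h6 : (S1.card + S2.card + 1) * d = (S1.card + S2.card) * d + d := by ring
      have h7 := hF.nd i hi
      omega) Θ hΘ hM S
    (by
      intro P hP
      rw [hS, Finset.mem_filter, not_or] at hP
      rw [hDa]
      exact ⟨hP.1, hP.2.1, hP.2.2⟩)
  have e1 : ∑ v ∈ PL K m, (mu ((X ^ m + v) ^ p + a) : ℝ) *
      (mu ((X ^ m + v) ^ p + b) : ℝ) * Θ v = ∑ v ∈ PL K m, g a v * g b v * Θ v := by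
    apply Finset.sum_congr rfl
    intro v hv
    rw [(hg a (hF.deg i hi a ha) ha').1 v hv, (hg b (hF.deg i hi b hb) hb').1 v hv]
  rw [e1] at key
  unfold ex
  rw [abs_div, card_PL, Nat.abs_cast, div_le_div_iff₀ (by positivity) (by positivity)]
  push_cast
  calc |∑ v ∈ PL K m, g a v * g b v * Θ v| * (Fintype.card K : ℝ) ^ (L - k * s) ≤
      |∑ v ∈ PL K m, g a v * g b v * Θ v| * (Fintype.card K : ℝ) ^ (∑ P ∈ S, P.natDegree) := by
        gcongr
    _ = (Fintype.card K : ℝ) ^ (∑ P ∈ S, P.natDegree) *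
          |∑ v ∈ PL K m, g a v * g b v * Θ v| := mul_comm _ _
    _ ≤ _ := key

/-- one class -/
lemma gone_class (hK : ringChar K ≠ 2) (hF : Fam p m d s L I A D)
    (hg1 : ∀ b v, |g b v| ≤ 1)
    (hg : ∀ b : K[X], b.degree < ((p * m : ℕ) : WithBot ℕ) → b.derivative ≠ 0 →
      (∀ v ∈ PL K m, (mu ((X ^ m + v) ^ p + b) : ℝ) = g b v) ∧ Per b.derivative (g b))
    (hal : ∀ i ∈ I, |al i| ≤ 1) (hA : ∀ i ∈ I, ((A i).card : ℝ) ≤ B) (hB1 : 1 ≤ B)
    (hm : k * d ≤ m) {i : ι} (hi : i ∈ I) (S1 S2 : Finset ι) (hS1 : S1 ⊆ I) (hS2 : S2 ⊆ I)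
    (h01 : i ∉ S1) (h02 : i ∉ S2) (hcard : S1.card + S2.card + 1 ≤ k) :
    |ex (PL K m) (fun v => (XG A al g i v ^ 2 - YG A al g i v) *
      ((∏ j ∈ S1, XG A al g j v ^ 2) * ∏ j ∈ S2, YG A al g j v))| ≤
      B ^ (2 * k) / (Fintype.card K : ℝ) ^ (L - k * s) := by
  classical
  have hq0 : (0 : ℝ) < (Fintype.card K : ℝ) := by exact_mod_cast Fintype.card_pos (α := K)
  set Θ : K[X] → ℝ := fun v => (∏ j ∈ S1, XG A al g j v ^ 2) * ∏ j ∈ S2, YG A al g j v with hΘ
  have hper : Per ((∏ j ∈ S1, D j) * ∏ j ∈ S2, D j) Θ := by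
    apply Per.mul
    · exact Per.prod _ _ (fun j v => XG A al g j v ^ 2) (fun j hj => (per_XG hF hg (hS1 hj)).pow 2)
    · exact Per.prod _ _ (fun j v => YG A al g j v) (fun j hj => per_YG hF hg (hS2 hj))
  have hΘB : ∀ v, |Θ v| ≤ B ^ (2 * (k - 1)) := by
    intro v
    have h1 : |∏ j ∈ S1, XG A al g j v ^ 2| ≤ B ^ (2 * S1.card) := by
      rw [Finset.abs_prod, pow_mul, ← Finset.prod_const]
      apply Finset.prod_le_prod
      · intro _ _; exact abs_nonneg _
      · intro j hj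
        rw [abs_pow]
        exact pow_le_pow_left₀ (abs_nonneg _) (abs_XG_le hal hA hg1 (hS1 hj) v) 2
    have h2 : |∏ j ∈ S2, YG A al g j v| ≤ B ^ (2 * S2.card) := by
      rw [Finset.abs_prod, pow_mul, ← Finset.prod_const]
      apply Finset.prod_le_prod
      · intro _ _; exact abs_nonneg _
      · intro j hj
        rw [abs_of_nonneg (YG_nonneg j v)]
        refine (YG_le hal hA hg1 (hS2 hj) v).trans ?_
        nlinarith
    rw [hΘ]
    simp only
    rw [abs_mul]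
    calc _ ≤ B ^ (2 * S1.card) * B ^ (2 * S2.card) := by gcongr
      _ = B ^ (2 * S1.card + 2 * S2.card) := (pow_add _ _ _).symm
      _ ≤ _ := pow_le_pow_right₀ hB1 (by omega)
  have e1 : ex (PL K m) (fun v => (XG A al g i v ^ 2 - YG A al g i v) * Θ v) =
      al i ^ 2 * ∑ a ∈ A i, ∑ b ∈ (A i).erase a, ex (PL K m) (fun v => g a v * g b v * Θ v) := by
    simp only [← ex_sum]
    rw [← ex_const_mul]
    apply ex_congr
    intro v _
    unfold XG YG
    rw [mul_pow, ← mul_sub, gsq_sub_diag, mul_assoc, Finset.sum_mul]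
    congr 1
    apply Finset.sum_congr rfl
    intro a _
    rw [Finset.sum_mul]
  rw [e1, abs_mul]
  have hBk : 0 ≤ B ^ (2 * (k - 1)) / (Fintype.card K : ℝ) ^ (L - k * s) := by positivity
  have h3 : ∀ a ∈ A i, |∑ b ∈ (A i).erase a, ex (PL K m) (fun v => g a v * g b v * Θ v)| ≤
      B * (B ^ (2 * (k - 1)) / (Fintype.card K : ℝ) ^ (L - k * s)) := by
    intro a ha
    refine (Finset.abs_sum_le_sum_abs _ _).trans ?_
    refine (Finset.sum_le_sum (fun b hb => gpair_le hK hF hg hm hi S1 S2 hS1 hS2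
      h01 h02 hcard Θ hper hΘB ha (Finset.mem_of_mem_erase hb) (Finset.ne_of_mem_erase hb))).trans ?_
    rw [Finset.sum_const, nsmul_eq_mul]
    apply mul_le_mul_of_nonneg_right _ hBk
    have h4 : ((A i).erase a).card ≤ (A i).card := Finset.card_erase_le
    have h5 : ((((A i).erase a).card : ℕ) : ℝ) ≤ ((A i).card : ℝ) := by exact_mod_cast h4
    exact h5.trans (hA i hi)
  have h7 : |∑ a ∈ A i, ∑ b ∈ (A i).erase a, ex (PL K m) (fun v => g a v * g b v * Θ v)| ≤
      B ^ (2 * k) / (Fintype.card K : ℝ) ^ (L - k * s) := by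
    refine (Finset.abs_sum_le_sum_abs _ _).trans ((Finset.sum_le_sum h3).trans ?_)
    rw [Finset.sum_const, nsmul_eq_mul]
    calc ((A i).card : ℝ) * (B * (B ^ (2 * (k - 1)) / (Fintype.card K : ℝ) ^ (L - k * s))) ≤
        B * (B * (B ^ (2 * (k - 1)) / (Fintype.card K : ℝ) ^ (L - k * s))) := by
          have := hA i hi
          gcongr
      _ = B ^ (2 + 2 * (k - 1)) / (Fintype.card K : ℝ) ^ (L - k * s) := by
          rw [pow_add]; ring
      _ = _ := by
          congr 2; omega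
  have h8 : |al i ^ 2| ≤ 1 := by
    rw [abs_pow]; exact pow_le_one₀ (abs_nonneg _) (hal i hi)
  calc _ ≤ 1 * (B ^ (2 * k) / (Fintype.card K : ℝ) ^ (L - k * s)) :=
        mul_le_mul h8 h7 (abs_nonneg _) zero_le_one
    _ = _ := one_mul _

/-- hypothesis (c) -/
lemma ghyp_c (hK : ringChar K ≠ 2) (hF : Fam p m d s L I A D)
    (hg1 : ∀ b v, |g b v| ≤ 1)
    (hg : ∀ b : K[X], b.degree < ((p * m : ℕ) : WithBot ℕ) → b.derivative ≠ 0 →
      (∀ v ∈ PL K m, (mu ((X ^ m + v) ^ p + b) : ℝ) = g b v) ∧ Per b.derivative (g b))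
    (hal : ∀ i ∈ I, |al i| ≤ 1) (hA : ∀ i ∈ I, ((A i).card : ℝ) ≤ B) (hB1 : 1 ≤ B)
    (hm : k * d ≤ m) (S : Finset ι) : ∀ U : Finset ι, S ⊆ I → U ⊆ I → Disjoint S U →
      S.card + U.card ≤ k →
    |ex (PL K m) (fun v => (∏ j ∈ S, XG A al g j v ^ 2) * ∏ j ∈ U, YG A al g j v) -
      ex (PL K m) (fun v => (∏ j ∈ S, YG A al g j v) * ∏ j ∈ U, YG A al g j v)| ≤
      S.card * (B ^ (2 * k) / (Fintype.card K : ℝ) ^ (L - k * s)) := by
  induction S using Finset.induction_on with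
  | empty => intro U _ _ _ _; simp
  | insert i S hiS ih =>
    intro U hS hU hdis hcard
    rw [Finset.card_insert_of_notMem hiS] at hcard
    rw [Finset.card_insert_of_notMem hiS]
    rw [Finset.disjoint_insert_left] at hdis
    have hi : i ∈ I := hS (Finset.mem_insert_self _ _)
    have hS' : S ⊆ I := fun x hx => hS (Finset.mem_insert_of_mem hx)
    have h1 := gone_class hK hF hg1 hg hal hA hB1 hm hi S U hS' hU hiS hdis.1 (by omega)
    have h2 := ih (insert i U) hS' (Finset.insert_subset hi hU)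
      (by rw [Finset.disjoint_insert_right]; exact ⟨hiS, hdis.2⟩)
      (by rw [Finset.card_insert_of_notMem hdis.1]; omega)
    have e1 : ∀ v, (∏ x ∈ insert i S, XG A al g x v ^ 2) * ∏ x ∈ U, YG A al g x v =
        (XG A al g i v ^ 2 - YG A al g i v) *
          ((∏ x ∈ S, XG A al g x v ^ 2) * ∏ x ∈ U, YG A al g x v) +
        (∏ x ∈ S, XG A al g x v ^ 2) * ∏ x ∈ insert i U, YG A al g x v := by
      intro v
      rw [Finset.prod_insert hiS, Finset.prod_insert hdis.1]; ring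
    have e2 : ∀ v, (∏ x ∈ insert i S, YG A al g x v) * ∏ x ∈ U, YG A al g x v =
        (∏ x ∈ S, YG A al g x v) * ∏ x ∈ insert i U, YG A al g x v := by
      intro v
      rw [Finset.prod_insert hiS, Finset.prod_insert hdis.1]; ring
    rw [ex_congr (fun v _ => e1 v), ex_congr (fun v _ => e2 v), ex_add, add_sub_assoc]
    refine (abs_add_le _ _).trans ?_
    push_cast
    rw [add_mul, one_mul, add_comm]
    exact add_le_add h2 h1

end

/-- **the moments of weighted sums over a family of classes** -/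
theorem gcore (p : ℕ) [Fact p.Prime] [CharP K p] (hK : ringChar K ≠ 2) (k : ℕ) :
    ∃ C : ℝ, 0 ≤ C ∧ ∀ (I : Finset ι) (A : ι → Finset K[X]) (D : ι → K[X]) (al : ι → ℝ)
      (B : ℝ) (m d s L : ℕ), Fam p m d s L I A D → (∀ i ∈ I, |al i| ≤ 1) →
      (∀ i ∈ I, ((A i).card : ℝ) ≤ B) → 1 ≤ B → B ≤ (I.card : ℝ) → k * s < L → k * d ≤ m →
      |ex (PL K m) (fun v => (∑ i ∈ I, al i * ∑ b ∈ A i, (mu ((X ^ m + v) ^ p + b) : ℝ)) ^ k) -
        gm k * ex (PL K m) (fun v => (∑ i ∈ I, al i ^ 2 *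
          ∑ b ∈ A i, (mu ((X ^ m + v) ^ p + b) : ℝ) ^ 2) ^ (k / 2))| ≤
      C * (√((I.card : ℝ) * B) ^ k * √(B / (I.card : ℝ)) +
        ((I.card : ℝ) * B) ^ k * (k * (B ^ (2 * k) / (Fintype.card K : ℝ) ^ (L - k * s)))) := by
  obtain ⟨C0, hC0, hmom⟩ := mom5 (κ := ι) (ω := K[X]) k
  refine ⟨C0, hC0, ?_⟩
  intro I A D al B m d s L hF hal hA hB1 hBR hL hm
  obtain ⟨g, hg1, hg⟩ := exists_gsur (K := K) p hK m
  have hq0 : (0 : ℝ) < (Fintype.card K : ℝ) := by exact_mod_cast Fintype.card_pos (α := K)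
  have key := hmom I (PL K m) (fun i v => XG A al g i v) (fun i v => YG A al g i v) B
    (I.card : ℝ) (k * (B ^ (2 * k) / (Fintype.card K : ℝ) ^ (L - k * s))) hB1 hBR rfl
    (by positivity)
    (fun i hi v _ => abs_XG_le hal hA hg1 hi v)
    (fun i hi v _ => ⟨YG_nonneg i v, YG_le hal hA hg1 hi v⟩)
    (fun t ht hi => ghyp_a hK hF hg hL hm t ht hi)
    (fun S hS hcard => by
      have h1 := ghyp_c hK hF hg1 hg hal hA hB1 hm S ∅ hS (Finset.empty_subset _)
        (Finset.disjoint_empty_right _) (by simpa using hcard)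
      simp only [Finset.prod_empty, mul_one] at h1
      refine h1.trans ?_
      apply mul_le_mul_of_nonneg_right _ (by positivity)
      exact_mod_cast hcard)
  have e : ∀ v ∈ PL K m, ∀ i ∈ I, ∀ b ∈ A i, (mu ((X ^ m + v) ^ p + b) : ℝ) = g b v := by
    intro v hv i hi b hb
    exact (hg b (hF.deg i hi b hb) (by rw [hF.der i hi b hb]; exact hF.ne i hi)).1 v hv
  rw [ex_congr (g := fun v => (∑ i ∈ I, XG A al g i v) ^ k) (fun v hv => by
      simp only [XG]
      congr 1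
      apply Finset.sum_congr rfl
      intro i hi
      congr 1
      exact Finset.sum_congr rfl (fun b hb => e v hv i hi b hb)),
    ex_congr (f := fun v => (∑ i ∈ I, al i ^ 2 *
          ∑ b ∈ A i, (mu ((X ^ m + v) ^ p + b) : ℝ) ^ 2) ^ (k / 2))
      (g := fun v => (∑ i ∈ I, YG A al g i v) ^ (k / 2)) (fun v hv => by
      simp only [YG]
      congr 1
      apply Finset.sum_congr rfl
      intro i hi
      congr 1
      exact Finset.sum_congr rfl (fun b hb => by rw [e v hv i hi b hb]))]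
  exact key

end P4f18dfF
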