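import Pool.Agent.Lib.P4f18dfF.M8
import Pool.Agent.Lib.P4f18dfF.M8g

/-! The moments of a linear combination of the Moebius sums over two intervals. -/

set_option autoImplicit false

namespace P4f18dfF
open Polynomial Finset Pool.Agent.P4f18dfF Pool.Agent.P4f18dfT Pool.Agent.P4f18dfC

universe u

variable {K : Type u} [Field K] [Fintype K] [DecidableEq K]

/-- the number `|K|^h (1 - 1/|K|)` -/
noncomputable def HC (K : Type*) [Fintype K] (h : ℕ) : ℝ :=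
  (Fintype.card K : ℝ) ^ h * (1 - 1 / (Fintype.card K : ℝ))

namespace PairAux

/-- the two shifts -/
noncomputable def rr (r₁ r₂ : K[X]) : Bool → K[X] := fun β => cond β r₁ r₂

/-- the two weights -/
noncomputable def ww (α : ℝ) : Bool → ℝ := fun β => cond β α 1

/-- the classes -/
noncomputable def AA (h : ℕ) (r₀ r₁ r₂ : K[X]) : Bool × K[X] → Finset K[X] :=
  fun i => (cls h i.2).image (fun a => (r₀ + rr r₁ r₂ i.1) + a)

/-- their derivatives -/
noncomputable def DD (r₀ r₁ r₂ : K[X]) : Bool × K[X] → K[X] :=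
  fun i => derivative (r₀ + rr r₁ r₂ i.1) + i.2

/-- the index set -/
noncomputable def II (K : Type*) [Field K] [Fintype K] [DecidableEq K] (h : ℕ) :
    Finset (Bool × K[X]) := (univ : Finset Bool) ×ˢ dd K h

lemma card_II (h : ℕ) : (II K h).card = 2 * (dd K h).card := by
  unfold II
  rw [Finset.card_product, Finset.card_univ, Fintype.card_bool]

lemma mem_II {h : ℕ} {i : Bool × K[X]} : i ∈ II K h ↔ i.2 ∈ dd K h := by
  unfold II
  simp

lemma card_AA_le (h : ℕ) (r₀ r₁ r₂ : K[X]) (i : Bool × K[X]) :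
    ((AA h r₀ r₁ r₂ i).card : ℝ) ≤ ((cls (K := K) h 0).card : ℝ) := by
  refine le_trans ?_ (card_cls_le (h := h) i.2)
  exact_mod_cast Finset.card_image_le

lemma sum_AA (h : ℕ) (r₀ r₁ r₂ : K[X]) (i : Bool × K[X]) (f : K[X] → ℝ) :
    ∑ b ∈ AA h r₀ r₁ r₂ i, f b = ∑ a ∈ cls h i.2, f ((r₀ + rr r₁ r₂ i.1) + a) := by
  unfold AA
  rw [Finset.sum_image]
  intro a _ b _ hab
  exact add_left_cancel hab

lemma sum_II (h : ℕ) (r₀ r₁ r₂ : K[X]) (w : Bool → ℝ) (f : K[X] → ℝ) :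
    ∑ i ∈ II K h, w i.1 * ∑ b ∈ AA h r₀ r₁ r₂ i, f b =
      w true * ∑ a ∈ PL K h, f ((r₀ + r₁) + a) + w false * ∑ a ∈ PL K h, f ((r₀ + r₂) + a) := by
  unfold II
  rw [Finset.sum_product]
  simp only [sum_AA]
  rw [Fintype.sum_bool, ← Finset.mul_sum, ← Finset.mul_sum,
    sum_dd h (fun a => f ((r₀ + rr r₁ r₂ true) + a)),
    sum_dd h (fun a => f ((r₀ + rr r₁ r₂ false) + a))]
  rfl

omit [DecidableEq K] in
lemma rr_mem {e : ℕ} {r₁ r₂ : K[X]} (h₁ : r₁ ∈ PL K e) (h₂ : r₂ ∈ PL K e) (β : Bool) :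
    rr r₁ r₂ β ∈ PL K e := by
  cases β
  · exact h₂
  · exact h₁

lemma neg_mem_dd {h : ℕ} {δ : K[X]} (hδ : δ ∈ dd K h) : -δ ∈ dd K h := by
  obtain ⟨a, ha, rfl⟩ := Finset.mem_image.1 hδ
  exact Finset.mem_image.2 ⟨-a, neg_mem_PL ha, derivative_neg a⟩

lemma DD_sub_ne {h : ℕ} {r₀ r₁ r₂ : K[X]}
    (hne : ∀ a ∈ PL K h, derivative (r₁ - r₂) ≠ derivative a) {i j : Bool × K[X]}
    (hi : i ∈ II K h) (hj : j ∈ II K h) (hij : i ≠ j) :
    DD r₀ r₁ r₂ i - DD r₀ r₁ r₂ j ≠ 0 := by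
  obtain ⟨β, δ⟩ := i
  obtain ⟨β', δ'⟩ := j
  rw [mem_II] at hi hj
  obtain ⟨a, ha, rfl⟩ := Finset.mem_image.1 hi
  obtain ⟨a', ha', rfl⟩ := Finset.mem_image.1 hj
  intro h0
  unfold DD at h0
  simp only [derivative_add] at h0
  cases β <;> cases β'
  · apply hij
    simp only [rr, cond] at h0
    have : derivative a = derivative a' := by linear_combination h0
    rw [this]
  · simp only [rr, cond] at h0
    apply hne (a + -a') (add_mem_PL ha (neg_mem_PL ha'))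
    rw [derivative_sub, derivative_add, derivative_neg]
    linear_combination -h0
  · simp only [rr, cond] at h0
    apply hne (a' + -a) (add_mem_PL ha' (neg_mem_PL ha))
    rw [derivative_sub, derivative_add, derivative_neg]
    linear_combination h0
  · apply hij
    simp only [rr, cond] at h0
    have : derivative a = derivative a' := by linear_combination h0
    rw [this]

lemma DD_eq {h e : ℕ} {r₀ r₁ r₂ : K[X]} (h₁ : r₁ ∈ PL K e) (h₂ : r₂ ∈ PL K e) (he : h ≤ e)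
    {i : Bool × K[X]} (hi : i ∈ II K h) :
    ∃ a ∈ PL K e, DD r₀ r₁ r₂ i = derivative (r₀ + a) := by
  rw [mem_II] at hi
  obtain ⟨a, ha, hai⟩ := Finset.mem_image.1 hi
  refine ⟨rr r₁ r₂ i.1 + a, add_mem_PL (rr_mem h₁ h₂ _) (PL_mono he ha), ?_⟩
  unfold DD
  rw [← hai]
  simp only [derivative_add]
  ring

lemma fam (p : ℕ) [Fact p.Prime] [CharP K p] {h e d m L : ℕ} (he : h ≤ e) (hd : e ≤ d)
    (hm : d ≤ m) {r₀ r₁ r₂ : K[X]} (h₀ : r₀ ∈ PL K d) (hgood : Good L e r₀)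
    (h₁ : r₁ ∈ PL K e) (h₂ : r₂ ∈ PL K e)
    (hne : ∀ a ∈ PL K h, derivative (r₁ - r₂) ≠ derivative a) :
    Fam p m d e L (II K h) (AA h r₀ r₁ r₂) (DD r₀ r₁ r₂) := by
  have hg : ∀ i ∈ II K h, DD r₀ r₁ r₂ i ≠ 0 ∧ L ≤ oddeg (DD r₀ r₁ r₂ i) := by
    intro i hi
    obtain ⟨a, ha, hD⟩ := DD_eq (r₀ := r₀) h₁ h₂ he hi
    rw [hD]
    exact hgood a (mem_PL.1 ha)
  have hnd : ∀ i ∈ II K h, (DD r₀ r₁ r₂ i).natDegree ≤ d := by
    intro i hi
    obtain ⟨a, ha, hD⟩ := DD_eq (r₀ := r₀) h₁ h₂ he hi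
    rw [hD]
    have h1 : (r₀ + a).natDegree ≤ d :=
      natDegree_le_of_degree_le (mem_PL.1 (add_mem_PL h₀ (PL_mono hd ha))).le
    exact (natDegree_derivative_le _).trans ((Nat.sub_le _ _).trans h1)
  have hsub : ∀ i ∈ II K h, ∀ j ∈ II K h, (DD r₀ r₁ r₂ i - DD r₀ r₁ r₂ j).natDegree ≤ e := by
    intro i hi j hj
    obtain ⟨a, ha, hD⟩ := DD_eq (r₀ := r₀) h₁ h₂ he hi
    obtain ⟨a', ha', hD'⟩ := DD_eq (r₀ := r₀) h₁ h₂ he hj
    rw [hD, hD', ← derivative_sub]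
    have h1 : (r₀ + a - (r₀ + a')).natDegree ≤ e := by
      rw [show r₀ + a - (r₀ + a') = a + -a' by ring]
      exact natDegree_le_of_degree_le (mem_PL.1 (add_mem_PL ha (neg_mem_PL ha'))).le
    exact (natDegree_derivative_le _).trans ((Nat.sub_le _ _).trans h1)
  refine ⟨?_, ?_, fun i hi => (hg i hi).1, fun i hi => (hg i hi).2, hnd, ?_, ?_⟩
  · intro i hi b hb
    obtain ⟨a, ha, rfl⟩ := Finset.mem_image.1 hb
    rw [derivative_add, (mem_cls.1 ha).2]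
    rfl
  · intro i hi b hb
    obtain ⟨a, ha, rfl⟩ := Finset.mem_image.1 hb
    have h1 : (r₀ + rr r₁ r₂ i.1) + a ∈ PL K d :=
      add_mem_PL (add_mem_PL h₀ (PL_mono hd (rr_mem h₁ h₂ _)))
        (PL_mono (he.trans hd) (mem_cls.1 ha).1)
    have h3 : d ≤ p * m := hm.trans (Nat.le_mul_of_pos_left _ (Fact.out : p.Prime).pos)
    exact mem_PL.1 (PL_mono h3 h1)
  · intro i hi j hj hij S hS hP
    have h0 := (hg i hi).1
    refine (sum_natDegree_le h0 (DD_sub_ne hne hi hj hij) S hS (fun P hPS => ?_)).trans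
      (hsub i hi j hj)
    exact dvd_sub (dvd_of_mem_oddp h0 (hS hPS)) (hP P hPS)
  · intro i hi b hb c hc _
    obtain ⟨a, ha, rfl⟩ := Finset.mem_image.1 hb
    obtain ⟨a', ha', rfl⟩ := Finset.mem_image.1 hc
    rw [show r₀ + rr r₁ r₂ i.1 + a - (r₀ + rr r₁ r₂ i.1 + a') = a + -a' by ring]
    exact natDegree_le_of_degree_le (mem_PL.1 (PL_mono he
      (add_mem_PL (mem_cls.1 ha).1 (neg_mem_PL (mem_cls.1 ha').1)))).le

omit [DecidableEq K] in
lemma abs_Zn_le (h : ℕ) {c : ℝ} (hc : c = 1 - 1 / (Fintype.card K : ℝ)) (hc0 : 0 < c) (F : K[X]) :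
    |Zn h F| ≤ (1 / √c) * (Fintype.card K : ℝ) ^ h := by
  have hq1 : (1 : ℝ) < (Fintype.card K : ℝ) := by exact_mod_cast Fintype.one_lt_card
  have hq0 : (0 : ℝ) < (Fintype.card K : ℝ) := by linarith
  set q : ℝ := (Fintype.card K : ℝ) with hq
  have hH : 1 ≤ q ^ h := one_le_pow₀ hq1.le
  unfold Zn
  rw [← hq, ← hc, abs_div, abs_of_nonneg (Real.sqrt_nonneg _), Real.sqrt_mul (by positivity)]
  have h2 : 1 ≤ √(q ^ h) := by rw [Real.one_le_sqrt]; exact hH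
  have h3 : 0 < √c := Real.sqrt_pos.2 hc0
  rw [div_le_iff₀ (by positivity)]
  have h4 := abs_MS_le h F
  rw [← hq] at h4
  calc |MS h F| ≤ q ^ h := h4
    _ = 1 / √c * q ^ h * (1 * √c) := by field_simp
    _ ≤ _ := by gcongr

omit [DecidableEq K] in
/-- the trivial bound -/
lemma triv (k h : ℕ) {c : ℝ} (hc : c = 1 - 1 / (Fintype.card K : ℝ)) (hc0 : 0 < c)
    (W : Finset K[X]) (F G : K[X] → K[X]) {α : ℝ} (hα : |α| ≤ 1) :
    |ex W (fun v => (α * Zn h (F v) + Zn h (G v)) ^ (2 * k)) -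
        gm (2 * k) * ex W (fun v => (α ^ 2 * (QS h (F v) / HC K h) + QS h (G v) / HC K h) ^ k)| ≤
      (2 * ((1 / √c) * (Fintype.card K : ℝ) ^ h)) ^ (2 * k) + gm (2 * k) * (2 / c) ^ k := by
  have hq1 : (1 : ℝ) < (Fintype.card K : ℝ) := by exact_mod_cast Fintype.one_lt_card
  have hq0 : (0 : ℝ) < (Fintype.card K : ℝ) := by linarith
  set q : ℝ := (Fintype.card K : ℝ) with hq
  have hg := gm_nonneg (2 * k)
  have hqc : HC K h = q ^ h * c := by unfold HC; rw [← hq, ← hc]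
  have hα2 : α ^ 2 ≤ 1 := by
    rw [← sq_abs]; exact pow_le_one₀ (abs_nonneg _) hα
  have hQ : ∀ f : K[X], 0 ≤ QS h f / HC K h ∧ QS h f / HC K h ≤ 1 / c := by
    intro f
    rw [hqc]
    refine ⟨div_nonneg (QS_nonneg _ _) (by positivity), ?_⟩
    rw [div_le_div_iff₀ (by positivity) hc0, one_mul]
    exact mul_le_mul_of_nonneg_right (QS_le _ _) hc0.le
  have h2 : |ex W (fun v => (α * Zn h (F v) + Zn h (G v)) ^ (2 * k))| ≤
      (2 * ((1 / √c) * q ^ h)) ^ (2 * k) := by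
    refine (abs_ex_le (g := fun _ => (2 * ((1 / √c) * q ^ h)) ^ (2 * k)) ?_).trans ?_
    · intro v _
      rw [abs_pow]
      apply pow_le_pow_left₀ (abs_nonneg _)
      refine (abs_add_le _ _).trans ?_
      rw [abs_mul, two_mul]
      apply add_le_add _ (abs_Zn_le h hc hc0 _)
      calc |α| * |Zn h (F v)| ≤ 1 * ((1 / √c) * q ^ h) :=
            mul_le_mul hα (abs_Zn_le h hc hc0 _) (abs_nonneg _) zero_le_one
        _ = _ := one_mul _
    · exact ex_le_const (by positivity) (fun _ _ => le_rfl)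
  have h3 : |ex W (fun v => (α ^ 2 * (QS h (F v) / HC K h) + QS h (G v) / HC K h) ^ k)| ≤
      (2 / c) ^ k := by
    refine (abs_ex_le (g := fun _ => (2 / c) ^ k) ?_).trans ?_
    · intro v _
      have h4 := hQ (F v)
      have h5 := hQ (G v)
      have h6 : 0 ≤ α ^ 2 * (QS h (F v) / HC K h) + QS h (G v) / HC K h :=
        add_nonneg (mul_nonneg (sq_nonneg _) h4.1) h5.1
      rw [abs_of_nonneg (pow_nonneg h6 k)]
      apply pow_le_pow_left₀ h6
      have h7 : α ^ 2 * (QS h (F v) / HC K h) ≤ 1 * (1 / c) :=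
        mul_le_mul hα2 h4.2 h4.1 zero_le_one
      have h8 : (2 : ℝ) / c = 1 * (1 / c) + 1 / c := by ring
      rw [h8]
      exact add_le_add h7 h5.2
    · exact ex_le_const (by positivity) (fun _ _ => le_rfl)
  refine (abs_sub _ _).trans ?_
  rw [abs_mul, abs_of_nonneg hg]
  exact add_le_add h2 (mul_le_mul_of_nonneg_left h3 hg)

lemma MS_pair {p m h : ℕ} (r₀ r₁ r₂ v : K[X]) (α : ℝ) :
    ∑ i ∈ II K h, ww α i.1 * ∑ b ∈ AA h r₀ r₁ r₂ i, (mu ((X ^ m + v) ^ p + b) : ℝ) =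
      α * MS h ((X ^ m + v) ^ p + (r₀ + r₁)) + MS h ((X ^ m + v) ^ p + (r₀ + r₂)) := by
  rw [sum_II h r₀ r₁ r₂ (ww α) (fun b => (mu ((X ^ m + v) ^ p + b) : ℝ))]
  unfold MS
  simp only [ww, cond, one_mul, add_assoc]

lemma QS_pair {p m h : ℕ} (r₀ r₁ r₂ v : K[X]) (α : ℝ) :
    ∑ i ∈ II K h, ww α i.1 ^ 2 * ∑ b ∈ AA h r₀ r₁ r₂ i, (mu ((X ^ m + v) ^ p + b) : ℝ) ^ 2 =
      α ^ 2 * QS h ((X ^ m + v) ^ p + (r₀ + r₁)) + QS h ((X ^ m + v) ^ p + (r₀ + r₂)) := by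
  rw [sum_II h r₀ r₁ r₂ (fun β => ww α β ^ 2) (fun b => (mu ((X ^ m + v) ^ p + b) : ℝ) ^ 2)]
  unfold QS
  simp only [ww, cond, one_mul, one_pow, add_assoc]

end PairAux

open PairAux in
/-- moments of a linear combination of the sums at two values `r0 + r1`, `r0 + r2` -/
theorem pair_mom (p : ℕ) [Fact p.Prime] [CharP K p] (hK : ringChar K ≠ 2) (k : ℕ) :
    ∃ (C : ℝ) (L₀ : ℕ), 1 ≤ C ∧ ∀ h e d m : ℕ, C * h ≤ e → C * e ≤ d → C * d ≤ m →
      ∀ r₀ ∈ PL K d, Good (L₀ * e) e r₀ → ∀ r₁ ∈ PL K e, ∀ r₂ ∈ PL K e,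
      (∀ a ∈ PL K h, derivative (r₁ - r₂) ≠ derivative a) → ∀ α : ℝ, |α| ≤ 1 →
      |ex (PL K m) (fun v => (α * Zn h ((X ^ m + v) ^ p + (r₀ + r₁)) +
          Zn h ((X ^ m + v) ^ p + (r₀ + r₂))) ^ (2 * k)) -
        gm (2 * k) * ex (PL K m) (fun v => (α ^ 2 * (QS h ((X ^ m + v) ^ p + (r₀ + r₁)) / HC K h) +
          QS h ((X ^ m + v) ^ p + (r₀ + r₂)) / HC K h) ^ k)| ≤
      C * (Fintype.card K : ℝ) ^ (-(h : ℝ) / 6) := by
  classical
  obtain ⟨C0, hC0, hcore⟩ := gcore (K := K) (ι := Bool × K[X]) p hK (2 * k)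
  have hq1 : (1 : ℝ) < (Fintype.card K : ℝ) := by exact_mod_cast Fintype.one_lt_card
  have hq0 : (0 : ℝ) < (Fintype.card K : ℝ) := by linarith
  obtain ⟨c, hc⟩ : ∃ c : ℝ, c = 1 - 1 / (Fintype.card K : ℝ) := ⟨_, rfl⟩
  have hHC : ∀ h : ℕ, HC K h = (Fintype.card K : ℝ) ^ h * c := by
    intro h; unfold HC; rw [← hc]
  set q : ℝ := (Fintype.card K : ℝ) with hq
  have hc0 : 0 < c := by
    rw [hc, sub_pos, div_lt_one hq0]; exact hq1
  have hg := gm_nonneg (2 * k)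
  have hsc : 0 < √c := Real.sqrt_pos.2 hc0
  set T1 : ℝ := (2 * ((1 / √c) * q ^ 4)) ^ (2 * k) + gm (2 * k) * (2 / c) ^ k with hT1
  set T2 : ℝ := C0 * ((2 / c) ^ k * q + (4 / c) ^ k * (2 * k)) with hT2
  have hT10 : 0 ≤ T1 := by positivity
  have hT20 : 0 ≤ T2 := by positivity
  have hp := three_le (K := K) p hK
  refine ⟨q * T1 + T2 + (2 * k + 1), 8 * k + 1, ?_, ?_⟩
  · have : (0 : ℝ) ≤ q * T1 := by positivity
    have : (0 : ℝ) ≤ k := Nat.cast_nonneg _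
    linarith
  intro h e d m hCe hCd hCm r₀ hr₀ hgood r₁ hr₁ r₂ hr₂ hne α hα
  have hh0 : (0 : ℝ) ≤ h := Nat.cast_nonneg _
  have he0 : (0 : ℝ) ≤ e := Nat.cast_nonneg _
  have hd0 : (0 : ℝ) ≤ d := Nat.cast_nonneg _
  have hk0 : (0 : ℝ) ≤ k := Nat.cast_nonneg _
  have hqT : 0 ≤ q * T1 := by positivity
  have hE0 : 0 < q ^ (-(h : ℝ) / 6) := by positivity
  by_cases hh4 : h < 4
  · -- small h
    refine (triv (K := K) k h (c := c) hc hc0 (PL K m) (fun v => (X ^ m + v) ^ p + (r₀ + r₁))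
      (fun v => (X ^ m + v) ^ p + (r₀ + r₂)) hα).trans ?_
    rw [← hq]
    have e0 : (2 * ((1 / √c) * q ^ h)) ^ (2 * k) ≤ (2 * ((1 / √c) * q ^ 4)) ^ (2 * k) := by
      apply pow_le_pow_left₀ (by positivity)
      apply mul_le_mul_of_nonneg_left _ (by norm_num)
      apply mul_le_mul_of_nonneg_left _ (by positivity)
      exact pow_le_pow_right₀ hq1.le hh4.le
    have e1 : 1 ≤ q * q ^ (-(h : ℝ) / 6) := by
      nth_rewrite 1 [← Real.rpow_one q]
      rw [← Real.rpow_add hq0]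
      apply Real.one_le_rpow hq1.le
      have : (h : ℝ) ≤ 4 := by exact_mod_cast hh4.le
      linarith
    calc _ ≤ T1 := by rw [hT1]; linarith
      _ = T1 * 1 := (mul_one _).symm
      _ ≤ T1 * (q * q ^ (-(h : ℝ) / 6)) := mul_le_mul_of_nonneg_left e1 hT10
      _ = (q * T1) * q ^ (-(h : ℝ) / 6) := by ring
      _ ≤ _ := by
        apply mul_le_mul_of_nonneg_right _ hE0.le
        linarith
  push Not at hh4
  have he1 : (h : ℝ) ≤ e := by nlinarith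
  have hd1 : (e : ℝ) ≤ d := by nlinarith
  have hm1 : (2 * (k : ℝ) + 1) * d ≤ m := by nlinarith
  have he : h ≤ e := by exact_mod_cast he1
  have hd : e ≤ d := by exact_mod_cast hd1
  have hm2 : (2 * k + 1) * d ≤ m := by exact_mod_cast hm1
  have hdm : d ≤ m := by nlinarith
  have hkd : 2 * k * d ≤ m := by nlinarith
  have hF := fam p he hd hdm hr₀ hgood hr₁ hr₂ hne
  set B : ℝ := ((cls (K := K) h 0).card : ℝ) with hB
  set R' : ℝ := ((dd K h).card : ℝ) with hR'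
  have hR : ((II K h).card : ℝ) = 2 * R' := by rw [card_II]; push_cast; rfl
  have hB1 : 1 ≤ B := by rw [hB]; exact_mod_cast cls_zero_pos h
  have hB0 : 0 < B := by linarith
  have hRB : R' * B = q ^ h := by
    rw [hR', hB, hq]
    exact_mod_cast card_dd_mul h
  have hBle : B ≤ q ^ ((h + 2) / 3) := by
    rw [hB, hq]
    exact_mod_cast card_cls_zero_le p hp h
  have hR0 : 0 < R' := by
    have h1 : 0 < R' * B := by rw [hRB]; positivity
    by_contra hcon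
    push Not at hcon
    nlinarith
  have hBB : B * B ≤ R' * B := by
    rw [hRB]
    calc B * B ≤ q ^ ((h + 2) / 3) * q ^ ((h + 2) / 3) := by gcongr
      _ = q ^ ((h + 2) / 3 + (h + 2) / 3) := (pow_add _ _ _).symm
      _ ≤ q ^ h := pow_le_pow_right₀ hq1.le (by omega)
  have hBR : B ≤ R' := le_of_mul_le_mul_right hBB hB0
  have hkey := hcore (II K h) (AA h r₀ r₁ r₂) (DD r₀ r₁ r₂) (fun i => ww α i.1) B m d e
    ((8 * k + 1) * e) hF (fun i _ => by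
      rcases i with ⟨β, δ⟩
      cases β
      · simp [ww]
      · simpa [ww] using hα)
    (fun i _ => card_AA_le h r₀ r₁ r₂ i) hB1 (by rw [hR]; linarith) (by nlinarith) hkd
  rw [hR] at hkey
  rw [ex_congr (g := fun v => (α * MS h ((X ^ m + v) ^ p + (r₀ + r₁)) +
      MS h ((X ^ m + v) ^ p + (r₀ + r₂))) ^ (2 * k)) (fun v _ => by rw [MS_pair]),
    ex_congr (f := fun v => (∑ i ∈ II K h, ww α i.1 ^ 2 * ∑ b ∈ AA h r₀ r₁ r₂ i,
      (mu ((X ^ m + v) ^ p + b) : ℝ) ^ 2) ^ (2 * k / 2))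
      (g := fun v => (α ^ 2 * QS h ((X ^ m + v) ^ p + (r₀ + r₁)) +
      QS h ((X ^ m + v) ^ p + (r₀ + r₂))) ^ k)
      (fun v _ => by rw [QS_pair, Nat.mul_div_cancel_left k two_pos])] at hkey
  have hH0 : 0 < q ^ h * c := by positivity
  set H : ℝ := q ^ h * c with hH
  have hs0 : 0 < √H := Real.sqrt_pos.2 hH0
  have hs2 : √H ^ (2 * k) = H ^ k := by rw [pow_mul, Real.sq_sqrt hH0.le]
  have e1 : ex (PL K m) (fun v => (α * Zn h ((X ^ m + v) ^ p + (r₀ + r₁)) +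
          Zn h ((X ^ m + v) ^ p + (r₀ + r₂))) ^ (2 * k)) =
      ex (PL K m) (fun v => (α * MS h ((X ^ m + v) ^ p + (r₀ + r₁)) +
          MS h ((X ^ m + v) ^ p + (r₀ + r₂))) ^ (2 * k)) / H ^ k := by
    rw [div_eq_inv_mul, ← ex_const_mul]
    apply ex_congr
    intro v _
    unfold Zn
    rw [← hq, ← hc, ← hH, ← hs2, ← mul_div_assoc, ← add_div, div_pow]
    field_simp
  have e2 : ex (PL K m) (fun v => (α ^ 2 * (QS h ((X ^ m + v) ^ p + (r₀ + r₁)) / HC K h) +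
          QS h ((X ^ m + v) ^ p + (r₀ + r₂)) / HC K h) ^ k) =
      ex (PL K m) (fun v => (α ^ 2 * QS h ((X ^ m + v) ^ p + (r₀ + r₁)) +
          QS h ((X ^ m + v) ^ p + (r₀ + r₂))) ^ k) / H ^ k := by
    rw [div_eq_inv_mul, ← ex_const_mul]
    apply ex_congr
    intro v _
    rw [hHC, ← hH, ← mul_div_assoc, ← add_div, div_pow]
    field_simp
  rw [e1, e2, ← mul_div_assoc, ← sub_div, abs_div, abs_of_pos (by positivity : 0 < H ^ k),
    div_le_iff₀ (by positivity)]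
  refine hkey.trans ?_
  set a : ℕ := (h + 2) / 3 with ha
  have ha3 : (3 : ℝ) * a ≤ h + 2 := by
    have : 3 * a ≤ h + 2 := by omega
    exact_mod_cast this
  have hRB2 : 2 * R' * B = 2 * q ^ h := by rw [mul_assoc, hRB]
  have hH1 : c ^ k ≤ H ^ k := by
    apply pow_le_pow_left₀ hc0.le
    rw [hH]
    exact le_mul_of_one_le_left hc0.le (one_le_pow₀ hq1.le)
  have hs1 : √(B / (2 * R')) ≤ q * q ^ (-(h : ℝ) / 6) := by
    rw [Real.sqrt_le_iff]
    refine ⟨by positivity, ?_⟩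
    have e1 : B / R' = B * B / q ^ h := by rw [← hRB]; field_simp
    have e2 : (q * q ^ (-(h : ℝ) / 6)) ^ 2 = q ^ ((2 : ℝ) - (h : ℝ) / 3) := by
      rw [mul_pow, ← Real.rpow_natCast q 2, ← Real.rpow_natCast _ 2, ← Real.rpow_mul hq0.le,
        ← Real.rpow_add hq0]
      congr 1
      push_cast
      ring
    have e3 : B / (2 * R') ≤ B / R' := by
      apply div_le_div_of_nonneg_left hB0.le hR0
      linarith
    refine e3.trans ?_
    rw [e1, e2]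
    calc B * B / q ^ h ≤ q ^ a * q ^ a / q ^ h := by gcongr
      _ = q ^ ((a : ℝ) + a - h) := by
          rw [Real.rpow_sub hq0, Real.rpow_add hq0, Real.rpow_natCast, Real.rpow_natCast]
      _ ≤ q ^ ((2 : ℝ) - (h : ℝ) / 3) := by
          apply Real.rpow_le_rpow_of_exponent_le hq1.le
          linarith
  have hLk : (8 * k + 1) * e - 2 * k * e = (6 * k + 1) * e := by
    rw [show (8 * k + 1) * e = (6 * k + 1) * e + 2 * k * e by ring, Nat.add_sub_cancel]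
  have g1 : √(2 * q ^ h) ^ (2 * k) = (2 / c) ^ k * H ^ k := by
    rw [pow_mul, Real.sq_sqrt (by positivity), ← mul_pow, hH]
    congr 1
    field_simp
  have g2 : (2 * q ^ h) ^ (2 * k) * (B ^ (2 * (2 * k)) / q ^ ((6 * k + 1) * e)) ≤
      4 ^ k * q ^ (-(h : ℝ) / 6) := by
    have f1 : (2 * q ^ h) ^ (2 * k) = 4 ^ k * q ^ (2 * k * h) := by
      rw [mul_pow, pow_mul, ← pow_mul q, show h * (2 * k) = 2 * k * h by ring]
      norm_num
    have f2 : B ^ (2 * (2 * k)) ≤ q ^ (4 * k * h) := by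
      calc B ^ (2 * (2 * k)) ≤ (q ^ h) ^ (2 * (2 * k)) := by
            apply pow_le_pow_left₀ hB0.le
            exact hBle.trans (pow_le_pow_right₀ hq1.le (by omega))
        _ = q ^ (4 * k * h) := by rw [← pow_mul]; congr 1; ring
    have f3 : q ^ ((6 * k + 1) * h) ≤ q ^ ((6 * k + 1) * e) :=
      pow_le_pow_right₀ hq1.le (Nat.mul_le_mul_left _ he)
    have f4 : q ^ (2 * k * h) * (q ^ (4 * k * h) / q ^ ((6 * k + 1) * h)) ≤
        q ^ (-(h : ℝ) / 6) := by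
      have : q ^ (2 * k * h) * (q ^ (4 * k * h) / q ^ ((6 * k + 1) * h)) = q ^ (-(h : ℝ)) := by
        rw [Real.rpow_neg hq0.le, Real.rpow_natCast,
          show (6 * k + 1) * h = 2 * k * h + 4 * k * h + h by ring, pow_add, pow_add]
        field_simp
      rw [this]
      apply Real.rpow_le_rpow_of_exponent_le hq1.le
      linarith
    rw [f1]
    calc 4 ^ k * q ^ (2 * k * h) * (B ^ (2 * (2 * k)) / q ^ ((6 * k + 1) * e)) ≤
        4 ^ k * q ^ (2 * k * h) * (q ^ (4 * k * h) / q ^ ((6 * k + 1) * h)) := by gcongr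
      _ = 4 ^ k * (q ^ (2 * k * h) * (q ^ (4 * k * h) / q ^ ((6 * k + 1) * h))) := by ring
      _ ≤ _ := by gcongr
  rw [hRB2, hLk, g1]
  have g3 : (2 * q ^ h) ^ (2 * k) * (((2 * k : ℕ) : ℝ) * (B ^ (2 * (2 * k)) /
      q ^ ((6 * k + 1) * e))) ≤ ((4 / c) ^ k * (2 * k)) * q ^ (-(h : ℝ) / 6) * H ^ k := by
    push_cast
    calc (2 * q ^ h) ^ (2 * k) * ((2 * (k : ℝ)) * (B ^ (2 * (2 * k)) / q ^ ((6 * k + 1) * e))) =
        (2 * (k : ℝ)) * ((2 * q ^ h) ^ (2 * k) * (B ^ (2 * (2 * k)) / q ^ ((6 * k + 1) * e))) := by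
          ring
      _ ≤ (2 * (k : ℝ)) * (4 ^ k * q ^ (-(h : ℝ) / 6)) := by gcongr
      _ = ((4 / c) ^ k * (2 * k)) * q ^ (-(h : ℝ) / 6) * c ^ k := by
          rw [div_pow]; field_simp
      _ ≤ _ := by gcongr
  calc C0 * ((2 / c) ^ k * H ^ k * √(B / (2 * R')) + (2 * q ^ h) ^ (2 * k) *
        (((2 * k : ℕ) : ℝ) * (B ^ (2 * (2 * k)) / q ^ ((6 * k + 1) * e)))) ≤
      C0 * ((2 / c) ^ k * H ^ k * (q * q ^ (-(h : ℝ) / 6)) +
        ((4 / c) ^ k * (2 * k)) * q ^ (-(h : ℝ) / 6) * H ^ k) := by gcongr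
    _ = T2 * q ^ (-(h : ℝ) / 6) * H ^ k := by rw [hT2]; ring
    _ ≤ _ := by
      apply mul_le_mul_of_nonneg_right _ (by positivity)
      apply mul_le_mul_of_nonneg_right _ hE0.le
      linarith

end P4f18dfF
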