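import Pool.Agent.Lib.P4f18dfF.AQ0
import Pool.Agent.Lib.P4f18dfF.Pair

/-! The moments of a linear combination of the Moebius sums over two intervals, along `A u^p`. -/

set_option autoImplicit false

namespace P4f18dfF
open Polynomial Finset Pool.Agent.P4f18dfF Pool.Agent.P4f18dfT Pool.Agent.P4f18dfC

universe u

variable {K : Type u} [Field K] [Fintype K] [DecidableEq K]

namespace PairAuxA

/-- the index set -/
noncomputable def II (A : K[X]) (h : ℕ) (s₁ s₂ : K[X]) : Finset (K[X] ⊕ K[X]) :=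
  (IA A h s₁).disjSum (IA A h s₂)

/-- the classes -/
noncomputable def AA (A : K[X]) (h : ℕ) (s₁ s₂ : K[X]) : K[X] ⊕ K[X] → Finset K[X] :=
  Sum.elim (TA A h s₁) (TA A h s₂)

/-- their values -/
noncomputable def DD : K[X] ⊕ K[X] → K[X] := Sum.elim (fun D => D) (fun D => D)

/-- the weights -/
noncomputable def ww (α : ℝ) : K[X] ⊕ K[X] → ℝ := Sum.elim (fun _ => α) (fun _ => 1)

lemma card_II_mul (A : K[X]) (h : ℕ) (s₁ s₂ : K[X]) :
    (II A h s₁ s₂).card * (TA A h 0 0).card = 2 * Fintype.card K ^ h := by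
  unfold II
  rw [Finset.card_disjSum, add_mul, card_IA_mul, card_IA_mul]
  ring

lemma card_AA {A : K[X]} {h : ℕ} {s₁ s₂ : K[X]} {i : K[X] ⊕ K[X]} (hi : i ∈ II A h s₁ s₂) :
    (AA A h s₁ s₂ i).card = (TA A h 0 0).card := by
  unfold II at hi
  rcases i with D | D
  · rw [Finset.inl_mem_disjSum] at hi
    exact card_TA hi
  · rw [Finset.inr_mem_disjSum] at hi
    exact card_TA hi

lemma MS_pair (A : K[X]) (h : ℕ) (s₁ s₂ G : K[X]) (α : ℝ) :
    ∑ i ∈ II A h s₁ s₂, ww α i * ∑ b ∈ AA A h s₁ s₂ i, (mu (G + b) : ℝ) =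
      α * MS h (G + s₁) + MS h (G + s₂) := by
  unfold II
  rw [Finset.sum_disjSum]
  unfold ww AA
  simp only [Sum.elim_inl, Sum.elim_inr, one_mul]
  rw [← Finset.mul_sum, sum_IA A h s₁ (fun b => (mu (G + b) : ℝ)),
    sum_IA A h s₂ (fun b => (mu (G + b) : ℝ))]
  unfold MS
  simp only [add_assoc]

lemma QS_pair (A : K[X]) (h : ℕ) (s₁ s₂ G : K[X]) (α : ℝ) :
    ∑ i ∈ II A h s₁ s₂, ww α i ^ 2 * ∑ b ∈ AA A h s₁ s₂ i, (mu (G + b) : ℝ) ^ 2 =
      α ^ 2 * QS h (G + s₁) + QS h (G + s₂) := by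
  unfold II
  rw [Finset.sum_disjSum]
  unfold ww AA
  simp only [Sum.elim_inl, Sum.elim_inr, one_mul, one_pow]
  rw [← Finset.mul_sum, sum_IA A h s₁ (fun b => (mu (G + b) : ℝ) ^ 2),
    sum_IA A h s₂ (fun b => (mu (G + b) : ℝ) ^ 2)]
  unfold QS
  simp only [add_assoc]

lemma DD_eq {A : K[X]} {h e : ℕ} {r₀ r₁ r₂ : K[X]} (h₁ : r₁ ∈ PL K e) (h₂ : r₂ ∈ PL K e)
    (he : h ≤ e) {i : K[X] ⊕ K[X]} (hi : i ∈ II A h (r₀ + r₁) (r₀ + r₂)) :
    ∃ x ∈ PL K e, DD i = WA A (r₀ + x) := by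
  unfold II at hi
  rcases i with D | D
  · rw [Finset.inl_mem_disjSum] at hi
    obtain ⟨a, ha, rfl⟩ := mem_IA.1 hi
    exact ⟨r₁ + a, add_mem_PL h₁ (PL_mono he ha), by simp only [DD, Sum.elim_inl, add_assoc]⟩
  · rw [Finset.inr_mem_disjSum] at hi
    obtain ⟨a, ha, rfl⟩ := mem_IA.1 hi
    exact ⟨r₂ + a, add_mem_PL h₂ (PL_mono he ha), by simp only [DD, Sum.elim_inr, add_assoc]⟩

lemma DD_ne {A : K[X]} {h : ℕ} {r₀ r₁ r₂ : K[X]}
    (hne : ∀ a ∈ PL K h, WA A (r₁ - r₂) ≠ WA A a)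
    {i j : K[X] ⊕ K[X]} (hi : i ∈ II A h (r₀ + r₁) (r₀ + r₂))
    (hj : j ∈ II A h (r₀ + r₁) (r₀ + r₂)) (hij : i ≠ j) :
    (DD i : K[X]) ≠ DD j := by
  have key : ∀ a ∈ PL K h, ∀ b ∈ PL K h, WA A (r₀ + r₁ + a) ≠ WA A (r₀ + r₂ + b) := by
    intro a ha b hb h0
    apply hne (b + -a) (add_mem_PL hb (neg_mem_PL ha))
    have h1 : WA A (r₀ + r₁ + a) - WA A (r₀ + r₂ + b) = 0 := sub_eq_zero.2 h0
    rw [← WA_sub, show r₀ + r₁ + a - (r₀ + r₂ + b) = (r₁ - r₂) - (b + -a) by ring, WA_sub] at h1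
    exact sub_eq_zero.1 h1
  unfold II at hi hj
  rcases i with D | D <;> rcases j with E | E
  · intro h0
    apply hij
    simp only [DD, Sum.elim_inl] at h0
    rw [h0]
  · rw [Finset.inl_mem_disjSum] at hi
    rw [Finset.inr_mem_disjSum] at hj
    obtain ⟨a, ha, rfl⟩ := mem_IA.1 hi
    obtain ⟨b, hb, rfl⟩ := mem_IA.1 hj
    exact key a ha b hb
  · rw [Finset.inr_mem_disjSum] at hi
    rw [Finset.inl_mem_disjSum] at hj
    obtain ⟨a, ha, rfl⟩ := mem_IA.1 hi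
    obtain ⟨b, hb, rfl⟩ := mem_IA.1 hj
    exact fun h0 => key b hb a ha h0.symm
  · intro h0
    apply hij
    simp only [DD, Sum.elim_inr] at h0
    rw [h0]

lemma mem_AA {A : K[X]} {h e : ℕ} {r₀ r₁ r₂ : K[X]} (h₁ : r₁ ∈ PL K e) (h₂ : r₂ ∈ PL K e)
    {i : K[X] ⊕ K[X]} {b : K[X]} (hb : b ∈ AA A h (r₀ + r₁) (r₀ + r₂) i) :
    ∃ x ∈ PL K e, b - (r₀ + x) ∈ PL K h ∧ WA A b = DD i ∧
      ∀ c ∈ AA A h (r₀ + r₁) (r₀ + r₂) i, b - c ∈ PL K h := by
  rcases i with D | D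
  · unfold AA at hb
    simp only [Sum.elim_inl, mem_TA] at hb
    refine ⟨r₁, h₁, hb.1, hb.2, ?_⟩
    intro c hc
    unfold AA at hc
    simp only [Sum.elim_inl, mem_TA] at hc
    rw [show b - c = (b - (r₀ + r₁)) + -(c - (r₀ + r₁)) by ring]
    exact add_mem_PL hb.1 (neg_mem_PL hc.1)
  · unfold AA at hb
    simp only [Sum.elim_inr, mem_TA] at hb
    refine ⟨r₂, h₂, hb.1, hb.2, ?_⟩
    intro c hc
    unfold AA at hc
    simp only [Sum.elim_inr, mem_TA] at hc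
    rw [show b - c = (b - (r₀ + r₂)) + -(c - (r₀ + r₂)) by ring]
    exact add_mem_PL hb.1 (neg_mem_PL hc.1)

lemma fam (p : ℕ) [Fact p.Prime] [CharP K p] {h e d m s L : ℕ} {A w : K[X]}
    (hA : A.Monic) (hw : w.Monic) (hwm : m ≤ w.natDegree) (he : h ≤ e) (hd : e ≤ d)
    (hm : d ≤ m) (hs : e + A.natDegree ≤ s) {r₀ r₁ r₂ : K[X]} (h₀ : r₀ ∈ PL K d)
    (hgood : GoodA A L e r₀) (h₁ : r₁ ∈ PL K e) (h₂ : r₂ ∈ PL K e)
    (hne : ∀ a ∈ PL K h, WA A (r₁ - r₂) ≠ WA A a) :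
    FamA p m (d + 2 * A.natDegree) s L A w (II A h (r₀ + r₁) (r₀ + r₂))
      (AA A h (r₀ + r₁) (r₀ + r₂)) DD where
  mon := hA
  wmon := hw
  wdeg := hwm
  adeg := by omega
  der := by
    intro i _ b hb
    obtain ⟨x, _, _, h3, _⟩ := mem_AA h₁ h₂ hb
    exact h3
  deg := by
    intro i _ b hb
    obtain ⟨x, hx, h2, _, _⟩ := mem_AA h₁ h₂ hb
    have h1 : b ∈ PL K d := by
      have := add_mem_PL (add_mem_PL h₀ (PL_mono hd hx)) (PL_mono (he.trans hd) h2)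
      rwa [add_sub_cancel] at this
    refine (mem_PL.1 h1).trans_le ?_
    have h3 : d ≤ A.natDegree + p * w.natDegree := by
      have : w.natDegree ≤ p * w.natDegree := Nat.le_mul_of_pos_left _ (Fact.out : p.Prime).pos
      omega
    exact_mod_cast h3
  ne := by
    intro i hi
    obtain ⟨x, hx, hD⟩ := DD_eq h₁ h₂ he hi
    rw [hD]; exact (hgood x (mem_PL.1 hx)).1
  odd := by
    intro i hi
    obtain ⟨x, hx, hD⟩ := DD_eq h₁ h₂ he hi
    rw [hD]; exact (hgood x (mem_PL.1 hx)).2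
  nd := by
    intro i hi
    obtain ⟨x, hx, hD⟩ := DD_eq h₁ h₂ he hi
    rw [hD]
    have h1 := natDegree_WA_le A (r₀ + x)
    have h2 : (r₀ + x).natDegree ≤ d :=
      natDegree_le_of_degree_le (mem_PL.1 (add_mem_PL h₀ (PL_mono hd hx))).le
    omega
  cross := by
    intro i hi j hj hij S hS hdv
    have hne' := DD_ne hne hi hj hij
    obtain ⟨x, hx, hD⟩ := DD_eq h₁ h₂ he hi
    obtain ⟨y, hy, hE⟩ := DD_eq h₁ h₂ he hj
    have hD0 : DD i ≠ 0 := by rw [hD]; exact (hgood x (mem_PL.1 hx)).1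
    have h1 : DD i - DD j = WA A (x - y) := by
      rw [hD, hE, ← WA_sub]; congr 1; ring
    have h2 : (DD i : K[X]) - DD j ≠ 0 := sub_ne_zero.2 hne'
    refine (sum_natDegree_le hD0 h2 S hS (fun P hP =>
      dvd_sub (dvd_of_mem_oddp hD0 (hS hP)) (hdv P hP))).trans ?_
    rw [h1]
    refine (natDegree_WA_le _ _).trans ?_
    have h3 : (x - y).natDegree ≤ e :=
      (natDegree_sub_le _ _).trans (max_le (natDegree_le_of_degree_le (mem_PL.1 hx).le)
        (natDegree_le_of_degree_le (mem_PL.1 hy).le))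
    omega
  close := by
    intro i _ b hb c hc _
    obtain ⟨x, _, _, _, h4⟩ := mem_AA h₁ h₂ hb
    have h3 : (b - c).natDegree ≤ h := natDegree_le_of_degree_le (mem_PL.1 (h4 c hc)).le
    omega

end PairAuxA

open PairAuxA in
/-- moments of a linear combination of the sums at two values `r0 + r1`, `r0 + r2` -/
theorem pair_momA (p : ℕ) [Fact p.Prime] [CharP K p] (hK : ringChar K ≠ 2) (k : ℕ) :
    ∃ (C : ℝ) (L₀ : ℕ), 1 ≤ C ∧ ∀ (h e d m : ℕ) (A w : K[X]), A.Monic → w.Monic →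
      m ≤ w.natDegree → C * h ≤ e → C * ((e : ℝ) + A.natDegree) ≤ d → C * d ≤ m →
      ∀ r₀ ∈ PL K d, GoodA A (L₀ * (e + A.natDegree)) e r₀ → ∀ r₁ ∈ PL K e, ∀ r₂ ∈ PL K e,
      (∀ a ∈ PL K h, WA A (r₁ - r₂) ≠ WA A a) → ∀ α : ℝ, |α| ≤ 1 →
      |ex (PL K m) (fun v => (α * Zn h (A * (w + v) ^ p + (r₀ + r₁)) +
          Zn h (A * (w + v) ^ p + (r₀ + r₂))) ^ (2 * k)) -
        gm (2 * k) * ex (PL K m) (fun v => (α ^ 2 * (QS h (A * (w + v) ^ p + (r₀ + r₁)) / HC K h) +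
          QS h (A * (w + v) ^ p + (r₀ + r₂)) / HC K h) ^ k)| ≤
      C * (Fintype.card K : ℝ) ^ (-(h : ℝ) / 6) := by
  classical
  obtain ⟨C0, hC0, hcore⟩ := gcoreA (K := K) (ι := K[X] ⊕ K[X]) p hK (2 * k)
  have hq1 : (1 : ℝ) < (Fintype.card K : ℝ) := by exact_mod_cast Fintype.one_lt_card
  have hq0 : (0 : ℝ) < (Fintype.card K : ℝ) := by linarith
  obtain ⟨c, hc⟩ : ∃ c : ℝ, c = 1 - 1 / (Fintype.card K : ℝ) := ⟨_, rfl⟩
  have hHC : ∀ h : ℕ, HC K h = (Fintype.card K : ℝ) ^ h * c := by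
    intro h; unfold HC; rw [← hc]
  set q : ℝ := (Fintype.card K : ℝ) with hq
  have hc0 : 0 < c := by
    rw [hc, sub_pos, div_lt_one hq0]; exact hq1
  have hg := gm_nonneg (2 * k)
  have hsc : 0 < √c := Real.sqrt_pos.2 hc0
  set T1 : ℝ := (2 * ((1 / √c) * q ^ 4)) ^ (2 * k) + gm (2 * k) * (2 / c) ^ k with hT1
  set T2 : ℝ := C0 * ((2 / c) ^ k * q + (4 / c) ^ k * (2 * k)) with hT2
  have hT10 : 0 ≤ T1 := by positivity
  have hT20 : 0 ≤ T2 := by positivity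
  have hp := three_le (K := K) p hK
  refine ⟨q * T1 + T2 + 3 * (2 * k + 1), 8 * k + 2, ?_, ?_⟩
  · have : (0 : ℝ) ≤ q * T1 := by positivity
    have : (0 : ℝ) ≤ k := Nat.cast_nonneg _
    linarith
  intro h e d m A w hA hw hwm hCe hCd hCm r₀ hr₀ hgood r₁ hr₁ r₂ hr₂ hne α hα
  have ha0 : (0 : ℝ) ≤ A.natDegree := Nat.cast_nonneg _
  have hh0 : (0 : ℝ) ≤ h := Nat.cast_nonneg _
  have he0 : (0 : ℝ) ≤ e := Nat.cast_nonneg _
  have hd0 : (0 : ℝ) ≤ d := Nat.cast_nonneg _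
  have hk0 : (0 : ℝ) ≤ k := Nat.cast_nonneg _
  have hqT : 0 ≤ q * T1 := by positivity
  have hE0 : 0 < q ^ (-(h : ℝ) / 6) := by positivity
  by_cases hh4 : h < 4
  · -- small h
    refine (PairAux.triv (K := K) k h (c := c) hc hc0 (PL K m) (fun v => A * (w + v) ^ p + (r₀ + r₁))
      (fun v => A * (w + v) ^ p + (r₀ + r₂)) hα).trans ?_
    rw [← hq]
    have e0 : (2 * ((1 / √c) * q ^ h)) ^ (2 * k) ≤ (2 * ((1 / √c) * q ^ 4)) ^ (2 * k) := by
      apply pow_le_pow_left₀ (by positivity)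
      apply mul_le_mul_of_nonneg_left _ (by norm_num)
      apply mul_le_mul_of_nonneg_left _ (by positivity)
      exact pow_le_pow_right₀ hq1.le hh4.le
    have e1 : 1 ≤ q * q ^ (-(h : ℝ) / 6) := by
      nth_rewrite 1 [← Real.rpow_one q]
      rw [← Real.rpow_add hq0]
      apply Real.one_le_rpow hq1.le
      have : (h : ℝ) ≤ 4 := by exact_mod_cast hh4.le
      linarith
    calc _ ≤ T1 := by rw [hT1]; linarith
      _ = T1 * 1 := (mul_one _).symm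
      _ ≤ T1 * (q * q ^ (-(h : ℝ) / 6)) := mul_le_mul_of_nonneg_left e1 hT10
      _ = (q * T1) * q ^ (-(h : ℝ) / 6) := by ring
      _ ≤ _ := by
        apply mul_le_mul_of_nonneg_right _ hE0.le
        linarith
  push Not at hh4
  have he1 : (h : ℝ) ≤ e := by nlinarith
  have hd1 : (e : ℝ) + A.natDegree ≤ d := by nlinarith
  have hm1 : (2 * (k : ℝ) + 1) * (d + 2 * A.natDegree) ≤ m := by
    have h1 : 3 * (2 * (k : ℝ) + 1) * d ≤ m := by
      refine le_trans ?_ hCm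
      apply mul_le_mul_of_nonneg_right _ hd0
      linarith
    have h2 : (2 * (k : ℝ) + 1) * (d + 2 * A.natDegree) ≤ (2 * (k : ℝ) + 1) * (3 * d) := by
      apply mul_le_mul_of_nonneg_left _ (by linarith)
      linarith
    linarith
  have he : h ≤ e := by exact_mod_cast he1
  have hed : e + A.natDegree ≤ d := by exact_mod_cast hd1
  have hd : e ≤ d := by omega
  have hm2 : (2 * k + 1) * (d + 2 * A.natDegree) ≤ m := by exact_mod_cast hm1
  have hdm : d ≤ m := by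
    have : d + 2 * A.natDegree ≤ (2 * k + 1) * (d + 2 * A.natDegree) :=
      Nat.le_mul_of_pos_left _ (Nat.succ_pos _)
    omega
  have hkd : 2 * k * (d + 2 * A.natDegree) ≤ m := by
    have : 2 * k * (d + 2 * A.natDegree) ≤ (2 * k + 1) * (d + 2 * A.natDegree) :=
      Nat.mul_le_mul_right _ (Nat.le_succ _)
    omega
  set s : ℕ := e + A.natDegree with hs
  have hs0 : 0 < s := by omega
  have hhs : h ≤ s := by omega
  have hF := fam p hA hw hwm he hd hdm (s := s) le_rfl hr₀ hgood hr₁ hr₂ hne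
  set I : Finset (K[X] ⊕ K[X]) := II A h (r₀ + r₁) (r₀ + r₂) with hI
  set B : ℝ := ((TA A h 0 0).card : ℝ) with hB
  obtain ⟨R', hR'⟩ : ∃ R' : ℝ, R' = (I.card : ℝ) / 2 := ⟨_, rfl⟩
  have hR : (I.card : ℝ) = 2 * R' := by rw [hR']; ring
  have hB1 : 1 ≤ B := by rw [hB]; exact_mod_cast card_T0_pos A h
  have hB0 : 0 < B := by linarith
  have hRB : R' * B = q ^ h := by
    have h1 : (I.card : ℝ) * B = 2 * q ^ h := by
      rw [hI, hB, hq]
      exact_mod_cast card_II_mul A h (r₀ + r₁) (r₀ + r₂)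
    rw [hR'] 
    linarith
  have hBle : B ≤ q ^ ((h + 2) / 3) := by
    rw [hB, hq]
    exact_mod_cast card_T0_le p hp hA h
  have hR0 : 0 < R' := by
    have h1 : 0 < R' * B := by rw [hRB]; positivity
    by_contra hcon
    push Not at hcon
    nlinarith
  have hBB : B * B ≤ R' * B := by
    rw [hRB]
    have hqp : (0 : ℝ) ≤ q ^ ((h + 2) / 3) := pow_nonneg hq0.le _
    calc B * B ≤ q ^ ((h + 2) / 3) * q ^ ((h + 2) / 3) := mul_le_mul hBle hBle hB0.le hqp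
      _ = q ^ ((h + 2) / 3 + (h + 2) / 3) := (pow_add _ _ _).symm
      _ ≤ q ^ h := pow_le_pow_right₀ hq1.le (by omega)
  have hBR : B ≤ R' := le_of_mul_le_mul_right hBB hB0
  have hkey := hcore A w I (AA A h (r₀ + r₁) (r₀ + r₂)) DD (ww α) B m (d + 2 * A.natDegree) s
    ((8 * k + 2) * s) hF (fun i _ => by
      rcases i with D | D
      · simpa [ww] using hα
      · simp [ww])
    (fun i hi => by rw [card_AA hi]) hB1 (by rw [hR]; linarith)
    (by apply Nat.mul_lt_mul_of_pos_right _ hs0; omega) hkd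
  rw [hR] at hkey
  rw [ex_congr (g := fun v => (α * MS h (A * (w + v) ^ p + (r₀ + r₁)) +
      MS h (A * (w + v) ^ p + (r₀ + r₂))) ^ (2 * k)) (fun v _ => by rw [MS_pair]),
    ex_congr (f := fun v => (∑ i ∈ I, ww α i ^ 2 * ∑ b ∈ AA A h (r₀ + r₁) (r₀ + r₂) i,
      (mu (A * (w + v) ^ p + b) : ℝ) ^ 2) ^ (2 * k / 2))
      (g := fun v => (α ^ 2 * QS h (A * (w + v) ^ p + (r₀ + r₁)) +
      QS h (A * (w + v) ^ p + (r₀ + r₂))) ^ k)
      (fun v _ => by rw [QS_pair, Nat.mul_div_cancel_left k two_pos])] at hkey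
  have hH0 : 0 < q ^ h * c := by positivity
  set H : ℝ := q ^ h * c with hH
  have hs0 : 0 < √H := Real.sqrt_pos.2 hH0
  have hs2 : √H ^ (2 * k) = H ^ k := by rw [pow_mul, Real.sq_sqrt hH0.le]
  have e1 : ex (PL K m) (fun v => (α * Zn h (A * (w + v) ^ p + (r₀ + r₁)) +
          Zn h (A * (w + v) ^ p + (r₀ + r₂))) ^ (2 * k)) =
      ex (PL K m) (fun v => (α * MS h (A * (w + v) ^ p + (r₀ + r₁)) +
          MS h (A * (w + v) ^ p + (r₀ + r₂))) ^ (2 * k)) / H ^ k := by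
    rw [div_eq_inv_mul, ← ex_const_mul]
    apply ex_congr
    intro v _
    unfold Zn
    rw [← hq, ← hc, ← hH, ← hs2, ← mul_div_assoc, ← add_div, div_pow]
    field_simp
  have e2 : ex (PL K m) (fun v => (α ^ 2 * (QS h (A * (w + v) ^ p + (r₀ + r₁)) / HC K h) +
          QS h (A * (w + v) ^ p + (r₀ + r₂)) / HC K h) ^ k) =
      ex (PL K m) (fun v => (α ^ 2 * QS h (A * (w + v) ^ p + (r₀ + r₁)) +
          QS h (A * (w + v) ^ p + (r₀ + r₂))) ^ k) / H ^ k := by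
    rw [div_eq_inv_mul, ← ex_const_mul]
    apply ex_congr
    intro v _
    rw [hHC, ← hH, ← mul_div_assoc, ← add_div, div_pow]
    field_simp
  rw [e1, e2, ← mul_div_assoc, ← sub_div, abs_div, abs_of_pos (by positivity : 0 < H ^ k),
    div_le_iff₀ (by positivity)]
  refine hkey.trans ?_
  set a : ℕ := (h + 2) / 3 with ha
  have ha3 : (3 : ℝ) * a ≤ h + 2 := by
    have : 3 * a ≤ h + 2 := by omega
    exact_mod_cast this
  have hRB2 : 2 * R' * B = 2 * q ^ h := by rw [mul_assoc, hRB]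
  have hH1 : c ^ k ≤ H ^ k := by
    apply pow_le_pow_left₀ hc0.le
    rw [hH]
    exact le_mul_of_one_le_left hc0.le (one_le_pow₀ hq1.le)
  have hs1 : √(B / (2 * R')) ≤ q * q ^ (-(h : ℝ) / 6) := by
    rw [Real.sqrt_le_iff]
    refine ⟨by positivity, ?_⟩
    have e1 : B / R' = B * B / q ^ h := by rw [← hRB]; field_simp
    have e2 : (q * q ^ (-(h : ℝ) / 6)) ^ 2 = q ^ ((2 : ℝ) - (h : ℝ) / 3) := by
      rw [mul_pow, ← Real.rpow_natCast q 2, ← Real.rpow_natCast _ 2, ← Real.rpow_mul hq0.le,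
        ← Real.rpow_add hq0]
      congr 1
      push_cast
      ring
    have e3 : B / (2 * R') ≤ B / R' := by
      apply div_le_div_of_nonneg_left hB0.le hR0
      linarith
    refine e3.trans ?_
    rw [e1, e2]
    have hqp : (0 : ℝ) ≤ q ^ a := pow_nonneg hq0.le _
    calc B * B / q ^ h ≤ q ^ a * q ^ a / q ^ h :=
          div_le_div_of_nonneg_right (mul_le_mul hBle hBle hB0.le hqp) (pow_nonneg hq0.le _)
      _ = q ^ ((a : ℝ) + a - h) := by
          rw [Real.rpow_sub hq0, Real.rpow_add hq0, Real.rpow_natCast, Real.rpow_natCast]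
      _ ≤ q ^ ((2 : ℝ) - (h : ℝ) / 3) := by
          apply Real.rpow_le_rpow_of_exponent_le hq1.le
          linarith
  have hLk : (8 * k + 2) * s - (2 * k + 1) * s = (6 * k + 1) * s := by
    rw [show (8 * k + 2) * s = (6 * k + 1) * s + (2 * k + 1) * s by ring, Nat.add_sub_cancel]
  have g1 : √(2 * q ^ h) ^ (2 * k) = (2 / c) ^ k * H ^ k := by
    rw [pow_mul, Real.sq_sqrt (by positivity), ← mul_pow, hH]
    congr 1
    field_simp
  have g2 : (2 * q ^ h) ^ (2 * k) * (B ^ (2 * (2 * k)) / q ^ ((6 * k + 1) * s)) ≤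
      4 ^ k * q ^ (-(h : ℝ) / 6) := by
    have f1 : (2 * q ^ h) ^ (2 * k) = 4 ^ k * q ^ (2 * k * h) := by
      rw [mul_pow, pow_mul, ← pow_mul q, show h * (2 * k) = 2 * k * h by ring]
      norm_num
    have f2 : B ^ (2 * (2 * k)) ≤ q ^ (4 * k * h) := by
      calc B ^ (2 * (2 * k)) ≤ (q ^ h) ^ (2 * (2 * k)) := by
            apply pow_le_pow_left₀ hB0.le
            exact hBle.trans (pow_le_pow_right₀ hq1.le (by omega))
        _ = q ^ (4 * k * h) := by rw [← pow_mul]; congr 1; ring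
    have f3 : q ^ ((6 * k + 1) * h) ≤ q ^ ((6 * k + 1) * s) :=
      pow_le_pow_right₀ hq1.le (Nat.mul_le_mul_left _ hhs)
    have f4 : q ^ (2 * k * h) * (q ^ (4 * k * h) / q ^ ((6 * k + 1) * h)) ≤
        q ^ (-(h : ℝ) / 6) := by
      have : q ^ (2 * k * h) * (q ^ (4 * k * h) / q ^ ((6 * k + 1) * h)) = q ^ (-(h : ℝ)) := by
        rw [Real.rpow_neg hq0.le, Real.rpow_natCast,
          show (6 * k + 1) * h = 2 * k * h + 4 * k * h + h by ring, pow_add, pow_add]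
        field_simp
      rw [this]
      apply Real.rpow_le_rpow_of_exponent_le hq1.le
      linarith
    rw [f1]
    calc 4 ^ k * q ^ (2 * k * h) * (B ^ (2 * (2 * k)) / q ^ ((6 * k + 1) * s)) ≤
        4 ^ k * q ^ (2 * k * h) * (q ^ (4 * k * h) / q ^ ((6 * k + 1) * h)) := by gcongr
      _ = 4 ^ k * (q ^ (2 * k * h) * (q ^ (4 * k * h) / q ^ ((6 * k + 1) * h))) := by ring
      _ ≤ _ := by gcongr
  rw [hRB2, hLk, g1]
  have g3 : (2 * q ^ h) ^ (2 * k) * (((2 * k : ℕ) : ℝ) * (B ^ (2 * (2 * k)) /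
      q ^ ((6 * k + 1) * s))) ≤ ((4 / c) ^ k * (2 * k)) * q ^ (-(h : ℝ) / 6) * H ^ k := by
    push_cast
    calc (2 * q ^ h) ^ (2 * k) * ((2 * (k : ℝ)) * (B ^ (2 * (2 * k)) / q ^ ((6 * k + 1) * s))) =
        (2 * (k : ℝ)) * ((2 * q ^ h) ^ (2 * k) * (B ^ (2 * (2 * k)) / q ^ ((6 * k + 1) * s))) := by
          ring
      _ ≤ (2 * (k : ℝ)) * (4 ^ k * q ^ (-(h : ℝ) / 6)) := by gcongr
      _ = ((4 / c) ^ k * (2 * k)) * q ^ (-(h : ℝ) / 6) * c ^ k := by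
          rw [div_pow]; field_simp
      _ ≤ _ := by gcongr
  calc C0 * ((2 / c) ^ k * H ^ k * √(B / (2 * R')) + (2 * q ^ h) ^ (2 * k) *
        (((2 * k : ℕ) : ℝ) * (B ^ (2 * (2 * k)) / q ^ ((6 * k + 1) * s)))) ≤
      C0 * ((2 / c) ^ k * H ^ k * (q * q ^ (-(h : ℝ) / 6)) +
        ((4 / c) ^ k * (2 * k)) * q ^ (-(h : ℝ) / 6) * H ^ k) := by gcongr
    _ = T2 * q ^ (-(h : ℝ) / 6) * H ^ k := by rw [hT2]; ring
    _ ≤ _ := by
      apply mul_le_mul_of_nonneg_right _ (by positivity)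
      apply mul_le_mul_of_nonneg_right _ hE0.le
      linarith

end P4f18dfF
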