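import Mathlib

/-! The quadratic character of the discriminant of an extension of finite fields. -/

namespace P4f18dfF
open Polynomial Finset

lemma rot_aux {n : ℕ} {α : Type*} (g : ℕ → α) (hg : g n = g 0) (j : Fin n) :
    g ((finRotate n j : Fin n) : ℕ) = g ((j : ℕ) + 1) := by
  cases n with
  | zero => exact j.elim0
  | succ m =>
    rw [coe_finRotate]
    split_ifs with h
    · subst h; simp [hg]
    · rfl

section
variable {K L : Type*} [Field K] [Fintype K] [DecidableEq K] [Field L] [Fintype L] [Algebra K L]

/-- the quadratic character of the discriminant of a power basis of L/K is (-1)^(n-1). -/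
theorem quadraticChar_discr (hK : ringChar K ≠ 2) (pb : PowerBasis K L) :
    quadraticChar K (Algebra.discr K pb.basis) = (-1) ^ (pb.dim - 1) := by
  classical
  set n := pb.dim with hn
  let E := AlgebraicClosure L
  let ι : L →ₐ[K] E := IsScalarTower.toAlgHom K L E
  have hι : Function.Injective ι := (algebraMap L E).injective
  let φ := FiniteField.frobeniusAlgEquivOfAlgebraic K L
  have hfin : Module.finrank K L = n := pb.finrank
  have hφ : ∀ x : L, φ x = x ^ Fintype.card K := fun x => rfl
  -- the embeddings
  let f : Fin n → (L →ₐ[K] E) := fun j => ι.comp ((φ ^ (j : ℕ) : L ≃ₐ[K] L) : L →ₐ[K] L)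
  have hfinj : Function.Injective f := by
    intro i j hij
    have h1 := (FiniteField.bijective_frobeniusAlgEquivOfAlgebraic_pow K L).1
    have h2 : (φ ^ (i : ℕ) : L ≃ₐ[K] L) = φ ^ (j : ℕ) := by
      ext x
      have := DFunLike.congr_fun hij x
      exact hι this
    have h3 := @h1 (Fin.cast hfin.symm i) (Fin.cast hfin.symm j) (by simpa using h2)
    simpa [Fin.ext_iff] using h3
  have hcard : Fintype.card (L →ₐ[K] E) = n := by
    rw [AlgHom.card, hfin]
  have hfbij : Function.Bijective f := by
    rw [Fintype.bijective_iff_injective_and_card]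
    exact ⟨hfinj, by simp [hcard]⟩
  let e : Fin n ≃ (L →ₐ[K] E) := Equiv.ofBijective f hfbij
  let v : Fin n → E := fun j => e j pb.gen
  have hdis : algebraMap K E (Algebra.discr K pb.basis) = (Matrix.vandermonde v).det ^ 2 := by
    rw [Algebra.discr_powerBasis_eq_prod K E pb e, Matrix.det_vandermonde, ← Finset.prod_pow]
    refine Finset.prod_congr rfl fun i _ => ?_
    rw [← Finset.prod_pow]
  have hvq : ∀ j, v j ^ Fintype.card K = v (finRotate n j) := by
    intro j
    have h1 := rot_aux (n := n) (fun k => ι ((φ ^ k : L ≃ₐ[K] L) pb.gen)) (by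
      have : (φ ^ n : L ≃ₐ[K] L) = 1 := by
        rw [← hfin, ← FiniteField.orderOf_frobeniusAlgEquivOfAlgebraic K L]
        exact pow_orderOf_eq_one _
      simp [this]) j
    change ι ((φ ^ (j : ℕ) : L ≃ₐ[K] L) pb.gen) ^ Fintype.card K =
      ι ((φ ^ ((finRotate n j : Fin n) : ℕ) : L ≃ₐ[K] L) pb.gen)
    rw [h1, ← map_pow, pow_succ', AlgEquiv.mul_apply, hφ]
  have hdet : (Matrix.vandermonde v).det ^ Fintype.card K =
      (-1) ^ (n - 1) * (Matrix.vandermonde v).det := by
    have h1 := AlgHom.map_det (FiniteField.frobeniusAlgHom K E) (Matrix.vandermonde v)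
    rw [FiniteField.coe_frobeniusAlgHom] at h1
    have h2 : ((FiniteField.frobeniusAlgHom K E).mapMatrix (Matrix.vandermonde v)) =
        (Matrix.vandermonde v).submatrix (finRotate n) id := by
      ext i k
      simp only [AlgHom.mapMatrix_apply, Matrix.map_apply, Matrix.vandermonde_apply,
        Matrix.submatrix_apply, id_eq, FiniteField.coe_frobeniusAlgHom]
      rw [← hvq, ← pow_mul, ← pow_mul, mul_comm]
    rw [h2, Matrix.det_permute, sign_finRotate] at h1
    simpa using h1
  have hne : (Matrix.vandermonde v).det ≠ 0 := by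
    rw [Matrix.det_vandermonde_ne_zero_iff]
    intro i j hij
    apply e.injective
    exact pb.algHom_ext hij
  have hodd : Fintype.card K % 2 = 1 := by
    have := FiniteField.even_card_iff_char_two (F := K)
    rcases Nat.mod_two_eq_zero_or_one (Fintype.card K) with h | h
    · exact absurd (this.mpr h) hK
    · exact h
  have hpow : (Matrix.vandermonde v).det ^ (Fintype.card K - 1) = (-1) ^ (n - 1) := by
    have h3 : (Matrix.vandermonde v).det ^ (Fintype.card K - 1) * (Matrix.vandermonde v).det =
        (-1) ^ (n - 1) * (Matrix.vandermonde v).det := by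
      rw [← hdet, ← pow_succ]
      congr 1
      have := Fintype.card_pos (α := K)
      omega
    exact mul_right_cancel₀ hne h3
  have hchi : ((quadraticChar K (Algebra.discr K pb.basis) : ℤ) : E) = (-1) ^ (n - 1) := by
    have h4 := quadraticChar_eq_pow_of_char_ne_two' hK (Algebra.discr K pb.basis)
    have h5 := congrArg (algebraMap K E) h4
    rw [map_intCast, map_pow, hdis, ← pow_mul] at h5
    rw [h5, ← hpow]
    congr 1
    omega
  have hEchar : (1 : E) ≠ -1 := by
    intro h
    have h6 : (2 : E) = 0 := by linear_combination h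
    have h7 : algebraMap K E 2 = algebraMap K E 0 := by
      rw [map_ofNat, map_zero]; exact h6
    have h8 := (algebraMap K E).injective h7
    exact Ring.two_ne_zero hK h8
  have hdisne : Algebra.discr K pb.basis ≠ 0 := by
    intro h
    rw [h, map_zero] at hdis
    exact pow_ne_zero 2 hne hdis.symm
  rcases quadraticChar_dichotomy hdisne with h | h <;> rcases neg_one_pow_eq_or ℤ (n - 1) with h' | h'
  · rw [h, h']
  · exfalso
    rw [h] at hchi
    have : ((-1 : E)) ^ (n - 1) = -1 := by
      have := congrArg (Int.cast : ℤ → E) h'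
      simpa using this
    rw [this] at hchi
    exact hEchar (by simpa using hchi)
  · exfalso
    rw [h] at hchi
    have : ((-1 : E)) ^ (n - 1) = 1 := by
      have := congrArg (Int.cast : ℤ → E) h'
      simpa using this
    rw [this] at hchi
    exact hEchar (by simpa using hchi.symm)
  · rw [h, h']
end
end P4f18dfF
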