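import Pool.Agent.Lib.P4f18dfF.Res

/-! Pellet's formula: the Moebius function of K[X] is a Jacobi symbol. -/

namespace P4f18dfF
open Polynomial Finset UniqueFactorizationMonoid

/-- the Moebius function of K[X] -/
noncomputable def mu {K : Type*} [Field K] (F : K[X]) : ℤ :=
  open Classical in if Squarefree F then (-1) ^ Multiset.card (factors F) else 0

section
variable {K : Type*} [Field K] [Fintype K] [DecidableEq K]

/-- the Jacobi symbol (F/G), G monic -/
noncomputable def J (G F : K[X]) : ℤ := quadraticChar K (R G F)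

lemma J_mul_right {G : K[X]} (hG : G.Monic) (F₁ F₂ : K[X]) : J G (F₁ * F₂) = J G F₁ * J G F₂ := by
  rw [J, R_mul_right hG, map_mul]; rfl

lemma J_mul_left {G₁ G₂ : K[X]} (h₁ : G₁.Monic) (h₂ : G₂.Monic) (F : K[X]) :
    J (G₁ * G₂) F = J G₁ F * J G₂ F := by
  rw [J, R_mul_left h₁ h₂, map_mul]; rfl

lemma J_congr {G : K[X]} (hG : G.Monic) {F F' : K[X]} (h : G ∣ F - F') : J G F = J G F' := by
  rw [J, J, R_congr hG h]

lemma J_eq_zero_iff {G F : K[X]} (hG : G.Monic) : J G F = 0 ↔ ¬ IsCoprime G F := by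
  rw [J, quadraticChar_eq_zero_iff, R_eq_zero_iff hG]

@[simp] lemma J_one_left (F : K[X]) : J (1 : K[X]) F = 1 := by
  rw [J, R_one_left, map_one]

/-- up to sign the discriminant of a monic polynomial -/
noncomputable def Dl (F : K[X]) : K := (-1) ^ (F.natDegree * (F.natDegree - 1) / 2) * R F F.derivative

lemma chi_Dl_irr (hK : ringChar K ≠ 2) {P : K[X]} (hP : P.Monic) (hirr : Irreducible P) :
    quadraticChar K (Dl P) = (-1) ^ (P.natDegree - 1) := by
  have := Fact.mk hirr
  let L := AdjoinRoot P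
  let pb : PowerBasis K L := AdjoinRoot.powerBasis hirr.ne_zero
  have : Module.Finite K L := pb.finite
  have : Finite L := Module.finite_of_finite K
  have := Fintype.ofFinite L
  have h := quadraticChar_discr hK pb
  have hmin : minpoly K pb.gen = P := AdjoinRoot.minpoly_powerBasis_gen_of_monic hP
  have hdim : pb.dim = P.natDegree := AdjoinRoot.powerBasis_dim hirr.ne_zero
  rw [Algebra.discr_powerBasis_eq_norm, hmin, hdim, pb.finrank, hdim] at h
  have hR := R_eq_norm hP hirr P.derivative
  rw [Dl, hR, ← h]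
  congr 3
  rw [← AdjoinRoot.aeval_eq]
  rfl

omit [Fintype K] [DecidableEq K] in
lemma tri_add (a b : ℕ) : (a + b) * (a + b - 1) / 2 = a * (a - 1) / 2 + b * (b - 1) / 2 + a * b := by
  have e1 : (a + b) * (a + b - 1) / 2 * 2 = (a + b) * (a + b - 1) :=
    Nat.div_mul_cancel (Nat.even_mul_pred_self _).two_dvd
  have e2 : a * (a - 1) / 2 * 2 = a * (a - 1) :=
    Nat.div_mul_cancel (Nat.even_mul_pred_self _).two_dvd
  have e3 : b * (b - 1) / 2 * 2 = b * (b - 1) :=
    Nat.div_mul_cancel (Nat.even_mul_pred_self _).two_dvd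
  have e4 : (a + b) * (a + b - 1) = a * (a - 1) + b * (b - 1) + 2 * (a * b) := by
    rcases Nat.eq_zero_or_pos a with ha | ha
    · subst ha; simp
    rcases Nat.eq_zero_or_pos b with hb | hb
    · subst hb; simp
    obtain ⟨a, rfl⟩ := Nat.exists_eq_add_of_le' ha
    obtain ⟨b, rfl⟩ := Nat.exists_eq_add_of_le' hb
    have : a + 1 + (b + 1) - 1 = a + b + 1 := by omega
    simp only [Nat.add_sub_cancel, this, Nat.succ_eq_add_one, Nat.zero_add]
    ring
  omega

lemma Dl_mul {P Q : K[X]} (hP : P.Monic) (hQ : Q.Monic) :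
    Dl (P * Q) = Dl P * Dl Q * R P Q ^ 2 := by
  have hPQ := hP.mul hQ
  have h1 : R (P * Q) (P * Q).derivative =
      R P P.derivative * R P Q * (R Q P * R Q Q.derivative) := by
    rw [R_mul_left hP hQ, derivative_mul]
    congr 1
    · rw [R_add_mul hP, R_mul_right hP]
    · rw [add_comm, show P * derivative Q + derivative P * Q = P * derivative Q + Q * derivative P by ring,
        R_add_mul hQ, R_mul_right hQ]
  have h2 : R Q P = (-1) ^ (P.natDegree * Q.natDegree) * R P Q := by
    rw [R_comm, mul_comm Q.natDegree]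
  have h3 : (-1 : K) ^ ((P * Q).natDegree * ((P * Q).natDegree - 1) / 2) =
      (-1) ^ (P.natDegree * (P.natDegree - 1) / 2) * (-1) ^ (Q.natDegree * (Q.natDegree - 1) / 2) *
        (-1) ^ (P.natDegree * Q.natDegree) := by
    rw [← pow_add, ← pow_add, hP.natDegree_mul hQ]
    congr 1
    exact tri_add _ _
  have h4 : ((-1 : K) ^ (P.natDegree * Q.natDegree)) * (-1) ^ (P.natDegree * Q.natDegree) = 1 := by
    rw [← mul_pow]; simp
  rw [Dl, Dl, Dl, h1, h2, h3]
  linear_combination ((-1) ^ (P.natDegree * (P.natDegree - 1) / 2) * (-1) ^ (Q.natDegree * (Q.natDegree - 1) / 2) *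
    R P P.derivative * R Q Q.derivative * R P Q ^ 2) * h4

lemma chi_Dl (hK : ringChar K ≠ 2) (s : Multiset K[X]) (hs : ∀ P ∈ s, Irreducible P ∧ P.Monic)
    (hn : s.Nodup) : quadraticChar K (Dl s.prod) = (s.map fun P => (-1) ^ (P.natDegree - 1)).prod := by
  induction s using Multiset.induction with
  | empty => simp [Dl]
  | cons P s ih =>
    rw [Multiset.nodup_cons] at hn
    have hP := hs P (Multiset.mem_cons_self _ _)
    have hs' : ∀ Q ∈ s, Irreducible Q ∧ Q.Monic := fun Q hQ => hs Q (Multiset.mem_cons_of_mem hQ)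
    have hm : s.prod.Monic := by
      simpa using monic_multiset_prod_of_monic s id (fun Q hQ => (hs' Q hQ).2)
    rw [Multiset.prod_cons, Multiset.map_cons, Multiset.prod_cons, ← ih hs' hn.2,
      Dl_mul hP.2 hm, map_mul, map_mul, chi_Dl_irr hK hP.2 hP.1, map_pow]
    have hco : IsCoprime P s.prod := by
      rw [hP.1.coprime_iff_not_dvd]
      intro hd
      obtain ⟨Q, hQ, hPQ⟩ := Prime.exists_mem_multiset_dvd hP.1.prime hd
      have : P = Q := by
        exact eq_of_monic_of_associated hP.2 (hs' Q hQ).2 (hP.1.associated_of_dvd (hs' Q hQ).1 hPQ)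
      exact hn.1 (this ▸ hQ)
    have hne : R P s.prod ≠ 0 := by
      intro h
      exact (R_eq_zero_iff hP.2).1 h hco
    rw [quadraticChar_sq_one hne, mul_one]

omit [Fintype K] [DecidableEq K] in
lemma sign_aux (s : Multiset K[X]) (hs : ∀ P ∈ s, 1 ≤ P.natDegree) :
    (-1 : ℤ) ^ (s.map natDegree).sum * (s.map fun P => (-1 : ℤ) ^ (P.natDegree - 1)).prod =
      (-1) ^ Multiset.card s := by
  induction s using Multiset.induction with
  | empty => simp
  | cons P s ih =>
    have h1 := hs P (Multiset.mem_cons_self _ _)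
    have ih' := ih fun Q hQ => hs Q (Multiset.mem_cons_of_mem hQ)
    rw [Multiset.map_cons, Multiset.sum_cons, Multiset.map_cons, Multiset.prod_cons,
      Multiset.card_cons, pow_add, pow_succ, ← ih']
    have h2 : (-1 : ℤ) ^ P.natDegree * (-1) ^ (P.natDegree - 1) = -1 := by
      rw [← pow_add]
      exact Odd.neg_one_pow ⟨P.natDegree - 1, by omega⟩
    linear_combination ((-1 : ℤ) ^ (s.map natDegree).sum *
      (s.map fun P => (-1 : ℤ) ^ (P.natDegree - 1)).prod) * h2

lemma mu_eq_Dl (hK : ringChar K ≠ 2) {F : K[X]} (hF : F.Monic) :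
    mu F = (-1) ^ F.natDegree * quadraticChar K (Dl F) := by
  classical
  by_cases hsq : Squarefree F
  · rw [mu, if_pos hsq]
    set s := normalizedFactors F with hs
    have hprod : s.prod = F := by
      rw [hs, prod_normalizedFactors_eq, hF.normalize_eq_self]
      exact hF.ne_zero
    have hcard : Multiset.card (factors F) = Multiset.card s := by
      rw [hs, normalizedFactors, Multiset.card_map]
    have hirr : ∀ P ∈ s, Irreducible P ∧ P.Monic := by
      intro P hP
      have := (Polynomial.mem_normalizedFactors_iff hF.ne_zero).1 hP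
      exact ⟨this.1, this.2.1⟩
    have hnd : s.Nodup := (squarefree_iff_nodup_normalizedFactors hF.ne_zero).1 hsq
    have h1 := chi_Dl hK s hirr hnd
    have h2 : F.natDegree = (s.map natDegree).sum := by
      rw [← hprod, natDegree_multiset_prod_of_monic]
      exact fun P hP => (hirr P hP).2
    rw [hprod] at h1
    rw [h1, h2, hcard]
    exact (sign_aux s fun P hP => (hirr P hP).1.natDegree_pos).symm
  · rw [mu, if_neg hsq]
    have : ¬ IsCoprime F F.derivative := fun h => hsq (Separable.squarefree h)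
    have h0 : R F F.derivative = 0 := (R_eq_zero_iff hF).2 this
    rw [Dl, h0, mul_zero, MulChar.map_zero, mul_zero]

/-- the monic multiple of a polynomial -/
noncomputable def mo (D : K[X]) : K[X] := C D.leadingCoeff⁻¹ * D

omit [Fintype K] [DecidableEq K] in
lemma mo_monic {D : K[X]} (hD : D ≠ 0) : (mo D).Monic := by
  rw [mo, mul_comm]
  exact monic_mul_leadingCoeff_inv hD

omit [Fintype K] [DecidableEq K] in
lemma C_mul_mo {D : K[X]} (hD : D ≠ 0) : C D.leadingCoeff * mo D = D := by
  rw [mo, ← mul_assoc, ← C_mul, mul_inv_cancel₀ (leadingCoeff_ne_zero.2 hD), C_1, one_mul]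

omit [Fintype K] [DecidableEq K] in
lemma natDegree_mo {D : K[X]} (hD : D ≠ 0) : (mo D).natDegree = D.natDegree := by
  rw [mo, natDegree_C_mul (inv_ne_zero (leadingCoeff_ne_zero.2 hD))]

/-- the sign in Pellet's formula -/
noncomputable def sgn (n : ℕ) (D : K[X]) : ℤ :=
  (-1) ^ n * quadraticChar K ((-1) ^ (n * (n - 1) / 2 + n * D.natDegree) * D.leadingCoeff ^ n)

/-- **Pellet's formula** -/
theorem pellet (hK : ringChar K ≠ 2) {F : K[X]} (hF : F.Monic) (hF' : F.derivative ≠ 0) :
    mu F = sgn F.natDegree F.derivative * J (mo F.derivative) F := by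
  have h1 : R F F.derivative = F.derivative.leadingCoeff ^ F.natDegree *
      ((-1) ^ (F.natDegree * F.derivative.natDegree) * R (mo F.derivative) F) := by
    conv_lhs => rw [← C_mul_mo hF', R_C_mul hF, R_comm, natDegree_mo hF']
  rw [mu_eq_Dl hK hF, Dl, sgn, J, h1, mul_assoc, ← map_mul]
  congr 2
  rw [pow_add]
  ring

lemma sgn_eq (n : ℕ) {D : K[X]} (hD : D ≠ 0) : sgn n D = 1 ∨ sgn n D = -1 := by
  have h1 : ((-1 : K) ^ (n * (n - 1) / 2 + n * D.natDegree) * D.leadingCoeff ^ n) ≠ 0 :=
    mul_ne_zero (pow_ne_zero _ (neg_ne_zero.2 one_ne_zero)) (pow_ne_zero _ (leadingCoeff_ne_zero.2 hD))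
  rw [sgn]
  rcases quadraticChar_dichotomy h1 with h | h <;> rcases neg_one_pow_eq_or ℤ n with h' | h' <;>
    rw [h, h'] <;> simp

omit [Fintype K] [DecidableEq K] in
lemma natDegree_center (p : ℕ) [Fact p.Prime] {m : ℕ} {v b : K[X]} (hv : v.degree < m)
    (hb : b.degree < (p * m : ℕ)) :
    ((X ^ m + v) ^ p + b).Monic ∧ ((X ^ m + v) ^ p + b).natDegree = p * m := by
  have h1 : (X ^ m + v).Monic := monic_X_pow_add hv
  have h2 : (X ^ m + v).natDegree = m := by
    rw [natDegree_add_eq_left_of_degree_lt, natDegree_X_pow]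
    rwa [degree_X_pow]
  have h3 : ((X ^ m + v) ^ p).degree = ((p * m : ℕ) : WithBot ℕ) := by
    rw [degree_eq_natDegree (h1.pow p).ne_zero, h1.natDegree_pow, h2]
  have h4 : b.degree < ((X ^ m + v) ^ p).degree := by rw [h3]; exact hb
  refine ⟨(h1.pow p).add_of_left h4, ?_⟩
  rw [natDegree_add_eq_left_of_degree_lt h4, h1.natDegree_pow, h2]

omit [Fintype K] [DecidableEq K] in
lemma derivative_center (p : ℕ) [CharP K p] (u b : K[X]) :
    derivative (u ^ p + b) = derivative b := by
  rw [derivative_add, derivative_pow, CharP.cast_eq_zero]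
  simp

/-- along u^p + b the Moebius function is a Jacobi symbol modulo b' -/
theorem mu_center (p : ℕ) [Fact p.Prime] [CharP K p] (hK : ringChar K ≠ 2) {m : ℕ} {b : K[X]}
    (hb : b.degree < (p * m : ℕ)) (hb' : b.derivative ≠ 0) :
    ∃ ε : ℤ, (ε = 1 ∨ ε = -1) ∧ ∀ v : K[X], v.degree < m →
      mu ((X ^ m + v) ^ p + b) = ε * J (mo b.derivative) ((X ^ m + v) ^ p + b) := by
  refine ⟨sgn (p * m) b.derivative, sgn_eq _ hb', fun v hv => ?_⟩
  have h1 := natDegree_center p hv hb
  have h2 := derivative_center p (X ^ m + v) b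
  have h3 := pellet hK h1.1 (by rwa [h2])
  rw [h3, h2, h1.2]

end
end P4f18dfF
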