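import Pool.Agent.Lib.P4f18dfC.Gm
import Pool.Agent.Lib.P4f18df.Tuples

/-!
# Moments of Rademacher sums, sharp form

`Rg k A c = av A (fun U => (∑_{v ∈ A} sg U v * c v)^k)`.
`Rg_even`: `|Rg (2 l) A c - gm (2 l) s^l| ≤ C_l B^2 s^(l-1)`, `s = ∑ c^2`, if all `|c v| ≤ B`.
-/

set_option autoImplicit false

namespace Pool.Agent.P4f18dfF

open Finset Pool.Agent.P4f18df Pool.Agent.P4f18dfT Pool.Agent.P4f18dfC

variable {κ : Type*} [DecidableEq κ]

/-- moments of the sum of independent signs with the coefficients `c v`, `v ∈ A` -/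
noncomputable def Rg (k : ℕ) (A : Finset κ) (c : κ → ℝ) : ℝ :=
  av A (fun U => (∑ v ∈ A, sg U v * c v) ^ k)

omit [DecidableEq κ] in
private lemma rg_pow_expand (k : ℕ) (A : Finset κ) (f : κ → ℝ) :
    (∑ n ∈ A, f n) ^ k = ∑ t ∈ Fintype.piFinset (fun _ : Fin k => A), ∏ i, f (t i) := by
  rw [← Finset.prod_univ_sum]; simp

private lemma rg_av_even (k : ℕ) (A : Finset κ) (t : Fin k → κ) (ht : ∀ i, t i ∈ A)
    (hev : ∀ v ∈ A, Even (univ.filter (fun i => t i = v)).card) :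
    av A (fun U => ∏ i, sg U (t i)) = 1 := by
  rw [av_congr (fun U _ => prod_eq_one_of_even (sg U) (fun n _ => sg_sq U n) t ht hev), av_const]

private lemma rg_av_ntr (k : ℕ) (A : Finset κ) (t : Fin k → κ) (ht : ∀ i, t i ∈ A)
    (hev : ¬ ∀ v ∈ A, Even (univ.filter (fun i => t i = v)).card) :
    av A (fun U => ∏ i, sg U (t i)) = 0 := by
  by_contra hne
  have e : ∀ U, ∏ i, sg U (t i) = ∏ i ∈ (univ : Finset (Fin k)), chi {t i} U := by
    intro U
    apply Finset.prod_congr rfl; intro i _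
    simp [chi]
  rw [av_congr (fun U _ => e U)] at hne
  apply hev
  intro v _
  have := even_of_av_prod_chi_ne univ (fun i : Fin k => ({t i} : Finset κ)) A
    (fun l _ => by simpa using ht l) hne v
  simp only [Finset.mem_singleton] at this
  rw [show (univ.filter (fun i => t i = v)) = univ.filter (fun i => v = t i) from by
    ext i; simp [eq_comm]]
  exact this

private lemma rg_eq (k : ℕ) (A : Finset κ) (c : κ → ℝ) :
    Rg k A c = ∑ t ∈ (Fintype.piFinset (fun _ : Fin k => A)).filter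
      (fun t => ∀ v ∈ A, Even (univ.filter (fun i => t i = v)).card), ∏ i, c (t i) := by
  unfold Rg
  have h1 : ∀ U : Finset κ, (∑ v ∈ A, sg U v * c v) ^ k =
      ∑ t ∈ Fintype.piFinset (fun _ : Fin k => A), (∏ i, c (t i)) * ∏ i, sg U (t i) := by
    intro U
    rw [rg_pow_expand]
    apply Finset.sum_congr rfl
    intro t _
    rw [Finset.prod_mul_distrib, mul_comm]
  rw [av_congr (fun U _ => h1 U), av_sum, Finset.sum_filter]
  apply Finset.sum_congr rfl
  intro t ht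
  rw [Fintype.mem_piFinset] at ht
  rw [av_const_mul]
  split_ifs with hev
  · rw [rg_av_even k A t ht hev, mul_one]
  · rw [rg_av_ntr k A t ht hev, mul_zero]

/-- expansion of a power: sign average plus the tuples with an odd multiplicity -/
theorem rg_even_part (k : ℕ) (A : Finset κ) (c : κ → ℝ) :
    (∑ n ∈ A, c n) ^ k = Rg k A c + ∑ t ∈ ntr k A, ∏ i, c (t i) := by
  rw [rg_pow_expand, rg_eq, ntr, Finset.sum_filter_add_sum_filter_not]

theorem Rg_odd {k : ℕ} (hk : Odd k) (A : Finset κ) (c : κ → ℝ) : Rg k A c = 0 := by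
  rw [rg_eq]
  apply Finset.sum_eq_zero
  intro t ht
  exfalso
  rw [Finset.mem_filter, Fintype.mem_piFinset] at ht
  obtain ⟨ht, hev⟩ := ht
  have h1 : (univ : Finset (Fin k)).card = ∑ v ∈ A, (univ.filter (fun i => t i = v)).card :=
    Finset.card_eq_sum_card_fiberwise (fun i _ => ht i)
  rw [Finset.card_univ, Fintype.card_fin] at h1
  have h2 : Even k := by
    rw [h1]
    exact Finset.even_sum _ (fun v hv => hev v hv)
  exact (Nat.not_even_iff_odd.2 hk) h2

private lemma rg_sum_even (f : ℕ → ℝ) (hf : ∀ m, Odd m → f m = 0) (l : ℕ) :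
    ∑ m ∈ range (2 * l + 1), f m = ∑ j ∈ range (l + 1), f (2 * j) := by
  induction l with
  | zero => simp
  | succ l ih =>
    rw [show 2 * (l + 1) + 1 = (2 * l + 1) + 1 + 1 by ring, Finset.sum_range_succ,
      Finset.sum_range_succ, ih, Finset.sum_range_succ _ (l + 1),
      hf (2 * l + 1) ⟨l, rfl⟩, show 2 * l + 1 + 1 = 2 * (l + 1) by ring]
    ring

private lemma rg_avg_pow (Y c : ℝ) (l : ℕ) :
    ((c + Y) ^ (2 * l) + (-c + Y) ^ (2 * l)) / 2 =
      ∑ j ∈ range (l + 1), ((2 * l).choose (2 * j) : ℝ) * c ^ (2 * j) * Y ^ (2 * l - 2 * j) := by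
  have h1 : ((c + Y) ^ (2 * l) + (-c + Y) ^ (2 * l)) / 2 =
      ∑ m ∈ range (2 * l + 1), ((2 * l).choose m : ℝ) * ((c ^ m + (-c) ^ m) / 2) *
        Y ^ (2 * l - m) := by
    rw [add_pow, add_pow, ← Finset.sum_add_distrib, Finset.sum_div]
    apply Finset.sum_congr rfl
    intro m _
    ring
  rw [h1, rg_sum_even (fun m => ((2 * l).choose m : ℝ) * ((c ^ m + (-c) ^ m) / 2) *
    Y ^ (2 * l - m)) (fun m hm => by simp only [hm.neg_pow]; ring) l]
  apply Finset.sum_congr rfl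
  intro j _
  have : Even (2 * j) := even_two_mul j
  rw [this.neg_pow]
  ring

private lemma rg_insert (l : ℕ) (A : Finset κ) (v : κ) (hv : v ∉ A) (c : κ → ℝ) :
    Rg (2 * l) (insert v A) c =
      ∑ j ∈ range (l + 1), ((2 * l).choose (2 * j) : ℝ) * c v ^ (2 * j) *
        Rg (2 * (l - j)) A c := by
  unfold Rg
  rw [av_insert hv]
  have e1 : av A (fun U => (∑ w ∈ insert v A, sg U w * c w) ^ (2 * l)) =
      av A (fun U => (c v + ∑ w ∈ A, sg U w * c w) ^ (2 * l)) := by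
    apply av_congr
    intro U hU
    rw [Finset.sum_insert hv]
    have : v ∉ U := fun h => hv (hU h)
    simp [sg, this]
  have e2 : av A (fun U => (∑ w ∈ insert v A, sg (insert v U) w * c w) ^ (2 * l)) =
      av A (fun U => (-c v + ∑ w ∈ A, sg U w * c w) ^ (2 * l)) := by
    apply av_congr
    intro U hU
    rw [Finset.sum_insert hv]
    congr 2
    · simp [sg]
    · apply Finset.sum_congr rfl
      intro w hw
      rw [sg_insert_of_ne (fun h : w = v => hv (h ▸ hw))]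
  rw [e1, e2, ← av_add]
  have e3 : av A (fun U => (c v + ∑ w ∈ A, sg U w * c w) ^ (2 * l) +
      (-c v + ∑ w ∈ A, sg U w * c w) ^ (2 * l)) / 2 =
      av A (fun U => ∑ j ∈ range (l + 1), (((2 * l).choose (2 * j) : ℝ) * c v ^ (2 * j)) *
        (∑ w ∈ A, sg U w * c w) ^ (2 * (l - j))) := by
    rw [div_eq_mul_inv, mul_comm, ← av_const_mul]
    apply av_congr
    intro U _
    rw [inv_mul_eq_div, rg_avg_pow]
    apply Finset.sum_congr rfl
    intro j _
    rw [← Nat.mul_sub]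
  rw [e3, av_sum]
  apply Finset.sum_congr rfl
  intro j _
  rw [av_const_mul]

/-- the error term -/
private noncomputable def rgD (l : ℕ) (A : Finset κ) (c : κ → ℝ) : ℝ :=
  Rg (2 * l) A c - gm (2 * l) * (∑ n ∈ A, c n ^ 2) ^ l

private lemma rg_gm_two (l : ℕ) :
    gm (2 * (l + 1)) * (l + 1) = ((2 * (l + 1)).choose (2 * 1) : ℝ) * gm (2 * l) := by
  rw [show 2 * (l + 1) = 2 * l + 2 by ring, gm_succ, mul_one, Nat.choose_two_right]
  have h : ((2 * l + 2) * (2 * l + 2 - 1) / 2 : ℕ) = (l + 1) * (2 * l + 1) := by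
    rw [show (2 * l + 2) * (2 * l + 2 - 1) = 2 * ((l + 1) * (2 * l + 1)) by
      rw [show 2 * l + 2 - 1 = 2 * l + 1 by omega]; ring]
    rw [Nat.mul_div_cancel_left _ (by norm_num)]
  rw [h]
  push_cast
  ring

private lemma rg_step (l : ℕ) (A : Finset κ) (v : κ) (hv : v ∉ A) (c : κ → ℝ) :
    rgD (l + 1) (insert v A) c = rgD (l + 1) A c +
      ((2 * (l + 1)).choose (2 * 1) : ℝ) * c v ^ 2 * rgD l A c +
      ((∑ j ∈ range l, ((2 * (l + 1)).choose (2 * (j + 2)) : ℝ) * c v ^ (2 * (j + 2)) *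
        Rg (2 * (l + 1 - (j + 2))) A c) -
      gm (2 * (l + 1)) * ∑ j ∈ range l, ((l + 1).choose (j + 2) : ℝ) * (c v ^ 2) ^ (j + 2) *
        (∑ n ∈ A, c n ^ 2) ^ (l + 1 - (j + 2))) := by
  unfold rgD
  rw [rg_insert (l + 1) A v hv c, Finset.sum_insert hv]
  set s := ∑ n ∈ A, c n ^ 2 with hs
  have h1 : (c v ^ 2 + s) ^ (l + 1) = s ^ (l + 1) + (l + 1) * c v ^ 2 * s ^ l +
      ∑ j ∈ range l, ((l + 1).choose (j + 2) : ℝ) * (c v ^ 2) ^ (j + 2) *
        s ^ (l + 1 - (j + 2)) := by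
    rw [add_pow, Finset.sum_range_succ', Finset.sum_range_succ']
    have : ∀ j, (c v ^ 2) ^ (j + 1 + 1) * s ^ (l + 1 - (j + 1 + 1)) *
        ((l + 1).choose (j + 1 + 1) : ℝ) = ((l + 1).choose (j + 2) : ℝ) * (c v ^ 2) ^ (j + 2) *
        s ^ (l + 1 - (j + 2)) := fun j => by ring
    rw [Finset.sum_congr rfl (fun j _ => this j)]
    simp
    ring
  have h2 : ∑ j ∈ range (l + 1 + 1), ((2 * (l + 1)).choose (2 * j) : ℝ) * c v ^ (2 * j) *
      Rg (2 * (l + 1 - j)) A c = Rg (2 * (l + 1)) A c +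
      ((2 * (l + 1)).choose (2 * 1) : ℝ) * c v ^ 2 * Rg (2 * l) A c +
      ∑ j ∈ range l, ((2 * (l + 1)).choose (2 * (j + 2)) : ℝ) * c v ^ (2 * (j + 2)) *
        Rg (2 * (l + 1 - (j + 2))) A c := by
    rw [Finset.sum_range_succ', Finset.sum_range_succ']
    have e1 : ((2 * (l + 1)).choose (2 * 0) : ℝ) * c v ^ (2 * 0) * Rg (2 * (l + 1 - 0)) A c =
        Rg (2 * (l + 1)) A c := by simp
    have e2 : ((2 * (l + 1)).choose (2 * (0 + 1)) : ℝ) * c v ^ (2 * (0 + 1)) *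
        Rg (2 * (l + 1 - (0 + 1))) A c =
        ((2 * (l + 1)).choose (2 * 1) : ℝ) * c v ^ 2 * Rg (2 * l) A c := by
      simp
    rw [e1, e2]
    ring
  rw [h1, h2]
  have h3 := rg_gm_two l
  linear_combination (-(c v ^ 2 * s ^ l)) * h3

private lemma rg_D_zero (A : Finset κ) (c : κ → ℝ) : rgD 0 A c = 0 := by
  unfold rgD Rg
  simp [gm_zero, av_const]

private lemma rg_D_empty (l : ℕ) (c : κ → ℝ) : rgD (l + 1) ∅ c = 0 := by
  unfold rgD Rg
  simp [av]

/-- Khintchine with some constant -/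
theorem Rg_bound (m : ℕ) : ∃ C : ℝ, 0 ≤ C ∧ ∀ (A : Finset κ) (c : κ → ℝ),
    0 ≤ Rg (2 * m) A c ∧ Rg (2 * m) A c ≤ C * (∑ n ∈ A, c n ^ 2) ^ m := by
  induction m using Nat.strong_induction_on with
  | _ m ih =>
  have ih' : ∀ i, ∃ C : ℝ, 0 ≤ C ∧ (i < m → ∀ (A : Finset κ) (c : κ → ℝ),
      0 ≤ Rg (2 * i) A c ∧ Rg (2 * i) A c ≤ C * (∑ n ∈ A, c n ^ 2) ^ i) := by
    intro i
    by_cases hi : i < m
    · obtain ⟨C, h1, h2⟩ := ih i hi
      exact ⟨C, h1, fun _ => h2⟩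
    · exact ⟨0, le_rfl, fun h => absurd h hi⟩
  choose C hC0 hC using ih'
  rcases m with _ | l
  · refine ⟨1, by norm_num, fun A c => ?_⟩
    unfold Rg
    simp [av_const]
  set K : ℝ := ∑ j ∈ range (l + 1), ((2 * (l + 1)).choose (2 * (j + 1)) : ℝ) * C (l + 1 - (j + 1))
    with hK
  have hK0 : 0 ≤ K := Finset.sum_nonneg (fun j _ => mul_nonneg (Nat.cast_nonneg _) (hC0 _))
  refine ⟨K, hK0, fun A c => ⟨?_, ?_⟩⟩
  · unfold Rg
    apply av_nonneg
    intro U _
    rw [pow_mul]; positivity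
  induction A using Finset.induction_on with
  | empty => unfold Rg; simp [av]
  | insert v A hv ihA =>
    rw [rg_insert (l + 1) A v hv c, Finset.sum_insert hv, Finset.sum_range_succ']
    set s := ∑ n ∈ A, c n ^ 2 with hs
    have hs0 : 0 ≤ s := Finset.sum_nonneg (fun n _ => sq_nonneg _)
    have hx : 0 ≤ c v ^ 2 := sq_nonneg _
    have h1 : ∀ j ∈ range (l + 1), ((2 * (l + 1)).choose (2 * (j + 1)) : ℝ) * c v ^ (2 * (j + 1)) *
        Rg (2 * (l + 1 - (j + 1))) A c ≤ (((2 * (l + 1)).choose (2 * (j + 1)) : ℝ) *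
          C (l + 1 - (j + 1))) * (c v ^ 2 * (c v ^ 2 + s) ^ l) := by
      intro j hj
      rw [Finset.mem_range] at hj
      have h2 := (hC (l + 1 - (j + 1)) (by omega) A c).2
      have h3 : c v ^ (2 * (j + 1)) * s ^ (l + 1 - (j + 1)) ≤ c v ^ 2 * (c v ^ 2 + s) ^ l := by
        have e1 : c v ^ (2 * (j + 1)) = c v ^ 2 * (c v ^ 2) ^ j := by rw [← pow_mul]; ring
        have e2 : (c v ^ 2 + s) ^ l = (c v ^ 2 + s) ^ j * (c v ^ 2 + s) ^ (l + 1 - (j + 1)) := by
          rw [← pow_add]; congr 1; omega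
        rw [e1, e2, mul_assoc]
        apply mul_le_mul_of_nonneg_left _ hx
        apply mul_le_mul
        · exact pow_le_pow_left₀ hx (by linarith) _
        · exact pow_le_pow_left₀ hs0 (by linarith) _
        · positivity
        · positivity
      calc _ ≤ ((2 * (l + 1)).choose (2 * (j + 1)) : ℝ) * c v ^ (2 * (j + 1)) *
            (C (l + 1 - (j + 1)) * s ^ (l + 1 - (j + 1))) := by
            apply mul_le_mul_of_nonneg_left h2
            rw [pow_mul]; positivity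
        _ = (((2 * (l + 1)).choose (2 * (j + 1)) : ℝ) * C (l + 1 - (j + 1))) *
            (c v ^ (2 * (j + 1)) * s ^ (l + 1 - (j + 1))) := by ring
        _ ≤ _ := mul_le_mul_of_nonneg_left h3 (mul_nonneg (Nat.cast_nonneg _) (hC0 _))
    have h4 := Finset.sum_le_sum h1
    rw [← Finset.sum_mul, ← hK] at h4
    have h5 : ((2 * (l + 1)).choose (2 * 0) : ℝ) * c v ^ (2 * 0) * Rg (2 * (l + 1 - 0)) A c =
        Rg (2 * (l + 1)) A c := by simp
    rw [h5]
    have h6 : K * s ^ (l + 1) ≤ K * (s * (c v ^ 2 + s) ^ l) := by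
      apply mul_le_mul_of_nonneg_left _ hK0
      rw [pow_succ, mul_comm]
      apply mul_le_mul_of_nonneg_left _ hs0
      exact pow_le_pow_left₀ hs0 (by linarith) _
    calc _ ≤ K * (c v ^ 2 * (c v ^ 2 + s) ^ l) + K * s ^ (l + 1) := add_le_add h4 ihA
      _ ≤ K * (c v ^ 2 * (c v ^ 2 + s) ^ l) + K * (s * (c v ^ 2 + s) ^ l) := by linarith
      _ = _ := by ring

private lemma rg_main (l : ℕ) : ∃ C : ℝ, 0 ≤ C ∧ ∀ (A : Finset κ) (c : κ → ℝ) (B : ℝ), 0 ≤ B →
    (∀ n ∈ A, |c n| ≤ B) → |rgD (l + 1) A c| ≤ C * B ^ 2 * (∑ n ∈ A, c n ^ 2) ^ l := by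
  induction l with
  | zero =>
    refine ⟨0, le_rfl, fun A c B hB hc => ?_⟩
    have : rgD (0 + 1) A c = 0 := by
      induction A using Finset.induction_on with
      | empty => exact rg_D_empty 0 c
      | insert v A hv ihA =>
        rw [rg_step 0 A v hv c, ihA (fun n hn => hc n (Finset.mem_insert_of_mem hn)), rg_D_zero]
        simp
    rw [this]; simp
  | succ l ih =>
    obtain ⟨C1, hC1, ih⟩ := ih
    choose K hK0 hK using fun m => Rg_bound (κ := κ) m
    set K1 : ℝ := ((2 * (l + 1 + 1)).choose (2 * 1) : ℝ) * C1 with hK1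
    set K2 : ℝ := ∑ j ∈ range (l + 1), ((2 * (l + 1 + 1)).choose (2 * (j + 2)) : ℝ) *
      K (l + 1 + 1 - (j + 2)) with hK2
    set K3 : ℝ := gm (2 * (l + 1 + 1)) * ∑ j ∈ range (l + 1), ((l + 1 + 1).choose (j + 2) : ℝ)
      with hK3
    have p1 : 0 ≤ K1 := mul_nonneg (Nat.cast_nonneg _) hC1
    have p2 : 0 ≤ K2 := Finset.sum_nonneg (fun j _ => mul_nonneg (Nat.cast_nonneg _) (hK0 _))
    have p3 : 0 ≤ K3 := mul_nonneg (gm_nonneg _) (Finset.sum_nonneg (fun j _ => Nat.cast_nonneg _))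
    clear_value K1 K2 K3
    refine ⟨K1 + K2 + K3, add_nonneg (add_nonneg p1 p2) p3, fun A c B hB hc => ?_⟩
    induction A using Finset.induction_on with
    | empty => rw [rg_D_empty]; simp
    | insert v A hv ihA =>
      have hcA : ∀ n ∈ A, |c n| ≤ B := fun n hn => hc n (Finset.mem_insert_of_mem hn)
      have hi := ihA hcA
      have hx0 : 0 ≤ c v ^ 2 := sq_nonneg _
      have hxB : c v ^ 2 ≤ B ^ 2 := by
        rw [← sq_abs]
        exact pow_le_pow_left₀ (abs_nonneg _) (hc v (Finset.mem_insert_self _ _)) 2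
      rw [rg_step (l + 1) A v hv c, Finset.sum_insert hv]
      set s := ∑ n ∈ A, c n ^ 2 with hs
      have hs0 : 0 ≤ s := Finset.sum_nonneg (fun n _ => sq_nonneg _)
      have key : ∀ j ∈ range (l + 1), (c v ^ 2) ^ (j + 2) * s ^ (l + 1 + 1 - (j + 2)) ≤
          B ^ 2 * (c v ^ 2 * (c v ^ 2 + s) ^ l) := by
        intro j hj
        rw [Finset.mem_range] at hj
        have e1 : (c v ^ 2) ^ (j + 2) = c v ^ 2 * (c v ^ 2 * (c v ^ 2) ^ j) := by ring
        have e2 : (c v ^ 2 + s) ^ l = (c v ^ 2 + s) ^ j * (c v ^ 2 + s) ^ (l + 1 + 1 - (j + 2)) := by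
          rw [← pow_add]; congr 1; omega
        rw [e1, e2, mul_assoc, mul_assoc]
        apply mul_le_mul hxB _ (by positivity) (by positivity)
        apply mul_le_mul_of_nonneg_left _ hx0
        apply mul_le_mul
        · exact pow_le_pow_left₀ hx0 (by linarith) _
        · exact pow_le_pow_left₀ hs0 (by linarith) _
        · positivity
        · positivity
      have t1 : |((2 * (l + 1 + 1)).choose (2 * 1) : ℝ) * c v ^ 2 * rgD (l + 1) A c| ≤
          K1 * (B ^ 2 * (c v ^ 2 * (c v ^ 2 + s) ^ l)) := by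
        rw [abs_mul, abs_mul, Nat.abs_cast, abs_of_nonneg hx0]
        have h1 := ih A c B hB hcA
        have h2 : s ^ l ≤ (c v ^ 2 + s) ^ l := pow_le_pow_left₀ hs0 (by linarith) _
        calc _ ≤ ((2 * (l + 1 + 1)).choose (2 * 1) : ℝ) * c v ^ 2 * (C1 * B ^ 2 * s ^ l) :=
              mul_le_mul_of_nonneg_left h1 (by positivity)
          _ = K1 * (B ^ 2 * (c v ^ 2 * s ^ l)) := by rw [hK1]; ring
          _ ≤ _ := by gcongr
      have t2 : |∑ j ∈ range (l + 1), ((2 * (l + 1 + 1)).choose (2 * (j + 2)) : ℝ) *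
          c v ^ (2 * (j + 2)) * Rg (2 * (l + 1 + 1 - (j + 2))) A c| ≤
          K2 * (B ^ 2 * (c v ^ 2 * (c v ^ 2 + s) ^ l)) := by
        rw [hK2, Finset.sum_mul]
        refine (Finset.abs_sum_le_sum_abs _ _).trans (Finset.sum_le_sum (fun j hj => ?_))
        have h1 := hK (l + 1 + 1 - (j + 2)) A c
        rw [abs_mul, abs_mul, Nat.abs_cast, abs_of_nonneg h1.1, pow_mul,
          abs_of_nonneg (pow_nonneg hx0 _)]
        calc _ ≤ ((2 * (l + 1 + 1)).choose (2 * (j + 2)) : ℝ) * (c v ^ 2) ^ (j + 2) *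
              (K (l + 1 + 1 - (j + 2)) * s ^ (l + 1 + 1 - (j + 2))) :=
              mul_le_mul_of_nonneg_left h1.2 (by positivity)
          _ = ((2 * (l + 1 + 1)).choose (2 * (j + 2)) : ℝ) * K (l + 1 + 1 - (j + 2)) *
              ((c v ^ 2) ^ (j + 2) * s ^ (l + 1 + 1 - (j + 2))) := by ring
          _ ≤ _ := mul_le_mul_of_nonneg_left (key j hj) (mul_nonneg (Nat.cast_nonneg _) (hK0 _))
      have t3 : |gm (2 * (l + 1 + 1)) * ∑ j ∈ range (l + 1), ((l + 1 + 1).choose (j + 2) : ℝ) *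
          (c v ^ 2) ^ (j + 2) * s ^ (l + 1 + 1 - (j + 2))| ≤
          K3 * (B ^ 2 * (c v ^ 2 * (c v ^ 2 + s) ^ l)) := by
        have g0 : 0 ≤ gm (2 * (l + 1 + 1)) := gm_nonneg _
        have i1 : |∑ j ∈ range (l + 1), ((l + 1 + 1).choose (j + 2) : ℝ) *
            (c v ^ 2) ^ (j + 2) * s ^ (l + 1 + 1 - (j + 2))| ≤
            (∑ j ∈ range (l + 1), ((l + 1 + 1).choose (j + 2) : ℝ)) *
              (B ^ 2 * (c v ^ 2 * (c v ^ 2 + s) ^ l)) := by
          rw [Finset.sum_mul]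
          refine (Finset.abs_sum_le_sum_abs _ _).trans (Finset.sum_le_sum (fun j hj => ?_))
          have i2 : 0 ≤ (c v ^ 2) ^ (j + 2) * s ^ (l + 1 + 1 - (j + 2)) :=
            mul_nonneg (pow_nonneg hx0 _) (pow_nonneg hs0 _)
          rw [mul_assoc, abs_mul, Nat.abs_cast, abs_of_nonneg i2]
          exact mul_le_mul_of_nonneg_left (key j hj) (Nat.cast_nonneg _)
        rw [abs_mul, abs_of_nonneg g0, hK3]
        calc _ ≤ gm (2 * (l + 1 + 1)) * ((∑ j ∈ range (l + 1), ((l + 1 + 1).choose (j + 2) : ℝ)) *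
              (B ^ 2 * (c v ^ 2 * (c v ^ 2 + s) ^ l))) := mul_le_mul_of_nonneg_left i1 g0
          _ = _ := (mul_assoc _ _ _).symm
      refine (abs_add_le _ _).trans ?_
      refine (add_le_add (abs_add_le _ _) (abs_sub _ _)).trans ?_
      refine (add_le_add (add_le_add hi t1) (add_le_add t2 t3)).trans ?_
      have h6 : s ^ (l + 1) ≤ s * (c v ^ 2 + s) ^ l := by
        rw [pow_succ, mul_comm]
        apply mul_le_mul_of_nonneg_left _ hs0
        exact pow_le_pow_left₀ hs0 (by linarith) _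
      calc _ = (K1 + K2 + K3) * B ^ 2 * s ^ (l + 1) +
            (K1 + K2 + K3) * B ^ 2 * (c v ^ 2 * (c v ^ 2 + s) ^ l) := by ring
        _ ≤ (K1 + K2 + K3) * B ^ 2 * (s * (c v ^ 2 + s) ^ l) +
            (K1 + K2 + K3) * B ^ 2 * (c v ^ 2 * (c v ^ 2 + s) ^ l) := by gcongr
        _ = _ := by ring

/-- sharp form: even moments of Rademacher sums -/
theorem Rg_even (l : ℕ) : ∃ C : ℝ, 0 ≤ C ∧ ∀ (A : Finset κ) (c : κ → ℝ) (B : ℝ), 0 ≤ B →
    (∀ n ∈ A, |c n| ≤ B) → |Rg (2 * (l + 1)) A c - gm (2 * (l + 1)) * (∑ n ∈ A, c n ^ 2) ^ (l + 1)| ≤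
      C * B ^ 2 * (∑ n ∈ A, c n ^ 2) ^ l :=
  rg_main l

end Pool.Agent.P4f18dfF
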