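import Pool.Agent.Lib.P4f18dfF.PelIrr

/-! Resultants of polynomials over a finite field and the Jacobi symbol. -/

namespace P4f18dfF
open Polynomial Finset

section Basic
variable {K : Type*} [Field K]

/-- the product of F over the roots of the monic polynomial G -/
noncomputable def R (G F : K[X]) : K := G.resultant F

lemma R_eq {G F : K[X]} (hG : G.Monic) {n : ℕ} (hn : F.natDegree ≤ n) :
    G.resultant F G.natDegree n = R G F := by
  obtain ⟨k, rfl⟩ := Nat.exists_eq_add_of_le hn
  rw [resultant_add_right_deg _ _ _ _ _ le_rfl, hG.coeff_natDegree, one_pow, one_mul, R]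

lemma R_mul_right {G : K[X]} (hG : G.Monic) (F₁ F₂ : K[X]) :
    R G (F₁ * F₂) = R G F₁ * R G F₂ := by
  rw [← R_eq hG (natDegree_mul_le (p := F₁) (q := F₂)),
    resultant_mul_right _ _ _ _ le_rfl]
  rfl

lemma R_mul_left {G₁ G₂ : K[X]} (h₁ : G₁.Monic) (h₂ : G₂.Monic) (F : K[X]) :
    R (G₁ * G₂) F = R G₁ F * R G₂ F := by
  rw [R, h₁.natDegree_mul h₂, resultant_mul_left _ _ _ _ le_rfl]
  rfl

lemma R_add_mul {G : K[X]} (hG : G.Monic) (F H : K[X]) : R G (F + G * H) = R G F := by
  have h1 : (F + G * H).natDegree ≤ F.natDegree + (H.natDegree + G.natDegree) := by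
    refine (natDegree_add_le _ _).trans (max_le (by omega) ?_)
    have := natDegree_mul_le (p := G) (q := H)
    omega
  rw [← R_eq hG h1, resultant_add_mul_right _ _ _ _ _ (by omega) le_rfl,
    R_eq hG (Nat.le_add_right _ _)]

lemma R_congr {G : K[X]} (hG : G.Monic) {F F' : K[X]} (h : G ∣ F - F') : R G F = R G F' := by
  obtain ⟨H, hH⟩ := h
  have : F = F' + G * H := by rw [← hH]; ring
  rw [this, R_add_mul hG]

lemma R_comm {G F : K[X]} : R G F = (-1) ^ (G.natDegree * F.natDegree) * R F G := by
  rw [R, resultant_comm]; rfl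

lemma R_C_mul {G : K[X]} (hG : G.Monic) (c : K) (F : K[X]) :
    R G (C c * F) = c ^ G.natDegree * R G F := by
  rw [← R_eq hG (natDegree_C_mul_le c F), resultant_C_mul_right]
  rfl

lemma R_eq_zero_iff {G F : K[X]} (hG : G.Monic) : R G F = 0 ↔ ¬ IsCoprime G F := by
  rw [R, resultant_eq_zero_iff]
  simp [hG.ne_zero]

@[simp] lemma R_one_left (F : K[X]) : R (1 : K[X]) F = 1 := by
  have := R_eq (G := (1 : K[X])) (F := F) monic_one le_rfl
  rw [← this]
  simp

lemma R_one_right {G : K[X]} (hG : G.Monic) : R G 1 = 1 := by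
  have := R_C_mul hG 1 1
  rw [R_comm]
  simp

end Basic

section Norm
variable {K : Type*} [Field K] [Fintype K]

lemma R_eq_norm {P : K[X]} (hP : P.Monic) (hirr : Irreducible P) (F : K[X]) :
    haveI := Fact.mk hirr
    R P F = Algebra.norm K (AdjoinRoot.mk P F) := by
  classical
  have := Fact.mk hirr
  let L := AdjoinRoot P
  let pb : PowerBasis K L := AdjoinRoot.powerBasis hirr.ne_zero
  have : Module.Finite K L := pb.finite
  let E := AlgebraicClosure L
  apply (algebraMap K E).injective
  rw [Algebra.norm_eq_prod_embeddings K E]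
  have hmin : minpoly K pb.gen = P := AdjoinRoot.minpoly_powerBasis_gen_of_monic hP
  have hsep : IsSeparable K pb.gen := Algebra.IsSeparable.isSeparable K _
  have hnd : (P.map (algebraMap K E)).roots.Nodup := by
    have : (P.map (algebraMap K E)).Separable := by
      have h := hsep
      rw [IsSeparable, hmin] at h
      exact h.map
    exact nodup_roots this
  have hL : algebraMap K E (R P F) =
      ((P.map (algebraMap K E)).roots.map (fun y => aeval y F)).prod := by
    have h1 := resultant_eq_prod_eval (P.map (algebraMap K E)) (F.map (algebraMap K E))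
      F.natDegree (natDegree_map_le) (IsAlgClosed.splits _)
    rw [(hP.map _).leadingCoeff, one_pow, one_mul] at h1
    rw [natDegree_map, resultant_map_map] at h1
    rw [R, h1]
    congr 1
    refine Multiset.map_congr rfl fun y _ => ?_
    rw [eval_map, aeval_def]
  rw [hL]
  have hR : ∏ σ : L →ₐ[K] E, σ (AdjoinRoot.mk P F) =
      ∏ y : {y : E // y ∈ (minpoly K pb.gen).aroots E}, aeval (y : E) F := by
    refine Fintype.prod_equiv pb.liftEquiv' _ _ fun σ => ?_
    rw [PowerBasis.liftEquiv'_apply_coe, ← AdjoinRoot.aeval_eq, aeval_algHom_apply]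
    rfl
  rw [hR]
  rw [Finset.prod_mem_multiset _ _ (fun y => aeval y F) (fun x => rfl),
    Finset.prod_eq_multiset_prod, Multiset.toFinset_val, hmin]
  rw [aroots_def, Multiset.dedup_eq_self.mpr hnd]
end Norm

end P4f18dfF
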