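import Pool.Agent.Lib.P4f18dfF.Mob

/-! Squarefree polynomials in short intervals around u^p + r. -/

namespace P4f18dfF
open Polynomial Finset UniqueFactorizationMonoid

section
variable {K : Type*} [Field K] [Fintype K]

/-- monic polynomials of degree at most n -/
noncomputable def LTM (K : Type*) [Field K] [Fintype K] (n : ℕ) : Finset K[X] :=
  open Classical in (range (n + 1)).biUnion (Mon K)

lemma mem_LTM {n : ℕ} {g : K[X]} : g ∈ LTM K n ↔ g.Monic ∧ g.natDegree ≤ n := by
  classical
  rw [LTM, mem_biUnion]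
  constructor
  · rintro ⟨j, hj, hg⟩
    rw [mem_Mon] at hg
    rw [mem_range] at hj
    exact ⟨hg.1, by omega⟩
  · rintro ⟨h1, h2⟩
    exact ⟨g.natDegree, mem_range.2 (by omega), mem_Mon.2 ⟨h1, rfl⟩⟩

lemma sum_LTM {M : Type*} [AddCommMonoid M] (n : ℕ) (f : K[X] → M) :
    ∑ g ∈ LTM K n, f g = ∑ j ∈ range (n + 1), ∑ g ∈ Mon K j, f g := by
  classical
  have hdisj : Set.PairwiseDisjoint (range (n + 1) : Set ℕ) (Mon K) := by
    intro i _ j _ hij
    rw [Function.onFun, Finset.disjoint_left]
    intro g hi hj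
    exact hij ((mem_Mon.1 hi).2.symm.trans (mem_Mon.1 hj).2)
  rw [LTM, Finset.sum_biUnion hdisj]

lemma card_LTM_le (n : ℕ) : (LTM K n).card ≤ 2 * Fintype.card K ^ n := by
  have h1 : (LTM K n).card = ∑ j ∈ range (n + 1), Fintype.card K ^ j := by
    rw [Finset.card_eq_sum_ones, sum_LTM]
    refine Finset.sum_congr rfl fun j _ => ?_
    rw [← Finset.card_eq_sum_ones, card_Mon]
  rw [h1]
  have hq : 2 ≤ Fintype.card K := Fintype.one_lt_card
  clear h1
  induction n with
  | zero => simp
  | succ n ih =>
    rw [Finset.sum_range_succ, pow_succ]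
    nlinarith [Nat.one_le_pow n (Fintype.card K) (by omega)]

/-- truncated divisor sum for squarefreeness -/
noncomputable def tr (n : ℕ) (F : K[X]) : ℤ :=
  open Classical in ∑ g ∈ (LTM K n).filter (fun g => g ^ 2 ∣ F), mu g

lemma tr_eq {n : ℕ} {F : K[X]} (hF : F ≠ 0) (hn : F.natDegree ≤ n) :
    (Squarefree F → tr n F = 1) ∧ (¬ Squarefree F → tr n F = 0) := by
  classical
  set T := (normalizedFactors F).toFinset.filter (fun P => P ^ 2 ∣ F) with hT
  have hTm : ∀ P ∈ T, Irreducible P ∧ P.Monic := by
    intro P hP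
    rw [hT, mem_filter, Multiset.mem_toFinset, Polynomial.mem_normalizedFactors_iff hF] at hP
    exact ⟨hP.1.1, hP.1.2.1⟩
  have h1 := sum_mu ((LTM K n).filter (fun g => g ^ 2 ∣ F)) T hTm
    (by
      intro g hg _
      rw [mem_filter, mem_LTM] at hg
      refine ⟨hg.1.1, fun P hP hPm hPg => ?_⟩
      rw [hT, mem_filter, Multiset.mem_toFinset, Polynomial.mem_normalizedFactors_iff hF]
      have h2 : P ^ 2 ∣ F := (pow_dvd_pow_of_dvd hPg 2).trans hg.2
      exact ⟨⟨hP, hPm, (dvd_pow_self P two_ne_zero).trans h2⟩, h2⟩)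
    (by
      intro S hS
      have hSm : (∏ P ∈ S, P).Monic := monic_prod_of_monic _ _ fun P hP => (hTm P (hS hP)).2
      have h2 : (∏ P ∈ S, P) ^ 2 ∣ F := by
        rw [← Finset.prod_pow]
        refine Finset.prod_dvd_of_coprime ?_ ?_
        · intro P hP Q hQ hPQ
          have hP' := hTm P (hS hP)
          have hQ' := hTm Q (hS hQ)
          have : IsCoprime P Q := by
            rw [hP'.1.coprime_iff_not_dvd]
            intro h
            exact hPQ (eq_of_monic_of_associated hP'.2 hQ'.2 (hP'.1.associated_of_dvd hQ'.1 h))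
          exact this.pow
        · intro P hP
          have := hS hP
          rw [hT, mem_filter] at this
          exact this.2
      rw [mem_filter, mem_LTM]
      refine ⟨⟨hSm, ?_⟩, h2⟩
      exact (natDegree_le_of_dvd ((dvd_pow_self _ two_ne_zero).trans h2) hF).trans hn)
  have h3 : T = ∅ ↔ Squarefree F := by
    rw [hT, Finset.filter_eq_empty_iff]
    constructor
    · intro h
      rw [squarefree_iff_no_irreducibles hF]
      intro x hx hxx
      have h4 : normalize x ∈ normalizedFactors F := by
        rw [Polynomial.mem_normalizedFactors_iff hF]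
        refine ⟨(normalize_associated x).irreducible_iff.2 hx, monic_normalize hx.ne_zero, ?_⟩
        exact (normalize_dvd_iff).2 ((dvd_mul_right x x).trans hxx)
      apply h (Multiset.mem_toFinset.2 h4)
      rw [pow_two]
      exact ((normalize_associated x).mul_mul (normalize_associated x)).dvd.trans hxx
    · intro h P hP hPF
      rw [Multiset.mem_toFinset, Polynomial.mem_normalizedFactors_iff hF] at hP
      rw [pow_two] at hPF
      exact hP.1.not_isUnit (h P hPF)
  exact ⟨fun h => h1.1 (h3.2 h), fun h => h1.2 (fun h' => h (h3.1 h'))⟩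

lemma card_cong {G : K[X]} (hG : G.Monic) {h : ℕ} (hh : G.natDegree ≤ h) (F : K[X])
    [DecidablePred (fun a : K[X] => G ∣ F + a)] :
    ((PL K h).filter (fun a => G ∣ F + a)).card = Fintype.card K ^ (h - G.natDegree) := by
  rw [← card_PL]
  have hlt : ∀ x : K[X], (x %ₘ G).degree < G.degree := fun x => degree_modByMonic_lt x hG
  refine Finset.card_bij' (fun a _ => a /ₘ G) (fun y _ => (-F) %ₘ G + G * y) ?_ ?_ ?_ ?_
  · intro a ha
    rw [mem_filter, mem_PL] at ha
    rw [mem_PL]
    rcases eq_or_ne (a /ₘ G) 0 with h0 | h0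
    · simp [h0, bot_lt_iff_ne_bot]
    · have h1 : (a /ₘ G).natDegree = a.natDegree - G.natDegree := natDegree_divByMonic a hG
      have ha0 : a ≠ 0 := by rintro rfl; simp at h0
      have h2 : a.natDegree < h := by
        have := ha.1; rw [degree_eq_natDegree ha0] at this; exact_mod_cast this
      have h3 : G.natDegree ≤ a.natDegree := by
        by_contra hc
        apply h0
        rw [divByMonic_eq_zero_iff hG]
        exact degree_lt_degree (by omega)
      rw [degree_eq_natDegree h0]
      exact_mod_cast (by omega : (a /ₘ G).natDegree < h - G.natDegree)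
  · intro y hy
    rw [mem_filter]
    refine ⟨add_mem_PL ?_ (mul_mem_PL (by omega) hy), ?_⟩
    · refine PL_mono hh ?_
      rw [mem_PL, ← degree_eq_natDegree hG.ne_zero]
      exact hlt _
    · have := modByMonic_add_div (-F) G
      refine ⟨-((-F) /ₘ G) + y, ?_⟩
      linear_combination this
  · intro a ha
    rw [mem_filter, mem_PL] at ha
    have h1 : a %ₘ G = (-F) %ₘ G := by
      have h2 : G ∣ a - (-F) := by simpa [add_comm] using ha.2
      have := (modByMonic_eq_zero_iff_dvd hG).2 h2
      rw [sub_modByMonic] at this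
      exact sub_eq_zero.1 this
    rw [← h1]
    exact modByMonic_add_div a G
  · intro y hy
    have := div_modByMonic_unique (f := (-F) %ₘ G + G * y) (g := G) y ((-F) %ₘ G) hG
      ⟨by ring, hlt _⟩
    exact this.1

/-- the truncated sums have the exact expected average over an interval -/
lemma sum_tr {h : ℕ} (hh : 2 ≤ h) (F : K[X]) :
    ∑ a ∈ PL K h, tr (h / 2) (F + a) = (Fintype.card K : ℤ) ^ h - (Fintype.card K : ℤ) ^ (h - 1) := by
  classical
  have h1 : ∀ a ∈ PL K h, tr (h / 2) (F + a) =
      ∑ g ∈ LTM K (h / 2), if g ^ 2 ∣ F + a then mu g else 0 := by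
    intro a _
    rw [tr, Finset.sum_filter]
  rw [Finset.sum_congr rfl h1, Finset.sum_comm, sum_LTM]
  have h2 : ∀ j ∈ range (h / 2 + 1), ∑ g ∈ Mon K j, ∑ a ∈ PL K h, (if g ^ 2 ∣ F + a then mu g else 0) =
      mm K j * (Fintype.card K : ℤ) ^ (h - 2 * j) := by
    intro j hj
    rw [mem_range] at hj
    rw [mm, Finset.sum_mul]
    refine Finset.sum_congr rfl fun g hg => ?_
    rw [mem_Mon] at hg
    have hd : (g ^ 2).natDegree = 2 * j := by rw [hg.1.natDegree_pow, hg.2]
    rw [← Finset.sum_filter, Finset.sum_const, card_cong (hg.1.pow 2) (by omega), hd]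
    simp [mul_comm]
  rw [Finset.sum_congr rfl h2]
  have h3 : range (h / 2 + 1) = insert 0 (insert 1 ((range (h / 2 + 1)).filter (fun j => 2 ≤ j))) := by
    ext j
    simp only [mem_range, mem_insert, mem_filter]
    omega
  rw [h3, Finset.sum_insert (by simp), Finset.sum_insert (by simp), mm_zero, mm_one,
    Finset.sum_eq_zero (by
      intro j hj
      rw [mem_filter] at hj
      rw [mm_of_two_le hj.2, zero_mul])]
  have h4 : (Fintype.card K : ℤ) * (Fintype.card K : ℤ) ^ (h - 2 * 1) = (Fintype.card K : ℤ) ^ (h - 1) := by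
    rw [← pow_succ']
    congr 1
    omega
  rw [mul_zero, Nat.sub_zero]
  linear_combination -h4

end
end P4f18dfF
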