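import Pool.Agent.Lib.P4f18dfF.Sqf

/-! The number of squarefree polynomials in short intervals around u^p + r. -/

namespace P4f18dfF
open Polynomial Finset UniqueFactorizationMonoid

section
variable {K : Type*} [Field K] [Fintype K]

lemma abs_mu_le (F : K[X]) : |mu F| ≤ 1 := by
  classical
  rw [mu]
  split_ifs
  · rw [abs_pow, abs_neg, abs_one, one_pow]
  · simp

open Classical in
lemma mu_sq (F : K[X]) : mu F ^ 2 = if Squarefree F then 1 else 0 := by
  rw [mu]
  split_ifs
  · rw [← pow_mul, mul_comm, pow_mul]; simp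
  · simp

open Classical in
/-- squarefree monic polynomials of degree in (n,d) -/
noncomputable def SG (K : Type*) [Field K] [Fintype K] (n d : ℕ) : Finset K[X] :=
  (LTM K d).filter (fun g => (n < g.natDegree ∧ g.natDegree < d) ∧ Squarefree g)

open Classical in
lemma abs_sub_tr_le (n : ℕ) {F : K[X]} (hF : F ≠ 0) :
    |mu F ^ 2 - tr n F| ≤ (((LTM K (max n F.natDegree)).filter
      (fun g => g ^ 2 ∣ F ∧ n < g.natDegree ∧ Squarefree g)).card : ℤ) := by
  set N := max n F.natDegree with hN
  have h1 : mu F ^ 2 = tr N F := by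
    rw [mu_sq]
    have := tr_eq (n := N) hF (le_max_right _ _)
    split_ifs with h
    · rw [this.1 h]
    · rw [this.2 h]
  have h2 : tr N F - tr n F = ∑ g ∈ (LTM K N).filter (fun g => g ^ 2 ∣ F ∧ n < g.natDegree ∧ Squarefree g), mu g := by
    have h3 : (LTM K n).filter (fun g => g ^ 2 ∣ F) ⊆ (LTM K N).filter (fun g => g ^ 2 ∣ F) := by
      intro g hg
      rw [mem_filter, mem_LTM] at hg ⊢
      exact ⟨⟨hg.1.1, hg.1.2.trans (le_max_left _ _)⟩, hg.2⟩
    rw [tr, tr, ← Finset.sum_sdiff h3, add_sub_cancel_right]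
    symm
    refine Finset.sum_subset ?_ ?_
    · intro g hg
      rw [mem_filter] at hg
      rw [mem_sdiff, mem_filter, mem_filter, mem_LTM (n := n)]
      exact ⟨⟨hg.1, hg.2.1⟩, fun h => by have := h.1.2; omega⟩
    · intro g hg hg'
      rw [mem_sdiff, mem_filter, mem_filter, mem_LTM (n := n)] at hg
      rw [mem_filter] at hg'
      have hm : g.Monic := (mem_LTM.1 hg.1.1).1
      have h4 : n < g.natDegree := by
        by_contra hc
        exact hg.2 ⟨⟨hm, by omega⟩, hg.1.2⟩
      have h5 : ¬ Squarefree g := fun h => hg' ⟨hg.1.1, hg.1.2, h4, h⟩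
      rw [mu, if_neg h5]
  rw [h1, h2]
  refine (Finset.abs_sum_le_sum_abs _ _).trans ?_
  refine (Finset.sum_le_sum fun g _ => abs_mu_le g).trans ?_
  simp

variable (p : ℕ) [Fact p.Prime] [CharP K p]

omit [Fintype K] in
lemma dvd_of_dvd_pow_sub {g u u' : K[X]} (hg : Squarefree g) {b : K[X]} (h : g ∣ u ^ p + b)
    (h' : g ∣ u' ^ p + b) : g ∣ u - u' := by
  have h1 : g ∣ (u - u') ^ p := by
    rw [sub_pow_char]
    have := dvd_sub h h'
    simpa using this
  exact (hg.dvd_pow_iff_dvd (Fact.out : p.Prime).ne_zero).1 h1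

open Classical in
/-- few u with g | u^p + b -/
lemma card_v_le {g : K[X]} (hg : g.Monic) (hs : Squarefree g) {m : ℕ} (hm : g.natDegree ≤ m) (b : K[X]) :
    ((PL K m).filter (fun v => g ∣ (X ^ m + v) ^ p + b)).card ≤ Fintype.card K ^ (m - g.natDegree) := by
  rcases ((PL K m).filter (fun v => g ∣ (X ^ m + v) ^ p + b)).eq_empty_or_nonempty with h | ⟨v₀, hv₀⟩
  · rw [h]; simp
  rw [mem_filter] at hv₀
  rw [← card_cong hg hm (-v₀)]
  refine Finset.card_le_card_of_injOn (fun v => v) ?_ (fun _ _ _ _ h => h)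
  intro v hv
  rw [Finset.mem_coe, mem_filter] at hv ⊢
  refine ⟨hv.1, ?_⟩
  have := dvd_of_dvd_pow_sub p hs hv.2 hv₀.2
  rw [show X ^ m + v - (X ^ m + v₀) = -v₀ + v by ring] at this
  exact this

open Classical in
/-- few b with g | b' -/
lemma card_b_mul_le {g : K[X]} (hg : g.Monic) (hs : Squarefree g) {d i : ℕ} (hi : i ≤ g.natDegree)
    (hd : p * i ≤ d) :
    ((PL K d).filter (fun b => g ∣ derivative b)).card * Fintype.card K ^ i ≤ Fintype.card K ^ d := by
  have hp := (Fact.out : p.Prime).two_le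
  rw [← card_PL (K := K) i, ← card_PL (K := K) d, ← card_product]
  refine Finset.card_le_card_of_injOn (fun x => x.1 + X * x.2 ^ p) ?_ ?_
  · rintro ⟨b, c⟩ hx
    rw [Finset.mem_coe, mem_product, mem_filter] at hx
    simp only at hx ⊢
    rw [Finset.mem_coe]
    refine add_mem_PL hx.1.1 ?_
    rw [mem_PL]
    rcases eq_or_ne c 0 with rfl | hc
    · rw [zero_pow (by omega), mul_zero]; simp [bot_lt_iff_ne_bot]
    · have h1 := mem_PL.1 hx.2
      rw [degree_eq_natDegree hc] at h1
      have h2 : c.natDegree < i := by exact_mod_cast h1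
      rw [degree_mul, degree_X, degree_pow, degree_eq_natDegree hc]
      have h3 : 1 + p * c.natDegree < d := by
        have : p * (c.natDegree + 1) ≤ p * i := Nat.mul_le_mul_left p h2
        rw [mul_add, mul_one] at this
        omega
      have h4 : (1 : WithBot ℕ) + p • ((c.natDegree : ℕ) : WithBot ℕ) = ((1 + p * c.natDegree : ℕ) : WithBot ℕ) := by
        push_cast
        rw [nsmul_eq_mul]
      rw [h4]
      exact_mod_cast h3
  · rintro ⟨b, c⟩ hx ⟨b', c'⟩ hx' h
    rw [Finset.mem_coe, mem_product, mem_filter] at hx hx'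
    simp only at hx hx' h
    have hder : ∀ b c : K[X], derivative (b + X * c ^ p) = derivative b + c ^ p := by
      intro b c
      rw [derivative_add, derivative_mul, derivative_pow, CharP.cast_eq_zero]
      simp
    have h1 := congrArg derivative h
    rw [hder, hder] at h1
    have h2 : g ∣ c ^ p - c' ^ p := by
      have h3 : c ^ p - c' ^ p = derivative b' - derivative b := by linear_combination h1
      rw [h3]
      exact dvd_sub hx'.1.2 hx.1.2
    rw [← sub_pow_char] at h2
    have h4 := (hs.dvd_pow_iff_dvd (by omega)).1 h2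
    have h5 : (c - c').degree < g.degree := by
      rw [degree_eq_natDegree hg.ne_zero]
      have : (c - c') ∈ PL K i := by rw [sub_eq_add_neg]; exact add_mem_PL hx.2 (neg_mem_PL hx'.2)
      exact (mem_PL.1 this).trans_le (by exact_mod_cast hi)
    have h6 := eq_zero_of_dvd_of_degree_lt h4 h5
    have h7 : c = c' := sub_eq_zero.1 h6
    subst h7
    have h8 : b = b' := add_right_cancel h
    rw [h8]

end
end P4f18dfF
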